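import Mathlib

/-!
# Abstract pigeonhole for short paths, linear in the number of low classes

`R a x y` : there is a path from `x` to `y` of cost at most `a`.  A vector space `V` over `ZMod 2`
acts on the states and preserves `R`.  `Y` : the possible targets.  `L` : the low states, at most `N0` orbits.
A shortest path of cost at least `g` to a target passes, with cost at most `g` from its start, through a state `u`
which has a path of cost `P` to a low state `l`, and `l` can do everything `u` can do with the additional cost `P`.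
-/

namespace Pool.Agent.helper14.NTN

variable {X V : Type*} [AddCommGroup V] [Module (ZMod 2) V] [AddAction V X]

/-- Axioms of the relation: there is a path of cost at most a. -/
structure CostRel (V : Type*) [AddCommGroup V] [AddAction V X] (R : ℕ → X → X → Prop) (Y : Set X) : Prop where
  refl : ∀ x, R 0 x x
  trans : ∀ {a b x y z}, R a x y → R b y z → R (a + b) x z
  cut : ∀ {a b x y}, R (a + b) x y → ∃ z, R a x z ∧ R b z y
  mono : ∀ {a b x y}, a ≤ b → R a x y → R b x y
  inv : ∀ {a x y} (v : V), R a x y → R a (v +ᵥ x) (v +ᵥ y)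
  invY : ∀ {y} (v : V), y ∈ Y → v +ᵥ y ∈ Y
  forget : ∀ z, ∃ z0 ∈ Y, R 0 z z0 ∧ ∀ b, ∀ y ∈ Y, R b z y → R (b + 1) z0 y

/-- The gap property (for shortest paths). -/
def Gap (R : ℕ → X → X → Prop) (Y L : Set X) (P g : ℕ) : Prop :=
  ∀ a x y, y ∈ Y → g ≤ a → R a x y → (∀ b, R b x y → a ≤ b) → ∃ u l a1 a2, l ∈ L ∧ a1 ≤ g ∧ a1 + a2 = a ∧
    R a1 x u ∧ R a2 u y ∧ R P u l ∧ ∀ b, ∀ y' ∈ Y, R b u y' → R (P + b) l y'

omit [Module (ZMod 2) V] in
lemma seq_points {R : ℕ → X → X → Prop} {Y : Set X} (hR : CostRel V R Y) {L : Set X} {P g K : ℕ}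
    (hg : Gap R Y L P g) :
    ∀ (N a : ℕ) (x y : X), y ∈ Y → N * (K + g) + g ≤ a → R a x y → (∀ b, R b x y → a ≤ b) →
      ∃ (u l : ℕ → X) (c : ℕ → ℕ), ∀ i ≤ N, l i ∈ L ∧ c i ≤ a ∧ R (c i) x (u i) ∧
        R (a - c i) (u i) y ∧ R P (u i) (l i) ∧ (∀ b, ∀ y' ∈ Y, R b (u i) y' → R (P + b) (l i) y') ∧
        ∀ j ≤ N, i < j → c i + K ≤ c j ∧ ∃ b, R b (u i) (u j) := by
  intro N
  induction N with
  | zero =>
      intro a x y hy ha h hmi
      obtain ⟨u, l, a1, a2, hl, h1, h2, h3, h4, h5, h6⟩ := hg a x y hy (by omega) h hmi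
      refine ⟨fun _ => u, fun _ => l, fun _ => a1, ?_⟩
      intro i hi
      refine ⟨hl, by show a1 ≤ a; omega, h3, ?_, h5, h6, ?_⟩
      · show R (a - a1) u y
        have : a - a1 = a2 := by omega
        rw [this]; exact h4
      · intro j hj hij; omega
  | succ N ih =>
      intro a x y hy ha h hmi
      have hmul : (N + 1) * (K + g) = N * (K + g) + (K + g) := by ring
      obtain ⟨u, l, a1, a2, hl, h1, h2, h3, h4, h5, h6⟩ := hg a x y hy (by omega) h hmi
      have hsplit : a2 = K + (a2 - K) := by omega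
      rw [hsplit] at h4
      obtain ⟨z, hz1, hz2⟩ := hR.cut h4
      obtain ⟨u', l', c', H⟩ := ih (a2 - K) z y hy (by omega) hz2 (fun b hb => by
        have := hmi _ (hR.trans (hR.trans h3 hz1) hb)
        omega)
      refine ⟨fun i => Nat.casesOn i u (fun k => u' k), fun i => Nat.casesOn i l (fun k => l' k),
        fun i => Nat.casesOn i a1 (fun k => a1 + K + c' k), ?_⟩
      intro i hi
      cases i with
      | zero =>
          refine ⟨hl, by show a1 ≤ a; omega, h3, ?_, h5, h6, ?_⟩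
          · show R (a - a1) u y
            have : a - a1 = K + (a2 - K) := by omega
            rw [this]; exact h4
          · intro j hj hij
            cases j with
            | zero => omega
            | succ j =>
                obtain ⟨-, -, H3, -⟩ := H j (by omega)
                refine ⟨by show a1 + K ≤ a1 + K + c' j; omega, K + c' j, ?_⟩
                exact hR.trans hz1 H3
      | succ i =>
          obtain ⟨H1, H2, H3, H4, H5, H6, H7⟩ := H i (by omega)
          refine ⟨H1, by show a1 + K + c' i ≤ a; omega, ?_, ?_, H5, H6, ?_⟩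
          · exact hR.trans (hR.trans h3 hz1) H3
          · show R (a - (a1 + K + c' i)) (u' i) y
            have : a - (a1 + K + c' i) = a2 - K - c' i := by omega
            rw [this]; exact H4
          · intro j hj hij
            cases j with
            | zero => omega
            | succ j =>
                obtain ⟨H8, H9⟩ := H7 j (by omega) (by omega)
                exact ⟨by show a1 + K + c' i + K ≤ a1 + K + c' j; omega, H9⟩

lemma zmod2_cases (c : ZMod 2) : c = 0 ∨ c = 1 := by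
  revert c; decide

lemma v_add_self (v : V) : v + v = 0 := by
  have : (2 : ZMod 2) • v = 0 := by
    have h2 : (2 : ZMod 2) = 0 := by decide
    rw [h2, zero_smul]
  rwa [two_smul] at this

/-- reachability. -/
def Rc (R : ℕ → X → X → Prop) (x y : X) : Prop := ∃ a, R a x y

section rc
variable {R : ℕ → X → X → Prop} {Y : Set X}

omit [Module (ZMod 2) V] in
lemma Rc.trans (hR : CostRel V R Y) {x y z : X} (h1 : Rc R x y) (h2 : Rc R y z) : Rc R x z := by
  obtain ⟨a, ha⟩ := h1
  obtain ⟨b, hb⟩ := h2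
  exact ⟨_, hR.trans ha hb⟩

omit [Module (ZMod 2) V] in
lemma Rc.inv (hR : CostRel V R Y) {x y : X} (v : V) (h : Rc R x y) : Rc R (v +ᵥ x) (v +ᵥ y) := by
  obtain ⟨a, ha⟩ := h
  exact ⟨_, hR.inv v ha⟩

lemma Rc.back (hR : CostRel V R Y) {x : X} {v : V} (h : Rc R x (v +ᵥ x)) : Rc R (v +ᵥ x) x := by
  have := h.inv hR v
  rwa [← add_vadd, v_add_self, zero_vadd] at this

end rc

lemma loop_sum {R : ℕ → X → X → Prop} {Y : Set X} (hR : CostRel V R Y) {Q : ℕ} {s : X} (c : V → ZMod 2)
    (t : Finset V) (ht : ∀ v ∈ t, R Q s (v +ᵥ s)) :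
    R (t.card * Q) s ((∑ v ∈ t, c v • v) +ᵥ s) := by
  classical
  induction t using Finset.induction_on with
  | empty => simpa using hR.refl s
  | insert v t hv ih =>
      have ih' := ih (fun w hw => ht w (Finset.mem_insert_of_mem hw))
      rw [Finset.sum_insert hv, Finset.card_insert_of_notMem hv]
      rcases zmod2_cases (c v) with h | h
      · rw [h, zero_smul, zero_add]
        exact hR.mono (by nlinarith) ih'
      · rw [h, one_smul, add_vadd]
        have h1 := ht v (Finset.mem_insert_self v t)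
        have h2 := hR.inv v ih'
        have h3 := hR.trans h1 h2
        exact hR.mono (by ring_nf; omega) h3

section
variable [FiniteDimensional (ZMod 2) V]

/-- the classes of the low states in the strongly connected component of `s`. -/
def KC (R : ℕ → X → X → Prop) (L : Set X) {N0 : ℕ} (f : X → Fin N0) (s : X) : Set (Fin N0) :=
  {k | ∃ l ∈ L, f l = k ∧ Rc R s l ∧ Rc R l s}

omit [FiniteDimensional (ZMod 2) V] in
/-- two low points in the same class on a short path. -/
lemma repeat_class {R : ℕ → X → X → Prop} {Y : Set X} (hR : CostRel V R Y) {L : Set X} {P g N0 : ℕ}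
    (hg : Gap R Y L P g) (f : X → Fin N0)
    (hf : ∀ l ∈ L, ∀ l' ∈ L, f l = f l' → ∃ v : V, l' = v +ᵥ l) (S : Finset (Fin N0)) (φ : V →ₗ[ZMod 2] ZMod 2)
    {a : ℕ} {x y : X} (hy : y ∈ Y) (ha : 2 * S.card * (2 * P + 1 + g) + g ≤ a) (hr : R a x y) (hmin : ∀ b, R b x y → a ≤ b)
    (hS : ∀ l ∈ L, Rc R x l → Rc R l y → f l ∈ S) :
    ∃ (m : V) (b : ℕ), φ m = 0 ∧ b < a ∧ R b x (m +ᵥ y) := by
  classical
  obtain ⟨u, l, c, H⟩ := seq_points hR (K := 2 * P + 1) hg (2 * S.card) a x y hy ha hr hmin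
  have hl : ∀ i ≤ 2 * S.card, f (l i) ∈ S := by
    intro i hi
    obtain ⟨h1, h2, h3, h4, h5, h6, h7⟩ := H i hi
    exact hS _ h1 ⟨_, hR.trans h3 h5⟩ ⟨_, h6 _ y hy h4⟩
  have hrep : ∃ rep : Fin N0 → X, ∀ x ∈ L, ∃ v : V, x = v +ᵥ rep (f x) := by
    have : ∀ k : Fin N0, ∃ r : X, ∀ x ∈ L, f x = k → ∃ v : V, x = v +ᵥ r := by
      intro k
      by_cases hk : ∃ x ∈ L, f x = k
      · obtain ⟨r, hr, hrk⟩ := hk
        exact ⟨r, fun x hx hxk => hf r hr x hx (by rw [hrk, hxk])⟩
      · exact ⟨x, fun x hx hxk => absurd ⟨x, hx, hxk⟩ hk⟩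
    choose rep hrep using this
    exact ⟨rep, fun x hx => hrep (f x) x hx rfl⟩
  obtain ⟨rep, hrep⟩ := hrep
  have hv : ∀ i : Fin (2 * S.card + 1), ∃ v : V, l i = v +ᵥ rep (f (l i)) :=
    fun i => hrep _ (H i (by omega)).1
  choose v hv using hv
  obtain ⟨i, j, hij, he⟩ : ∃ i j : Fin (2 * S.card + 1), i ≠ j ∧ (f (l i), φ (v i)) = (f (l j), φ (v j)) := by
    by_contra hcon
    push Not at hcon
    have hinj : Set.InjOn (fun i : Fin (2 * S.card + 1) => (f (l i), φ (v i))) (Finset.univ : Finset (Fin (2 * S.card + 1))) := by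
      intro i _ j _ h
      by_contra hij
      exact hcon i j hij h
    have h1 := Finset.card_le_card_of_injOn (t := S ×ˢ (Finset.univ : Finset (ZMod 2)))
      (fun i : Fin (2 * S.card + 1) => (f (l i), φ (v i))) (fun i _ => by
        rw [Finset.mem_coe, Finset.mem_product]
        exact ⟨hl i (by omega), Finset.mem_univ _⟩) hinj
    rw [Finset.card_product, Finset.card_univ, Finset.card_univ, ZMod.card, Fintype.card_fin] at h1
    omega
  wlog hlt : i < j generalizing i j
  · exact this j i hij.symm he.symm (lt_of_le_of_ne (not_lt.mp hlt) hij.symm)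
  simp only [Prod.mk.injEq] at he
  obtain ⟨he1, he2⟩ := he
  set m : V := v j + v i with hm
  have hφm : φ m = 0 := by
    rw [hm, map_add, he2]
    rcases zmod2_cases (φ (v j)) with h | h <;> rw [h] <;> decide
  have hlj : l i = m +ᵥ l j := by
    rw [hv j, ← he1, hm, add_comm (v j) (v i), add_vadd, ← add_vadd (v j) (v j), v_add_self,
      zero_vadd]
    exact hv i
  obtain ⟨-, i2, i3, i4, i5, i6, i7⟩ := H i (by omega)
  obtain ⟨-, j2, j3, j4, j5, j6, -⟩ := H j (by omega)
  obtain ⟨hc, -⟩ := i7 j (by omega) hlt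
  have e1 : R (c i + P) x (m +ᵥ l j) := hlj ▸ hR.trans i3 i5
  have e2 : R (P + (a - c j)) (m +ᵥ l j) (m +ᵥ y) := hR.inv m (j6 _ y hy j4)
  exact ⟨m, _, hφm, by omega, hR.trans e1 e2⟩

/-- Loops: if `s` reaches `h + s` then `h` is a sum of short loops. -/
lemma loop_short {R : ℕ → X → X → Prop} {Y : Set X} (hR : CostRel V R Y) {L : Set X} {P g n N0 : ℕ}
    (hn : Module.finrank (ZMod 2) V ≤ n) (hg : Gap R Y L P g) (f : X → Fin N0)
    (hf : ∀ l ∈ L, ∀ l' ∈ L, f l = f l' → ∃ v : V, l' = v +ᵥ l)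
    (s : X) (hsY : s ∈ Y) (S : Finset (Fin N0)) (hS : KC R L f s ⊆ S) (h : V) (hs : Rc R s (h +ᵥ s)) :
    R (n * (2 * S.card * (2 * P + 1 + g) + g)) s (h +ᵥ s) := by
  classical
  set Q := 2 * S.card * (2 * P + 1 + g) + g with hQ
  set T : Set V := {v | R Q s (v +ᵥ s)} with hT
  have hspan : h ∈ Submodule.span (ZMod 2) T := by
    by_contra hcon
    obtain ⟨φ, hφ1, hφ2⟩ : ∃ φ : V →ₗ[ZMod 2] ZMod 2, φ h ≠ 0 ∧
        ∀ v ∈ Submodule.span (ZMod 2) T, φ v = 0 := by
      obtain ⟨φ, h1, h2⟩ := Submodule.exists_le_ker_of_notMem hcon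
      exact ⟨φ, h1, fun v hv => h2 hv⟩
    have hex : ∃ a, ∃ v : V, φ v ≠ 0 ∧ R a s (v +ᵥ s) := by
      obtain ⟨a, ha⟩ := hs
      exact ⟨a, h, hφ1, ha⟩
    obtain ⟨v0, hv0, hr0⟩ := Nat.find_spec hex
    have hmin : ∀ b, (∃ v : V, φ v ≠ 0 ∧ R b s (v +ᵥ s)) → Nat.find hex ≤ b :=
      fun b hb => Nat.find_min' hex hb
    set a := Nat.find hex with ha
    rcases Nat.lt_or_ge a Q with hlt | hge
    · apply hv0
      apply hφ2
      exact Submodule.subset_span (hR.mono hlt.le hr0)
    · obtain ⟨m, b, hm, hb, hr⟩ := repeat_class hR hg f hf S φ (hR.invY v0 hsY) hge hr0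
        (fun b hb => hmin b ⟨v0, hv0, hb⟩) (by
          intro l hl h1 h2
          apply hS
          refine ⟨l, hl, rfl, h1, h2.trans hR ?_⟩
          exact Rc.back hR ⟨a, hr0⟩)
      rw [← add_vadd] at hr
      have := hmin _ ⟨m + v0, by rw [map_add, hm, zero_add]; exact hv0, hr⟩
      omega
  obtain ⟨b, hbS, hbs, hbl⟩ := exists_linearIndependent (ZMod 2) T
  rw [← hbs] at hspan
  have : Finite b := hbl.finite
  have : Fintype b := Fintype.ofFinite b
  have hcard : Fintype.card b ≤ n := hbl.fintype_card_le_finrank.trans hn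
  have hb' : b = ((b.toFinset : Finset V) : Set V) := by simp
  rw [hb', Submodule.mem_span_finset] at hspan
  obtain ⟨c, -, hc⟩ := hspan
  have h1 := loop_sum hR c b.toFinset (Q := Q) (s := s) (fun w hw => hbS (Set.mem_toFinset.mp hw))
  rw [hc] at h1
  refine hR.mono ?_ h1
  rw [Set.toFinset_card]
  exact Nat.mul_le_mul_right Q hcard

/-- the bound inside a strongly connected component. -/
def SB (n P g j : ℕ) : ℕ := (2 * j * (2 * P + 1 + g) + g) + n * (2 * j * (2 * P + 1 + g) + g)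

lemma scc_bound {R : ℕ → X → X → Prop} {Y : Set X} (hR : CostRel V R Y) {L : Set X} {P g n N0 : ℕ}
    (hn : Module.finrank (ZMod 2) V ≤ n) (hg : Gap R Y L P g) (f : X → Fin N0)
    (hf : ∀ l ∈ L, ∀ l' ∈ L, f l = f l' → ∃ v : V, l' = v +ᵥ l)
    (s z : X) (hz : z ∈ Y) (S : Finset (Fin N0)) (hS : KC R L f s ⊆ S) (h1 : Rc R s z) (h2 : Rc R z s) :
    R (SB n P g S.card) s z := by
  classical
  have hex : ∃ a, ∃ v : V, R a s (v +ᵥ z) := by
    obtain ⟨a, ha⟩ := h1
    exact ⟨a, 0, by rwa [zero_vadd]⟩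
  obtain ⟨v0, hr0⟩ := Nat.find_spec hex
  have hmin : ∀ b, (∃ v : V, R b s (v +ᵥ z)) → Nat.find hex ≤ b := fun b hb => Nat.find_min' hex hb
  set a := Nat.find hex with ha
  -- `v0 + z` is in the component
  have q1 : Rc R s (v0 +ᵥ s) := Rc.trans hR ⟨a, hr0⟩ (h2.inv hR v0)
  have q2 : Rc R (v0 +ᵥ z) s := (h2.inv hR v0).trans hR (Rc.back hR q1)
  have hlt : a ≤ 2 * S.card * (2 * P + 1 + g) + g := by
    by_contra hcon
    push Not at hcon
    obtain ⟨m, b, hm, hb, hr⟩ := repeat_class hR hg f hf S 0 (hR.invY v0 hz) hcon.le hr0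
      (fun b hb => hmin b ⟨v0, hb⟩) (by
        intro l hl h3 h4
        exact hS ⟨l, hl, rfl, h3, h4.trans hR q2⟩)
    rw [← add_vadd] at hr
    have := hmin _ ⟨m + v0, hr⟩
    omega
  have q3 : Rc R (v0 +ᵥ z) (v0 +ᵥ (v0 +ᵥ z)) := by
    rw [← add_vadd, v_add_self, zero_vadd]
    exact q2.trans hR h1
  have hS' : KC R L f (v0 +ᵥ z) ⊆ S := by
    rintro k ⟨l, hl, h3, h4, h5⟩
    exact hS ⟨l, hl, h3, Rc.trans hR ⟨a, hr0⟩ h4, h5.trans hR q2⟩
  have q4 := loop_short hR hn hg f hf (v0 +ᵥ z) (hR.invY v0 hz) S hS' v0 q3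
  rw [← add_vadd, v_add_self, zero_vadd] at q4
  exact hR.mono (by unfold SB; omega) (hR.trans hr0 q4)

/-- the number for one component. -/
def GG (n P g : ℕ) : ℕ := (g + P + 2) + (n + 1) * (2 * (2 * P + 1 + g) + g)

lemma main_ind {R : ℕ → X → X → Prop} {Y : Set X} (hR : CostRel V R Y) {L : Set X} (hLY : L ⊆ Y) {P g n N0 : ℕ}
    (hn : Module.finrank (ZMod 2) V ≤ n) (hg : Gap R Y L P g) (f : X → Fin N0)
    (hf : ∀ l ∈ L, ∀ l' ∈ L, f l = f l' → ∃ v : V, l' = v +ᵥ l) (y : X) (hy : y ∈ Y) :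
    ∀ (k : ℕ) (S : Finset (Fin N0)), S.card ≤ k → ∀ x : X, (∀ l ∈ L, Rc R x l → Rc R l y → f l ∈ S) → Rc R x y →
      R (g + k * GG n P g) x y := by
  classical
  intro k
  induction k using Nat.strong_induction_on with
  | _ k ih =>
    intro S hSk x hS hxy
    have hmin : ∀ b, R b x y → Nat.find hxy ≤ b := fun b hb => Nat.find_min' hxy hb
    have hr := Nat.find_spec hxy
    set a := Nat.find hxy with ha
    rcases Nat.lt_or_ge a g with hlt | hge
    · exact hR.mono (by omega) hr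
    · obtain ⟨u, l, a1, a2, hl, h1, h2, h3, h4, h5, h6⟩ := hg a x y hy hge hr hmin
      have hxl : Rc R x l := ⟨_, hR.trans h3 h5⟩
      have hly : Rc R l y := ⟨_, h6 _ y hy h4⟩
      -- the component of `l`
      let S1 : Finset (Fin N0) := S.filter (fun k => k ∈ KC R L f l)
      have hS1 : KC R L f l ⊆ S1 := by
        rintro k ⟨l', h7, h8, h9, h10⟩
        rw [Finset.coe_filter]
        refine ⟨?_, ⟨l', h7, h8, h9, h10⟩⟩
        rw [← h8]
        exact hS l' h7 (hxl.trans hR h9) (h10.trans hR hly)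
      have hfl : f l ∈ S1 := hS1 ⟨l, hl, rfl, ⟨0, hR.refl _⟩, ⟨0, hR.refl _⟩⟩
      have hpos : 1 ≤ S1.card := Finset.card_pos.2 ⟨_, hfl⟩
      have hk1 : S1.card ≤ k := (Finset.card_le_card (Finset.filter_subset _ _)).trans hSk
      -- the last point
      have hex : ∃ b, ∃ z, Rc R l z ∧ Rc R z l ∧ R b z y := by
        obtain ⟨b, hb⟩ := hly
        exact ⟨b, l, ⟨0, hR.refl _⟩, ⟨0, hR.refl _⟩, hb⟩
      obtain ⟨z, hz1, hz2, hz3⟩ := Nat.find_spec hex
      have hbmin : ∀ b', (∃ z, Rc R l z ∧ Rc R z l ∧ R b' z y) → Nat.find hex ≤ b' := fun b' hb => Nat.find_min' hex hb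
      set b := Nat.find hex with hb
      obtain ⟨z0, hz0Y, hz4, hz5⟩ := hR.forget z
      have hz6 : Rc R l z0 := hz1.trans hR ⟨0, hz4⟩
      have hz7 : Rc R z0 l := by
        obtain ⟨c, hc⟩ := hz2
        exact ⟨_, hz5 _ l (hLY hl) hc⟩
      have hscc := scc_bound hR hn hg f hf l z0 hz0Y S1 hS1 hz6 hz7
      have hcost : SB n P g S1.card ≤ S1.card * ((n + 1) * (2 * (2 * P + 1 + g) + g)) := by
        unfold SB
        have e1 : 2 * S1.card * (2 * P + 1 + g) + g ≤ S1.card * (2 * (2 * P + 1 + g) + g) := by nlinarith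
        calc (2 * S1.card * (2 * P + 1 + g) + g) + n * (2 * S1.card * (2 * P + 1 + g) + g)
            = (n + 1) * (2 * S1.card * (2 * P + 1 + g) + g) := by ring
          _ ≤ (n + 1) * (S1.card * (2 * (2 * P + 1 + g) + g)) := Nat.mul_le_mul_left _ e1
          _ = _ := by ring
      have hxz : R (g + P + SB n P g S1.card) x z0 := hR.mono (by omega) (hR.trans (hR.trans h3 h5) hscc)
      rcases Nat.eq_zero_or_pos b with hb0 | hb0
      · -- `z` is at `y`
        rw [hb0] at hz3
        have e1 := hR.trans hxz (hz5 0 y hy hz3)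
        refine hR.mono ?_ e1
        have e2 : S1.card * GG n P g ≤ k * GG n P g := Nat.mul_le_mul_right _ hk1
        have e3 : S1.card * GG n P g = S1.card * (g + P + 2) + S1.card * ((n + 1) * (2 * (2 * P + 1 + g) + g)) := by
          unfold GG; ring
        have e4 : g + P + 2 ≤ S1.card * (g + P + 2) := Nat.le_mul_of_pos_left _ hpos
        omega
      · obtain ⟨b', hb'⟩ : ∃ b', b = 1 + b' := ⟨b - 1, by omega⟩
        rw [hb'] at hz3
        obtain ⟨z', hz8, hz9⟩ := hR.cut hz3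
        obtain ⟨z1, hz1Y, hz10, hz11⟩ := hR.forget z'
        have hzz : R 2 z0 z1 := hR.mono (by omega) (hz5 _ z1 hz1Y (hR.trans hz8 hz10))
        have hz'C : ¬ Rc R z' l := by
          intro h7
          have := hbmin b' ⟨z', hz1.trans hR ⟨_, hz8⟩, h7, hz9⟩
          omega
        have hz1C : ¬ Rc R z1 l := fun h7 => hz'C (Rc.trans hR ⟨0, hz10⟩ h7)
        have hz1y : Rc R z1 y := ⟨_, hz11 _ y hy hz9⟩
        have hlz1 : Rc R l z1 := hz6.trans hR ⟨_, hzz⟩
        have hS2 : ∀ l' ∈ L, Rc R z1 l' → Rc R l' y → f l' ∈ S \ S1 := by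
          intro l' hl' h7 h8
          rw [Finset.mem_sdiff]
          refine ⟨hS l' hl' ((hxl.trans hR hlz1).trans hR h7) h8, ?_⟩
          intro h9
          obtain ⟨-, l'', h10, h11, h12, h13⟩ := Finset.mem_filter.1 h9
          obtain ⟨v, hv⟩ := hf l'' h10 l' hl' h11
          -- `z1 → v + l''`
          rw [hv] at h7
          have h14 : Rc R l'' (v +ᵥ l'') := (h13.trans hR hlz1).trans hR h7
          exact hz1C ((h7.trans hR (Rc.back hR h14)).trans hR h13)
        have hcard2 : (S \ S1).card ≤ k - S1.card := by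
          have h20 := Finset.card_sdiff_of_subset (show S1 ⊆ S from Finset.filter_subset _ _)
          omega
        have h7 := ih (k - S1.card) (by omega) (S \ S1) hcard2 z1 hS2 hz1y
        have e1 := hR.trans (hR.trans hxz hzz) h7
        refine hR.mono ?_ e1
        have e3 : k * GG n P g = S1.card * GG n P g + (k - S1.card) * GG n P g := by
          rw [← Nat.add_mul]; congr 1; omega
        have e4 : S1.card * GG n P g = S1.card * (g + P + 2) + S1.card * ((n + 1) * (2 * (2 * P + 1 + g) + g)) := by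
          unfold GG; ring
        have e5 : g + P + 2 ≤ S1.card * (g + P + 2) := Nat.le_mul_of_pos_left _ hpos
        omega

/-- **The abstract theorem.** -/
theorem abstract_bound {R : ℕ → X → X → Prop} {Y : Set X} (hR : CostRel V R Y) {L : Set X} (hLY : L ⊆ Y) {P g n N0 : ℕ}
    (hn : Module.finrank (ZMod 2) V ≤ n) (hg : Gap R Y L P g) (f : X → Fin N0)
    (hf : ∀ l ∈ L, ∀ l' ∈ L, f l = f l' → ∃ v : V, l' = v +ᵥ l)
    (x y : X) (hy : y ∈ Y) (hxy : ∃ a, R a x y) :
    R (g + N0 * ((g + P + 2) + (n + 1) * (2 * (2 * P + 1 + g) + g))) x y := by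
  have := main_ind hR hLY hn hg f hf y hy N0 Finset.univ (by simp) x (fun _ _ _ _ => Finset.mem_univ _) hxy
  exact this

end

end Pool.Agent.helper14.NTN
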