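import Pool.Agent.helper14.NTN.Defs
import Pool.Agent.helper14.NTN.Abstract
import Pool.Agent.helper14.NTA.Act

/-!
# MP_c8d30a: the bound by representatives in the run model, linear in the number of representatives
-/

set_option autoImplicit false

namespace NTH

open Equiv

variable {Ω : Type} {p : Ω → Ω}

theorem Tr.rel {g : Ω → Ω} (hg : ∀ t, g (p t) = p (g t)) {x : Ω} {s t : St Ω} (h : Tr p x s t) : Tr p (g x) (rel g s) (rel g t) := by
  have key : ∀ {s t : St Ω}, TrL p x s t → TrL p (g x) (NTH.rel g s) (NTH.rel g t) := by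
    intro s t h
    cases h with
    | mk y A B V =>
      have := TrL.mk (p := p) (x := g x) (g y) (A.map g) (B.map g) (V.map g)
      simpa [NTH.rel, hg] using this
  rcases h with h | h
  · exact Or.inl (key h)
  · exact Or.inr (key h)

theorem Rw.rel {g : Ω → Ω} (hg : ∀ t, g (p t) = p (g t)) {a : ℕ} {x y : St Ω × Option Ω} (h : Rw p (N p) a x y) :
    Rw p (N p) a (NTH.rel g x.1, x.2.map g) (NTH.rel g y.1, y.2.map g) := by
  induction h with
  | refl a s w h => exact .refl _ _ _ (h.rel hg)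
  | fgt hs _ ih => exact .fgt (hs.rel hg) ih
  | reg hs h _ ih => exact .reg (hs.rel hg) (h.rel hg) ih
  | old hs h _ ih => exact .old (hs.rel hg) (h.rel hg) ih
  | new hs h _ ih => exact .new (hs.rel hg) (h.rel hg) ih

section
variable [DecidableEq Ω]

theorem XS.reachRw {h : ∀ t, p (p t) = t} {s₀ : St Ω} {a : ℕ} {x y : St Ω × Option Ω} (hr : Rw p (N p) a x y) (hx : XS p h s₀ x.1) :
    XS p h s₀ y.1 := by
  have step : ∀ {c : ℕ} {s t : St Ω}, XS p h s₀ s → Sp p c s t → N p t → XS p h s₀ t := by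
    intro c s t hx hs ht
    have h1 := hs.last ht.ne1 ht.ne2
    exact ⟨hx.wf.of_perm hs.perm, hx.irr.step hx.wf hs, ht, hs.perm.symm.trans hx.perm,
      (mu_step h hx.wf hs ht.ne1 ht.ne2).trans hx.mu, h1.1.trans hx.l1, h1.2.trans hx.l2⟩
  induction hr with
  | refl a s w _ => exact hx
  | fgt _ _ ih => exact ih hx
  | reg _ hs ht ih => exact ih (step hx hs ht.left)
  | old _ hs ht ih => exact ih (step hx hs.sp ht.left)
  | new _ hs ht ih => exact ih (step hx hs.sp ht.left)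

/-- the bound. -/
def BRn (N0 P m : ℕ) : ℕ := (m * m + 1) + N0 * (((m * m + 1) + (P + 1) + 2) + (m + 1) * (2 * (2 * (P + 1) + 1 + (m * m + 1)) + (m * m + 1)))

theorem REPSn [Fintype Ω] {h : ∀ t, p (p t) = t} {s₀ : St Ω} (hx₀ : XS p h s₀ s₀) (hall : ∀ t, t ∈ s₀.1 ++ s₀.2) {N0 P : ℕ} (hN0 : 0 < N0) (rep : Fin N0 → St Ω)
    (hrep : ∀ x, XS p h s₀ x → ¬ PFs p x → ∃ (k : Fin N0) (φ : Ω → ZMod 2), φ ∈ VS p h s₀ ∧ XS p h s₀ (rep k) ∧
      RTn p P x (rel (act (h := h) hx₀.wf φ) (rep k))) {a : ℕ} {t : St Ω} (hr : Reach p a s₀ t) :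
    Rn p (N p) (BRn N0 P (s₀.1 ++ s₀.2).length) s₀ t := by
  classical
  set m := (s₀.1 ++ s₀.2).length with hm
  have hcard : Fintype.card Ω = m := by
    rw [hm, ← List.toFinset_card_of_nodup hx₀.wf.nd, ← Finset.card_univ]
    congr 1
    ext t
    simpa using hall t
  let X := {s : St Ω // XS p h s₀ s} × Option Ω
  let _ : AddAction (VS p h s₀) X :=
    { vadd := fun φ s => (⟨rel (act (h := h) hx₀.wf φ.1) s.1.1, s.1.2.act hx₀.wf hall φ.2⟩, s.2.map (act (h := h) hx₀.wf φ.1))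
      zero_vadd := fun s => Prod.ext (Subtype.ext (rel_id _ (fun t => act_zero hx₀.wf t) _)) (by
        show s.2.map (act (h := h) hx₀.wf 0) = s.2
        have : act (h := h) hx₀.wf (0 : Ω → ZMod 2) = id := funext fun t => act_zero hx₀.wf t
        rw [this, Option.map_id, id])
      add_vadd := fun φ ψ s => Prod.ext (Subtype.ext (by
        show rel (act (h := h) hx₀.wf (φ.1 + ψ.1)) s.1.1 = rel (act (h := h) hx₀.wf φ.1) (rel (act (h := h) hx₀.wf ψ.1) s.1.1)
        rw [rel_rel]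
        congr 1
        funext t
        exact act_add hx₀.wf φ.2 t)) (by
        show s.2.map (act (h := h) hx₀.wf (φ.1 + ψ.1)) = (s.2.map (act (h := h) hx₀.wf ψ.1)).map (act (h := h) hx₀.wf φ.1)
        rw [Option.map_map]
        congr 1
        funext t
        exact act_add hx₀.wf φ.2 t) }
  have hvadd : ∀ (φ : VS p h s₀) (s : X), (φ +ᵥ s).1.1 = rel (act (h := h) hx₀.wf φ.1) s.1.1 := fun _ _ => rfl
  have hvadd2 : ∀ (φ : VS p h s₀) (s : X), (φ +ᵥ s).2 = s.2.map (act (h := h) hx₀.wf φ.1) := fun _ _ => rfl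
  let R : ℕ → X → X → Prop := fun a x y => Rw p (N p) a (x.1.1, x.2) (y.1.1, y.2)
  let Y : Set X := {x | x.2 = none}
  have hR : Pool.Agent.helper14.NTN.CostRel (VS p h s₀) R Y :=
    { refl := fun x => .refl _ _ _ x.1.2.n
      trans := fun h1 h2 => h1.trans h2
      cut := fun {a b x y} h1 => by
        obtain ⟨z, h2, h3⟩ := Rw.cut h1 a b rfl
        exact ⟨(⟨z.1, XS.reachRw h2 x.1.2⟩, z.2), h2, h3⟩
      mono := fun h1 h2 => h2.mono h1
      inv := fun v h1 => h1.rel (act_p hx₀.wf v.2)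
      invY := fun v hy => by
        have hy' := hy
        simp only [Y, Set.mem_setOf_eq] at hy' ⊢
        rw [hvadd2, hy']
        rfl
      forget := fun z => ⟨(z.1, none), rfl, .fgt z.1.2.n (.refl _ _ _ z.1.2.n), fun b y hy h1 => h1.forget none hy⟩ }
  -- the representatives
  let L : Set X := {x | x.2 = none ∧ ∃ (k : Fin N0) (φ : Ω → ZMod 2), φ ∈ VS p h s₀ ∧ XS p h s₀ (rep k) ∧ x.1.1 = rel (act (h := h) hx₀.wf φ) (rep k)}
  have hLY : L ⊆ Y := fun x hx => hx.1
  let f : X → Fin N0 := fun x => if hx : x ∈ L then hx.2.choose else ⟨0, hN0⟩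
  have hf : ∀ l ∈ L, ∀ l' ∈ L, f l = f l' → ∃ v : VS p h s₀, l' = v +ᵥ l := by
    intro l hl l' hl' hff
    have e1 : f l = hl.2.choose := dif_pos hl
    have e2 : f l' = hl'.2.choose := dif_pos hl'
    obtain ⟨φ, h1, h2, h3⟩ := hl.2.choose_spec
    obtain ⟨ψ, h4, h5, h6⟩ := hl'.2.choose_spec
    rw [← e1] at h3 h2
    rw [← e2, ← hff] at h6
    let r : X := (⟨rep (f l), h2⟩, none)
    have g1 : l = (⟨φ, h1⟩ : VS p h s₀) +ᵥ r := Prod.ext (Subtype.ext h3) hl.1
    have g2 : l' = (⟨ψ, h4⟩ : VS p h s₀) +ᵥ r := Prod.ext (Subtype.ext h6) hl'.1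
    refine ⟨⟨ψ, h4⟩ - ⟨φ, h1⟩, ?_⟩
    rw [g1, g2, ← add_vadd, sub_add_cancel]
  have hgap : Pool.Agent.helper14.NTN.Gap R Y L (P + 1) (m * m + 1) := by
    intro a x y hy ha hr hmin
    have hlen : (x.1.1.1 ++ x.1.1.2).length = m := x.1.2.perm.length_eq
    rcases Rw.first (B := fun s => ¬ PFs p s) hr with ⟨c, h1⟩ | ⟨u, a1, a2, h1, h2, h3, h4, h5⟩
    · exfalso
      have h2 := PF x.1.2.wf (h1.mono (Q' := PFs p) (fun s hs => not_not.1 hs.2))
      rw [hlen] at h2
      have h3 : Rn p (N p) c x.1.1 y.1.1 := (h1.mono (Q' := N p) (fun s hs => hs.1)).toRn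
      have h4 : R c x y := by
        have := h3.toRw x.2
        show Rw p (N p) c (x.1.1, x.2) (y.1.1, y.2)
        rw [show y.2 = none from hy]
        exact this
      have := hmin _ h4
      omega
    · have hv : XS p h s₀ u.1 := XS.reachRw h3 x.1.2
      obtain ⟨k, φ, h6, h7, h8, h9⟩ := hrep u.1 hv h1
      refine ⟨(⟨u.1, hv⟩, u.2), (⟨rel (act (h := h) hx₀.wf φ) (rep k), h7.act hx₀.wf hall h6⟩, none), a1, a2, ⟨rfl, k, φ, h6, h7, rfl⟩,
        ?_, h2, h3, h4, (h8.toRw _).mono (Nat.le_succ _), ?_⟩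
      · rcases h5 with h5 | ⟨v, c, h10, h11⟩
        · omega
        · have h12 := PF x.1.2.wf (h10.mono (Q' := PFs p) (fun s hs => not_not.1 hs.2))
          rw [hlen] at h12
          have h13 := ((h10.mono (Q' := N p) (fun s hs => hs.1)).toRn).toRw x.2
          have h14 := (h13.trans (h11 none)).trans h4
          have h15 := hmin _ h14
          omega
      · intro b y' hy' hb
        have h10 := h9.toRw none
        have h11 : Rw p (N p) (b + 1) (u.1, none) (y'.1.1, y'.2) := Rw.forget hb none hy'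
        have h12 := h10.trans h11
        exact h12.mono (by omega)
  have hfin : Module.finrank (ZMod 2) (VS p h s₀) ≤ m := by
    have h1 := Submodule.finrank_le (VS p h s₀)
    rwa [Module.finrank_fintype_fun_eq_card, hcard] at h1
  have ht : XS p h s₀ t := hx₀.reach hr
  have hrr := hr.toRn.toRw none
  have := Pool.Agent.helper14.NTN.abstract_bound hR hLY hfin hgap f hf (⟨s₀, hx₀⟩, none) (⟨t, ht⟩, none) rfl ⟨a, hrr⟩
  exact Rw.toRn this

end

end NTH
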