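import Pool.Agent.helper14.NTN.Hub5
import Pool.Agent.helper51.NF2.NF3
import Pool.Agent.helper14.NTA.Act

/-!
# MP_c8d30a: the run reversed cores with few square roots
-/

set_option autoImplicit false

namespace Pool.Agent.helper36.WE

open Equiv Equiv.Perm List
open Pool.Agent.helper32.ATT (RR RRf RR_iff rot_filter)

variable {X : Type} [DecidableEq X]

/-- the number of letters with different successors. -/
def kk (a b : List X) : ℕ := (a.filter (fun s => decide (formPerm a s ≠ formPerm b s))).length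

theorem kk_eq {T : Finset X} {ρ : Perm X} {a b : List X} (h : St T ρ a b) : kk a b = (T.filter (fun t => ρ t ≠ t)).card := by
  unfold kk
  have h1 : ∀ s, (formPerm a s ≠ formPerm b s) ↔ ρ s ≠ s := by
    intro s
    rw [not_iff_not]
    rw [← h.rho, Perm.mul_apply, Perm.inv_eq_iff_eq]
  have h2 : (a.filter (fun s => decide (formPerm a s ≠ formPerm b s))).toFinset = T.filter (fun t => ρ t ≠ t) := by
    ext s
    rw [List.mem_toFinset, List.mem_filter, Finset.mem_filter, ← h.supp, List.mem_toFinset]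
    simp only [decide_eq_true_eq, h1]
  rw [← h2, List.toFinset_card_of_nodup (h.nodup.filter _)]

theorem kk_rot {a b a' b' : List X} (hna : a.Nodup) (hnb : b.Nodup) (ha : a ~r a') (hb : b ~r b') : kk a' b' = kk a b := by
  unfold kk
  rw [← formPerm_eq_of_isRotated hna ha, ← formPerm_eq_of_isRotated hnb hb]
  exact (rot_filter ha _).perm.length_eq.symm

theorem kk_map {g : Perm X} {a b : List X} : kk (a.map g) (b.map g) = kk a b := by
  unfold kk
  have h1 : ∀ (l : List X) (s : X), formPerm (l.map g) (g s) = g (formPerm l s) := by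
    intro l s
    rw [NTH.formPerm_rel]
    simp
  rw [List.filter_map, List.length_map]
  congr 1
  apply List.filter_congr
  intro s _
  simp only [Function.comp_apply]
  rw [h1, h1, decide_eq_decide, not_iff_not]
  exact g.injective.eq_iff

/-- a square root of `rho` which is one odd cycle is unique. -/
theorem revSet_odd {T : Finset X} {ρ : Perm X} (hT : Odd T.card) : (RevSet T ρ).Finite ∧ (RevSet T ρ).ncard ≤ 1 := by
  have key : ∀ σ ∈ RevSet T ρ, σ = ρ ^ ((T.card + 1) / 2) := by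
    rintro σ ⟨l, h1, h2, h3, h4⟩
    have h5 : σ ^ T.card = 1 := by
      rw [h3, ← h2, List.toFinset_card_of_nodup h1]
      exact formPerm_pow_length_eq_one_of_nodup l h1
    obtain ⟨j, hj⟩ := hT
    have h6 : (T.card + 1) / 2 = j + 1 := by omega
    rw [h6, ← h4]
    calc σ = σ ^ T.card * σ := by rw [h5, one_mul]
      _ = (σ * σ) ^ (j + 1) := by
        rw [hj, ← pow_two, ← pow_mul, ← pow_succ]
        congr 1
  have hsub : RevSet T ρ ⊆ {ρ ^ ((T.card + 1) / 2)} := fun σ hσ => key σ hσ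
  refine ⟨(Set.finite_singleton _).subset hsub, ?_⟩
  have := Set.ncard_le_ncard hsub (Set.finite_singleton _)
  rwa [Set.ncard_singleton] at this

/-- few forms for the reversed cores with `kk <= K0` or `kk` odd. -/
theorem NF6 (K0 m : ℕ) (T : Finset X) (ρ : Perm X) (hT : T.card = m) :
    ∃ N : Set (Perm X), N.Finite ∧ N.ncard ≤ K0 + 1 ∧ ∀ a b, St T ρ a b → RRf ρ a b → (kk a b ≤ K0 ∨ Odd (kk a b)) →
      ∃ n ≤ m * (m + 6), ∃ a' b', Walk CM n (a, b) (a', b') ∧ formPerm a' ∈ N := by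
  by_cases hk : (T.filter (fun t => ρ t ≠ t)).card ≤ K0 ∨ Odd (T.filter (fun t => ρ t ≠ t)).card
  · obtain ⟨F, hF⟩ := normal_form5 m T ρ hT
    have hfin : (RevSet (T.filter (fun t => ρ t ≠ t)) ρ).Finite ∧
        (RevSet (T.filter (fun t => ρ t ≠ t)) ρ).ncard ≤ K0 + 1 := by
      rcases hk with hk | hk
      · rcases (T.filter (fun t => ρ t ≠ t)).eq_empty_or_nonempty with h0 | ⟨x, hx⟩
        · rw [h0]
          have hsub : RevSet (∅ : Finset X) ρ ⊆ {1} := by
            rintro σ ⟨l, -, h1, h2, -⟩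
            have h3 : l = [] := (List.toFinset_eq_empty_iff l).1 h1
            rw [h2, h3]
            rfl
          refine ⟨(Set.finite_singleton _).subset hsub, ?_⟩
          have := Set.ncard_le_ncard hsub (Set.finite_singleton _)
          rw [Set.ncard_singleton] at this
          omega
        · obtain ⟨h1, h2⟩ := revSet_card (T.filter (fun t => ρ t ≠ t)) ρ hx
          exact ⟨h1, by omega⟩
      · obtain ⟨h1, h2⟩ := revSet_odd (ρ := ρ) hk
        exact ⟨h1, by omega⟩
    refine ⟨F '' RevSet (T.filter (fun t => ρ t ≠ t)) ρ, hfin.1.image _, (Set.ncard_image_le hfin.1).trans hfin.2, ?_⟩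
    intro a b hst hR _
    obtain ⟨n, hn, a', b', hw, he⟩ := hF a b hst hR
    exact ⟨n, hn, a', b', hw, ⟨_, core_revSet m T ρ a b hT hst hR, he.symm⟩⟩
  · refine ⟨∅, Set.finite_empty, by simp, ?_⟩
    intro a b hst _ h
    rw [kk_eq hst] at h
    exact absurd h hk

/-- not run reversed, or few square roots. -/
def Few (K0 : ℕ) (a b : List X) : Prop := ¬ RR a b ∨ kk a b ≤ K0 ∨ Odd (kk a b)

theorem NF7 (K0 m : ℕ) (T : Finset X) (ρ : Perm X) (hT : T.card = m) :
    ∃ N : Set (Perm X), N.Finite ∧ N.ncard ≤ K0 + 50 ∧ ∀ a b, St T ρ a b → Few K0 a b →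
      ∃ n ≤ m * (m + 6), ∃ a' b', Walk CM n (a, b) (a', b') ∧ formPerm a' ∈ N := by
  obtain ⟨N1, h1, h2, h3⟩ := normal_form4 m T ρ hT
  obtain ⟨N2, h4, h5, h6⟩ := NF6 K0 m T ρ hT
  refine ⟨N1 ∪ N2, h1.union h4, (Set.ncard_union_le _ _).trans (by omega), ?_⟩
  intro a b hst hF
  by_cases hR : RRf ρ a b
  · obtain ⟨n, hn, a', b', hw, he⟩ := h6 a b hst hR (hF.resolve_left (fun h => h ((RR_iff hst).2 hR)))
    exact ⟨n, hn, a', b', hw, Or.inr he⟩
  · obtain ⟨n, hn, a', b', hw, he⟩ := h3 a b hst hR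
    exact ⟨n, hn, a', b', hw, Or.inl he⟩

/-- at most `K0 + 50` normal forms. -/
theorem cls_hub7 (K0 : ℕ) (D : Finset X) (e q : X) (ρ : Perm X) :
    ∃ H : Set (List X × List X), H.Finite ∧ H.ncard ≤ K0 + 50 ∧
      ∀ A B : List X, Cls D e q ρ (e :: A) (B ++ [e]) → Few K0 A B → ∃ h ∈ H, ∃ n, Walk Sup n (e :: A, B ++ [e]) h := by
  set T := D.erase e with hT
  set ρ' := ρ * Equiv.swap e q with hρ'
  obtain ⟨N, hN, hNc, hNw⟩ := NF7 K0 T.card T ρ' rfl
  let Q : List X × List X → Perm X → Prop := fun v σ =>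
    ∃ A B, v = (e :: A, B ++ [e]) ∧ St T ρ' A B ∧
      ((A = [] ∧ B = []) ∨ (A.getLast? = some q ∧ B.getLast? = some q)) ∧ σ = formPerm A
  let H : Set (List X × List X) := {v | ∃ σ ∈ N, Q v σ}
  obtain ⟨hH, hHc⟩ := ncard_le_of_rel H N hN Q (fun v hv => hv) (by
    rintro v v' σ ⟨A, B, rfl, h1, h2, h3⟩ ⟨A', B', rfl, h1', h2', h3'⟩
    have hTe : ∀ (l : List X), l.toFinset = T → l = [] → T = ∅ := by
      rintro l h rfl; rw [← h]; rfl
    have hnil : ∀ (l : List X), l.toFinset = T → T = ∅ → l = [] := by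
      intro l h h'
      exact (List.toFinset_eq_empty_iff l).mp (h.trans h')
    have hTB : ∀ {A B}, St T ρ' A B → B.toFinset = T := by
      intro A B h
      rw [← h.supp]; exact (List.toFinset_eq_of_perm _ _ h.perm).symm
    rcases h2 with ⟨rfl, rfl⟩ | ⟨h4, h5⟩
    · have h6 := hTe _ h1.supp rfl
      rw [hnil A' h1'.supp h6, hnil B' (hTB h1') h6]
    · have hA' : A'.getLast? = some q := by
        rcases h2' with ⟨h6, -⟩ | ⟨h6, -⟩
        · have := hnil A h1.supp (hTe A' h1'.supp h6)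
          rw [this] at h4
          simp at h4
        · exact h6
      have hB' : B'.getLast? = some q := by
        rcases h2' with ⟨h6, -⟩ | ⟨-, h6⟩
        · have := hnil A h1.supp (hTe A' h1'.supp h6)
          rw [this] at h4
          simp at h4
        · exact h6
      have hAA : A = A' := eq_of_formPerm (h3.symm.trans h3') h1.nodup h1'.nodup h4 hA'
      have hBB : B = B' := by
        refine eq_of_formPerm ?_ h1.nodupB h1'.nodupB h5 hB'
        have e1 := h1.rho
        rw [← h1'.rho, hAA] at e1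
        exact inv_injective (mul_right_cancel e1)
      rw [hAA, hBB])
  refine ⟨H, hH, hHc.trans hNc, ?_⟩
  intro A B hc hRR
  obtain ⟨hst, hcase⟩ := hc.st
  obtain ⟨n2, hn2, a2, b2, hw2, hfin⟩ := hNw _ _ hst hRR
  have hst2 := hst.walk hw2
  rcases hcase with ⟨rfl, rfl⟩ | ⟨hqA, hqB⟩
  · have hTe : T = ∅ := by rw [hT, ← hst.supp]; rfl
    have ha2 : a2 = [] := (List.toFinset_eq_empty_iff a2).mp (hst2.supp.trans hTe)
    rw [ha2] at hfin
    exact ⟨([e], [] ++ [e]), ⟨_, hfin, [], [], rfl, hst, Or.inl ⟨rfl, rfl⟩, rfl⟩, 0, Walk.refl _ _⟩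
  · have hqa2 : q ∈ a2 := by
      rw [← List.mem_toFinset, hst2.supp, ← hst.supp, List.mem_toFinset]
      exact List.mem_of_getLast? hqA
    have hqb2 : q ∈ b2 := hst2.perm.subset hqa2
    obtain ⟨a3, ha3⟩ := exists_rot_last hqa2
    obtain ⟨b3', hb3⟩ := exists_rot_last hqb2
    have hw3 := lift_walk (e := e) n2 hw2 hst.nodup hqA ha3 hb3 List.getLast?_concat
    have hst3 : St T ρ' (a3 ++ [q]) (b3' ++ [q]) := hst2.rot ha3.symm hb3.symm
    refine ⟨(e :: (a3 ++ [q]), (b3' ++ [q]) ++ [e]), ⟨_, hfin, a3 ++ [q], b3' ++ [q], rfl,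
      hst3, Or.inr ⟨List.getLast?_concat, List.getLast?_concat⟩, ?_⟩, 5 * n2 + 1, hw3⟩
    exact (formPerm_eq_of_isRotated hst3.nodup ha3).symm

end Pool.Agent.helper36.WE
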