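import Pool.Agent.helper14.NTA.Act
import Pool.Agent.helper36.NA.Defs

/-!
# MP_c8d30a: the involution `NA.mu` of the pair `(A, B)` and `NTH.mu` of the state `(A ++ [p e], e :: B)`
-/

set_option autoImplicit false

namespace NTH

open Equiv

variable {Ω : Type} [DecidableEq Ω] {p : Ω → Ω}

/-- conjugation with the swap of `e` and the last token of the second word. -/
theorem NAmu_eq {h : ∀ t, p (p t) = t} {e ω : Ω} {A B : List Ω} (hw : WF p (A ++ [p e], e :: B)) (hA : A ≠ [])
    (hω : B.getLast? = some ω) (t : Ω) :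
    NA.mu p (A, B) t = (swap e ω * mu p h (A ++ [p e], e :: B) * swap e ω) t := by
  obtain ⟨x0, A', rfl⟩ := List.exists_cons_of_ne_nil hA
  have hB : B ≠ [] := by
    rintro rfl
    simp at hω
  obtain ⟨y1, B', rfl⟩ := List.exists_cons_of_ne_nil hB
  have hnd := List.nodup_append.1 hw.nd
  have hndU : ((x0 :: A') ++ [p e]).Nodup := hnd.1
  have hndV : (e :: y1 :: B').Nodup := hnd.2.1
  have hdj : ∀ t, t ∈ (x0 :: A') ++ [p e] → t ∉ e :: y1 :: B' := fun t h1 h2 => hnd.2.2 t h1 t h2 rfl
  have hndA : (x0 :: A').Nodup := (List.nodup_append.1 hndU).1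
  have hpeA : p e ∉ x0 :: A' := fun h1 => (List.nodup_append.1 hndU).2.2 _ h1 _ (List.mem_singleton_self _) rfl
  have heB : e ∉ y1 :: B' := (List.nodup_cons.1 hndV).1
  have hndB : (y1 :: B').Nodup := (List.nodup_cons.1 hndV).2
  have heA : e ∉ x0 :: A' := fun h1 => hdj e (List.mem_append_left _ h1) List.mem_cons_self
  have hyA : ∀ y ∈ y1 :: B', y ∉ x0 :: A' := fun y h1 h2 => hdj y (List.mem_append_left _ h2) (List.mem_cons_of_mem _ h1)
  have hωB : ω ∈ y1 :: B' := List.mem_of_getLast? hω
  set sc : Perm Ω := List.formPerm (x0 :: A') * List.formPerm (y1 :: B') with hsc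
  -- the words of the state
  have e1 : List.formPerm (x0 :: (A' ++ [p e])) = swap (p e) x0 * List.formPerm (x0 :: A') := by
    have h1 : (x0 :: (A' ++ [p e])) ~r (p e :: x0 :: A') := by
      have h2 : (x0 :: (A' ++ [p e])) = (x0 :: A') ++ [p e] := rfl
      have h3 : (p e :: x0 :: A') = [p e] ++ (x0 :: A') := rfl
      rw [h2, h3]
      exact List.isRotated_append
    have hndU' : (x0 :: (A' ++ [p e])).Nodup := hndU
    rw [List.formPerm_eq_of_isRotated hndU' h1, List.formPerm_cons_cons]
  have e2 : List.formPerm (e :: y1 :: B') = swap e y1 * List.formPerm (y1 :: B') := List.formPerm_cons_cons _ _ _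
  have e3 : List.formPerm (x0 :: A') * swap e y1 = swap e y1 * List.formPerm (x0 :: A') := by
    rw [mul_swap_eq_swap_mul, List.formPerm_apply_of_notMem heA, List.formPerm_apply_of_notMem (hyA _ List.mem_cons_self)]
  obtain ⟨Q, hQ⟩ : ∃ Q : Perm Ω, Q = swap e (p x0) * swap (p e) x0 := ⟨_, rfl⟩
  have hshQ : sh p (x0 :: A' ++ [p e], e :: y1 :: B') = Q * (swap e y1 * sc) := by
    show swap e (p x0) * (List.formPerm (x0 :: (A' ++ [p e])) * List.formPerm (e :: y1 :: B')) = _
    rw [e1, e2, hQ, hsc]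
    calc swap e (p x0) * (swap (p e) x0 * List.formPerm (x0 :: A') * (swap e y1 * List.formPerm (y1 :: B')))
        = swap e (p x0) * swap (p e) x0 * (List.formPerm (x0 :: A') * swap e y1) * List.formPerm (y1 :: B') := by
          simp only [mul_assoc]
      _ = swap e (p x0) * swap (p e) x0 * (swap e y1 * (List.formPerm (x0 :: A') * List.formPerm (y1 :: B'))) := by
          rw [e3]; simp only [mul_assoc]
  -- `Q` commutes with `p`
  have hx0e : x0 ≠ e := fun h1 => heA (h1 ▸ List.mem_cons_self)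
  have hx0pe : x0 ≠ p e := fun h1 => hpeA (h1 ▸ List.mem_cons_self)
  have hpx0 : p x0 ≠ e := fun h1 => hx0pe (by rw [← h1, h])
  have hpx0' : p x0 ≠ p e := fun h1 => hx0e (by
    have := congrArg p h1
    rwa [h, h] at this)
  have hpm : ∀ a b : Ω, pm p h * swap a b = swap (p a) (p b) * pm p h := by
    intro a b
    rw [mul_swap_eq_swap_mul, pm_apply, pm_apply]
  have hQp : pm p h * Q = Q * pm p h := by
    rw [hQ, ← mul_assoc, hpm, h, mul_assoc, hpm, h, ← mul_assoc]
    congr 1
    have h1 : swap (p e) x0 * swap e (p x0) = swap e (p x0) * swap (p e) x0 := by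
      rw [mul_swap_eq_swap_mul, swap_apply_of_ne_of_ne (fun h2 => hw.ne e h2.symm) hx0e.symm,
        swap_apply_of_ne_of_ne hpx0' (hw.ne x0)]
    exact h1
  have hmu : mu p h (x0 :: A' ++ [p e], e :: y1 :: B') = (swap e y1 * sc)⁻¹ * pm p h * (swap e y1 * sc) := by
    unfold mu
    rw [hshQ, mul_inv_rev]
    calc (swap e y1 * sc)⁻¹ * Q⁻¹ * pm p h * (Q * (swap e y1 * sc))
        = (swap e y1 * sc)⁻¹ * Q⁻¹ * (pm p h * Q) * (swap e y1 * sc) := by simp only [mul_assoc]
      _ = (swap e y1 * sc)⁻¹ * pm p h * (swap e y1 * sc) := by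
        rw [hQp]
        simp only [mul_assoc, inv_mul_cancel_left]
  have hsce : sc e = e := by
    rw [hsc, Perm.mul_apply, List.formPerm_apply_of_notMem heB, List.formPerm_apply_of_notMem heA]
  have hscω : sc ω = y1 := by
    rw [hsc, Perm.mul_apply]
    have h1 : List.formPerm (y1 :: B') ω = y1 := by
      have h2 : (y1 :: B').getLast (List.cons_ne_nil _ _) = ω := by
        have h3 := List.getLast?_eq_getLast_of_ne_nil (l := y1 :: B') (List.cons_ne_nil _ _)
        rw [h3] at hω
        exact Option.some.inj hω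
      rw [← h2]
      exact List.formPerm_apply_getLast y1 B'
    rw [h1, List.formPerm_apply_of_notMem (hyA _ List.mem_cons_self)]
  have hcomm : sc * swap e ω = swap e y1 * sc := by
    rw [mul_swap_eq_swap_mul, hsce, hscω]
  have hfin : swap e ω * mu p h (x0 :: A' ++ [p e], e :: y1 :: B') * swap e ω = sc⁻¹ * pm p h * sc := by
    rw [hmu, ← hcomm, mul_inv_rev, swap_inv]
    calc swap e ω * (swap e ω * sc⁻¹ * pm p h * (sc * swap e ω)) * swap e ω
        = (swap e ω * swap e ω) * (sc⁻¹ * pm p h * sc) * (swap e ω * swap e ω) := by simp only [mul_assoc]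
      _ = _ := by rw [swap_mul_self, one_mul, mul_one]
  rw [hfin]
  rfl

end NTH
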