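import Pool.Agent.helper14.NTN.CluB
import Pool.Agent.helper14.NTN.Hub6
import Pool.Agent.helper14.NTN.Tmu

/-!
# MP_c8d30a: the count for the relaxed target on the level of the pairs `(A, B)`, with canonical tokens

`Wr p q r K l`: the tokens `w x`, `x ∈ l`, `w` a word of length `≤ K` in `p`, `q`, `r`; `r x` = canonical token of the
`p`-`mu`-cycle of `x`.
-/

set_option autoImplicit false

namespace NTH

open Equiv
open Pool.Agent.helper36.WE (rho Cls Sup SupL Walk cls_hub5 cls_hub7 NF4_stmt Few)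
open Pool.Agent.helper32.ATT (RR)

section words
universe u
variable {α : Type u}

/-- the tokens `w x`, `x ∈ l`, `w` a word of length `≤ K` in `p`, `q` and `r`. -/
def Wr (p q r : α → α) : ℕ → List α → List α
  | 0, l => l
  | K + 1, l => Wr p q r K l ++ ((Wr p q r K l).map p ++ ((Wr p q r K l).map q ++ (Wr p q r K l).map r))

variable {p q r : α → α}

theorem length_Wr (K : ℕ) (l : List α) : (Wr p q r K l).length = 4 ^ K * l.length := by
  induction K with
  | zero => simp [Wr]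
  | succ K ih =>
    simp only [Wr, List.length_append, List.length_map, ih]
    ring

theorem mem_Wr_succ {K : ℕ} {l : List α} {x : α} : x ∈ Wr p q r (K + 1) l ↔
    x ∈ Wr p q r K l ∨ ∃ y ∈ Wr p q r K l, p y = x ∨ q y = x ∨ r y = x := by
  simp only [Wr, List.mem_append, List.mem_map]
  constructor
  · rintro (h | ⟨y, h, rfl⟩ | ⟨y, h, rfl⟩ | ⟨y, h, rfl⟩)
    · exact Or.inl h
    · exact Or.inr ⟨y, h, Or.inl rfl⟩
    · exact Or.inr ⟨y, h, Or.inr (Or.inl rfl)⟩
    · exact Or.inr ⟨y, h, Or.inr (Or.inr rfl)⟩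
  · rintro (h | ⟨y, h, rfl | rfl | rfl⟩)
    · exact Or.inl h
    · exact Or.inr (Or.inl ⟨y, h, rfl⟩)
    · exact Or.inr (Or.inr (Or.inl ⟨y, h, rfl⟩))
    · exact Or.inr (Or.inr (Or.inr ⟨y, h, rfl⟩))

theorem Wr_base {K : ℕ} {l : List α} {x : α} (hx : x ∈ l) : x ∈ Wr p q r K l := by
  induction K with
  | zero => exact hx
  | succ K ih => exact List.mem_append_left _ ih

theorem Wr_succ {K : ℕ} {l : List α} {x : α} (hx : x ∈ Wr p q r K l) : x ∈ Wr p q r (K + 1) l := List.mem_append_left _ hx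

theorem Wr_p {K : ℕ} {l : List α} {x : α} (hx : x ∈ Wr p q r K l) : p x ∈ Wr p q r (K + 1) l :=
  mem_Wr_succ.2 (Or.inr ⟨x, hx, Or.inl rfl⟩)

theorem Wr_q {K : ℕ} {l : List α} {x : α} (hx : x ∈ Wr p q r K l) : q x ∈ Wr p q r (K + 1) l :=
  mem_Wr_succ.2 (Or.inr ⟨x, hx, Or.inr (Or.inl rfl)⟩)

theorem Wr_r {K : ℕ} {l : List α} {x : α} (hx : x ∈ Wr p q r K l) : r x ∈ Wr p q r (K + 1) l :=
  mem_Wr_succ.2 (Or.inr ⟨x, hx, Or.inr (Or.inr rfl)⟩)

theorem Wr_mono {K K' : ℕ} (hK : K ≤ K') {l l' : List α} (hl : ∀ x ∈ l, x ∈ l') {x : α} (hx : x ∈ Wr p q r K l) :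
    x ∈ Wr p q r K' l' := by
  have key : ∀ K x, x ∈ Wr p q r K l → x ∈ Wr p q r K l' := by
    intro K
    induction K with
    | zero => exact fun x hx => hl x hx
    | succ K ih =>
      intro x hx
      rw [mem_Wr_succ] at hx ⊢
      rcases hx with hx | ⟨y, hy, hx⟩
      · exact Or.inl (ih x hx)
      · exact Or.inr ⟨y, ih y hy, hx⟩
  induction hK with
  | refl => exact key K x hx
  | step _ ih => exact Wr_succ ih

theorem Wr_add {K K' : ℕ} {l : List α} {x : α} (hx : x ∈ Wr p q r K' (Wr p q r K l)) : x ∈ Wr p q r (K + K') l := by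
  induction K' generalizing x with
  | zero => exact hx
  | succ K' ih =>
    rw [mem_Wr_succ] at hx
    rcases hx with hx | ⟨y, hy, rfl | rfl | rfl⟩
    · exact Wr_succ (ih hx)
    · exact Wr_p (ih hy)
    · exact Wr_q (ih hy)
    · exact Wr_r (ih hy)

/-- `r` chooses a canonical token of every `p`-`q`-cycle. -/
structure Can (p q r : α → α) : Prop where
  hp : ∀ x, r (p x) = r x
  hq : ∀ x, r (q x) = r x
  conn : ∀ x, Relation.ReflTransGen (fun a b => b = p a ∨ b = q a) x (r x)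

theorem exists_can (hp : ∀ x, p (p x) = x) (hq : ∀ x, q (q x) = x) : ∃ r, Can p q r := by
  classical
  let R : α → α → Prop := fun a b => b = p a ∨ b = q a
  have hsymm : ∀ a b, R a b → R b a := by
    rintro a b (rfl | rfl)
    · exact Or.inl (hp a).symm
    · exact Or.inr (hq a).symm
  have hrs : ∀ a b, Relation.ReflTransGen R a b → Relation.ReflTransGen R b a := by
    intro a b h
    induction h with
    | refl => exact .refl
    | tail _ h ih => exact Relation.ReflTransGen.head (hsymm _ _ h) ih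
  let S : Setoid α := ⟨Relation.ReflTransGen R, fun _ => .refl, fun h => hrs _ _ h, fun h h' => h.trans h'⟩
  refine ⟨fun x => Quotient.out (Quotient.mk S x), ?_, ?_, ?_⟩
  · intro x
    have h1 : Quotient.mk S (p x) = Quotient.mk S x := Quotient.sound (hrs _ _ (Relation.ReflTransGen.single (Or.inl rfl)))
    simp only [h1]
  · intro x
    have h1 : Quotient.mk S (q x) = Quotient.mk S x := Quotient.sound (hrs _ _ (Relation.ReflTransGen.single (Or.inr rfl)))
    simp only [h1]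
  · intro x
    have h1 : S (Quotient.out (Quotient.mk S x)) x := Quotient.mk_out x
    exact hrs _ _ h1

end words

/-- every defect of the pair is near to a token of `l`. -/
def Cl {Ω : Type} [DecidableEq Ω] (p r : Ω → Ω) (K : ℕ) (l : List Ω) (s : St Ω) : Prop :=
  ∀ z ∈ s.1 ++ s.2, ((z ∈ s.1 ↔ p z ∈ s.1) ∨ (z ∈ s.1 ↔ NA.mu p s z ∈ s.1)) → z ∈ Wr p (NA.mu p s) r K l

/-- (A_2) RELAXED, on the level of the pairs `(A, B)` (the state is `(A ++ [p e], e :: B)`): every double standard state has a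
round trip with `P m` runs to a pair whose last letter `f` is mixed, with at most `c` coloured tokens, all defects near to `f`
and at most `4` other tokens (`3` if the core is run reversed with many square roots). -/
def HA4 (c K K0 : ℕ) (P : ℕ → ℕ) : Prop := ∀ (Ω : Type) [DecidableEq Ω] (p r : Ω → Ω) (e f : Ω) (X Y : List Ω),
  WF p (f :: X ++ [p e], e :: (Y ++ [p f])) → Irr p (f :: X ++ [p e], e :: (Y ++ [p f])) → DS p (f :: X ++ [p e], e :: (Y ++ [p f])) →
  Can p (NA.mu p (f :: X, Y ++ [p f])) r →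
  ∃ A B l : List Ω, RTn p (P ((f :: X ++ [p e]) ++ (e :: (Y ++ [p f]))).length) (f :: X ++ [p e], e :: (Y ++ [p f])) (A ++ [p e], e :: (B ++ [p f])) ∧
    f ∈ A ∧ nc p (A ++ [p e], e :: (B ++ [p f])) ≤ c ∧ Cl p r K (f :: l) (A, B ++ [p f]) ∧
    (l.length ≤ 3 ∨ (l.length ≤ 4 ∧ Few K0 (NA.cA p (A, B ++ [p f])) (NA.cB p (A, B ++ [p f]))))

/-- the number of pairs of cargo lists for given clusters. -/
def MC4 (c K : ℕ) : ℕ := ((4 ^ K * 6) * (4 ^ K * 6) + 1) ^ c * ((4 ^ K * 6) * (4 ^ K * 6) + 1) ^ c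

/-- the number of representatives. -/
def NR4 (c K K0 m : ℕ) : ℕ := (K0 + 52) * MC4 c K * m ^ 4 + 1

/-- the bound for irreducible two sided states. -/
def FB4 (c K K0 : ℕ) (P : ℕ → ℕ) (m : ℕ) : ℕ := BRn (NR4 c K K0 m) (PRn P m) m

theorem cargo_enum4 {Ω : Type} [DecidableEq Ω] (p q r : Ω → Ω) (c K : ℕ) (l : List Ω) (hl : l.length ≤ 6) :
    ∃ en : Fin (MC4 c K) → List (Ω × Ω) × List (Ω × Ω), ∀ L₁ L₂ : List (Ω × Ω), L₁.length ≤ c → L₂.length ≤ c →
      (∀ x, x ∈ L₁ ∨ x ∈ L₂ → x.1 ∈ Wr p q r K l ∧ x.2 ∈ Wr p q r K l) → ∃ j, en j = (L₁, L₂) := by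
  set S : Finset (Ω × Ω) := (Wr p q r K l).toFinset ×ˢ (Wr p q r K l).toFinset with hS
  have hSc : S.card ≤ (4 ^ K * 6) * (4 ^ K * 6) := by
    have h1 : (Wr p q r K l).toFinset.card ≤ 4 ^ K * 6 :=
      (List.toFinset_card_le _).trans (by rw [length_Wr]; exact Nat.mul_le_mul_left _ hl)
    rw [hS, Finset.card_product]
    exact Nat.mul_le_mul h1 h1
  have hLF : (LF S c).card ≤ ((4 ^ K * 6) * (4 ^ K * 6) + 1) ^ c :=
    (card_LF S c).trans (Nat.pow_le_pow_left (Nat.succ_le_succ hSc) c)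
  obtain ⟨en, hen⟩ := exists_enum (α := List (Ω × Ω) × List (Ω × Ω)) (M := MC4 c K) (↑(LF S c ×ˢ LF S c) : Set (List (Ω × Ω) × List (Ω × Ω)))
    (Finset.finite_toSet _) (by
      rw [Set.ncard_coe_finset, Finset.card_product]
      exact Nat.mul_le_mul hLF hLF)
  refine ⟨en, fun L₁ L₂ h1 h2 h3 => ?_⟩
  apply hen
  rw [Finset.mem_coe, Finset.mem_product]
  refine ⟨mem_LF h1 fun x hx => ?_, mem_LF h2 fun x hx => ?_⟩
  · rw [hS, Finset.mem_product, List.mem_toFinset, List.mem_toFinset]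
    exact h3 x (Or.inl hx)
  · rw [hS, Finset.mem_product, List.mem_toFinset, List.mem_toFinset]
    exact h3 x (Or.inr hx)

section
variable {Ω : Type} [DecidableEq Ω] {p : Ω → Ω}

/-- the cyclic successor of the pair keeps the words. -/
theorem sc_mem {A B : List Ω} (hd : ∀ t, t ∈ A → t ∉ B) (t : Ω) : NA.sc (A, B) t ∈ A ↔ t ∈ A := by
  unfold NA.sc
  simp only [Perm.mul_apply]
  by_cases hB : t ∈ B
  · have h1 : List.formPerm B t ∈ B := List.formPerm_apply_mem_of_mem hB
    have h2 : List.formPerm B t ∉ A := fun h => hd _ h h1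
    rw [List.formPerm_apply_of_notMem h2]
    exact ⟨fun h => absurd h h2, fun h => absurd hB (hd _ h)⟩
  · rw [List.formPerm_apply_of_notMem hB]
    constructor
    · intro h
      by_contra h1
      rw [List.formPerm_apply_of_notMem h1] at h
      exact h1 h
    · exact fun h => List.formPerm_apply_mem_of_mem h

theorem sc_symm_mem {A B : List Ω} (hd : ∀ t, t ∈ A → t ∉ B) (t : Ω) : (NA.sc (A, B)).symm t ∈ A ↔ t ∈ A := by
  have := sc_mem hd ((NA.sc (A, B)).symm t)
  rw [Equiv.apply_symm_apply] at this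
  exact this.symm

/-- the predecessor of a coloured token is a defect. -/
theorem pred_defect {A B : List Ω} (hd : ∀ t, t ∈ A → t ∉ B) {g z : Ω} (hz : NA.sc (A, B) g = z)
    (hc : z ∈ A ↔ p z ∈ A) : (g ∈ A ↔ NA.mu p (A, B) g ∈ A) := by
  unfold NA.mu
  rw [sc_symm_mem hd, hz, ← hc, ← hz, sc_mem hd]

/-- a ground is followed by a coloured token. -/
theorem ground_split {L : List (Ω × Ω)} {a : List Ω} {g z : Ω} (hg : g ∈ a) (hz : (g, z) ∈ L) :
    ∃ C z' D, ww L a = C ++ g :: z' :: D ∧ z' ∈ L.map Prod.snd := by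
  obtain ⟨C, D, rfl⟩ := List.append_of_mem hg
  obtain ⟨z', T, hT⟩ := List.exists_cons_of_ne_nil (tl_ne_nil hz)
  refine ⟨ww L C, z', T ++ ww L D, ?_, ?_⟩
  · rw [ww_append, ww_cons, hT]
    simp
  · have h2 : z' ∈ tl L g := by rw [hT]; exact List.mem_cons_self
    exact List.mem_map_of_mem (f := Prod.snd) (mem_tl.1 h2)

/-- the cargo of a double standard state is near to the clusters. -/
theorem near_of_Cl {h : ∀ t, p (p t) = t} {r : Ω → Ω} {K : ℕ} {e f : Ω} {X Y l : List Ω} (hw : WF p (f :: X ++ [p e], e :: (Y ++ [p f])))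
    {L₁ L₂ : List (Ω × Ω)} {A' B' : List Ω} (hdec : (f :: X ++ [p e], e :: (Y ++ [p f])) = (ww L₁ (f :: A'), ww L₂ (B' ++ [p f])))
    (hd : Dc p L₁ L₂ (f :: A') (B' ++ [p f])) (hcl : Cl p r K l (f :: X, Y ++ [p f])) (q : Ω × Ω) (hq : q ∈ L₁ ∨ q ∈ L₂) :
    q.1 ∈ Wr p (NA.mu p (f :: X, Y ++ [p f])) r K (e :: l) ∧ q.2 ∈ Wr p (NA.mu p (f :: X, Y ++ [p f])) r K (e :: l) := by
  have hU : f :: X ++ [p e] = ww L₁ (f :: A') := congrArg Prod.fst hdec
  have hV : e :: (Y ++ [p f]) = ww L₂ (B' ++ [p f]) := congrArg Prod.snd hdec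
  have hnd := List.nodup_append.1 hw.nd
  have hndU : (f :: X ++ [p e]).Nodup := hnd.1
  have hndV : (e :: (Y ++ [p f])).Nodup := hnd.2.1
  have hdj' : ∀ t, t ∈ f :: X ++ [p e] → t ∉ e :: (Y ++ [p f]) := fun t h1 h2 => hnd.2.2 t h1 t h2 rfl
  have hdj : ∀ t, t ∈ f :: X → t ∉ Y ++ [p f] := fun t h1 h2 => hdj' t (List.mem_append_left _ h1) (List.mem_cons_of_mem _ h2)
  -- coloured tokens
  have hc1 : ∀ z ∈ L₁.map Prod.snd, z ∈ f :: X ∧ p z ∈ f :: X := by
    intro z hz
    have h1 : z ∈ f :: X ++ [p e] := by rw [hU]; exact hd.mem1.2 (Or.inr hz)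
    have h2 : p z ∈ f :: X ++ [p e] := by rw [hU]; exact hd.mem1.2 (Or.inr (hd.col1 hz))
    have he : e ∉ f :: X ++ [p e] := fun h3 => hdj' e h3 List.mem_cons_self
    have h3 : z ≠ p e := by
      rintro rfl
      rw [h] at h2
      exact he h2
    have h4 : p z ≠ p e := by
      intro h4
      have := congrArg p h4
      rw [h, h] at this
      exact he (this ▸ h1)
    exact ⟨(List.mem_append.1 h1).resolve_right (by simpa using h3), (List.mem_append.1 h2).resolve_right (by simpa using h4)⟩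
  have hc2 : ∀ z ∈ L₂.map Prod.snd, z ∈ Y ++ [p f] ∧ p z ∈ Y ++ [p f] := by
    intro z hz
    have h1 : z ∈ e :: (Y ++ [p f]) := by rw [hV]; exact hd.mem2.2 (Or.inr hz)
    have h2 : p z ∈ e :: (Y ++ [p f]) := by rw [hV]; exact hd.mem2.2 (Or.inr (hd.mir.col1 hz))
    have he : p e ∉ e :: (Y ++ [p f]) := fun h3 => hdj' (p e) (List.mem_append_right _ (List.mem_singleton_self _)) h3
    have h3 : z ≠ e := by
      rintro rfl
      exact he h2
    have h4 : p z ≠ e := by
      intro h4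
      have h5 : p e = z := by rw [← h4, h]
      apply he
      rw [h5]
      exact h1
    exact ⟨(List.mem_cons.1 h1).resolve_left h3, (List.mem_cons.1 h2).resolve_left h4⟩
  have hbase : ∀ z, z ∈ (f :: X) ++ (Y ++ [p f]) → ((z ∈ f :: X ↔ p z ∈ f :: X) ∨ (z ∈ f :: X ↔ NA.mu p (f :: X, Y ++ [p f]) z ∈ f :: X)) →
      z ∈ Wr p (NA.mu p (f :: X, Y ++ [p f])) r K (e :: l) := fun z h1 h2 =>
    Wr_mono le_rfl (fun y hy => List.mem_cons_of_mem _ hy) (hcl z h1 h2)
  rcases hq with hq | hq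
  · have hz := hc1 q.2 (List.mem_map_of_mem (f := Prod.snd) hq)
    refine ⟨?_, hbase _ (List.mem_append_left _ hz.1) (Or.inl ⟨fun _ => hz.2, fun _ => hz.1⟩)⟩
    obtain ⟨C, z', D, h1, h2⟩ := ground_split (hd.g1 q hq) hq
    obtain ⟨h3, h4⟩ := hc1 z' h2
    rw [← hU] at h1
    -- the last token is not coloured
    obtain ⟨D', rfl⟩ : ∃ D', D = D' ++ [p e] := by
      rcases List.eq_nil_or_concat' D with rfl | ⟨D', d, rfl⟩
      · exfalso
        have h5 := congrArg List.getLast? h1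
        have h6 : C ++ q.1 :: [z'] = (C ++ [q.1]) ++ [z'] := by simp
        rw [h6, List.getLast?_concat, List.getLast?_concat] at h5
        have h7 := Option.some.inj h5
        have h8 := (List.nodup_append.1 hndU).2.2 z' h3 (p e) (List.mem_singleton_self _)
        exact h8 h7.symm
      · refine ⟨D', ?_⟩
        have h5 := congrArg List.getLast? h1
        have h6 : C ++ q.1 :: z' :: (D' ++ [d]) = (C ++ q.1 :: z' :: D') ++ [d] := by simp
        rw [h6, List.getLast?_concat, List.getLast?_concat] at h5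
        rw [Option.some.inj h5]
    have h5 : f :: X = C ++ q.1 :: z' :: D' := by
      have h6 : C ++ q.1 :: z' :: (D' ++ [p e]) = (C ++ q.1 :: z' :: D') ++ [p e] := by simp
      rw [h6] at h1
      exact List.append_cancel_right h1
    have hn : (C ++ q.1 :: z' :: D').Nodup := by rw [← h5]; exact (List.nodup_append.1 hndU).1
    have h6 : q.1 ∈ f :: X := by rw [h5]; simp
    have h7 : NA.sc (f :: X, Y ++ [p f]) q.1 = z' := by
      unfold NA.sc
      simp only [Perm.mul_apply]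
      rw [List.formPerm_apply_of_notMem (hdj _ h6), h5, Pool.Agent.helper36.WE.formPerm_adjacent hn]
    exact hbase _ (List.mem_append_left _ h6) (Or.inr (pred_defect hdj h7 ⟨fun _ => h4, fun _ => h3⟩))
  · have hz := hc2 q.2 (List.mem_map_of_mem (f := Prod.snd) hq)
    have hzA : q.2 ∉ f :: X := fun h1 => hdj _ h1 hz.1
    have hzA' : p q.2 ∉ f :: X := fun h1 => hdj _ h1 hz.2
    refine ⟨?_, hbase _ (List.mem_append_right _ hz.1) (Or.inl ⟨fun h1 => absurd h1 hzA, fun h1 => absurd h1 hzA'⟩)⟩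
    obtain ⟨C, z', D, h1, h2⟩ := ground_split (hd.g2 q hq) hq
    obtain ⟨h3, h4⟩ := hc2 z' h2
    rw [← hV] at h1
    cases C with
    | nil =>
      have h5 : e = q.1 := by
        have := List.head_eq_of_cons_eq h1
        exact this
      rw [← h5]
      exact Wr_base List.mem_cons_self
    | cons c0 C =>
      have h5 : Y ++ [p f] = C ++ q.1 :: z' :: D := List.tail_eq_of_cons_eq h1
      have hn : (C ++ q.1 :: z' :: D).Nodup := by rw [← h5]; exact (List.nodup_cons.1 hndV).2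
      have h6 : q.1 ∈ Y ++ [p f] := by rw [h5]; simp
      have h6' : q.1 ∉ f :: X := fun h7 => hdj _ h7 h6
      have h8 : z' ∉ f :: X := fun h7 => hdj _ h7 h3
      have h8' : p z' ∉ f :: X := fun h7 => hdj _ h7 h4
      have h7 : NA.sc (f :: X, Y ++ [p f]) q.1 = z' := by
        unfold NA.sc
        simp only [Perm.mul_apply]
        rw [h5, Pool.Agent.helper36.WE.formPerm_adjacent hn, List.formPerm_apply_of_notMem h8]
      exact hbase _ (List.mem_append_right _ h6) (Or.inr (pred_defect hdj h7 ⟨fun h9 => absurd h9 h8, fun h9 => absurd h9 h8'⟩))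

end

end NTH
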