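import Pool.Agent.helper55.NA.AAll
import Pool.Agent.helper14.NTN.Cl4
import Pool.Agent.helper3.NA.Mu

/-!
# MP_c8d30a, THEOREM (A) in the run model: a Theta move is two runs
-/

set_option autoImplicit false

namespace NTH

open NTS (Hop Chain real)

section
variable {Ω : Type} {p : Ω → Ω}

theorem th1_run (e c x y : Ω) (P Q R S1 S2 G T : List Ω)
    (hN : N p (real p e (c :: (P ++ x :: (Q ++ p x :: R)), S1 ++ p y :: (S2 ++ y :: (G ++ p c :: T))))) :
    Rn p (N p) 2
      (real p e (c :: (P ++ x :: (Q ++ p x :: R)), S1 ++ p y :: (S2 ++ y :: (G ++ p c :: T))))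
      (real p e (x :: (Q ++ y :: (G ++ p x :: R)), S1 ++ c :: (P ++ p y :: (S2 ++ p c :: T)))) := by
  have h1 := (rotL (p := p) c (e :: (S1 ++ p y :: S2)) (y :: G) T ((P ++ x :: (Q ++ p x :: R)) ++ [p e]) (by
    simpa [real] using hN)).toRn
  have h2 := Rn.blockR (p := p) y (G ++ e :: S1) (S2 ++ p c :: T) (c :: P) ((x :: (Q ++ p x :: R)) ++ [p e])
    ⟨x, by simp, by simp⟩
  have h3 := Rn.blockL (p := p) x Q (R ++ [p e]) (y :: G) (e :: (S1 ++ c :: (P ++ p y :: (S2 ++ p c :: T))))
    ⟨c, by simp, by simp⟩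
  have h4 := (h1.trans (by simpa using h2)).trans (by simpa using h3)
  simpa [real] using h4

theorem th2_run (e c x y : Ω) (P Q R S G T1 T2 : List Ω)
    (hN : N p (real p e (c :: (P ++ x :: (Q ++ p x :: R)), S ++ y :: (G ++ p c :: (T1 ++ p y :: T2))))) :
    Rn p (N p) 2
      (real p e (c :: (P ++ x :: (Q ++ p x :: R)), S ++ y :: (G ++ p c :: (T1 ++ p y :: T2))))
      (real p e (x :: (Q ++ y :: (G ++ p x :: R)), S ++ p c :: (T1 ++ c :: (P ++ p y :: T2)))) := by
  have h1 := (rotL (p := p) c (e :: S) (y :: G) (T1 ++ p y :: T2) ((P ++ x :: (Q ++ p x :: R)) ++ [p e]) (by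
    simpa [real] using hN)).toRn
  have h2 := Rn.blockR (p := p) y (G ++ e :: (S ++ p c :: T1)) T2 (c :: P) ((x :: (Q ++ p x :: R)) ++ [p e])
    ⟨x, by simp, by simp⟩
  have h3 := Rn.blockL (p := p) x Q (R ++ [p e]) (y :: G) (e :: (S ++ p c :: (T1 ++ c :: (P ++ p y :: T2))))
    ⟨c, by simp, by simp⟩
  have h4 := (h1.trans (by simpa using h2)).trans (by simpa using h3)
  simpa [real] using h4

theorem hop_run (hinv : ∀ t, p (p t) = t) (e : Ω) {k : ℕ} {s t : St Ω} (h : Hop p k s t)
    (hN : N p (real p e s)) : Rn p (N p) (2 * k) (real p e s) (real p e t) := by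
  cases h with
  | rot X Y B => exact (NTS.rot_real e X Y B hN).toRn
  | cm x y z P Q R P' Q' R1 R2 => exact (NTS.cm_real hinv e x y z P Q R P' Q' R1 R2 hN).toRn
  | th1 c x y P Q R S1 S2 G T => exact th1_run e c x y P Q R S1 S2 G T hN
  | th2 c x y P Q R S G T1 T2 => exact th2_run e c x y P Q R S G T1 T2 hN

theorem chain_run (hinv : ∀ t, p (p t) = t) (e : Ω) {k : ℕ} {s t : St Ω} (h : Chain p k s t)
    (hN : N p (real p e s)) : Rn p (N p) (2 * k) (real p e s) (real p e t) := by
  induction h with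
  | refl s => exact .refl _ _ hN
  | step h1 h2 ih =>
    have h3 := hop_run hinv e h1 hN
    have h4 := ih h3.right
    have h5 := h3.trans h4
    rwa [← Nat.mul_add] at h5

/-- a chain with `k` Theta moves is a round trip with `2 k` runs. -/
theorem chain_rtn (hinv : ∀ t, p (p t) = t) (e : Ω) {k : ℕ} {s t : St Ω} (h : Chain p k s t)
    (hN : N p (real p e s)) : RTn p (2 * k) (real p e s) (real p e t) := by
  have h1 := chain_run hinv e h hN
  exact ⟨h1, chain_run hinv e (h.symm hinv) h1.right⟩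

/-- paths with `n` Theta moves are round trips with `2 n` runs. -/
theorem pa_rtn (hinv : ∀ t, p (p t) = t) (e : Ω) {n : ℕ} {s t : St Ω} (h : NA.Pa p n s t)
    (hN : N p (s.1 ++ [p e], e :: s.2)) :
    RTn p (2 * n) (s.1 ++ [p e], e :: s.2) (t.1 ++ [p e], e :: t.2) := by
  obtain ⟨k, hk, h1⟩ := NA.pa_chain h
  exact (chain_rtn hinv e h1 hN).mono (by omega)

theorem em_last {k : ℕ} {s t : St Ω} (h : NA.EM p k s t) : t.2.getLast? = s.2.getLast? := by
  cases h <;> simp [List.getLast?_append, List.getLast?_cons]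

theorem pa_last {k : ℕ} {s t : St Ω} (h : NA.Pa p k s t) : t.2.getLast? = s.2.getLast? := by
  induction h with
  | refl _ _ => rfl
  | head h _ ih => rw [ih, em_last h]

end

end NTH

namespace NA

open NTH

/-- **THEOREM (A)** for the pairs: at most `600` coloured letters after `O(m^2)` Theta moves. -/
theorem A_pairs {Ω : Type} [DecidableEq Ω] {p : Ω → Ω} {e f : Ω} {X Y : List Ω} (hw : WF p (f :: X ++ [p e], e :: (Y ++ [p f])))
    (hX : ∃ b ∈ X, p b ∈ X) (hY : ∃ q ∈ Y, p q ∈ Y) :
    WF p (f :: X, Y ++ [p f]) ∧ IrB p (f :: X, Y ++ [p f]) ∧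
    ∃ t : St Ω, Pa p (((f :: X) ++ (Y ++ [p f])).length * (10 * ((f :: X) ++ (Y ++ [p f])).length + 30)) (f :: X, Y ++ [p f]) t ∧
      WF p t ∧ IrB p t ∧ NTS.D2 p t ≤ 1200 ∧ (∃ o, Red p t o) ∧ (∃ o, Blu p t o) ∧ t.2.getLast? = some (p f) := by
  obtain ⟨b, hb1, hb2⟩ := hX
  obtain ⟨q, hq1, hq2⟩ := hY
  have hinv := hw.inv
  have hne := hw.ne
  have hc := List.nodup_iff_count_le_one.mp hw.nd
  -- the pair is well formed
  have hw1 : WF p (f :: X, Y ++ [p f]) := by
    refine ⟨?_, ?_, hinv, hne⟩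
    · rw [List.nodup_iff_count_le_one]
      intro x
      have := hc x
      simp only [List.count_append, List.count_cons, List.count_nil] at this ⊢
      omega
    · intro t ht
      have h1 : t ∈ ((f :: X) ++ [p e]) ++ (e :: (Y ++ [p f])) := by
        simp only [List.mem_append, List.mem_cons, List.not_mem_nil, or_false] at ht ⊢
        tauto
      have h2 := hw.cl t h1
      have h3 : p t ≠ e := by
        intro h
        have : t = p e := by rw [← h, hinv]
        subst this
        have h4 := hc (p e)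
        simp only [List.mem_append, List.mem_cons, List.not_mem_nil, or_false] at ht
        simp only [List.count_append, List.count_cons, List.count_nil] at h4
        rcases ht with (ht | ht) | (ht | ht)
        · simp [← ht] at h4
          try omega
        · have := List.count_pos_iff.mpr ht
          simp at h4
          omega
        · have := List.count_pos_iff.mpr ht
          simp at h4
          omega
        · simp [← ht] at h4
          try omega
      have h5 : p t ≠ p e := by
        intro h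
        have : t = e := by rw [← hinv t, h, hinv]
        subst this
        have h4 := hc t
        simp only [List.mem_append, List.mem_cons, List.not_mem_nil, or_false] at ht
        simp only [List.count_append, List.count_cons, List.count_nil] at h4
        rcases ht with (ht | ht) | (ht | ht)
        · simp [← ht] at h4
          try omega
        · have := List.count_pos_iff.mpr ht
          simp at h4
          omega
        · have := List.count_pos_iff.mpr ht
          simp at h4
          omega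
        · simp [← ht] at h4
          try omega
      simp only [List.mem_append, List.mem_cons, List.not_mem_nil, or_false] at h2 ⊢
      tauto
  have hir : IrB p (f :: X, Y ++ [p f]) := by
    intro B1 B2 hB hcl
    by_contra hne2
    obtain ⟨W, w, rfl⟩ := List.eq_nil_or_concat B2 |>.resolve_left hne2
    have h1 : w = p f := by
      have := congrArg List.getLast? hB
      simp at this
      exact this.symm
    have h2 := hcl w (by simp)
    rw [h1, hinv] at h2
    have h3 : f ∈ Y ++ [p f] := by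
      have : f ∈ B1 ++ (W ++ [w]) := List.mem_append_right _ (by rw [h1]; simpa using h2)
      have hB' : Y ++ [p f] = B1 ++ (W ++ [w]) := by simpa using hB
      rw [hB']
      exact this
    have h4 := (List.nodup_append.mp hw1.nd).2.2 f (by simp) f h3
    exact h4 rfl
  have hrd : ∃ o, Red p (f :: X, Y ++ [p f]) o := ⟨b, by simp [hb1], by simp [hb2]⟩
  have hbl : ∃ o, Blu p (f :: X, Y ++ [p f]) o := ⟨q, by simp [hq1], by simp [hq2]⟩
  obtain ⟨t, h1, h2⟩ := iter AStep_thm ((f :: X) ++ (Y ++ [p f])).length (NTS.D2 p (f :: X, Y ++ [p f])) (f :: X, Y ++ [p f]) hw1 hir hrd hbl rfl le_rfl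
  obtain ⟨h3, h4⟩ := h1.rb hrd hbl
  refine ⟨hw1, hir, t, h1.mono (Nat.mul_le_mul_right _ (NTS.D2_le (p := p) (f :: X, Y ++ [p f]))), h1.wf hw1, h1.ir hw1 hir, h2, h3, h4, ?_⟩
  rw [NTH.pa_last h1]
  exact List.getLast?_concat

end NA

namespace NTH

/-- (T): from at most `600` coloured letters to few clusters. -/
def TT (c K K0 : ℕ) (P : ℕ → ℕ) : Prop := ∀ (Ω : Type) [DecidableEq Ω] (p r : Ω → Ω) (e f : Ω) (A B : List Ω),
  WF p (A ++ [p e], e :: B) → Irr p (A ++ [p e], e :: B) → WF p (A, B) → NA.IrB p (A, B) → (∃ o, NA.Red p (A, B) o) → (∃ o, NA.Blu p (A, B) o) →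
  B.getLast? = some (p f) → NTS.D2 p (A, B) ≤ 1200 → Can p (NA.mu p (A, B)) r →
  ∃ A' B' l : List Ω, RTn p (P ((A ++ [p e]) ++ (e :: B)).length) (A ++ [p e], e :: B) (A' ++ [p e], e :: (B' ++ [p f])) ∧
    f ∈ A' ∧ nc p (A' ++ [p e], e :: (B' ++ [p f])) ≤ c ∧ Cl p r K (f :: l) (A', B' ++ [p f]) ∧
    (l.length ≤ 3 ∨ (l.length ≤ 4 ∧ Pool.Agent.helper36.WE.Few K0 (NA.cA p (A', B' ++ [p f])) (NA.cB p (A', B' ++ [p f]))))

/-- the relaxed (A_2) from (T) (and (A)). -/
theorem HA4_of {c K K0 : ℕ} {P : ℕ → ℕ} (hT : TT c K K0 P) : HA4 c K K0 (fun m => 2 * (m * (10 * m + 30)) + P m) := by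
  intro Ω _ p r e f X Y hw hi hd hC
  obtain ⟨f', e', X', Y', hs, hX, hY⟩ := id hd
  have hs1 : f :: (X ++ [p e]) = f' :: (X' ++ [p e']) := congrArg Prod.fst hs
  have hs2 : e :: (Y ++ [p f]) = e' :: (Y' ++ [p f']) := congrArg Prod.snd hs
  injection hs1 with hf hs1
  injection hs2 with he hs2
  subst hf
  subst he
  have hXX : X = X' := List.append_cancel_right hs1
  have hYY : Y = Y' := List.append_cancel_right hs2
  subst hXX
  subst hYY
  obtain ⟨hw1, hir, t, hpa, hwt, hit, hD, hr, hb, hl⟩ := NA.A_pairs hw hX hY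
  obtain ⟨A, B⟩ := t
  have hN : N p (f :: X ++ [p e], e :: (Y ++ [p f])) := by
    obtain ⟨b, hb1, hb2⟩ := hX
    obtain ⟨q, hq1, hq2⟩ := hY
    exact ⟨⟨b, by simp [hb1], by simp [hb2]⟩, ⟨q, by simp [hq1], by simp [hq2]⟩⟩
  have h1 := pa_rtn hw.inv e hpa hN
  simp only at h1 hl
  obtain ⟨a1, ha1⟩ := h1.1.toReach
  have hw2 : WF p (A ++ [p e], e :: B) := hw.reach ha1
  have hi2 : Irr p (A ++ [p e], e :: B) := Irr.reach hw hi ha1
  have hmu : NA.mu p (A, B) = NA.mu p (f :: X, Y ++ [p f]) := hpa.mu hw1.inv hw1.nd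
  obtain ⟨A', B', l, h2, h3, h4, h5, h6⟩ := hT Ω p r e f A B hw2 hi2 hwt hit hr hb hl hD (by rw [hmu]; exact hC)
  have hlen : ((A ++ [p e]) ++ (e :: B)).length = ((f :: X ++ [p e]) ++ (e :: (Y ++ [p f]))).length := by
    have := hpa.perm.length_eq
    simp only [List.length_append, List.length_cons, List.length_nil] at this ⊢
    omega
  rw [hlen] at h2
  refine ⟨A', B', l, (h1.mono ?_).trans h2, h3, h4, h5, h6⟩
  have hle : ((f :: X) ++ (Y ++ [p f])).length ≤ ((f :: X ++ [p e]) ++ (e :: (Y ++ [p f]))).length := by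
    simp only [List.length_append, List.length_cons, List.length_nil]
    omega
  exact Nat.mul_le_mul_left _ (Nat.mul_le_mul hle (by omega))

end NTH
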