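import Pool.Agent.helper14.NTN.Cl4

/-!
# MP_c8d30a: the bound for irreducible two sided states from the relaxed (A_2) with canonical tokens
-/

set_option autoImplicit false

namespace NTH

open Equiv
open Pool.Agent.helper36.WE (rho Cls Sup SupL Walk cls_hub5 cls_hub7 NF4_stmt Few kk kk_rot kk_map)
open Pool.Agent.helper32.ATT (RR)

section
variable {Ω : Type} [DecidableEq Ω] {p : Ω → Ω}

theorem Few.map {K0 : ℕ} {g : Perm Ω} {a b : List Ω} (hg : ∀ t, g (g t) = t) (h : Few K0 a b) : Few K0 (a.map g) (b.map g) := by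
  rcases h with h | h | h
  · refine Or.inl fun h1 => h ?_
    have h2 := Pool.Agent.helper36.WE.RR.map (g := (g : Ω → Ω)) h1
    have e1 : ∀ l : List Ω, (l.map g).map g = l := by
      intro l
      rw [List.map_map]
      conv_rhs => rw [← List.map_id l]
      exact List.map_congr_left fun t _ => hg t
    rwa [e1, e1] at h2
  · refine Or.inr (Or.inl ?_)
    rw [kk_map]
    exact h
  · refine Or.inr (Or.inr ?_)
    rw [kk_map]
    exact h

theorem Few.rot {K0 : ℕ} {a b a' b' : List Ω} (hna : a.Nodup) (hnb : b.Nodup) (ha : a ~r a') (hb : b ~r b') (h : Few K0 a b) :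
    Few K0 a' b' := by
  rcases h with h | h | h
  · exact Or.inl fun h1 => h (Pool.Agent.helper36.WE.RR.rotate h1 ha.symm hb.symm)
  · exact Or.inr (Or.inl (by rw [kk_rot hna hnb ha hb]; exact h))
  · exact Or.inr (Or.inr (by rw [kk_rot hna hnb ha hb]; exact h))

/-- decoding of a double standard state. -/
theorem shapeDS2 {h : ∀ t, p (p t) = t} {e f : Ω} {X Y : List Ω} (hw : WF p (f :: X ++ [p e], e :: (Y ++ [p f]))) :
    ∃ (L₁ L₂ : List (Ω × Ω)) (A' B' : List Ω), (f :: X ++ [p e], e :: (Y ++ [p f])) = (ww L₁ (f :: A'), ww L₂ (B' ++ [p f])) ∧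
      Sd p e L₁ L₂ (f :: A') (B' ++ [p f]) ∧
      (A'.map (swap f (p e)) ~r NA.cA p (f :: X, Y ++ [p f])) ∧ ((B'.map p).map (swap f (p e)) ~r NA.cB p (f :: X, Y ++ [p f])) ∧
      L₁.length ≤ nc p (f :: X ++ [p e], e :: (Y ++ [p f])) ∧ L₂.length ≤ nc p (f :: X ++ [p e], e :: (Y ++ [p f])) := by
  set B : List Ω := Y ++ [p f] with hB
  have hcA : NA.cA p (f :: X, B) = (f :: X).filter (fun t => decide (p t ∈ B)) := rfl
  have hcB : NA.cB p (f :: X, B) = (B.filter (fun t => decide (p t ∈ f :: X))).map p := rfl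
  rw [hcA, hcB]
  have hnd := List.nodup_append.1 hw.nd
  have hndU : (f :: (X ++ [p e])).Nodup := hnd.1
  have hndV := List.nodup_cons.1 hnd.2.1
  have hndX : (X ++ [p e]).Nodup := (List.nodup_cons.1 hndU).2
  have hpeX : p e ∉ X := fun h1 => (List.nodup_append.1 hndX).2.2 _ h1 _ (List.mem_singleton_self _) rfl
  have hfX : f ∉ X := fun h1 => (List.nodup_cons.1 hndU).1 (List.mem_append_left _ h1)
  have hfe : f ≠ p e := fun h1 => (List.nodup_cons.1 hndU).1 (List.mem_append_right _ (by rw [h1]; exact List.mem_singleton_self _))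
  have hpfY : p f ∉ Y := fun h1 => (List.nodup_append.1 hndV.2).2.2 _ h1 _ (List.mem_singleton_self _) rfl
  have heB : e ∉ B := hndV.1
  have hfB : p f ∈ e :: B := by rw [hB]; simp
  obtain ⟨L₁, L₂, a, b, hdec, hsd, hc1, hc2, hl1, hl2⟩ := decode_S2 (h := h) (A := X) (B := B) hw hfB
  -- the skeletons
  have ha : a = (f :: X ++ [p e]).filter (fun t => decide (p t ∈ e :: B)) := by
    have h1 := congrArg Prod.fst hdec
    simp only at h1
    rw [h1]
    symm
    apply filter_ww
    · intro t ht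
      have h2 := hsd.dc.m1 t ht
      have h3 := congrArg Prod.snd hdec
      simp only at h3
      rw [h3]
      exact decide_eq_true (hsd.dc.mem2.2 (Or.inl h2))
    · intro t ht
      exact decide_eq_false (hc1 t ht)
  have hb : b = (e :: B).filter (fun t => decide (p t ∈ f :: X ++ [p e])) := by
    have h1 := congrArg Prod.snd hdec
    simp only at h1
    rw [h1]
    symm
    apply filter_ww
    · intro t ht
      have h2 := hsd.dc.m2 t ht
      have h3 := congrArg Prod.fst hdec
      simp only at h3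
      rw [h3]
      exact decide_eq_true (hsd.dc.mem1.2 (Or.inl h2))
    · intro t ht
      exact decide_eq_false (hc2 t ht)
  have ha2 : a = f :: (X.filter (fun t => decide (p t ∈ B)) ++ [p e]) := by
    rw [ha, List.cons_append, List.filter_cons_of_pos (by simpa using hfB), List.filter_append]
    congr 2
    · apply List.filter_congr
      intro t ht
      have h2 : p t ≠ e := by
        intro h2
        apply hpeX
        rw [← h2, h]
        exact ht
      simp [h2]
    · simp [h]
  have hb2 : b = (e :: Y.filter (fun t => decide (p t ∈ f :: X))) ++ [p f] := by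
    rw [hb, List.filter_cons_of_pos (by simp), List.cons_append, hB, List.filter_append]
    congr 2
    · apply List.filter_congr
      intro t ht
      have h1 : p t ≠ p e := by
        intro h1
        have h2 := congrArg p h1
        rw [h, h] at h2
        exact heB (h2 ▸ (by rw [hB]; exact List.mem_append_left _ ht))
      have h3 : (p t ∈ f :: X ++ [p e]) ↔ p t ∈ f :: X := by
        rw [List.mem_append, List.mem_singleton]
        exact ⟨fun h4 => h4.resolve_right h1, Or.inl⟩
      exact decide_eq_decide.2 h3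
    · simp [h]
  have hfil1 : (f :: X).filter (fun t => decide (p t ∈ B)) = f :: X.filter (fun t => decide (p t ∈ B)) :=
    List.filter_cons_of_pos (by rw [hB]; simp)
  have hfil2 : B.filter (fun t => decide (p t ∈ f :: X)) = Y.filter (fun t => decide (p t ∈ f :: X)) ++ [p f] := by
    rw [hB, List.filter_append]
    congr 1
    simp [h]
  subst ha2
  subst hb2
  rw [hfil1, hfil2]
  set A1 := X.filter (fun t => decide (p t ∈ B)) with hA1
  set Bm := Y.filter (fun t => decide (p t ∈ f :: X)) with hBm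
  have hfX' : f ∉ A1 := fun h1 => hfX (List.mem_of_mem_filter h1)
  have hqX : p e ∉ A1 := fun h1 => hpeX (List.mem_of_mem_filter h1)
  have hfY : f ∉ Bm.map p := by
    intro h1
    obtain ⟨t, h2, h3⟩ := List.mem_map.1 h1
    have h4 : t = p f := by
      have := congrArg p h3
      rwa [h] at this
    subst h4
    exact hpfY (List.mem_of_mem_filter h2)
  have hqY : p e ∉ Bm.map p := by
    intro h1
    obtain ⟨t, h2, h3⟩ := List.mem_map.1 h1
    have h4 : t = e := by
      have := congrArg p h3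
      rwa [h, h] at this
    subst h4
    exact heB (by rw [hB]; exact List.mem_append_left _ (List.mem_of_mem_filter h2))
  have hfix : ∀ l : List Ω, f ∉ l → p e ∉ l → l.map (swap f (p e)) = l := by
    intro l h2 h3
    conv_rhs => rw [← List.map_id l]
    apply List.map_congr_left
    intro t ht
    exact swap_apply_of_ne_of_ne (fun h4 => h2 (h4 ▸ ht)) (fun h4 => h3 (h4 ▸ ht))
  refine ⟨L₁, L₂, _, e :: Bm, hdec, hsd, ?_, ?_, ?_, ?_⟩
  · rw [List.map_append, List.map_singleton, swap_apply_right, hfix _ hfX' hqX]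
    exact List.isRotated_append
  · rw [List.map_cons, List.map_cons, swap_apply_right, hfix _ hfY hqY, List.map_append, List.map_singleton, h]
    have h2 : f :: Bm.map p = [f] ++ Bm.map p := rfl
    rw [h2]
    exact List.isRotated_append
  · refine hl1.trans ?_
    rw [nc_eq]
    exact Nat.le_add_right _ _
  · refine hl2.trans ?_
    rw [nc_eq]
    exact Nat.le_add_left _ _

theorem cl_congr {r : Ω → Ω} {K : ℕ} {l A A' B : List Ω} (hA : ∀ t, t ∈ A ↔ t ∈ A') (hm : NA.mu p (A, B) = NA.mu p (A', B))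
    (hcl : Cl p r K l (A, B)) : Cl p r K l (A', B) := by
  intro z hz h1
  have h2 : z ∈ A ++ B := by
    have h3 : z ∈ A' ++ B := hz
    rw [List.mem_append] at h3 ⊢
    rw [hA]
    exact h3
  have h3 := hcl z h2
  rw [hm] at h3
  simp only [hA] at h3
  exact h3 h1

theorem bound_full4 [Fintype Ω] {c K K0 : ℕ} {P : ℕ → ℕ} (hA : HA4 c K K0 P) (h : ∀ t, p (p t) = t) {s₀ : St Ω} (hx₀ : XS p h s₀ s₀)
    (hall : ∀ t, t ∈ s₀.1 ++ s₀.2) {a : ℕ} {t : St Ω} (hr : Reach p a s₀ t) :
    Rn p (N p) (FB4 c K K0 P (s₀.1 ++ s₀.2).length) s₀ t := by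
  set m := (s₀.1 ++ s₀.2).length with hm
  have hcard : Fintype.card Ω = m := by
    rw [hm, ← List.toFinset_card_of_nodup hx₀.wf.nd, ← Finset.card_univ]
    congr 1
    ext t
    simpa using hall t
  -- the last tokens
  obtain ⟨U0, x1, hU0⟩ : ∃ U x, s₀.1 = U ++ [x] := by
    rcases List.eq_nil_or_concat' s₀.1 with h0 | ⟨U, x, h0⟩
    · exact absurd h0 hx₀.n.ne1
    · exact ⟨U, x, h0⟩
  obtain ⟨V0, x2, hV0⟩ : ∃ V x, s₀.2 = V ++ [x] := by
    rcases List.eq_nil_or_concat' s₀.2 with h0 | ⟨V, x, h0⟩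
    · exact absurd h0 hx₀.n.ne2
    · exact ⟨V, x, h0⟩
  have hmpos : 1 ≤ m := by
    rw [hm, hU0]
    simp only [List.length_append, List.length_singleton]
    omega
  -- the involution of the pairs
  obtain ⟨T, hT⟩ : ∃ T : Ω → Ω, T = fun x => (swap (p x1) x2 * mu p h s₀ * swap (p x1) x2) x := ⟨_, rfl⟩
  have hmu2 : mu p h s₀ * mu p h s₀ = 1 := by
    unfold mu
    calc (sh p s₀)⁻¹ * pm p h * sh p s₀ * ((sh p s₀)⁻¹ * pm p h * sh p s₀)
        = (sh p s₀)⁻¹ * (pm p h * pm p h) * sh p s₀ := by group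
      _ = 1 := by
        have h1 : pm p h * pm p h = 1 := by
          ext t
          simp [h]
        rw [h1]
        group
  have hT2 : ∀ x, T (T x) = x := by
    intro x
    rw [hT]
    simp only
    rw [← Perm.mul_apply]
    have h1 : swap (p x1) x2 * mu p h s₀ * swap (p x1) x2 * (swap (p x1) x2 * mu p h s₀ * swap (p x1) x2) = 1 := by
      calc swap (p x1) x2 * mu p h s₀ * swap (p x1) x2 * (swap (p x1) x2 * mu p h s₀ * swap (p x1) x2)
          = swap (p x1) x2 * (mu p h s₀ * (swap (p x1) x2 * swap (p x1) x2) * mu p h s₀) * swap (p x1) x2 := by simp only [mul_assoc]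
        _ = 1 := by rw [swap_mul_self, mul_one, hmu2, mul_one, swap_mul_self]
    rw [h1]
    rfl
  have hTmu : ∀ (e f : Ω) (A B : List Ω), A ≠ [] → XS p h s₀ (A ++ [p e], e :: (B ++ [p f])) → NA.mu p (A, B ++ [p f]) = T := by
    intro e f A B hAne hx
    have he1 : p e = x1 := by
      have h1 := hx.l1
      rw [hU0] at h1
      simp only [List.getLast?_concat, Option.some.injEq] at h1
      exact h1
    have he2 : p f = x2 := by
      have h1 := hx.l2
      rw [hV0] at h1
      have h2 : (e :: (B ++ [p f])).getLast? = some (p f) := by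
        rw [← List.cons_append, List.getLast?_concat]
      rw [h2, List.getLast?_concat] at h1
      exact Option.some.inj h1
    funext t
    rw [NAmu_eq (h := h) hx.wf hAne (ω := p f) List.getLast?_concat, hx.mu, hT, he2, ← he1, h]
  obtain ⟨r, hrC⟩ := exists_can h hT2
  -- the two hubs
  have en4 := reps_one_gen (p := p) (fun A B => Few K0 A B) (K0 + 50) (by
      intro g hgg A B h1
      exact Few.map (g := ⟨g, g, hgg, hgg⟩) hgg h1) (fun D e q ρ => cls_hub7 K0 D e q ρ) (h := h) hx₀ hall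
  have en5 := reps_one_gen (p := p) (fun A B => RR A B) (m + 1) (by
      intro g _ A B h1
      exact Pool.Agent.helper36.WE.RR.map (g := g) h1) (by
      intro D e q ρ
      obtain ⟨H, h1, h2, h3⟩ := cls_hub5 D e q ρ
      refine ⟨H, h1, h2.trans ?_, h3⟩
      have h4 : D.card ≤ Fintype.card Ω := Finset.card_le_univ D
      omega) (h := h) hx₀ hall
  choose en4 hen4 using en4
  choose en5 hen5 using en5
  -- the cargo lists
  have enc4 : ∀ t : Fin 4 → Ω, _ := fun t => cargo_enum4 p T r c K (p x1 :: p x2 :: List.ofFn t) (by simp)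
  have enc3 : ∀ t : Fin 3 → Ω, _ := fun t => cargo_enum4 p T r c K (p x1 :: p x2 :: List.ofFn t) (by simp)
  choose enc4 henc4 using enc4
  choose enc3 henc3 using enc3
  let ι : Type := ((Fin 4 → Ω) × (Fin (MC4 c K) × Fin (K0 + 50))) ⊕ ((Fin 3 → Ω) × (Fin (MC4 c K) × Fin (m + 1)))
  let rep : ι → St Ω := Sum.elim
    (fun k => tk p (enc4 k.1 k.2.1).1 (enc4 k.1 k.2.1).2 (en4 (enc4 k.1 k.2.1).1 (enc4 k.1 k.2.1).2 k.2.2))
    (fun k => tk p (enc3 k.1 k.2.1).1 (enc3 k.1 k.2.1).2 (en5 (enc3 k.1 k.2.1).1 (enc3 k.1 k.2.1).2 k.2.2))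
  have hNR : 0 < NR4 c K K0 m := Nat.succ_pos _
  have hι : Fintype.card ι ≤ NR4 c K K0 m := by
    have h2 : Fintype.card ι = m ^ 4 * (MC4 c K * (K0 + 50)) + m ^ 3 * (MC4 c K * (m + 1)) := by
      show Fintype.card (((Fin 4 → Ω) × (Fin (MC4 c K) × Fin (K0 + 50))) ⊕ ((Fin 3 → Ω) × (Fin (MC4 c K) × Fin (m + 1)))) = _
      rw [Fintype.card_sum, Fintype.card_prod, Fintype.card_prod, Fintype.card_prod, Fintype.card_prod, Fintype.card_fun, Fintype.card_fun,
        Fintype.card_fin, Fintype.card_fin, Fintype.card_fin, Fintype.card_fin, Fintype.card_fin, hcard]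
    rw [h2]
    unfold NR4
    have h3 : m ^ 3 * (MC4 c K * (m + 1)) ≤ m ^ 3 * (MC4 c K * (2 * m)) := by
      apply Nat.mul_le_mul_left
      apply Nat.mul_le_mul_left
      omega
    calc m ^ 4 * (MC4 c K * (K0 + 50)) + m ^ 3 * (MC4 c K * (m + 1)) ≤ m ^ 4 * (MC4 c K * (K0 + 50)) + m ^ 3 * (MC4 c K * (2 * m)) :=
          Nat.add_le_add_left h3 _
      _ = (K0 + 52) * MC4 c K * m ^ 4 := by ring
      _ ≤ (K0 + 52) * MC4 c K * m ^ 4 + 1 := Nat.le_succ _
  refine REPSn' (P := PRn P m) hx₀ hall hNR hι rep ?_ hr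
  intro x hx hpf
  have hlen : (x.1 ++ x.2).length = m := hx.perm.length_eq
  obtain ⟨t1, hds, hrt1⟩ := AHP_DS x hx.wf hx.irr hx.n hpf
  rw [hlen] at hrt1
  have hx1 : XS p h s₀ t1 := hx.reach hrt1.1
  obtain ⟨f, e, X, Y, ht1, hd1, hd2⟩ := id hds
  have ht1' : t1 = (f :: X ++ [p e], e :: (Y ++ [p f])) := ht1
  clear ht1
  subst ht1'
  have hC1 : Can p (NA.mu p (f :: X, Y ++ [p f])) r := by
    rw [hTmu e f (f :: X) Y (List.cons_ne_nil _ _) hx1]
    exact hrC
  obtain ⟨A, B, l, hrt2, hfA, hnc, hclu, hll⟩ := hA Ω p r e f X Y hx1.wf hx1.irr hds hC1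
  have hlen1 : ((f :: X ++ [p e]) ++ (e :: (Y ++ [p f]))).length = m := hx1.perm.length_eq
  rw [hlen1] at hrt2
  have hx2 : XS p h s₀ (A ++ [p e], e :: (B ++ [p f])) := hx1.reachRn hrt2.1
  -- the rotation
  obtain ⟨C, D, rfl⟩ := List.append_of_mem hfA
  have hrot : RT p 0 ((C ++ f :: D) ++ [p e], e :: (B ++ [p f])) (f :: (D ++ C) ++ [p e], e :: (B ++ [p f])) := by
    have h1 := rotR (p := p) e C (f :: D) [] (B ++ [p f]) (by simpa using hx2.n)
    have h2 := rotR (p := p) e (f :: D) C [] (B ++ [p f]) (by simpa using h1.right)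
    exact ⟨by simpa using h1, by simpa using h2⟩
  have hrotA : (C ++ f :: D) ~r (f :: (D ++ C)) := by
    have h1 : (f :: (D ++ C)) = (f :: D) ++ C := rfl
    rw [h1]
    exact List.isRotated_append
  have hmemA : ∀ t, t ∈ C ++ f :: D ↔ t ∈ f :: (D ++ C) := fun t => hrotA.mem_iff
  have hx3 : XS p h s₀ (f :: (D ++ C) ++ [p e], e :: (B ++ [p f])) := hx2.reach hrot.1
  have hm2 := hTmu e f (C ++ f :: D) B (by simp) hx2
  have hm3 := hTmu e f (f :: (D ++ C)) B (by simp) hx3
  have hclu3 : Cl p r K (f :: l) (f :: (D ++ C), B ++ [p f]) := cl_congr hmemA (hm2.trans hm3.symm) hclu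
  have hnc3 : nc p (f :: (D ++ C) ++ [p e], e :: (B ++ [p f])) ≤ c := by
    refine le_trans (le_of_eq ?_) hnc
    rw [nc_eq, nc_eq]
    congr 1
    have hp2 : (f :: (D ++ C) ++ [p e]).Perm (C ++ f :: D ++ [p e]) := (hrotA.perm.symm).append_right _
    have h1 : (fun t => decide (p t ∈ f :: (D ++ C) ++ [p e])) = (fun t => decide (p t ∈ C ++ f :: D ++ [p e])) := by
      funext t
      simp only [hp2.mem_iff]
    simp only [h1]
    exact (hp2.filter _).length_eq
  obtain ⟨L₁, L₂, A', B', hdec, hsd, hcoA, hcoB, hl1, hl2⟩ := shapeDS2 (h := h) hx3.wf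
  -- the fixed tokens
  have he1 : p e = x1 := by
    have h1 := hx3.l1
    rw [hU0] at h1
    simp only [List.getLast?_concat, Option.some.injEq] at h1
    exact h1
  have he2 : p f = x2 := by
    have h1 := hx3.l2
    rw [hV0] at h1
    have h2 : (e :: (B ++ [p f])).getLast? = some (p f) := by
      rw [← List.cons_append, List.getLast?_concat]
    rw [h2, List.getLast?_concat] at h1
    exact Option.some.inj h1
  have hf' : p x2 = f := by rw [← he2, h]
  have he' : p x1 = e := by rw [← he1, h]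
  have hnear : ∀ q, q ∈ L₁ ∨ q ∈ L₂ → q.1 ∈ Wr p T r K (e :: f :: l) ∧ q.2 ∈ Wr p T r K (e :: f :: l) := by
    intro q hq
    have h1 := near_of_Cl (h := h) hx3.wf hdec hsd.dc hclu3 q hq
    rw [hm3] at h1
    exact h1
  have hxx : XS p h s₀ (ww L₁ (f :: A'), ww L₂ (B' ++ [p f])) := by rw [← hdec]; exact hx3
  have hrt : RTn p (PRn P m) x (f :: (D ++ C) ++ [p e], e :: (B ++ [p f])) := (hrt1.toRTn.trans hrt2).trans hrot.toRTn
  have fin : ∀ (k : ι) (φ : Ω → ZMod 2), φ ∈ VS p h s₀ → XS p h s₀ (rep k) →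
      RT p 0 (ww L₁ (f :: A'), ww L₂ (B' ++ [p f])) (rel (act (h := h) hx₀.wf φ) (rep k)) →
      ∃ (k : ι) (φ : Ω → ZMod 2), φ ∈ VS p h s₀ ∧ XS p h s₀ (rep k) ∧ RTn p (PRn P m) x (rel (act (h := h) hx₀.wf φ) (rep k)) := by
    intro k φ h1 h2 h3
    refine ⟨k, φ, h1, h2, ?_⟩
    rw [← hdec] at h3
    exact hrt.trans h3.toRTn
  have hsub : ∀ (l' : List Ω), (∀ y ∈ l, y ∈ l') → ∀ y ∈ e :: f :: l, y ∈ p x1 :: p x2 :: l' := by
    intro l' hl' y hy
    rw [hf', he']
    simp only [List.mem_cons] at hy ⊢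
    rcases hy with hy | hy | hy
    · exact Or.inl hy
    · exact Or.inr (Or.inl hy)
    · exact Or.inr (Or.inr (hl' y hy))
  -- the core
  have hgg : ∀ t, swap f (p e) (swap f (p e) t) = t := fun t => by rw [← Perm.mul_apply, swap_mul_self]; rfl
  have hback : ∀ l1 : List Ω, (l1.map (swap f (p e))).map (swap f (p e)) = l1 := by
    intro l1
    rw [List.map_map]
    conv_rhs => rw [← List.map_id l1]
    exact List.map_congr_left fun t _ => hgg t
  by_cases hR : Few K0 A' (B'.map p)
  · have hl4 : l.length ≤ 4 := by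
      rcases hll with h1 | ⟨h1, _⟩
      · omega
      · exact h1
    obtain ⟨t, ht⟩ := pad_list f hl4
    obtain ⟨j, hj⟩ := henc4 t L₁ L₂ (hl1.trans hnc3) (hl2.trans hnc3) (by
      intro q hq'
      exact ⟨Wr_mono le_rfl (hsub _ ht) (hnear q hq').1, Wr_mono le_rfl (hsub _ ht) (hnear q hq').2⟩)
    obtain ⟨k, φ, h1, h2, h3⟩ := hen4 L₁ L₂ e f A' B' hsd hR hxx
    refine fin (Sum.inl (t, j, k)) φ h1 ?_ ?_
    · simp only [rep, Sum.elim_inl, hj]
      exact h2
    · simp only [rep, Sum.elim_inl, hj]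
      exact h3
  · have hl3 : l.length ≤ 3 := by
      rcases hll with h1 | ⟨_, h1⟩
      · exact h1
      · exfalso
        apply hR
        -- the core of the unrotated pair
        have hnd := List.nodup_append.1 hx2.wf.nd
        have hndA : (C ++ f :: D).Nodup := (List.nodup_append.1 hnd.1).1
        have hndB : (B ++ [p f]).Nodup := (List.nodup_cons.1 hnd.2.1).2
        have hinj : Function.Injective p := fun a b hab => by rw [← h a, hab, h]
        have h2 : (NA.cA p (C ++ f :: D, B ++ [p f])).Nodup := hndA.filter _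
        have h3 : (NA.cB p (C ++ f :: D, B ++ [p f])).Nodup := (hndB.filter _).map hinj
        have h4 : NA.cA p (C ++ f :: D, B ++ [p f]) ~r NA.cA p (f :: (D ++ C), B ++ [p f]) :=
          Pool.Agent.helper32.ATT.rot_filter hrotA _
        have h5 : NA.cB p (C ++ f :: D, B ++ [p f]) = NA.cB p (f :: (D ++ C), B ++ [p f]) := by
          unfold NA.cB
          simp only [hmemA]
        have h6 : Few K0 (NA.cA p (f :: (D ++ C), B ++ [p f])) (NA.cB p (f :: (D ++ C), B ++ [p f])) := by
          rw [← h5]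
          exact Few.rot h2 h3 h4 (List.IsRotated.refl _) h1
        have hn6 : (NA.cA p (f :: (D ++ C), B ++ [p f])).Nodup := h4.nodup_iff.1 h2
        have hn7 : (NA.cB p (f :: (D ++ C), B ++ [p f])).Nodup := by rw [← h5]; exact h3
        have h7 := Few.map (g := swap f (p e)) hgg (Few.rot hn6 hn7 hcoA.symm hcoB.symm h6)
        rw [hback, hback] at h7
        exact h7
    have hRR : RR A' (B'.map p) := by
      by_contra h1
      exact hR (Or.inl h1)
    obtain ⟨t, ht⟩ := pad_list f hl3
    obtain ⟨j, hj⟩ := henc3 t L₁ L₂ (hl1.trans hnc3) (hl2.trans hnc3) (by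
      intro q hq'
      exact ⟨Wr_mono le_rfl (hsub _ ht) (hnear q hq').1, Wr_mono le_rfl (hsub _ ht) (hnear q hq').2⟩)
    obtain ⟨k, φ, h1, h2, h3⟩ := hen5 L₁ L₂ e f A' B' hsd hRR hxx
    refine fin (Sum.inr (t, j, k)) φ h1 ?_ ?_
    · simp only [rep, Sum.elim_inr, hj]
      exact h2
    · simp only [rep, Sum.elim_inr, hj]
      exact h3

end

/-- THE BOUND FOR IRREDUCIBLE TWO SIDED STATES, run model, few clusters, canonical tokens. -/
theorem TBF4 {c K K0 : ℕ} {P : ℕ → ℕ} (hA : HA4 c K K0 P) : TBn (FB4 c K K0 P) := by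
  classical
  intro Ω p s t a hw hi hr
  let S : Set Ω := {x | x ∈ s.1 ++ s.2}
  have hS : S.Finite := List.finite_toSet _
  haveI : Fintype S := hS.fintype
  let p' : S → S := fun x => ⟨p x.1, hw.cl x.1 x.2⟩
  have hp' : ∀ x : S, (p' x : Ω) = p x := fun _ => rfl
  have h' : ∀ x : S, p' (p' x) = x := fun x => Subtype.ext (hw.inv x.1)
  let s' : St S := (s.1.attachWith (fun x => x ∈ S) (fun x hx => List.mem_append_left _ hx), s.2.attachWith (fun x => x ∈ S) (fun x hx => List.mem_append_right _ hx))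
  have hs' : s = vl s' := by
    simp only [s', vl]
    rw [List.attachWith_map_subtype_val, List.attachWith_map_subtype_val]
  have hmem : ∀ x : S, x ∈ s'.1 ++ s'.2 := by
    intro x
    rcases List.mem_append.1 x.2 with h1 | h1
    · apply List.mem_append_left
      simp only [s', List.mem_attachWith]
      exact h1
    · apply List.mem_append_right
      simp only [s', List.mem_attachWith]
      exact h1
  have happ : (s'.1 ++ s'.2).map Subtype.val = s.1 ++ s.2 := by
    rw [List.map_append]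
    conv_rhs => rw [hs']
    rfl
  have hw' : WF p' s' := by
    refine ⟨?_, fun x _ => hmem _, h', ?_⟩
    · have h1 := hw.nd
      rw [← happ] at h1
      exact h1.of_map
    · intro x hx
      exact hw.ne x.1 (congrArg Subtype.val hx)
  have hi' : Irr p' s' := by
    intro U1 U2 V1 V2 he h1 h2 h3
    have h4 := hi (U1.map Subtype.val) (U2.map Subtype.val) (V1.map Subtype.val) (V2.map Subtype.val) (by
      rw [← List.map_append, ← List.map_append]
      conv_lhs => rw [hs', he]
      rfl) (fun h5 => h1 (List.map_eq_nil_iff.1 h5)) (fun h5 => h2 (List.map_eq_nil_iff.1 h5)) (by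
      intro x hx
      rw [← List.map_append] at hx ⊢
      obtain ⟨y, hy, rfl⟩ := List.mem_map.1 hx
      rw [← hp']
      exact List.mem_map_of_mem (h3 y hy))
    exact ⟨List.map_eq_nil_iff.1 h4.1, List.map_eq_nil_iff.1 h4.2⟩
  obtain ⟨t', ht', hr'⟩ := Reach.lift hp' hr s' hs'
  have hx₀ : XS p' h' s' s' := XS.refl hw' hi' hr'.left
  have h1 := bound_full4 hA h' hx₀ hmem hr'
  have hlen : (s'.1 ++ s'.2).length = (s.1 ++ s.2).length := by
    rw [← happ, List.length_map]
  rw [hlen] at h1
  -- back to the tokens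
  have trv : ∀ {x : S} {u v : St S}, Tr p' x u v → Tr p (x : Ω) (vl u) (vl v) := by
    have key : ∀ {x : S} {u v : St S}, TrL p' x u v → TrL p (x : Ω) (vl u) (vl v) := by
      intro x u v hx
      cases hx with
      | mk y A B V =>
        simp only [vl, List.map_cons, List.map_append, hp']
        exact TrL.mk _ _ _ _
    intro x u v hx
    rcases hx with hx | hx
    · exact Or.inl (key hx)
    · exact Or.inr (key hx)
  have runv : ∀ {x : S} {u v : St S}, Run p' (N p') x u v → Run p (N p) (x : Ω) (vl u) (vl v) := by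
    intro x u v hx
    induction hx with
    | one hs h ht => exact .one (hs.val hp') (trv h) (ht.val hp')
    | cons hs h _ ih => exact .cons (hs.val hp') (trv h) ih
  have rnv : ∀ {c : ℕ} {u v : St S}, Rn p' (N p') c u v → Rn p (N p) c (vl u) (vl v) := by
    intro c u v hx
    induction hx with
    | refl c u h => exact .refl _ _ (h.val hp')
    | reg hs h _ ih =>
      refine .reg (hs.val hp') ?_ ih
      rcases h with h | h
      · exact Or.inl (h.val hp')
      · exact Or.inr (h.val hp')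
    | run h _ ih => exact .run (runv h) ih
  have h2 := rnv h1
  rwa [← hs', ← ht'] at h2

end NTH
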