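import Pool.Agent.helper14.NTA.ClsHub
import Pool.Agent.helper32.ATT.RRinv

/-!
# MP_c8d30a: at most 49 normal forms in a class, for the states whose core is not run reversed
-/

set_option autoImplicit false

namespace Pool.Agent.helper36.WE

open Equiv Equiv.Perm List
open Pool.Agent.helper32.ATT (RR RRf RR_iff)

/-- at most 49 normal forms for the states which are not run reversed. -/
def NF4_stmt : Prop := ∀ (X : Type) [DecidableEq X] (m : ℕ) (T : Finset X) (ρ : Perm X), T.card = m →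
  ∃ N : Set (Perm X), N.Finite ∧ N.ncard ≤ 49 ∧ ∀ a b, St T ρ a b → ¬ RRf ρ a b →
    ∃ n ≤ m * (m + 6), ∃ a' b', Walk CM n (a, b) (a', b') ∧ formPerm a' ∈ N

variable {X : Type} [DecidableEq X]

/-- at most 49 normal forms. -/
theorem cls_hub4 (hNF : NF4_stmt) (D : Finset X) (e q : X) (ρ : Perm X) :
    ∃ H : Set (List X × List X), H.Finite ∧ H.ncard ≤ 49 ∧
      ∀ A B : List X, Cls D e q ρ (e :: A) (B ++ [e]) → ¬ RR A B → ∃ h ∈ H, ∃ n, Walk Sup n (e :: A, B ++ [e]) h := by
  set T := D.erase e with hT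
  set ρ' := ρ * Equiv.swap e q with hρ'
  obtain ⟨N, hN, hNc, hNw⟩ := hNF X T.card T ρ' rfl
  let Q : List X × List X → Perm X → Prop := fun v σ =>
    ∃ A B, v = (e :: A, B ++ [e]) ∧ St T ρ' A B ∧ A.getLast? = some q ∧ B.getLast? = some q ∧ σ = formPerm A
  let H : Set (List X × List X) := {v | ∃ σ ∈ N, Q v σ}
  obtain ⟨hH, hHc⟩ := ncard_le_of_rel H N hN Q (fun v hv => hv) (by
    rintro v v' σ ⟨A, B, rfl, h1, h4, h5, h3⟩ ⟨A', B', rfl, h1', hA', hB', h3'⟩
    have hAA : A = A' := eq_of_formPerm (h3.symm.trans h3') h1.nodup h1'.nodup h4 hA'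
    have hBB : B = B' := by
      refine eq_of_formPerm ?_ h1.nodupB h1'.nodupB h5 hB'
      have e1 := h1.rho
      rw [← h1'.rho, hAA] at e1
      exact inv_injective (mul_right_cancel e1)
    rw [hAA, hBB])
  refine ⟨H, hH, hHc.trans hNc, ?_⟩
  intro A B hc hRR
  obtain ⟨hst, hcase⟩ := hc.st
  rcases hcase with ⟨rfl, rfl⟩ | ⟨hqA, hqB⟩
  · exact absurd (RR.rev (by simp)) hRR
  · obtain ⟨n2, hn2, a2, b2, hw2, hfin⟩ := hNw _ _ hst (fun h => hRR ((RR_iff hst).2 h))
    have hst2 := hst.walk hw2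
    have hqa2 : q ∈ a2 := by
      rw [← List.mem_toFinset, hst2.supp, ← hst.supp, List.mem_toFinset]
      exact List.mem_of_getLast? hqA
    have hqb2 : q ∈ b2 := hst2.perm.subset hqa2
    obtain ⟨a3, ha3⟩ := exists_rot_last hqa2
    obtain ⟨b3', hb3⟩ := exists_rot_last hqb2
    have hw3 := lift_walk (e := e) n2 hw2 hst.nodup hqA ha3 hb3 List.getLast?_concat
    have hst3 : St T ρ' (a3 ++ [q]) (b3' ++ [q]) := hst2.rot ha3.symm hb3.symm
    refine ⟨(e :: (a3 ++ [q]), (b3' ++ [q]) ++ [e]), ⟨_, hfin, a3 ++ [q], b3' ++ [q], rfl,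
      hst3, List.getLast?_concat, List.getLast?_concat, ?_⟩, 5 * n2 + 1, hw3⟩
    exact (formPerm_eq_of_isRotated hst3.nodup ha3).symm

theorem RR.rotate {a b a' b' : List X} (h : RR a b) (ha : a ~r a') (hb : b ~r b') : RR a' b' := by
  cases h with
  | rev h => exact .rev ((hb.symm.trans h).trans ha.reverse)
  | fix x s h1 h2 h3 => exact .fix x s (ha.symm.trans h1) (hb.symm.trans h2) h3

theorem RR.map {g : X → X} {a b : List X} (h : RR a b) : RR (a.map g) (b.map g) := by
  induction h with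
  | rev h => exact .rev (by rw [← List.map_reverse]; exact h.map g)
  | fix x s h1 h2 _ ih =>
    refine .fix (g x) (g s) ?_ ?_ ih
    · have := h1.map g
      simpa using this
    · have := h2.map g
      simpa using this

end Pool.Agent.helper36.WE
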