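import Pool.Agent.helper14.NTN.Arun
import Pool.Agent.helper14.NTN.Q12D
import Pool.Agent.helper32.RH.Rho
import Pool.Agent.helper51.NF2.Fin

/-!
# MP_c8d30a: the final assembly: Q1 literally from the three parts FIXF, Part I (at most 3 coloured letters), Part II
-/

set_option autoImplicit false

namespace NTH

open Pool.Agent.helper32.RH (RTs)
open Pool.Agent.helper36.WE (Eqn Quadratic size PathLen)

/-- a good pair: the letter of the last token `f` of `B` is mixed, there are a red and a blue letter. -/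
structure GP {Ω : Type} (p : Ω → Ω) (f : Ω) (s : St Ω) : Prop where
  wf : WF p s
  last : s.2.getLast? = some f
  fA : p f ∈ s.1
  red : ∃ o, NA.Red p s o
  blu : ∃ o, NA.Blu p s o

/-- all defects near to `p f` and at most `n` other tokens. -/
def Low {Ω : Type} [DecidableEq Ω] (p r : Ω → Ω) (f : Ω) (K n : ℕ) (s : St Ω) : Prop :=
  ∃ l : List Ω, l.length ≤ n ∧ Cl p r K (p f :: l) s

/-- PART I: at most three coloured letters. -/
def PartI (K C : ℕ) : Prop := ∀ (Ω : Type) [DecidableEq Ω] (p r : Ω → Ω) (f : Ω) (s : St Ω), GP p f s → NTS.D2 p s ≤ 6 →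
  Can p (NA.mu p s) r → ∃ s', RTs p (C * ((s.1 ++ s.2).length + 1) ^ 2) s s' ∧ GP p f s' ∧ NTS.D2 p s' ≤ 6 ∧ Low p r f K 3 s'

/-- PART II: between four and `c / 2` coloured letters. -/
def PartII (c K C : ℕ) : Prop := ∀ (Ω : Type) [DecidableEq Ω] (p r : Ω → Ω) (f : Ω) (s : St Ω), GP p f s → 6 < NTS.D2 p s →
  NTS.D2 p s ≤ c → Can p (NA.mu p s) r → ∃ s', RTs p (C * ((s.1 ++ s.2).length + 1) ^ 2) s s' ∧ GP p f s' ∧
    (NTS.D2 p s' < NTS.D2 p s ∨ (NTS.D2 p s' ≤ c ∧ Low p r f K 3 s'))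

/-- FIXF: the letter of the last token is made mixed. -/
def FixF (c C : ℕ) : Prop := ∀ (Ω : Type) [DecidableEq Ω] (p : Ω → Ω) (e f : Ω) (s : St Ω), WF p (s.1 ++ [p e], e :: s.2) →
  Irr p (s.1 ++ [p e], e :: s.2) → WF p s → s.2.getLast? = some f → (∃ o, NA.Red p s o) → (∃ o, NA.Blu p s o) → NTS.D2 p s ≤ 1200 →
  ∃ s', RTn p (C * ((s.1 ++ s.2).length + 1) ^ 2) (s.1 ++ [p e], e :: s.2) (s'.1 ++ [p e], e :: s'.2) ∧ GP p f s' ∧ NTS.D2 p s' ≤ c

section
variable {Ω : Type} [DecidableEq Ω] {p : Ω → Ω}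

theorem fresh_of_wf {e : Ω} {s : St Ω} (hw : WF p (s.1 ++ [p e], e :: s.2)) : e ∉ s.1 ++ s.2 ∧ p e ∉ s.1 ++ s.2 := by
  have hnd := List.nodup_append.1 hw.nd
  have h1 : (s.1 ++ [p e]).Nodup := hnd.1
  have h2 : (e :: s.2).Nodup := hnd.2.1
  have h3 : ∀ t, t ∈ s.1 ++ [p e] → t ∉ e :: s.2 := fun t h4 h5 => hnd.2.2 t h4 t h5 rfl
  refine ⟨fun h => ?_, fun h => ?_⟩
  · rcases List.mem_append.1 h with h | h
    · exact h3 e (List.mem_append_left _ h) List.mem_cons_self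
    · exact (List.nodup_cons.1 h2).1 h
  · rcases List.mem_append.1 h with h | h
    · exact (List.nodup_append.1 h1).2.2 _ h _ (List.mem_singleton_self _) rfl
    · exact h3 (p e) (List.mem_append_right _ (List.mem_singleton_self _)) (List.mem_cons_of_mem _ h)

theorem mu_rtn {e f : Ω} {K : ℕ} {s s' : St Ω} (hw : WF p (s.1 ++ [p e], e :: s.2))
    (hr : RTn p K (s.1 ++ [p e], e :: s.2) (s'.1 ++ [p e], e :: s'.2)) (h1 : s.1 ≠ [])
    (h2 : s'.1 ≠ []) (h3 : s.2.getLast? = some f) (h4 : s'.2.getLast? = some f) : NA.mu p s' = NA.mu p s := by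
  obtain ⟨a, ha⟩ := hr.1.toReach
  have hw' : WF p (s'.1 ++ [p e], e :: s'.2) := hw.reach ha
  have hm : mu p hw.inv (s'.1 ++ [p e], e :: s'.2) = mu p hw.inv (s.1 ++ [p e], e :: s.2) := mu_reach hw.inv hw ha
  funext t
  have e1 := NAmu_eq (h := hw.inv) (e := e) (A := s.1) (B := s.2) hw h1 h3 t
  have e2 := NAmu_eq (h := hw.inv) (e := e) (A := s'.1) (B := s'.2) hw' h2 h4 t
  rw [hm] at e2
  exact e2.trans e1.symm

theorem len_reach {e : Ω} {s s' : St Ω} {a : ℕ} (h : Rn p (N p) a (s.1 ++ [p e], e :: s.2) (s'.1 ++ [p e], e :: s'.2)) :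
    (s'.1 ++ s'.2).length = (s.1 ++ s.2).length := by
  obtain ⟨b, hb⟩ := h.toReach
  have h1 := hb.perm.length_eq
  simp only [List.length_append, List.length_cons, List.length_nil] at h1 ⊢
  omega

theorem nc_pair {e : Ω} {s : St Ω} (hw : WF p (s.1 ++ [p e], e :: s.2)) : nc p (s.1 ++ [p e], e :: s.2) = NTS.D2 p s := by
  rw [← NA.D2_nc]
  exact NA.D2_real hw.inv hw.ne (A := s.1) (B := s.2) hw

/-- the loop: drops with PART II, the end with PART I. -/
theorem loop {c K C1 C2 : ℕ} (h1 : PartI K C1) (h2 : PartII c K C2) (hc : 6 ≤ c) {r : Ω → Ω} {e f : Ω} {m0 : Ω → Ω} (hC : Can p m0 r) (L : ℕ) :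
    ∀ (n : ℕ) (s : St Ω), n ≤ c → NTS.D2 p s ≤ n → WF p (s.1 ++ [p e], e :: s.2) → GP p f s → (s.1 ++ s.2).length = L →
      NA.mu p s = m0 → ∃ s', RTn p ((n * C2 + C1) * (L + 1) ^ 2) (s.1 ++ [p e], e :: s.2) (s'.1 ++ [p e], e :: s'.2) ∧
        GP p f s' ∧ NTS.D2 p s' ≤ c ∧ Low p r f K 3 s' := by
  intro n
  induction n with
  | zero =>
    intro s hn hD hw hg hL hm
    obtain ⟨s', h3, h4, h5, h6⟩ := h1 Ω p r f s hg (by omega) (by rw [hm]; exact hC)
    obtain ⟨he, he'⟩ := fresh_of_wf hw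
    refine ⟨s', (h3 e he he').mono ?_, h4, h5.trans hc, h6⟩
    rw [hL]
    exact Nat.mul_le_mul_right _ (by omega)
  | succ n ih =>
    intro s hn hD hw hg hL hm
    obtain ⟨he, he'⟩ := fresh_of_wf hw
    by_cases h6 : NTS.D2 p s ≤ 6
    · obtain ⟨s', h3, h4, h5, h7⟩ := h1 Ω p r f s hg h6 (by rw [hm]; exact hC)
      refine ⟨s', (h3 e he he').mono ?_, h4, h5.trans hc, h7⟩
      rw [hL]
      exact Nat.mul_le_mul_right _ (by omega)
    · obtain ⟨s', h3, h4, h5⟩ := h2 Ω p r f s hg (by omega) (by omega) (by rw [hm]; exact hC)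
      have h3e := h3 e he he'
      rcases h5 with h5 | ⟨h5, h7⟩
      · obtain ⟨a, ha⟩ := h3e.1.toReach
        have hw' : WF p (s'.1 ++ [p e], e :: s'.2) := hw.reach ha
        have hne : s.1 ≠ [] := List.ne_nil_of_mem hg.fA
        have hne' : s'.1 ≠ [] := List.ne_nil_of_mem h4.fA
        have hm' : NA.mu p s' = m0 := (mu_rtn hw h3e hne hne' hg.last h4.last).trans hm
        rw [hL] at h3e
        obtain ⟨s'', h8, h9, h10, h11⟩ := ih s' (by omega) (by omega) hw' h4 ((len_reach h3e.1).trans hL) hm'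
        refine ⟨s'', (h3e.trans h8).mono ?_, h9, h10, h11⟩
        have : (n + 1) * C2 + C1 = C2 + (n * C2 + C1) := by ring
        rw [this, Nat.add_mul C2]
      · rw [hL] at h3e
        refine ⟨s', h3e.mono (Nat.mul_le_mul_right _ ?_), h4, h5, h7⟩
        nlinarith

end

/-- (T) from the three parts. -/
theorem TT_of {c K C0 C1 C2 : ℕ} (hF : FixF c C0) (h1 : PartI K C1) (h2 : PartII c K C2) (hc : 6 ≤ c) :
    TT c K 0 (fun m => (C0 + (c * C2 + C1)) * (m + 1) ^ 2) := by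
  intro Ω _ p r e f A B hw hi hwp hir hr hb hl hD hC
  obtain ⟨s1, h3e, h4, h5⟩ := hF Ω p e (p f) (A, B) hw hi hwp hl hr hb hD
  obtain ⟨a, ha⟩ := h3e.1.toReach
  have hw1 : WF p (s1.1 ++ [p e], e :: s1.2) := hw.reach ha
  have hne : (A, B).1 ≠ [] := by
    obtain ⟨o, ho, _⟩ := hr
    exact List.ne_nil_of_mem ho
  have hm' : NA.mu p s1 = NA.mu p (A, B) := mu_rtn (s := (A, B)) hw h3e hne (List.ne_nil_of_mem h4.fA) hl h4.last
  obtain ⟨s2, h6, h7, h8, h9⟩ := loop h1 h2 hc hC ((A, B).1 ++ (A, B).2).length c s1 le_rfl h5 hw1 h4 (len_reach (s := (A, B)) h3e.1) hm'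
  obtain ⟨b, hb2⟩ := h6.1.toReach
  have hw2 : WF p (s2.1 ++ [p e], e :: s2.2) := hw1.reach hb2
  obtain ⟨Y, hY⟩ := List.getLast?_eq_some_iff.mp h7.last
  obtain ⟨l, hl1, hl2⟩ := h9
  rw [hw.inv] at hl2
  obtain ⟨A2, B2⟩ := s2
  simp only at hY h6 hl2 hw2
  subst hY
  have hfA : f ∈ A2 := by
    have := h7.fA
    simp only at this
    rwa [hw.inv] at this
  refine ⟨A2, Y, l, (h3e.trans h6).mono ?_, hfA, ?_, hl2, Or.inl hl1⟩
  · have hle : ((A, B).1 ++ (A, B).2).length ≤ ((A ++ [p e]) ++ (e :: B)).length := by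
      simp only [List.length_append, List.length_cons, List.length_nil]
      omega
    have h10 : (((A, B).1 ++ (A, B).2).length + 1) ^ 2 ≤ (((A ++ [p e]) ++ (e :: B)).length + 1) ^ 2 := Nat.pow_le_pow_left (by omega) 2
    rw [← Nat.add_mul]
    exact Nat.mul_le_mul_left _ h10
  · rw [nc_pair (s := (A2, Y ++ [p f])) hw2]
    exact h8

/-- Q1 LITERALLY from the three parts. -/
theorem Q1_of {c K C0 C1 C2 : ℕ} (hF : FixF c C0) (h1 : PartI K C1) (h2 : PartII c K C2) (hc : 6 ≤ c) :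
    ∃ C : ℕ, ∀ (X A : Type) [DecidableEq X] [DecidableEq A] (E v₁ v₂ : Eqn X A), Quadratic E →
      Pool.Agent.helper36.WE.Reach E v₁ → Pool.Agent.helper36.WE.Reach v₁ v₂ →
        ∃ n, n ≤ C * size E ^ 12 ∧ PathLen n v₁ v₂ := by
  refine Q12_of4 (KP := 80 + (C0 + (c * C2 + C1))) Pool.Agent.helper51.UG.segB ?_ (HA4_of (TT_of hF h1 h2 hc))
  intro m
  have h3 : 2 * (m * (10 * m + 30)) ≤ 80 * (m + 1) ^ 2 := by nlinarith
  have h4 : (80 + (C0 + (c * C2 + C1))) * (m + 1) ^ 2 = 80 * (m + 1) ^ 2 + (C0 + (c * C2 + C1)) * (m + 1) ^ 2 := by ring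
  rw [h4]
  exact Nat.add_le_add_right h3 _

end NTH
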