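import Pool.Agent.helper14.NTN.Cl4B
import Pool.Agent.helper14.NTN.Q12D

/-!
# MP_c8d30a: the bound for irreducible two sided states from the relaxed (A_2), the letter of the last token may be coloured
-/

set_option autoImplicit false

namespace NTH

open Equiv
open Pool.Agent.helper36.WE (rho Cls Sup SupL Walk cls_hub5 cls_hub7 NF4_stmt Few kk kk_rot kk_map)
open Pool.Agent.helper32.ATT (RR)

/-- (A_2) RELAXED: every double standard state has a round trip with `P m` runs to a pair with at most `c` coloured tokens, all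
defects near to `f` and at most `3` other tokens. The letter of the last token may be coloured. -/
def HA5 (c K : ℕ) (P : ℕ → ℕ) : Prop := ∀ (Ω : Type) [DecidableEq Ω] (p r : Ω → Ω) (e f : Ω) (X Y : List Ω),
  WF p (f :: X ++ [p e], e :: (Y ++ [p f])) → Irr p (f :: X ++ [p e], e :: (Y ++ [p f])) → DS p (f :: X ++ [p e], e :: (Y ++ [p f])) →
  Can p (NA.mu p (f :: X, Y ++ [p f])) r →
  ∃ A B l : List Ω, RTn p (P ((f :: X ++ [p e]) ++ (e :: (Y ++ [p f]))).length) (f :: X ++ [p e], e :: (Y ++ [p f])) (A ++ [p e], e :: B) ∧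
    A ≠ [] ∧ B.getLast? = some (p f) ∧ nc p (A ++ [p e], e :: B) ≤ c ∧ Cl p r K (f :: l) (A, B) ∧ l.length ≤ 3

section
variable {Ω : Type} [DecidableEq Ω] {p : Ω → Ω}

/-- the cargo of a state is near to the clusters. -/
theorem near5 {h : ∀ t, p (p t) = t} {r : Ω → Ω} {K : ℕ} {e f : Ω} {X Y l : List Ω} (hw : WF p (f :: X ++ [p e], e :: Y))
    {L₁ L₂ : List (Ω × Ω)} {a b : List Ω} (hdec : (f :: X ++ [p e], e :: Y) = (ww L₁ a, ww L₂ b))
    (hd : Dc p L₁ L₂ a b) (hcl : Cl p r K l (f :: X, Y)) (q : Ω × Ω) (hq : q ∈ L₁ ∨ q ∈ L₂) :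
    q.1 ∈ Wr p (NA.mu p (f :: X, Y)) r K (e :: l) ∧ q.2 ∈ Wr p (NA.mu p (f :: X, Y)) r K (e :: l) := by
  have hU : f :: X ++ [p e] = ww L₁ a := congrArg Prod.fst hdec
  have hV : e :: Y = ww L₂ b := congrArg Prod.snd hdec
  have hnd := List.nodup_append.1 hw.nd
  have hndU : (f :: X ++ [p e]).Nodup := hnd.1
  have hndV : (e :: Y).Nodup := hnd.2.1
  have hdj' : ∀ t, t ∈ f :: X ++ [p e] → t ∉ e :: Y := fun t h1 h2 => hnd.2.2 t h1 t h2 rfl
  have hdj : ∀ t, t ∈ f :: X → t ∉ Y := fun t h1 h2 => hdj' t (List.mem_append_left _ h1) (List.mem_cons_of_mem _ h2)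
  -- coloured tokens
  have hc1 : ∀ z ∈ L₁.map Prod.snd, z ∈ f :: X ∧ p z ∈ f :: X := by
    intro z hz
    have h1 : z ∈ f :: X ++ [p e] := by rw [hU]; exact hd.mem1.2 (Or.inr hz)
    have h2 : p z ∈ f :: X ++ [p e] := by rw [hU]; exact hd.mem1.2 (Or.inr (hd.col1 hz))
    have he : e ∉ f :: X ++ [p e] := fun h3 => hdj' e h3 List.mem_cons_self
    have h3 : z ≠ p e := by
      rintro rfl
      rw [h] at h2
      exact he h2
    have h4 : p z ≠ p e := by
      intro h4
      have := congrArg p h4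
      rw [h, h] at this
      exact he (this ▸ h1)
    exact ⟨(List.mem_append.1 h1).resolve_right (by simpa using h3), (List.mem_append.1 h2).resolve_right (by simpa using h4)⟩
  have hc2 : ∀ z ∈ L₂.map Prod.snd, z ∈ Y ∧ p z ∈ Y := by
    intro z hz
    have h1 : z ∈ e :: Y := by rw [hV]; exact hd.mem2.2 (Or.inr hz)
    have h2 : p z ∈ e :: Y := by rw [hV]; exact hd.mem2.2 (Or.inr (hd.mir.col1 hz))
    have he : p e ∉ e :: Y := fun h3 => hdj' (p e) (List.mem_append_right _ (List.mem_singleton_self _)) h3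
    have h3 : z ≠ e := by
      rintro rfl
      exact he h2
    have h4 : p z ≠ e := by
      intro h4
      have h5 : p e = z := by rw [← h4, h]
      apply he
      rw [h5]
      exact h1
    exact ⟨(List.mem_cons.1 h1).resolve_left h3, (List.mem_cons.1 h2).resolve_left h4⟩
  have hbase : ∀ z, z ∈ (f :: X) ++ (Y) → ((z ∈ f :: X ↔ p z ∈ f :: X) ∨ (z ∈ f :: X ↔ NA.mu p (f :: X, Y) z ∈ f :: X)) →
      z ∈ Wr p (NA.mu p (f :: X, Y)) r K (e :: l) := fun z h1 h2 =>
    Wr_mono le_rfl (fun y hy => List.mem_cons_of_mem _ hy) (hcl z h1 h2)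
  rcases hq with hq | hq
  · have hz := hc1 q.2 (List.mem_map_of_mem (f := Prod.snd) hq)
    refine ⟨?_, hbase _ (List.mem_append_left _ hz.1) (Or.inl ⟨fun _ => hz.2, fun _ => hz.1⟩)⟩
    obtain ⟨C, z', D, h1, h2⟩ := ground_split (hd.g1 q hq) hq
    obtain ⟨h3, h4⟩ := hc1 z' h2
    rw [← hU] at h1
    -- the last token is not coloured
    obtain ⟨D', rfl⟩ : ∃ D', D = D' ++ [p e] := by
      rcases List.eq_nil_or_concat' D with rfl | ⟨D', d, rfl⟩
      · exfalso
        have h5 := congrArg List.getLast? h1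
        have h6 : C ++ q.1 :: [z'] = (C ++ [q.1]) ++ [z'] := by simp
        rw [h6, List.getLast?_concat, List.getLast?_concat] at h5
        have h7 := Option.some.inj h5
        have h8 := (List.nodup_append.1 hndU).2.2 z' h3 (p e) (List.mem_singleton_self _)
        exact h8 h7.symm
      · refine ⟨D', ?_⟩
        have h5 := congrArg List.getLast? h1
        have h6 : C ++ q.1 :: z' :: (D' ++ [d]) = (C ++ q.1 :: z' :: D') ++ [d] := by simp
        rw [h6, List.getLast?_concat, List.getLast?_concat] at h5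
        rw [Option.some.inj h5]
    have h5 : f :: X = C ++ q.1 :: z' :: D' := by
      have h6 : C ++ q.1 :: z' :: (D' ++ [p e]) = (C ++ q.1 :: z' :: D') ++ [p e] := by simp
      rw [h6] at h1
      exact List.append_cancel_right h1
    have hn : (C ++ q.1 :: z' :: D').Nodup := by rw [← h5]; exact (List.nodup_append.1 hndU).1
    have h6 : q.1 ∈ f :: X := by rw [h5]; simp
    have h7 : NA.sc (f :: X, Y) q.1 = z' := by
      unfold NA.sc
      simp only [Perm.mul_apply]
      rw [List.formPerm_apply_of_notMem (hdj _ h6), h5, Pool.Agent.helper36.WE.formPerm_adjacent hn]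
    exact hbase _ (List.mem_append_left _ h6) (Or.inr (pred_defect hdj h7 ⟨fun _ => h4, fun _ => h3⟩))
  · have hz := hc2 q.2 (List.mem_map_of_mem (f := Prod.snd) hq)
    have hzA : q.2 ∉ f :: X := fun h1 => hdj _ h1 hz.1
    have hzA' : p q.2 ∉ f :: X := fun h1 => hdj _ h1 hz.2
    refine ⟨?_, hbase _ (List.mem_append_right _ hz.1) (Or.inl ⟨fun h1 => absurd h1 hzA, fun h1 => absurd h1 hzA'⟩)⟩
    obtain ⟨C, z', D, h1, h2⟩ := ground_split (hd.g2 q hq) hq
    obtain ⟨h3, h4⟩ := hc2 z' h2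
    rw [← hV] at h1
    cases C with
    | nil =>
      have h5 : e = q.1 := by
        have := List.head_eq_of_cons_eq h1
        exact this
      rw [← h5]
      exact Wr_base List.mem_cons_self
    | cons c0 C =>
      have h5 : Y = C ++ q.1 :: z' :: D := List.tail_eq_of_cons_eq h1
      have hn : (C ++ q.1 :: z' :: D).Nodup := by rw [← h5]; exact (List.nodup_cons.1 hndV).2
      have h6 : q.1 ∈ Y := by rw [h5]; simp
      have h6' : q.1 ∉ f :: X := fun h7 => hdj _ h7 h6
      have h8 : z' ∉ f :: X := fun h7 => hdj _ h7 h3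
      have h8' : p z' ∉ f :: X := fun h7 => hdj _ h7 h4
      have h7 : NA.sc (f :: X, Y) q.1 = z' := by
        unfold NA.sc
        simp only [Perm.mul_apply]
        rw [h5, Pool.Agent.helper36.WE.formPerm_adjacent hn, List.formPerm_apply_of_notMem h8]
      exact hbase _ (List.mem_append_right _ h6) (Or.inr (pred_defect hdj h7 ⟨fun h9 => absurd h9 h8, fun h9 => absurd h9 h8'⟩))


/-- the inner pair is well formed. -/
theorem wf_pair {e : Ω} {A B : List Ω} (hw : WF p (A ++ [p e], e :: B)) : WF p (A, B) := by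
  have hinv := hw.inv
  have hnd := List.nodup_append.1 hw.nd
  have hdj : ∀ t, t ∈ A ++ [p e] → t ∉ e :: B := fun t h1 h2 => hnd.2.2 t h1 t h2 rfl
  have he : e ∉ A ++ B := by
    intro h
    rcases List.mem_append.1 h with h | h
    · exact hdj e (List.mem_append_left _ h) List.mem_cons_self
    · exact (List.nodup_cons.1 hnd.2.1).1 h
  have he' : p e ∉ A ++ B := by
    intro h
    rcases List.mem_append.1 h with h | h
    · exact (List.nodup_append.1 hnd.1).2.2 _ h _ (List.mem_singleton_self _) rfl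
    · exact hdj (p e) (List.mem_append_right _ (List.mem_singleton_self _)) (List.mem_cons_of_mem _ h)
  refine ⟨?_, ?_, hw.inv, hw.ne⟩
  · have h1 := hw.nd
    simp only at h1
    refine List.Sublist.nodup ?_ h1
    exact (List.sublist_append_left _ _).append (List.sublist_cons_self _ _)
  · intro t ht
    have h1 : t ∈ (A ++ [p e]) ++ (e :: B) := by
      rcases List.mem_append.1 ht with h | h
      · exact List.mem_append_left _ (List.mem_append_left _ h)
      · exact List.mem_append_right _ (List.mem_cons_of_mem _ h)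
    have h2 := hw.cl t h1
    simp only [List.mem_append, List.mem_cons, List.not_mem_nil, or_false] at h2
    rcases h2 with (h2 | h2) | (h2 | h2)
    · exact List.mem_append_left _ h2
    · exact absurd ht (by
        have : t = e := by rw [← hinv t, h2, hinv]
        rw [this]; exact he)
    · exact absurd ht (by
        have : t = p e := by rw [← hinv t, h2]
        rw [this]; exact he')
    · exact List.mem_append_right _ h2

omit [DecidableEq Ω] in
/-- the last mixed token. -/
theorem last_mixed5 {A : List Ω} : ∀ (E : List Ω) (o : Ω), p o ∈ A → ∃ C h E', o :: E = C ++ h :: E' ∧ p h ∈ A ∧ (∀ t ∈ E', p t ∉ A) := by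
  classical
  intro E
  induction E with
  | nil => exact fun o ho => ⟨[], o, [], rfl, ho, by simp⟩
  | cons x E ih =>
    intro o ho
    by_cases hx : ∃ z ∈ x :: E, p z ∈ A
    · obtain ⟨z, hz, hz'⟩ := hx
      by_cases hx1 : p x ∈ A
      · obtain ⟨C, h, E', h1, h2, h3⟩ := ih x hx1
        exact ⟨o :: C, h, E', by rw [h1]; rfl, h2, h3⟩
      · obtain ⟨C, h, E', h1, h2, h3⟩ := ih o ho
        cases C with
        | nil =>
          have h5 := List.head_eq_of_cons_eq h1
          have h6 := List.tail_eq_of_cons_eq h1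
          subst h5
          subst h6
          exfalso
          rcases List.mem_cons.1 hz with rfl | hz
          · exact hx1 hz'
          · exact h3 z hz hz'
        | cons c C =>
          have h5 := List.head_eq_of_cons_eq h1
          have h6 := List.tail_eq_of_cons_eq h1
          exact ⟨o :: x :: C, h, E', by rw [h6]; rfl, h2, h3⟩
    · exact ⟨[], o, x :: E, rfl, ho, fun t ht h1 => hx ⟨t, ht, h1⟩⟩


/-- decoding, `p g` is the last mixed token of the second word. -/
theorem shape5 {h : ∀ t, p (p t) = t} {e g : Ω} {X Y W : List Ω} (hw : WF p (g :: X ++ [p e], e :: (Y ++ p g :: W)))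
    (hW : ∀ t ∈ W, p t ∉ g :: X ++ [p e]) :
    ∃ (L₁ L₂ : List (Ω × Ω)) (A' B' : List Ω), (g :: X ++ [p e], e :: (Y ++ p g :: W)) = (ww L₁ (g :: A'), ww L₂ (B' ++ [p g])) ∧
      Sd p e L₁ L₂ (g :: A') (B' ++ [p g]) ∧
      L₁.length ≤ nc p (g :: X ++ [p e], e :: (Y ++ p g :: W)) ∧ L₂.length ≤ nc p (g :: X ++ [p e], e :: (Y ++ p g :: W)) := by
  set B : List Ω := Y ++ p g :: W with hB
  have hnd := List.nodup_append.1 hw.nd
  have hgB : p g ∈ e :: B := by rw [hB]; simp
  obtain ⟨L₁, L₂, a, b, hdec, hsd, hc1, hc2, hl1, hl2⟩ := decode_S2 (h := h) (A := X) (B := B) hw hgB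
  have ha : a = (g :: X ++ [p e]).filter (fun t => decide (p t ∈ e :: B)) := by
    have h1 := congrArg Prod.fst hdec
    simp only at h1
    rw [h1]
    symm
    apply filter_ww
    · intro t ht
      have h2 := hsd.dc.m1 t ht
      have h3 := congrArg Prod.snd hdec
      simp only at h3
      rw [h3]
      exact decide_eq_true (hsd.dc.mem2.2 (Or.inl h2))
    · intro t ht
      exact decide_eq_false (hc1 t ht)
  have hb : b = (e :: B).filter (fun t => decide (p t ∈ g :: X ++ [p e])) := by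
    have h1 := congrArg Prod.snd hdec
    simp only at h1
    rw [h1]
    symm
    apply filter_ww
    · intro t ht
      have h2 := hsd.dc.m2 t ht
      have h3 := congrArg Prod.fst hdec
      simp only at h3
      rw [h3]
      exact decide_eq_true (hsd.dc.mem1.2 (Or.inl h2))
    · intro t ht
      exact decide_eq_false (hc2 t ht)
  have ha2 : a = g :: ((X ++ [p e]).filter (fun t => decide (p t ∈ e :: B))) := by
    rw [ha, List.cons_append, List.filter_cons_of_pos (by simpa using hgB)]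
  have hW0 : W.filter (fun t => decide (p t ∈ g :: X ++ [p e])) = [] := by
    rw [List.filter_eq_nil_iff]
    intro t ht
    simpa using hW t ht
  have hb2 : b = (e :: Y).filter (fun t => decide (p t ∈ g :: X ++ [p e])) ++ [p g] := by
    have hpg : (fun t => decide (p t ∈ g :: X ++ [p e])) (p g) = true := by simp [h]
    have h2 : (p g :: W).filter (fun t => decide (p t ∈ g :: X ++ [p e])) = [p g] := by
      rw [List.filter_cons_of_pos (p := fun t => decide (p t ∈ g :: X ++ [p e])) hpg, hW0]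
    rw [hb, hB, ← List.cons_append, List.filter_append, h2]
  subst ha2
  subst hb2
  refine ⟨L₁, L₂, _, _, hdec, hsd, ?_, ?_⟩
  · refine hl1.trans ?_
    rw [nc_eq]
    exact Nat.le_add_right _ _
  · refine hl2.trans ?_
    rw [nc_eq]
    exact Nat.le_add_left _ _

theorem bound_full5 [Fintype Ω] {c K : ℕ} {P : ℕ → ℕ} (hA : HA5 c K P) (h : ∀ t, p (p t) = t) {s₀ : St Ω} (hx₀ : XS p h s₀ s₀)
    (hall : ∀ t, t ∈ s₀.1 ++ s₀.2) {a : ℕ} {t : St Ω} (hr : Reach p a s₀ t) :
    Rn p (N p) (FB4 c K 0 P (s₀.1 ++ s₀.2).length) s₀ t := by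
  set m := (s₀.1 ++ s₀.2).length with hm
  have hcard : Fintype.card Ω = m := by
    rw [hm, ← List.toFinset_card_of_nodup hx₀.wf.nd, ← Finset.card_univ]
    congr 1
    ext t
    simpa using hall t
  -- the last tokens
  obtain ⟨U0, x1, hU0⟩ : ∃ U x, s₀.1 = U ++ [x] := by
    rcases List.eq_nil_or_concat' s₀.1 with h0 | ⟨U, x, h0⟩
    · exact absurd h0 hx₀.n.ne1
    · exact ⟨U, x, h0⟩
  obtain ⟨V0, x2, hV0⟩ : ∃ V x, s₀.2 = V ++ [x] := by
    rcases List.eq_nil_or_concat' s₀.2 with h0 | ⟨V, x, h0⟩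
    · exact absurd h0 hx₀.n.ne2
    · exact ⟨V, x, h0⟩
  have hmpos : 1 ≤ m := by
    rw [hm, hU0]
    simp only [List.length_append, List.length_singleton]
    omega
  -- the involution of the pairs
  obtain ⟨T, hT⟩ : ∃ T : Ω → Ω, T = fun x => (swap (p x1) x2 * mu p h s₀ * swap (p x1) x2) x := ⟨_, rfl⟩
  have hmu2 : mu p h s₀ * mu p h s₀ = 1 := by
    unfold mu
    calc (sh p s₀)⁻¹ * pm p h * sh p s₀ * ((sh p s₀)⁻¹ * pm p h * sh p s₀)
        = (sh p s₀)⁻¹ * (pm p h * pm p h) * sh p s₀ := by group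
      _ = 1 := by
        have h1 : pm p h * pm p h = 1 := by
          ext t
          simp [h]
        rw [h1]
        group
  have hT2 : ∀ x, T (T x) = x := by
    intro x
    rw [hT]
    simp only
    rw [← Perm.mul_apply]
    have h1 : swap (p x1) x2 * mu p h s₀ * swap (p x1) x2 * (swap (p x1) x2 * mu p h s₀ * swap (p x1) x2) = 1 := by
      calc swap (p x1) x2 * mu p h s₀ * swap (p x1) x2 * (swap (p x1) x2 * mu p h s₀ * swap (p x1) x2)
          = swap (p x1) x2 * (mu p h s₀ * (swap (p x1) x2 * swap (p x1) x2) * mu p h s₀) * swap (p x1) x2 := by simp only [mul_assoc]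
        _ = 1 := by rw [swap_mul_self, mul_one, hmu2, mul_one, swap_mul_self]
    rw [h1]
    rfl
  have hTmu : ∀ (e f : Ω) (A B : List Ω), A ≠ [] → B.getLast? = some (p f) → XS p h s₀ (A ++ [p e], e :: B) → NA.mu p (A, B) = T := by
    intro e f A B hAne hBl hx
    have he1 : p e = x1 := by
      have h1 := hx.l1
      rw [hU0] at h1
      simp only [List.getLast?_concat, Option.some.injEq] at h1
      exact h1
    have he2 : p f = x2 := by
      have h1 := hx.l2
      rw [hV0] at h1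
      obtain ⟨Y, hY⟩ := List.getLast?_eq_some_iff.mp hBl
      have h2 : (e :: B).getLast? = some (p f) := by
        rw [hY, ← List.cons_append, List.getLast?_concat]
      rw [h2, List.getLast?_concat] at h1
      exact Option.some.inj h1
    funext t
    rw [NAmu_eq (h := h) hx.wf hAne (ω := p f) hBl, hx.mu, hT, he2, ← he1, h]
  obtain ⟨r, hrC⟩ := exists_can h hT2
  -- the two hubs
  have en4 := reps_one_gen (p := p) (fun A B => Few 0 A B) (0 + 50) (by
      intro g hgg A B h1
      exact Few.map (g := ⟨g, g, hgg, hgg⟩) hgg h1) (fun D e q ρ => cls_hub7 0 D e q ρ) (h := h) hx₀ hall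
  have en5 := reps_one_gen (p := p) (fun A B => RR A B) (m + 1) (by
      intro g _ A B h1
      exact Pool.Agent.helper36.WE.RR.map (g := g) h1) (by
      intro D e q ρ
      obtain ⟨H, h1, h2, h3⟩ := cls_hub5 D e q ρ
      refine ⟨H, h1, h2.trans ?_, h3⟩
      have h4 : D.card ≤ Fintype.card Ω := Finset.card_le_univ D
      omega) (h := h) hx₀ hall
  choose en4 hen4 using en4
  choose en5 hen5 using en5
  -- the cargo lists
  have enc3 : ∀ t : Fin 3 → Ω, _ := fun t => cargo_enum4 p T r c K (p x1 :: p x2 :: List.ofFn t) (by simp)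
  choose enc3 henc3 using enc3
  let ι : Type := ((Fin 3 → Ω) × (Fin (MC4 c K) × Fin (0 + 50))) ⊕ ((Fin 3 → Ω) × (Fin (MC4 c K) × Fin (m + 1)))
  let rep : ι → St Ω := Sum.elim
    (fun k => tk p (enc3 k.1 k.2.1).1 (enc3 k.1 k.2.1).2 (en4 (enc3 k.1 k.2.1).1 (enc3 k.1 k.2.1).2 k.2.2))
    (fun k => tk p (enc3 k.1 k.2.1).1 (enc3 k.1 k.2.1).2 (en5 (enc3 k.1 k.2.1).1 (enc3 k.1 k.2.1).2 k.2.2))
  have hNR : 0 < NR4 c K 0 m := Nat.succ_pos _
  have hι : Fintype.card ι ≤ NR4 c K 0 m := by
    have h2 : Fintype.card ι = m ^ 3 * (MC4 c K * (0 + 50)) + m ^ 3 * (MC4 c K * (m + 1)) := by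
      show Fintype.card (((Fin 3 → Ω) × (Fin (MC4 c K) × Fin (0 + 50))) ⊕ ((Fin 3 → Ω) × (Fin (MC4 c K) × Fin (m + 1)))) = _
      rw [Fintype.card_sum, Fintype.card_prod, Fintype.card_prod, Fintype.card_prod, Fintype.card_prod, Fintype.card_fun,
        Fintype.card_fin, Fintype.card_fin, Fintype.card_fin, Fintype.card_fin, hcard]
    rw [h2]
    unfold NR4
    have h3 : m ^ 3 * (MC4 c K * (m + 1)) ≤ m ^ 3 * (MC4 c K * (2 * m)) := by
      apply Nat.mul_le_mul_left
      apply Nat.mul_le_mul_left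
      omega
    have h4 : m ^ 3 * (MC4 c K * (0 + 50)) ≤ m ^ 4 * (MC4 c K * (0 + 50)) :=
      Nat.mul_le_mul_right _ (Nat.pow_le_pow_right hmpos (by omega))
    calc m ^ 3 * (MC4 c K * (0 + 50)) + m ^ 3 * (MC4 c K * (m + 1)) ≤ m ^ 4 * (MC4 c K * (0 + 50)) + m ^ 3 * (MC4 c K * (2 * m)) :=
          Nat.add_le_add h4 h3
      _ = (0 + 52) * MC4 c K * m ^ 4 := by ring
      _ ≤ (0 + 52) * MC4 c K * m ^ 4 + 1 := Nat.le_succ _
  refine REPSn' (P := PRn P m) hx₀ hall hNR hι rep ?_ hr
  intro x hx hpf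
  have hlen : (x.1 ++ x.2).length = m := hx.perm.length_eq
  obtain ⟨t1, hds, hrt1⟩ := AHP_DS x hx.wf hx.irr hx.n hpf
  rw [hlen] at hrt1
  have hx1 : XS p h s₀ t1 := hx.reach hrt1.1
  obtain ⟨f, e, X, Y, ht1, hd1, hd2⟩ := id hds
  have ht1' : t1 = (f :: X ++ [p e], e :: (Y ++ [p f])) := ht1
  clear ht1
  subst ht1'
  have hC1 : Can p (NA.mu p (f :: X, Y ++ [p f])) r := by
    rw [hTmu e f (f :: X) (Y ++ [p f]) (List.cons_ne_nil _ _) List.getLast?_concat hx1]
    exact hrC
  obtain ⟨A, B, l, hrt2, hAne, hBl, hnc, hclu, hll⟩ := hA Ω p r e f X Y hx1.wf hx1.irr hds hC1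
  have hlen1 : ((f :: X ++ [p e]) ++ (e :: (Y ++ [p f]))).length = m := hx1.perm.length_eq
  rw [hlen1] at hrt2
  have hx2 : XS p h s₀ (A ++ [p e], e :: B) := hx1.reachRn hrt2.1
  -- the last mixed token of the second word
  have hBne : B ≠ [] := by
    rintro rfl
    simp at hBl
  have hwp : WF p (A, B) := wf_pair hx2.wf
  obtain ⟨Y1, h0, W, hBW, hg0, hW0⟩ : ∃ Y1 h0 W, B = Y1 ++ h0 :: W ∧ p h0 ∈ A ∧ ∀ t ∈ W, p t ∉ A := by
    have hm1 : ∃ h0 ∈ B, p h0 ∈ A := by
      by_contra hcon
      push Not at hcon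
      apply hBne
      refine (hx2.irr (A ++ [p e]) [] [e] B (by simp) (by simp) (List.cons_ne_nil _ _) ?_).2
      intro t ht
      have h1 : p t ∈ A ++ B := hwp.cl t (List.mem_append_right _ (by simpa using ht))
      rcases List.mem_append.1 h1 with h1 | h1
      · exact absurd h1 (hcon t (by simpa using ht))
      · simpa using h1
    obtain ⟨h0, h1, h2⟩ := hm1
    obtain ⟨B1, B2, hB12⟩ := List.append_of_mem h1
    obtain ⟨C1, h3, E, h4, h5, h6⟩ := last_mixed5 (p := p) (A := A) B2 h0 h2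
    exact ⟨B1 ++ C1, h3, E, by rw [hB12, h4]; simp, h5, h6⟩
  obtain ⟨g, hg⟩ : ∃ g, g = p h0 := ⟨_, rfl⟩
  have hh0 : h0 = p g := by rw [hg, h]
  rw [← hg] at hg0
  subst hBW
  rw [hh0] at hx2 hrt2 hBl hnc hclu hwp
  -- the rotation
  obtain ⟨C, D, rfl⟩ := List.append_of_mem hg0
  have hrot : RT p 0 ((C ++ g :: D) ++ [p e], e :: (Y1 ++ p g :: W)) (g :: (D ++ C) ++ [p e], e :: (Y1 ++ p g :: W)) := by
    have h1 := rotR (p := p) e C (g :: D) [] (Y1 ++ p g :: W) (by simpa using hx2.n)
    have h2 := rotR (p := p) e (g :: D) C [] (Y1 ++ p g :: W) (by simpa using h1.right)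
    exact ⟨by simpa using h1, by simpa using h2⟩
  have hrotA : (C ++ g :: D) ~r (g :: (D ++ C)) := by
    have h1 : (g :: (D ++ C)) = (g :: D) ++ C := rfl
    rw [h1]
    exact List.isRotated_append
  have hmemA : ∀ t, t ∈ C ++ g :: D ↔ t ∈ g :: (D ++ C) := fun t => hrotA.mem_iff
  have hx3 : XS p h s₀ (g :: (D ++ C) ++ [p e], e :: (Y1 ++ p g :: W)) := hx2.reach hrot.1
  have hm2 := hTmu e f (C ++ g :: D) (Y1 ++ p g :: W) (by simp) hBl hx2
  have hm3 := hTmu e f (g :: (D ++ C)) (Y1 ++ p g :: W) (by simp) hBl hx3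
  have hclu3 : Cl p r K (f :: l) (g :: (D ++ C), Y1 ++ p g :: W) := cl_congr hmemA (hm2.trans hm3.symm) hclu
  have hnc3 : nc p (g :: (D ++ C) ++ [p e], e :: (Y1 ++ p g :: W)) ≤ c := by
    refine le_trans (le_of_eq ?_) hnc
    rw [nc_eq, nc_eq]
    congr 1
    have hp2 : (g :: (D ++ C) ++ [p e]).Perm (C ++ g :: D ++ [p e]) := (hrotA.perm.symm).append_right _
    have h1 : (fun t => decide (p t ∈ g :: (D ++ C) ++ [p e])) = (fun t => decide (p t ∈ C ++ g :: D ++ [p e])) := by
      funext t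
      simp only [hp2.mem_iff]
    simp only [h1]
    exact (hp2.filter _).length_eq
  have hW3 : ∀ t ∈ W, p t ∉ g :: (D ++ C) ++ [p e] := by
    intro t ht h1
    rcases List.mem_append.1 h1 with h1 | h1
    · exact hW0 t ht ((hmemA _).2 h1)
    · have h2 : p t = p e := List.mem_singleton.1 h1
      have h3 : t = e := by rw [← h t, h2, h]
      have h4 : (e :: (Y1 ++ p g :: W)).Nodup := (List.nodup_append.1 hx3.wf.nd).2.1
      apply (List.nodup_cons.1 h4).1
      rw [← h3]
      simp [ht]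
  obtain ⟨L₁, L₂, A', B', hdec, hsd, hl1, hl2⟩ := shape5 (h := h) hx3.wf hW3
  -- the fixed tokens
  have he1 : p e = x1 := by
    have h1 := hx3.l1
    rw [hU0] at h1
    simp only [List.getLast?_concat, Option.some.injEq] at h1
    exact h1
  have he2 : p f = x2 := by
    have h1 := hx3.l2
    rw [hV0] at h1
    obtain ⟨Y, hY⟩ := List.getLast?_eq_some_iff.mp hBl
    have h2 : (e :: (Y1 ++ p g :: W)).getLast? = some (p f) := by
      rw [hY, ← List.cons_append, List.getLast?_concat]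
    rw [h2, List.getLast?_concat] at h1
    exact Option.some.inj h1
  have hf' : p x2 = f := by rw [← he2, h]
  have he' : p x1 = e := by rw [← he1, h]
  have hnear : ∀ q, q ∈ L₁ ∨ q ∈ L₂ → q.1 ∈ Wr p T r K (e :: f :: l) ∧ q.2 ∈ Wr p T r K (e :: f :: l) := by
    intro q hq
    have h1 := near5 (h := h) hx3.wf hdec hsd.dc hclu3 q hq
    rw [hm3] at h1
    exact h1
  have hxx : XS p h s₀ (ww L₁ (g :: A'), ww L₂ (B' ++ [p g])) := by rw [← hdec]; exact hx3
  have hrt : RTn p (PRn P m) x (g :: (D ++ C) ++ [p e], e :: (Y1 ++ p g :: W)) := (hrt1.toRTn.trans hrt2).trans hrot.toRTn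
  have fin : ∀ (k : ι) (φ : Ω → ZMod 2), φ ∈ VS p h s₀ → XS p h s₀ (rep k) →
      RT p 0 (ww L₁ (g :: A'), ww L₂ (B' ++ [p g])) (rel (act (h := h) hx₀.wf φ) (rep k)) →
      ∃ (k : ι) (φ : Ω → ZMod 2), φ ∈ VS p h s₀ ∧ XS p h s₀ (rep k) ∧ RTn p (PRn P m) x (rel (act (h := h) hx₀.wf φ) (rep k)) := by
    intro k φ h1 h2 h3
    refine ⟨k, φ, h1, h2, ?_⟩
    rw [← hdec] at h3
    exact hrt.trans h3.toRTn
  have hsub : ∀ (l' : List Ω), (∀ y ∈ l, y ∈ l') → ∀ y ∈ e :: f :: l, y ∈ p x1 :: p x2 :: l' := by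
    intro l' hl' y hy
    rw [hf', he']
    simp only [List.mem_cons] at hy ⊢
    rcases hy with hy | hy | hy
    · exact Or.inl hy
    · exact Or.inr (Or.inl hy)
    · exact Or.inr (Or.inr (hl' y hy))
  obtain ⟨t, ht⟩ := pad_list f hll
  obtain ⟨j, hj⟩ := henc3 t L₁ L₂ (hl1.trans hnc3) (hl2.trans hnc3) (by
    intro q hq'
    exact ⟨Wr_mono le_rfl (hsub _ ht) (hnear q hq').1, Wr_mono le_rfl (hsub _ ht) (hnear q hq').2⟩)
  by_cases hR : RR A' (B'.map p)
  · obtain ⟨k, φ, h1, h2, h3⟩ := hen5 L₁ L₂ e g A' B' hsd hR hxx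
    refine fin (Sum.inr (t, j, k)) φ h1 ?_ ?_
    · simp only [rep, Sum.elim_inr, hj]
      exact h2
    · simp only [rep, Sum.elim_inr, hj]
      exact h3
  · obtain ⟨k, φ, h1, h2, h3⟩ := hen4 L₁ L₂ e g A' B' hsd (Or.inl hR) hxx
    refine fin (Sum.inl (t, j, k)) φ h1 ?_ ?_
    · simp only [rep, Sum.elim_inl, hj]
      exact h2
    · simp only [rep, Sum.elim_inl, hj]
      exact h3

end

/-- THE BOUND FOR IRREDUCIBLE TWO SIDED STATES, run model, few clusters, canonical tokens. -/
theorem TBF5 {c K : ℕ} {P : ℕ → ℕ} (hA : HA5 c K P) : TBn (FB4 c K 0 P) := by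
  classical
  intro Ω p s t a hw hi hr
  let S : Set Ω := {x | x ∈ s.1 ++ s.2}
  have hS : S.Finite := List.finite_toSet _
  haveI : Fintype S := hS.fintype
  let p' : S → S := fun x => ⟨p x.1, hw.cl x.1 x.2⟩
  have hp' : ∀ x : S, (p' x : Ω) = p x := fun _ => rfl
  have h' : ∀ x : S, p' (p' x) = x := fun x => Subtype.ext (hw.inv x.1)
  let s' : St S := (s.1.attachWith (fun x => x ∈ S) (fun x hx => List.mem_append_left _ hx), s.2.attachWith (fun x => x ∈ S) (fun x hx => List.mem_append_right _ hx))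
  have hs' : s = vl s' := by
    simp only [s', vl]
    rw [List.attachWith_map_subtype_val, List.attachWith_map_subtype_val]
  have hmem : ∀ x : S, x ∈ s'.1 ++ s'.2 := by
    intro x
    rcases List.mem_append.1 x.2 with h1 | h1
    · apply List.mem_append_left
      simp only [s', List.mem_attachWith]
      exact h1
    · apply List.mem_append_right
      simp only [s', List.mem_attachWith]
      exact h1
  have happ : (s'.1 ++ s'.2).map Subtype.val = s.1 ++ s.2 := by
    rw [List.map_append]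
    conv_rhs => rw [hs']
    rfl
  have hw' : WF p' s' := by
    refine ⟨?_, fun x _ => hmem _, h', ?_⟩
    · have h1 := hw.nd
      rw [← happ] at h1
      exact h1.of_map
    · intro x hx
      exact hw.ne x.1 (congrArg Subtype.val hx)
  have hi' : Irr p' s' := by
    intro U1 U2 V1 V2 he h1 h2 h3
    have h4 := hi (U1.map Subtype.val) (U2.map Subtype.val) (V1.map Subtype.val) (V2.map Subtype.val) (by
      rw [← List.map_append, ← List.map_append]
      conv_lhs => rw [hs', he]
      rfl) (fun h5 => h1 (List.map_eq_nil_iff.1 h5)) (fun h5 => h2 (List.map_eq_nil_iff.1 h5)) (by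
      intro x hx
      rw [← List.map_append] at hx ⊢
      obtain ⟨y, hy, rfl⟩ := List.mem_map.1 hx
      rw [← hp']
      exact List.mem_map_of_mem (h3 y hy))
    exact ⟨List.map_eq_nil_iff.1 h4.1, List.map_eq_nil_iff.1 h4.2⟩
  obtain ⟨t', ht', hr'⟩ := Reach.lift hp' hr s' hs'
  have hx₀ : XS p' h' s' s' := XS.refl hw' hi' hr'.left
  have h1 := bound_full5 hA h' hx₀ hmem hr'
  have hlen : (s'.1 ++ s'.2).length = (s.1 ++ s.2).length := by
    rw [← happ, List.length_map]
  rw [hlen] at h1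
  -- back to the tokens
  have trv : ∀ {x : S} {u v : St S}, Tr p' x u v → Tr p (x : Ω) (vl u) (vl v) := by
    have key : ∀ {x : S} {u v : St S}, TrL p' x u v → TrL p (x : Ω) (vl u) (vl v) := by
      intro x u v hx
      cases hx with
      | mk y A B V =>
        simp only [vl, List.map_cons, List.map_append, hp']
        exact TrL.mk _ _ _ _
    intro x u v hx
    rcases hx with hx | hx
    · exact Or.inl (key hx)
    · exact Or.inr (key hx)
  have runv : ∀ {x : S} {u v : St S}, Run p' (N p') x u v → Run p (N p) (x : Ω) (vl u) (vl v) := by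
    intro x u v hx
    induction hx with
    | one hs h ht => exact .one (hs.val hp') (trv h) (ht.val hp')
    | cons hs h _ ih => exact .cons (hs.val hp') (trv h) ih
  have rnv : ∀ {c : ℕ} {u v : St S}, Rn p' (N p') c u v → Rn p (N p) c (vl u) (vl v) := by
    intro c u v hx
    induction hx with
    | refl c u h => exact .refl _ _ (h.val hp')
    | reg hs h _ ih =>
      refine .reg (hs.val hp') ?_ ih
      rcases h with h | h
      · exact Or.inl (h.val hp')
      · exact Or.inr (h.val hp')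
    | run h _ ih => exact .run (runv h) ih
  have h2 := rnv h1
  rwa [← hs', ← ht'] at h2

/-- Q1 LITERALLY from the relaxed (A_2) and the bound for regular segments. -/
theorem Q12_of5 {K c Kw KP : ℕ} (hK : SegB K) {P : ℕ → ℕ} (hP : ∀ m, P m ≤ KP * (m + 1) ^ 2) (hA : HA5 c Kw P) :
    ∃ C : ℕ, ∀ (X A : Type) [DecidableEq X] [DecidableEq A] (E v₁ v₂ : Pool.Agent.helper36.WE.Eqn X A), Pool.Agent.helper36.WE.Quadratic E →
      Pool.Agent.helper36.WE.Reach E v₁ → Pool.Agent.helper36.WE.Reach v₁ v₂ →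
        ∃ n, n ≤ C * Pool.Agent.helper36.WE.size E ^ 12 ∧ Pool.Agent.helper36.WE.PathLen n v₁ v₂ := by
  have hT : TBn (fun m => (((0 + 52) * MC4 c Kw + 1) * (5 * KP + 113) + 1) * (m + 1) ^ 7) := by
    intro Ω p s t a hw hi hr
    exact (TBF5 hA Ω p s t a hw hi hr).mono (FB4_le hP _)
  exact ⟨_, fun X A _ _ E v₁ v₂ hq h1 h2 => Q12r hK hT X A E v₁ v₂ hq h1 h2⟩

end NTH
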