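import Pool.Agent.helper14.NTN.Asm
import Pool.Agent.helper14.NTN.Cl5

/-!
# MP_c8d30a: the final assembly, second form: Q1 literally from PART F (the letter of the last token is blue, at least three
coloured letters), Part I (at most 3 coloured letters, the letter of the last token is mixed), Part II (at least 4)
-/

set_option autoImplicit false

namespace NTH

open Pool.Agent.helper32.RH (RTs)
open Pool.Agent.helper36.WE (Eqn Quadratic size PathLen)

/-- (T): from at most `600` coloured letters to few clusters; the letter of the last token may be coloured. -/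
def TT5 (c K : ℕ) (P : ℕ → ℕ) : Prop := ∀ (Ω : Type) [DecidableEq Ω] (p r : Ω → Ω) (e f : Ω) (A B : List Ω),
  WF p (A ++ [p e], e :: B) → Irr p (A ++ [p e], e :: B) → WF p (A, B) → NA.IrB p (A, B) → (∃ o, NA.Red p (A, B) o) → (∃ o, NA.Blu p (A, B) o) →
  B.getLast? = some (p f) → NTS.D2 p (A, B) ≤ 1200 → Can p (NA.mu p (A, B)) r →
  ∃ A' B' l : List Ω, RTn p (P ((A ++ [p e]) ++ (e :: B)).length) (A ++ [p e], e :: B) (A' ++ [p e], e :: B') ∧
    A' ≠ [] ∧ B'.getLast? = some (p f) ∧ nc p (A' ++ [p e], e :: B') ≤ c ∧ Cl p r K (f :: l) (A', B') ∧ l.length ≤ 3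

/-- the relaxed (A_2) from (T) (and (A)). -/
theorem HA5_of {c K : ℕ} {P : ℕ → ℕ} (hT : TT5 c K P) : HA5 c K (fun m => 2 * (m * (10 * m + 30)) + P m) := by
  intro Ω _ p r e f X Y hw hi hd hC
  obtain ⟨f', e', X', Y', hs, hX, hY⟩ := id hd
  have hs1 : f :: (X ++ [p e]) = f' :: (X' ++ [p e']) := congrArg Prod.fst hs
  have hs2 : e :: (Y ++ [p f]) = e' :: (Y' ++ [p f']) := congrArg Prod.snd hs
  injection hs1 with hf hs1
  injection hs2 with he hs2
  subst hf
  subst he
  have hXX : X = X' := List.append_cancel_right hs1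
  have hYY : Y = Y' := List.append_cancel_right hs2
  subst hXX
  subst hYY
  obtain ⟨hw1, hir, t, hpa, hwt, hit, hD, hr, hb, hl⟩ := NA.A_pairs hw hX hY
  obtain ⟨A, B⟩ := t
  have hN : N p (f :: X ++ [p e], e :: (Y ++ [p f])) := by
    obtain ⟨b, hb1, hb2⟩ := hX
    obtain ⟨q, hq1, hq2⟩ := hY
    exact ⟨⟨b, by simp [hb1], by simp [hb2]⟩, ⟨q, by simp [hq1], by simp [hq2]⟩⟩
  have h1 := pa_rtn hw.inv e hpa hN
  simp only at h1 hl
  obtain ⟨a1, ha1⟩ := h1.1.toReach
  have hw2 : WF p (A ++ [p e], e :: B) := hw.reach ha1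
  have hi2 : Irr p (A ++ [p e], e :: B) := Irr.reach hw hi ha1
  have hmu : NA.mu p (A, B) = NA.mu p (f :: X, Y ++ [p f]) := hpa.mu hw1.inv hw1.nd
  obtain ⟨A', B', l, h2, h3, h4, h5, h6, h7⟩ := hT Ω p r e f A B hw2 hi2 hwt hit hr hb hl hD (by rw [hmu]; exact hC)
  have hlen : ((A ++ [p e]) ++ (e :: B)).length = ((f :: X ++ [p e]) ++ (e :: (Y ++ [p f]))).length := by
    have := hpa.perm.length_eq
    simp only [List.length_append, List.length_cons, List.length_nil] at this ⊢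
    omega
  rw [hlen] at h2
  refine ⟨A', B', l, (h1.mono ?_).trans h2, h3, h4, h5, h6, h7⟩
  have hle : ((f :: X) ++ (Y ++ [p f])).length ≤ ((f :: X ++ [p e]) ++ (e :: (Y ++ [p f]))).length := by
    simp only [List.length_append, List.length_cons, List.length_nil]
    omega
  exact Nat.mul_le_mul_left _ (Nat.mul_le_mul hle (by omega))

/-- PART F: the letter of the last token is blue, at least three coloured letters: it becomes mixed, or the number of coloured
letters drops, or all defects are near to few tokens. -/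
def PartF (c K C : ℕ) : Prop := ∀ (Ω : Type) [DecidableEq Ω] (p r : Ω → Ω) (e f : Ω) (s : St Ω), WF p (s.1 ++ [p e], e :: s.2) →
  Irr p (s.1 ++ [p e], e :: s.2) → N p (s.1 ++ [p e], e :: s.2) → s.2.getLast? = some f → p f ∈ s.2 → 4 < NTS.D2 p s →
  NTS.D2 p s ≤ 1200 → Can p (NA.mu p s) r →
  ∃ s', RTn p (C * ((s.1 ++ s.2).length + 1) ^ 2) (s.1 ++ [p e], e :: s.2) (s'.1 ++ [p e], e :: s'.2) ∧ s'.2.getLast? = some f ∧
    ((p f ∈ s'.1 ∧ NTS.D2 p s' ≤ c) ∨ NTS.D2 p s' < NTS.D2 p s ∨ (NTS.D2 p s' ≤ c ∧ Low p r f K 3 s'))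

section
variable {Ω : Type} [DecidableEq Ω] {p : Ω → Ω}

theorem three_of {l : List Ω} {a b t : Ω} (h1 : a ∈ l) (h2 : b ∈ l) (h3 : t ∈ l) (hab : a ≠ b) (hat : a ≠ t) (hbt : b ≠ t) :
    3 ≤ l.length := by
  have hn : [a, b, t].Nodup := by simp [hab, hat, hbt]
  have hs : [a, b, t] ⊆ l := by
    intro x hx
    simp only [List.mem_cons, List.not_mem_nil, or_false] at hx
    rcases hx with rfl | rfl | rfl
    · exact h1
    · exact h2
    · exact h3
  exact (List.Nodup.subperm hn hs).length_le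

theorem two_of {l : List Ω} {a b : Ω} (h1 : a ∈ l) (h2 : b ∈ l) (hab : a ≠ b) : 2 ≤ l.length := by
  have hn : [a, b].Nodup := by simp [hab]
  have hs : [a, b] ⊆ l := by
    intro x hx
    simp only [List.mem_cons, List.not_mem_nil, or_false] at hx
    rcases hx with rfl | rfl
    · exact h1
    · exact h2
  exact (List.Nodup.subperm hn hs).length_le

theorem D2_split (s : St Ω) : NTS.D2 p s = (s.1.filter (fun t => decide (p t ∈ s.1))).length + (s.2.filter (fun t => decide (p t ∈ s.2))).length := by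
  rw [← List.countP_eq_length_filter, ← List.countP_eq_length_filter]
  unfold NTS.D2
  congr 1
  · apply List.countP_congr
    intro t _
    simp only [decide_eq_true_iff]
  · apply List.countP_congr
    intro t _
    simp only [decide_eq_true_iff]

/-- one red letter, the other coloured letter is the letter of the last token: three other tokens are enough. -/
theorem low_two {r : Ω → Ω} {f : Ω} {s : St Ω} (hw : WF p s) (hl : s.2.getLast? = some f) (hf : p f ∈ s.2) (hr : ∃ o, NA.Red p s o)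
    (hD : NTS.D2 p s ≤ 4) : Low p r f 1 3 s := by
  obtain ⟨A, B⟩ := s
  obtain ⟨c, hc, hc'⟩ := hr
  simp only at hc hc' hl hf
  have hinv := hw.inv
  have hne := hw.ne
  have hdj : ∀ t, t ∈ A → t ∉ B := fun t h1 h2 => (List.nodup_append.1 hw.nd).2.2 t h1 t h2 rfl
  have hfB : f ∈ B := by
    obtain ⟨Y, hY⟩ := List.getLast?_eq_some_iff.mp hl
    rw [hY]
    simp
  have hS := D2_split (p := p) (A, B)
  simp only at hS
  have hfA : ∀ t, t ∈ A → p t ∈ A → t ∈ A.filter (fun t => decide (p t ∈ A)) := fun t h1 h2 => List.mem_filter.2 ⟨h1, decide_eq_true h2⟩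
  have hfB' : ∀ t, t ∈ B → p t ∈ B → t ∈ B.filter (fun t => decide (p t ∈ B)) := fun t h1 h2 => List.mem_filter.2 ⟨h1, decide_eq_true h2⟩
  have hcc : c ∈ A.filter (fun t => decide (p t ∈ A)) := hfA c hc hc'
  have hcc' : p c ∈ A.filter (fun t => decide (p t ∈ A)) := hfA _ hc' (by rw [hinv]; exact hc)
  have hff : f ∈ B.filter (fun t => decide (p t ∈ B)) := hfB' f hfB hf
  have hff' : p f ∈ B.filter (fun t => decide (p t ∈ B)) := hfB' _ hf (by rw [hinv]; exact hfB)
  have h2a := two_of hcc hcc' (fun h1 => hne c h1.symm)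
  have h2b := two_of hff hff' (fun h1 => hne f h1.symm)
  have hredA : ∀ w, w ∈ A → p w ∈ A → w = c ∨ w = p c := by
    intro w h1 h2
    by_contra hcon
    push Not at hcon
    have := three_of hcc hcc' (hfA w h1 h2) (fun h3 => hne c h3.symm) (fun h3 => hcon.1 h3.symm) (fun h3 => hcon.2 h3.symm)
    omega
  have hbluB : ∀ w, w ∈ B → p w ∈ B → w = f ∨ w = p f := by
    intro w h1 h2
    by_contra hcon
    push Not at hcon
    have := three_of hff hff' (hfB' w h1 h2) (fun h3 => hne f h3.symm) (fun h3 => hcon.1 h3.symm) (fun h3 => hcon.2 h3.symm)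
    omega
  have hcol : ∀ w, w ∈ A ++ B → (w ∈ A ↔ p w ∈ A) → w = c ∨ w = p c ∨ w = f ∨ w = p f := by
    intro w h1 h2
    by_cases h3 : w ∈ A
    · rcases hredA w h3 (h2.1 h3) with h4 | h4
      · exact Or.inl h4
      · exact Or.inr (Or.inl h4)
    · have h4 : w ∈ B := (List.mem_append.1 h1).resolve_left h3
      have h5 : p w ∈ B := by
        rcases List.mem_append.1 (hw.cl w h1) with h6 | h6
        · exact absurd (h2.2 h6) h3
        · exact h6
      rcases hbluB w h4 h5 with h6 | h6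
      · exact Or.inr (Or.inr (Or.inl h6))
      · exact Or.inr (Or.inr (Or.inr h6))
  refine ⟨[c, (NA.sc (A, B)).symm c, (NA.sc (A, B)).symm f], by simp, ?_⟩
  intro z hz hdef
  set q := NA.mu p (A, B) with hq
  set l : List Ω := [p f, c, (NA.sc (A, B)).symm c, (NA.sc (A, B)).symm f] with hl2
  have b1 : p f ∈ Wr p q r 0 l := by simp [Wr, l]
  have b2 : c ∈ Wr p q r 0 l := by simp [Wr, l]
  have b3 : (NA.sc (A, B)).symm c ∈ Wr p q r 0 l := by simp [Wr, l]
  have b4 : (NA.sc (A, B)).symm f ∈ Wr p q r 0 l := by simp [Wr, l]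
  rcases hdef with hdef | hdef
  · rcases hcol z hz hdef with h1 | h1 | h1 | h1
    · rw [h1]; exact Wr_succ b2
    · rw [h1]; exact Wr_p b2
    · have h2 : f = p (p f) := (hinv f).symm
      rw [h1, h2]; exact Wr_p b1
    · rw [h1]; exact Wr_succ b1
  · -- the successor is coloured
    have e1 : q z = (NA.sc (A, B)).symm (p (NA.sc (A, B) z)) := rfl
    have h1 : (NA.sc (A, B) z ∈ A ↔ p (NA.sc (A, B) z) ∈ A) := by
      rw [sc_mem hdj]
      rw [e1, sc_symm_mem hdj] at hdef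
      exact hdef
    have h2 : NA.sc (A, B) z ∈ A ++ B := by
      by_cases h3 : z ∈ A
      · exact List.mem_append_left _ ((sc_mem hdj z).2 h3)
      · have h4 : z ∈ B := (List.mem_append.1 hz).resolve_left h3
        apply List.mem_append_right
        unfold NA.sc
        simp only [Equiv.Perm.mul_apply]
        have h5 : List.formPerm B z ∈ B := List.formPerm_apply_mem_of_mem h4
        rw [List.formPerm_apply_of_notMem (fun h6 => hdj _ h6 h5)]
        exact h5
    have e2 : ∀ w, q ((NA.sc (A, B)).symm w) = (NA.sc (A, B)).symm (p w) := by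
      intro w
      show (NA.sc (A, B)).symm (p (NA.sc (A, B) ((NA.sc (A, B)).symm w))) = _
      rw [Equiv.apply_symm_apply]
    have e3 : z = (NA.sc (A, B)).symm (NA.sc (A, B) z) := (Equiv.symm_apply_apply _ _).symm
    rcases hcol _ h2 h1 with h3 | h3 | h3 | h3
    · rw [e3, h3]; exact Wr_succ b3
    · rw [e3, h3, ← e2]; exact Wr_q b3
    · rw [e3, h3]; exact Wr_succ b4
    · rw [e3, h3, ← e2]; exact Wr_q b4

theorem Low.mono {r : Ω → Ω} {f : Ω} {K K' n : ℕ} {s : St Ω} (h : Low p r f K n s) (hK : K ≤ K') : Low p r f K' n s := by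
  obtain ⟨l, h1, h2⟩ := h
  exact ⟨l, h1, fun z h3 h4 => Wr_mono hK (fun x hx => hx) (h2 z h3 h4)⟩

/-- colours of the pair from `N`. -/
theorem cols5 {e : Ω} {s : St Ω} (hw : WF p (s.1 ++ [p e], e :: s.2)) (hN : N p (s.1 ++ [p e], e :: s.2)) :
    (∃ o, NA.Red p s o) ∧ ∃ o, NA.Blu p s o := by
  obtain ⟨he, he'⟩ := fresh_of_wf hw
  have hinv := hw.inv
  have hnd := List.nodup_append.1 hw.nd
  have hdj : ∀ t, t ∈ s.1 ++ [p e] → t ∉ e :: s.2 := fun t h1 h2 => hnd.2.2 t h1 t h2 rfl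
  obtain ⟨⟨c, hc, hc'⟩, ⟨o, ho, ho'⟩⟩ := hN
  simp only at hc hc' ho ho'
  constructor
  · refine ⟨c, ?_, ?_⟩
    · rcases List.mem_append.1 hc with h | h
      · exact h
      · rw [List.mem_singleton.1 h, hinv] at hc'
        exact absurd List.mem_cons_self (hdj e hc')
    · rcases List.mem_append.1 hc' with h | h
      · exact h
      · have h1 : c = e := by rw [← hinv c, List.mem_singleton.1 h, hinv]
        rw [h1] at hc
        exact absurd List.mem_cons_self (hdj e hc)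
  · have hpe : p e ∉ e :: s.2 := hdj _ (List.mem_append_right _ (List.mem_singleton_self _))
    refine ⟨o, ?_, ?_⟩
    · rcases List.mem_cons.1 ho with h | h
      · rw [h] at ho'
        exact absurd ho' hpe
      · exact h
    · rcases List.mem_cons.1 ho' with h | h
      · have h1 : o = p e := by rw [← hinv o, h]
        rw [h1] at ho
        exact absurd ho hpe
      · exact h

theorem irB5 {e : Ω} {s : St Ω} (hi : Irr p (s.1 ++ [p e], e :: s.2)) : NA.IrB p s := by
  intro B1 B2 h hc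
  have h1 := hi (s.1 ++ [p e]) [] (e :: B1) B2 (by rw [h]; simp) (by simp) (List.cons_ne_nil _ _) (by simpa using hc)
  exact h1.2

/-- the loop: PART F, then the loop of the mixed case. -/
theorem loopF {c K C0 C1 C2 : ℕ} (hF : PartF c K C0) (h1 : PartI K C1) (h2 : PartII c K C2) (hc : 1200 ≤ c) (hK : 1 ≤ K)
    {r : Ω → Ω} {e f : Ω} {m0 : Ω → Ω} (hC : Can p m0 r) (L : ℕ) :
    ∀ (n : ℕ) (s : St Ω), n ≤ 1200 → NTS.D2 p s ≤ n → WF p (s.1 ++ [p e], e :: s.2) → Irr p (s.1 ++ [p e], e :: s.2) →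
      N p (s.1 ++ [p e], e :: s.2) → s.2.getLast? = some f → (s.1 ++ s.2).length = L → NA.mu p s = m0 →
      ∃ s', RTn p ((n * C0 + (c * C2 + C1)) * (L + 1) ^ 2) (s.1 ++ [p e], e :: s.2) (s'.1 ++ [p e], e :: s'.2) ∧
        s'.2.getLast? = some f ∧ NTS.D2 p s' ≤ c ∧ Low p r f K 3 s' := by
  intro n
  induction n with
  | zero =>
    intro s hn hD hw hi hN hl hL hm
    exfalso
    obtain ⟨⟨o, ho, ho'⟩, -⟩ := cols5 hw hN
    have h3 : o ∈ s.1.filter (fun t => decide (p t ∈ s.1)) := List.mem_filter.2 ⟨ho, decide_eq_true ho'⟩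
    have h4 := D2_split (p := p) s
    have h5 : 0 < (s.1.filter (fun t => decide (p t ∈ s.1))).length := List.length_pos_of_mem h3
    omega
  | succ n ih =>
    intro s hn hD hw hi hN hl hL hm
    obtain ⟨he, he'⟩ := fresh_of_wf hw
    have hwp : WF p s := wf_pair hw
    obtain ⟨hr, hb⟩ := cols5 hw hN
    have hff : f ∈ s.2 := by
      obtain ⟨Y, hY⟩ := List.getLast?_eq_some_iff.mp hl
      rw [hY]
      simp
    -- the mixed case
    have mixed : ∀ s1 : St Ω, WF p (s1.1 ++ [p e], e :: s1.2) → N p (s1.1 ++ [p e], e :: s1.2) → s1.2.getLast? = some f → p f ∈ s1.1 →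
        NTS.D2 p s1 ≤ c → (s1.1 ++ s1.2).length = L → NA.mu p s1 = m0 →
        ∃ s', RTn p ((c * C2 + C1) * (L + 1) ^ 2) (s1.1 ++ [p e], e :: s1.2) (s'.1 ++ [p e], e :: s'.2) ∧
          s'.2.getLast? = some f ∧ NTS.D2 p s' ≤ c ∧ Low p r f K 3 s' := by
      intro s1 hw1 hN1 hl1 hf1 hD1 hL1 hm1
      obtain ⟨hr1, hb1⟩ := cols5 hw1 hN1
      obtain ⟨s', h3, h4, h5, h6⟩ := loop h1 h2 (by omega) hC L c s1 le_rfl hD1 hw1 ⟨wf_pair hw1, hl1, hf1, hr1, hb1⟩ hL1 hm1
      exact ⟨s', h3, h4.last, h5, h6⟩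
    by_cases hfA : p f ∈ s.1
    · obtain ⟨s', h3, h4, h5, h6⟩ := mixed s hw hN hl hfA (by omega) hL hm
      exact ⟨s', h3.mono (Nat.mul_le_mul_right _ (Nat.le_add_left _ _)), h4, h5, h6⟩
    · have hfB : p f ∈ s.2 := (List.mem_append.1 (hwp.cl f (List.mem_append_right _ hff))).resolve_left hfA
      by_cases hD4 : NTS.D2 p s ≤ 4
      · exact ⟨s, ⟨Rn.refl _ _ hN, Rn.refl _ _ hN⟩, hl, by omega, (low_two hwp hl hfB hr hD4).mono hK⟩
      · obtain ⟨s1, h3e, h4, h5⟩ := hF Ω p r e f s hw hi hN hl hfB (by omega) (by omega) (by rw [hm]; exact hC)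
        rw [hL] at h3e
        obtain ⟨a, ha⟩ := h3e.1.toReach
        have hw1 : WF p (s1.1 ++ [p e], e :: s1.2) := hw.reach ha
        have hi1 : Irr p (s1.1 ++ [p e], e :: s1.2) := Irr.reach hw hi ha
        have hN1 : N p (s1.1 ++ [p e], e :: s1.2) := ha.right
        have hL1 : (s1.1 ++ s1.2).length = L := (len_reach h3e.1).trans hL
        have hne : s.1 ≠ [] := by
          obtain ⟨o, ho, _⟩ := hr
          exact List.ne_nil_of_mem ho
        have hne1 : s1.1 ≠ [] := by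
          obtain ⟨⟨o, ho, _⟩, -⟩ := cols5 hw1 hN1
          exact List.ne_nil_of_mem ho
        have hm1 : NA.mu p s1 = m0 := (mu_rtn hw h3e hne hne1 hl h4).trans hm
        have hcost : (n + 1) * C0 + (c * C2 + C1) = C0 + (n * C0 + (c * C2 + C1)) := by ring
        rcases h5 with ⟨h5, h6⟩ | h5 | ⟨h5, h6⟩
        · obtain ⟨s', h7, h8, h9, h10⟩ := mixed s1 hw1 hN1 h4 h5 h6 hL1 hm1
          refine ⟨s', (h3e.trans h7).mono ?_, h8, h9, h10⟩
          rw [hcost, ← Nat.add_mul]
          exact Nat.mul_le_mul_right _ (by omega)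
        · obtain ⟨s', h7, h8, h9, h10⟩ := ih s1 (by omega) (by omega) hw1 hi1 hN1 h4 hL1 hm1
          refine ⟨s', (h3e.trans h7).mono ?_, h8, h9, h10⟩
          rw [hcost, Nat.add_mul C0]
        · refine ⟨s1, h3e.mono ?_, h4, h5, h6⟩
          rw [hcost]
          exact Nat.mul_le_mul_right _ (Nat.le_add_right _ _)

end

/-- (T) from the three parts. -/
theorem TT5_of {c K C0 C1 C2 : ℕ} (hF : PartF c K C0) (h1 : PartI K C1) (h2 : PartII c K C2) (hc : 1200 ≤ c) (hK : 1 ≤ K) :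
    TT5 c K (fun m => (1200 * C0 + (c * C2 + C1)) * (m + 1) ^ 2) := by
  intro Ω _ p r e f A B hw hi hwp hir hr hb hl hD hC
  have hN : N p (A ++ [p e], e :: B) := by
    obtain ⟨b, hb1, hb2⟩ := hr
    obtain ⟨q, hq1, hq2⟩ := hb
    exact ⟨⟨b, List.mem_append_left _ hb1, List.mem_append_left _ hb2⟩, ⟨q, List.mem_cons_of_mem _ hq1, List.mem_cons_of_mem _ hq2⟩⟩
  obtain ⟨s', h3, h4, h5, l, h6, h7⟩ := loopF (f := p f) hF h1 h2 hc hK hC ((A, B).1 ++ (A, B).2).length 1200 (A, B) le_rfl hD hw hi hN hl rfl rfl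
  obtain ⟨a, ha⟩ := h3.1.toReach
  have hw' : WF p (s'.1 ++ [p e], e :: s'.2) := hw.reach ha
  have hne' : s'.1 ≠ [] := by
    obtain ⟨⟨o, ho, _⟩, -⟩ := cols5 hw' ha.right
    exact List.ne_nil_of_mem ho
  rw [hw.inv] at h7
  refine ⟨s'.1, s'.2, l, h3.mono ?_, hne', h4, ?_, h7, h6⟩
  · have hle : ((A, B).1 ++ (A, B).2).length ≤ ((A ++ [p e]) ++ (e :: B)).length := by
      simp only [List.length_append, List.length_cons, List.length_nil]
      omega
    exact Nat.mul_le_mul_left _ (Nat.pow_le_pow_left (by omega) 2)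
  · rw [nc_pair (s := s') hw']
    exact h5

/-- Q1 LITERALLY from the three parts. -/
theorem Q1_of5 {c K C0 C1 C2 : ℕ} (hF : PartF c K C0) (h1 : PartI K C1) (h2 : PartII c K C2) (hc : 1200 ≤ c) (hK : 1 ≤ K) :
    ∃ C : ℕ, ∀ (X A : Type) [DecidableEq X] [DecidableEq A] (E v₁ v₂ : Eqn X A), Quadratic E →
      Pool.Agent.helper36.WE.Reach E v₁ → Pool.Agent.helper36.WE.Reach v₁ v₂ →
        ∃ n, n ≤ C * size E ^ 12 ∧ PathLen n v₁ v₂ := by
  refine Q12_of5 (KP := 80 + (1200 * C0 + (c * C2 + C1))) Pool.Agent.helper51.UG.segB ?_ (HA5_of (TT5_of hF h1 h2 hc hK))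
  intro m
  have h3 : 2 * (m * (10 * m + 30)) ≤ 80 * (m + 1) ^ 2 := by nlinarith
  have h4 : (80 + (1200 * C0 + (c * C2 + C1))) * (m + 1) ^ 2 = 80 * (m + 1) ^ 2 + (1200 * C0 + (c * C2 + C1)) * (m + 1) ^ 2 := by ring
  rw [h4]
  exact Nat.add_le_add_right h3 _

end NTH
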