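import Pool.Agent.helper14.NTN.Hub
import Pool.Agent.helper51.NF2.NF4

/-!
# MP_c8d30a: at most `m + 1` normal forms in a class for the run reversed cores
-/

set_option autoImplicit false

namespace Pool.Agent.helper36.WE

open Equiv Equiv.Perm List
open Pool.Agent.helper32.ATT (RR RRf RR_iff rot_filter)

/-- at most `m + 1` normal forms for the states which are run reversed. -/
def NF5_stmt : Prop := ∀ (X : Type) [DecidableEq X] (m : ℕ) (T : Finset X) (ρ : Perm X), T.card = m →
  ∃ N : Set (Perm X), N.Finite ∧ N.ncard ≤ m + 1 ∧ ∀ a b, St T ρ a b → RRf ρ a b →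
    ∃ n ≤ m * (m + 6), ∃ a' b', Walk CM n (a, b) (a', b') ∧ formPerm a' ∈ N

variable {X : Type} [DecidableEq X]

theorem erase_filter_fix {T : Finset X} {ρ : Perm X} {f : X} (hρ : ρ f = f) :
    (T.erase f).filter (fun t => ρ t ≠ t) = T.filter (fun t => ρ t ≠ t) := by
  ext t
  simp only [Finset.mem_filter, Finset.mem_erase]
  constructor
  · rintro ⟨⟨-, h1⟩, h2⟩
    exact ⟨h1, h2⟩
  · rintro ⟨h1, h2⟩
    refine ⟨⟨?_, h1⟩, h2⟩
    rintro rfl
    exact h2 hρ

/-- the permutation of a reversed core is a square root of `rho`. -/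
theorem core_revSet : ∀ (m : ℕ) (T : Finset X) (ρ : Perm X) (a b : List X), T.card = m → St T ρ a b → RRf ρ a b →
    formPerm (a.filter (fun s => decide (ρ s ≠ s))) ∈ RevSet (T.filter (fun t => ρ t ≠ t)) ρ := by
  intro m
  induction m with
  | zero =>
    intro T ρ a b hT hst hR
    have hT0 : T = ∅ := Finset.card_eq_zero.1 hT
    subst hT0
    have ha : a = [] := (List.toFinset_eq_empty_iff a).1 hst.supp
    have hb : b = [] := by
      have := hst.perm
      rw [ha] at this
      exact (List.nil_perm.1 this)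
    refine ⟨[], List.nodup_nil, by simp, by rw [ha]; rfl, ?_⟩
    rw [← hst.rho, ha, hb]
    rfl
  | succ m ih =>
    intro T ρ a b hT hst hR
    by_cases hF : ∃ f ∈ T, ρ f = f
    · obtain ⟨f, hf, hρ⟩ := hF
      by_cases hg : ∃ g ∈ T, g ≠ f
      · obtain ⟨g, hg, hgf⟩ := hg
        obtain ⟨R, R', h3, h4, h5, -⟩ := NF4_fix (m := m) hf hg hgf hρ a b hst
        have h6 := ih (T.erase f) ρ (g :: R) (g :: R') (by rw [Finset.card_erase_of_mem hf, hT]; rfl) h3 (h4.1 hR)
        rw [erase_filter_fix hρ] at h6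
        rw [formPerm_eq_of_isRotated (hst.nodup.filter _) (h5 hR)]
        exact h6
      · push Not at hg
        have hTf : T = {f} := by
          ext t
          rw [Finset.mem_singleton]
          exact ⟨fun h => hg t h, fun h => h ▸ hf⟩
        have hfil : T.filter (fun t => ρ t ≠ t) = ∅ := by
          rw [hTf]
          ext t
          simp only [Finset.mem_filter, Finset.mem_singleton, Finset.notMem_empty, iff_false, not_and]
          rintro rfl
          simp [hρ]
        have hal : ∀ t ∈ a, t = f := fun t ht => hg t (hst.memA ht)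
        have hbl : ∀ t ∈ b, t = f := fun t ht => hg t (hst.memB ht)
        have hfa : a.filter (fun s => decide (ρ s ≠ s)) = [] := by
          rw [List.filter_eq_nil_iff]
          intro t ht
          rw [hal t ht]
          simp [hρ]
        have hone : ∀ l : List X, l.Nodup → (∀ t ∈ l, t = f) → formPerm l = 1 := by
          intro l hn hl
          match l, hn, hl with
          | [], _, _ => rfl
          | [x], _, _ => exact formPerm_singleton x
          | x :: y :: l, hn, hl =>
            exfalso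
            have h1 := hl x (by simp)
            have h2 := hl y (by simp)
            subst h1
            subst h2
            simp at hn
        rw [hfa, hfil]
        refine ⟨[], List.nodup_nil, by simp, rfl, ?_⟩
        rw [← hst.rho, hone a hst.nodup hal, hone b hst.nodupB hbl]
        rfl
    · push Not at hF
      have e : T.filter (fun t => ρ t ≠ t) = T := Finset.filter_true_of_mem hF
      have ea : a.filter (fun s => decide (ρ s ≠ s)) = a := filter_id hF (fun t ht => hst.memA ht)
      have eb : b.filter (fun s => decide (ρ s ≠ s)) = b := filter_id hF (fun t ht => hst.memB ht)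
      rw [e, ea]
      refine ⟨a, hst.nodup, hst.supp, rfl, ?_⟩
      have h1 : b ~r a.reverse := by
        have h2 : Rev (a.filter (fun s => decide (ρ s ≠ s))) (b.filter (fun s => decide (ρ s ≠ s))) := hR
        rw [ea, eb] at h2
        exact h2
      rw [← hst.rho, formPerm_eq_of_isRotated hst.nodupB h1, formPerm_reverse, inv_inv]

/-- few forms. -/
theorem NF5 : NF5_stmt := by
  intro X _ m T ρ hT
  obtain ⟨F, hF⟩ := normal_form5 m T ρ hT
  have hfin : (RevSet (T.filter (fun t => ρ t ≠ t)) ρ).Finite ∧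
      (RevSet (T.filter (fun t => ρ t ≠ t)) ρ).ncard ≤ m + 1 := by
    rcases (T.filter (fun t => ρ t ≠ t)).eq_empty_or_nonempty with h0 | ⟨x, hx⟩
    · rw [h0]
      have hsub : RevSet (∅ : Finset X) ρ ⊆ {1} := by
        rintro σ ⟨l, -, h1, h2, -⟩
        have h3 : l = [] := (List.toFinset_eq_empty_iff l).1 h1
        rw [h2, h3]
        rfl
      refine ⟨(Set.finite_singleton _).subset hsub, ?_⟩
      have := Set.ncard_le_ncard hsub (Set.finite_singleton _)
      rw [Set.ncard_singleton] at this
      omega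
    · obtain ⟨h1, h2⟩ := revSet_card (T.filter (fun t => ρ t ≠ t)) ρ hx
      refine ⟨h1, ?_⟩
      have h3 := Finset.card_filter_le T (fun t => ρ t ≠ t)
      omega
  refine ⟨F '' RevSet (T.filter (fun t => ρ t ≠ t)) ρ, hfin.1.image _, (Set.ncard_image_le hfin.1).trans hfin.2, ?_⟩
  intro a b hst hR
  obtain ⟨n, hn, a', b', hw, he⟩ := hF a b hst hR
  exact ⟨n, hn, a', b', hw, ⟨_, core_revSet m T ρ a b hT hst hR, he.symm⟩⟩

/-- at most `|D| + 1` normal forms. -/
theorem cls_hub5 (D : Finset X) (e q : X) (ρ : Perm X) :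
    ∃ H : Set (List X × List X), H.Finite ∧ H.ncard ≤ D.card + 1 ∧
      ∀ A B : List X, Cls D e q ρ (e :: A) (B ++ [e]) → RR A B → ∃ h ∈ H, ∃ n, Walk Sup n (e :: A, B ++ [e]) h := by
  set T := D.erase e with hT
  set ρ' := ρ * Equiv.swap e q with hρ'
  obtain ⟨N, hN, hNc, hNw⟩ := NF5 X T.card T ρ' rfl
  let Q : List X × List X → Perm X → Prop := fun v σ =>
    ∃ A B, v = (e :: A, B ++ [e]) ∧ St T ρ' A B ∧
      ((A = [] ∧ B = []) ∨ (A.getLast? = some q ∧ B.getLast? = some q)) ∧ σ = formPerm A
  let H : Set (List X × List X) := {v | ∃ σ ∈ N, Q v σ}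
  obtain ⟨hH, hHc⟩ := ncard_le_of_rel H N hN Q (fun v hv => hv) (by
    rintro v v' σ ⟨A, B, rfl, h1, h2, h3⟩ ⟨A', B', rfl, h1', h2', h3'⟩
    have hTe : ∀ (l : List X), l.toFinset = T → l = [] → T = ∅ := by
      rintro l h rfl; rw [← h]; rfl
    have hnil : ∀ (l : List X), l.toFinset = T → T = ∅ → l = [] := by
      intro l h h'
      exact (List.toFinset_eq_empty_iff l).mp (h.trans h')
    have hTB : ∀ {A B}, St T ρ' A B → B.toFinset = T := by
      intro A B h
      rw [← h.supp]; exact (List.toFinset_eq_of_perm _ _ h.perm).symm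
    rcases h2 with ⟨rfl, rfl⟩ | ⟨h4, h5⟩
    · have h6 := hTe _ h1.supp rfl
      rw [hnil A' h1'.supp h6, hnil B' (hTB h1') h6]
    · have hA' : A'.getLast? = some q := by
        rcases h2' with ⟨h6, -⟩ | ⟨h6, -⟩
        · have := hnil A h1.supp (hTe A' h1'.supp h6)
          rw [this] at h4
          simp at h4
        · exact h6
      have hB' : B'.getLast? = some q := by
        rcases h2' with ⟨h6, -⟩ | ⟨-, h6⟩
        · have := hnil A h1.supp (hTe A' h1'.supp h6)
          rw [this] at h4
          simp at h4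
        · exact h6
      have hAA : A = A' := eq_of_formPerm (h3.symm.trans h3') h1.nodup h1'.nodup h4 hA'
      have hBB : B = B' := by
        refine eq_of_formPerm ?_ h1.nodupB h1'.nodupB h5 hB'
        have e1 := h1.rho
        rw [← h1'.rho, hAA] at e1
        exact inv_injective (mul_right_cancel e1)
      rw [hAA, hBB])
  refine ⟨H, hH, (hHc.trans hNc).trans (Nat.add_le_add_right (Finset.card_le_card (Finset.erase_subset _ _)) 1), ?_⟩
  intro A B hc hRR
  obtain ⟨hst, hcase⟩ := hc.st
  obtain ⟨n2, hn2, a2, b2, hw2, hfin⟩ := hNw _ _ hst (RR.toRRf hRR hst)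
  have hst2 := hst.walk hw2
  rcases hcase with ⟨rfl, rfl⟩ | ⟨hqA, hqB⟩
  · have hTe : T = ∅ := by rw [hT, ← hst.supp]; rfl
    have ha2 : a2 = [] := (List.toFinset_eq_empty_iff a2).mp (hst2.supp.trans hTe)
    rw [ha2] at hfin
    exact ⟨([e], [] ++ [e]), ⟨_, hfin, [], [], rfl, hst, Or.inl ⟨rfl, rfl⟩, rfl⟩, 0, Walk.refl _ _⟩
  · have hqa2 : q ∈ a2 := by
      rw [← List.mem_toFinset, hst2.supp, ← hst.supp, List.mem_toFinset]
      exact List.mem_of_getLast? hqA
    have hqb2 : q ∈ b2 := hst2.perm.subset hqa2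
    obtain ⟨a3, ha3⟩ := exists_rot_last hqa2
    obtain ⟨b3', hb3⟩ := exists_rot_last hqb2
    have hw3 := lift_walk (e := e) n2 hw2 hst.nodup hqA ha3 hb3 List.getLast?_concat
    have hst3 : St T ρ' (a3 ++ [q]) (b3' ++ [q]) := hst2.rot ha3.symm hb3.symm
    refine ⟨(e :: (a3 ++ [q]), (b3' ++ [q]) ++ [e]), ⟨_, hfin, a3 ++ [q], b3' ++ [q], rfl,
      hst3, Or.inr ⟨List.getLast?_concat, List.getLast?_concat⟩, ?_⟩, 5 * n2 + 1, hw3⟩
    exact (formPerm_eq_of_isRotated hst3.nodup ha3).symm

end Pool.Agent.helper36.WE
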