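import Pool.Agent.helper14.NTN.TBF
import Pool.Agent.helper14.NTN.Hub5

/-!
# MP_c8d30a: few clusters of defects are enough: the count for the relaxed target

`Wn p q K l`: the tokens `w x`, `x ∈ l`, `w` a word of length `≤ K` in `p` and `q`.
`Clu p h K l t`: every defect of the state `t` (token with the same side as its `p`- or `mu`-neighbour) is in `Wn p mu K l`.
-/

set_option autoImplicit false

namespace NTH

open Equiv
open Pool.Agent.helper36.WE (rho Cls Sup SupL Walk cls_hub4 cls_hub5 NF4_stmt)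
open Pool.Agent.helper32.ATT (RR)

/-! ### words -/

section words
universe u
variable {α : Type u}

/-- the tokens `w x`, `x ∈ l`, `w` a word of length `≤ K` in `p` and `q`. -/
def Wn (p q : α → α) : ℕ → List α → List α
  | 0, l => l
  | K + 1, l => Wn p q K l ++ ((Wn p q K l).map p ++ (Wn p q K l).map q)

variable {p q : α → α}

theorem length_Wn (K : ℕ) (l : List α) : (Wn p q K l).length = 3 ^ K * l.length := by
  induction K with
  | zero => simp [Wn]
  | succ K ih =>
    simp only [Wn, List.length_append, List.length_map, ih]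
    ring

theorem Wn_base {K : ℕ} {l : List α} {x : α} (hx : x ∈ l) : x ∈ Wn p q K l := by
  induction K with
  | zero => exact hx
  | succ K ih => exact List.mem_append_left _ ih

theorem Wn_succ {K : ℕ} {l : List α} {x : α} (hx : x ∈ Wn p q K l) : x ∈ Wn p q (K + 1) l := List.mem_append_left _ hx

theorem Wn_p {K : ℕ} {l : List α} {x : α} (hx : x ∈ Wn p q K l) : p x ∈ Wn p q (K + 1) l :=
  List.mem_append_right _ (List.mem_append_left _ (List.mem_map_of_mem hx))

theorem Wn_q {K : ℕ} {l : List α} {x : α} (hx : x ∈ Wn p q K l) : q x ∈ Wn p q (K + 1) l :=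
  List.mem_append_right _ (List.mem_append_right _ (List.mem_map_of_mem hx))

theorem Wn_mono {K K' : ℕ} (hK : K ≤ K') {l l' : List α} (hl : ∀ x ∈ l, x ∈ l') {x : α} (hx : x ∈ Wn p q K l) :
    x ∈ Wn p q K' l' := by
  have key : ∀ K x, x ∈ Wn p q K l → x ∈ Wn p q K l' := by
    intro K
    induction K with
    | zero => exact fun x hx => hl x hx
    | succ K ih =>
      intro x hx
      simp only [Wn, List.mem_append, List.mem_map] at hx ⊢
      rcases hx with hx | ⟨y, hy, rfl⟩ | ⟨y, hy, rfl⟩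
      · exact Or.inl (ih x hx)
      · exact Or.inr (Or.inl ⟨y, ih y hy, rfl⟩)
      · exact Or.inr (Or.inr ⟨y, ih y hy, rfl⟩)
  induction hK with
  | refl => exact key K x hx
  | step _ ih => exact Wn_succ ih

theorem Wn_add {K K' : ℕ} {l : List α} {x : α} (hx : x ∈ Wn p q K' (Wn p q K l)) : x ∈ Wn p q (K + K') l := by
  induction K' generalizing x with
  | zero => exact hx
  | succ K' ih =>
    have h1 : x ∈ Wn p q K' (Wn p q K l) ++ ((Wn p q K' (Wn p q K l)).map p ++ (Wn p q K' (Wn p q K l)).map q) := hx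
    simp only [List.mem_append, List.mem_map] at h1
    rcases h1 with h1 | ⟨y, hy, rfl⟩ | ⟨y, hy, rfl⟩
    · exact Wn_succ (ih h1)
    · exact Wn_p (ih hy)
    · exact Wn_q (ih hy)

end words

/-! ### bounded lists over a finite set -/

section lists
variable {α : Type} [DecidableEq α]

/-- the lists of length `≤ c` over `S`. -/
def LF (S : Finset α) : ℕ → Finset (List α)
  | 0 => {[]}
  | c + 1 => insert [] ((S ×ˢ LF S c).image (fun q => q.1 :: q.2))

theorem card_LF (S : Finset α) (c : ℕ) : (LF S c).card ≤ (S.card + 1) ^ c := by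
  induction c with
  | zero => simp [LF]
  | succ c ih =>
    have h1 := Finset.card_insert_le ([] : List α) ((S ×ˢ LF S c).image (fun q => q.1 :: q.2))
    have h2 : ((S ×ˢ LF S c).image (fun q : α × List α => q.1 :: q.2)).card ≤ S.card * (LF S c).card := by
      refine Finset.card_image_le.trans ?_
      rw [Finset.card_product]
    have h3 : S.card * (LF S c).card ≤ S.card * (S.card + 1) ^ c := Nat.mul_le_mul_left _ ih
    have h4 : 1 ≤ (S.card + 1) ^ c := Nat.one_le_pow _ _ (Nat.succ_pos _)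
    show (insert [] ((S ×ˢ LF S c).image (fun q => q.1 :: q.2))).card ≤ _
    rw [pow_succ]
    nlinarith

theorem mem_LF {S : Finset α} {c : ℕ} {L : List α} (h1 : L.length ≤ c) (h2 : ∀ x ∈ L, x ∈ S) : L ∈ LF S c := by
  induction c generalizing L with
  | zero =>
    have h3 : L = [] := List.length_eq_zero_iff.1 (by omega)
    rw [h3]
    simp [LF]
  | succ c ih =>
    show L ∈ insert [] ((S ×ˢ LF S c).image (fun q => q.1 :: q.2))
    match L, h1, h2 with
    | [], _, _ => exact Finset.mem_insert_self _ _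
    | x :: L, h1, h2 =>
      apply Finset.mem_insert_of_mem
      rw [Finset.mem_image]
      refine ⟨(x, L), ?_, rfl⟩
      rw [Finset.mem_product]
      exact ⟨h2 x List.mem_cons_self, ih (by simpa using h1) (fun y hy => h2 y (List.mem_cons_of_mem _ hy))⟩

end lists

/-! ### clusters -/

/-- every defect is near to a token of `l`. -/
def Clu {Ω : Type} [DecidableEq Ω] (p : Ω → Ω) (h : ∀ t, p (p t) = t) (K : ℕ) (l : List Ω) (t : St Ω) : Prop :=
  ∀ z ∈ t.1 ++ t.2, (sd t z = sd t (p z) ∨ sd t z = sd t (mu p h t z)) → z ∈ Wn p (mu p h t) K l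

/-- (A_2) RELAXED: every double standard state has a round trip with `P m` runs to a double standard state with at most `c`
coloured tokens whose defects are near to the tokens `f, e` and at most `4` other tokens (`3` if the core is run reversed). -/
def HA3 (c K : ℕ) (P : ℕ → ℕ) : Prop := ∀ (Ω : Type) [DecidableEq Ω] (p : Ω → Ω) (h : ∀ t, p (p t) = t) (s : St Ω),
  WF p s → Irr p s → DS p s →
  ∃ (e f : Ω) (X Y l : List Ω), RTn p (P (s.1 ++ s.2).length) s (f :: X ++ [p e], e :: (Y ++ [p f])) ∧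
    nc p (f :: X ++ [p e], e :: (Y ++ [p f])) ≤ c ∧ Clu p h K (f :: e :: l) (f :: X ++ [p e], e :: (Y ++ [p f])) ∧
    (l.length ≤ 3 ∨ (l.length ≤ 4 ∧ ¬ RR (coA p (f :: X) (Y ++ [p f])) (coB p (f :: X) (Y ++ [p f]))))

section
variable {Ω : Type} [DecidableEq Ω] {p : Ω → Ω}

theorem tl_ne_nil {L : List (Ω × Ω)} {g z : Ω} (h : (g, z) ∈ L) : tl L g ≠ [] := by
  intro h1
  have h2 : z ∈ tl L g := mem_tl.2 h
  rw [h1] at h2
  exact absurd h2 List.not_mem_nil

/-- the successor of a ground is coloured. -/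
theorem ground_succ {L : List (Ω × Ω)} {a : List Ω} {g z : Ω} (hg : g ∈ a) (hz : (g, z) ∈ L) (hn : (ww L a).Nodup) :
    List.formPerm (ww L a) g ∈ L.map Prod.snd := by
  obtain ⟨C, D, rfl⟩ := List.append_of_mem hg
  obtain ⟨z', T, hT⟩ := List.exists_cons_of_ne_nil (tl_ne_nil hz)
  have h1 : ww L (C ++ g :: D) = ww L C ++ g :: z' :: (T ++ ww L D) := by
    rw [ww_append, ww_cons, hT]
    simp
  rw [h1] at hn ⊢
  rw [Pool.Agent.helper36.WE.formPerm_adjacent hn]
  have h2 : z' ∈ tl L g := by rw [hT]; exact List.mem_cons_self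
  exact List.mem_map_of_mem (f := Prod.snd) (mem_tl.1 h2)

/-- a ground is a defect. -/
theorem ground_defect {h : ∀ t, p (p t) = t} {L₁ L₂ : List (Ω × Ω)} {a b : List Ω} (hd : Dc p L₁ L₂ a b)
    (hall : ∀ t, t ∈ ww L₁ a ∨ t ∈ ww L₂ b) {q : Ω × Ω} (hq : q ∈ L₁) :
    sd (ww L₁ a, ww L₂ b) q.1 = sd (ww L₁ a, ww L₂ b) (mu p h (ww L₁ a, ww L₂ b) q.1) := by
  have hg := hd.g1 q hq
  have hn1 : (ww L₁ a).Nodup := (List.nodup_append.1 hd.wf.nd).1
  have h1 := ground_succ hg hq hn1
  have h2 : cL L₂ q.1 = q.1 := by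
    apply cL_apply_of_notMem
    intro q' hq'
    refine ⟨?_, ?_⟩
    · intro h3
      exact hd.dj (hd.mem1.2 (Or.inl hg)) (hd.mem2.2 (Or.inl (h3 ▸ hd.g2 q' hq')))
    · intro h3
      exact hd.dj (hd.mem1.2 (Or.inl hg)) (hd.mem2.2 (Or.inr (h3 ▸ List.mem_map_of_mem (f := Prod.snd) hq')))
  have h3 := formPerm_ww a L₁ hd.nd1 hd.g1
  have h4 : List.formPerm (ww L₁ a) q.1 = List.formPerm a (cL L₁ q.1) := by rw [h3, Perm.mul_apply]
  have h5 : List.formPerm (ww L₁ a) q.1 ∉ a := fun h6 => hd.notMem1 h1 h6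
  have h6 : cL L₁ q.1 ∉ a := by
    intro h7
    apply h5
    rw [h4]
    exact List.formPerm_apply_mem_of_mem h7
  have h7 : cL L₁ q.1 = List.formPerm (ww L₁ a) q.1 := by
    rw [h4, List.formPerm_apply_of_notMem h6]
  have h8 : (cL L₁ * cL L₂) q.1 = List.formPerm (ww L₁ a) q.1 := by
    rw [Perm.mul_apply, h2, h7]
  symm
  apply hd.sd_mu_col hall
  · rw [h8]; exact h5
  · rw [h8]
    exact hd.notMem1' h1

end

end NTH
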