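import Pool.Agent.helper14.NTN.CluT

/-!
# MP_c8d30a: few clusters of defects are enough: the bound for irreducible two sided states, run model
-/

set_option autoImplicit false

namespace NTH

open Equiv
open Pool.Agent.helper36.WE (rho Cls Sup SupL Walk cls_hub4 cls_hub5 NF4_stmt)
open Pool.Agent.helper32.ATT (RR)

/-- the number of pairs of cargo lists for given clusters. -/
def MCn (c K : ℕ) : ℕ := ((3 ^ K * 6) * (3 ^ K * 6) + 1) ^ c * ((3 ^ K * 6) * (3 ^ K * 6) + 1) ^ c

theorem MCn_pos (c K : ℕ) : 1 ≤ MCn c K := Nat.mul_le_mul (Nat.one_le_pow _ _ (Nat.succ_pos _)) (Nat.one_le_pow _ _ (Nat.succ_pos _))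

section
variable {Ω : Type} [DecidableEq Ω] {p : Ω → Ω}

/-- the cargo lists with all tokens near to `l`. -/
theorem cargo_enum (q : Ω → Ω) (c K : ℕ) (l : List Ω) (hl : l.length ≤ 6) :
    ∃ en : Fin (MCn c K) → List (Ω × Ω) × List (Ω × Ω), ∀ L₁ L₂ : List (Ω × Ω), L₁.length ≤ c → L₂.length ≤ c →
      (∀ x, x ∈ L₁ ∨ x ∈ L₂ → x.1 ∈ Wn p q K l ∧ x.2 ∈ Wn p q K l) → ∃ j, en j = (L₁, L₂) := by
  set S : Finset (Ω × Ω) := (Wn p q K l).toFinset ×ˢ (Wn p q K l).toFinset with hS
  have hSc : S.card ≤ (3 ^ K * 6) * (3 ^ K * 6) := by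
    have h1 : (Wn p q K l).toFinset.card ≤ 3 ^ K * 6 :=
      (List.toFinset_card_le _).trans (by rw [length_Wn]; exact Nat.mul_le_mul_left _ hl)
    rw [hS, Finset.card_product]
    exact Nat.mul_le_mul h1 h1
  have hLF : (LF S c).card ≤ ((3 ^ K * 6) * (3 ^ K * 6) + 1) ^ c :=
    (card_LF S c).trans (Nat.pow_le_pow_left (Nat.succ_le_succ hSc) c)
  obtain ⟨en, hen⟩ := exists_enum (α := List (Ω × Ω) × List (Ω × Ω)) (M := MCn c K) (↑(LF S c ×ˢ LF S c) : Set (List (Ω × Ω) × List (Ω × Ω)))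
    (Finset.finite_toSet _) (by
      rw [Set.ncard_coe_finset, Finset.card_product]
      exact Nat.mul_le_mul hLF hLF)
  refine ⟨en, fun L₁ L₂ h1 h2 h3 => ?_⟩
  apply hen
  rw [Finset.mem_coe, Finset.mem_product]
  refine ⟨mem_LF h1 fun x hx => ?_, mem_LF h2 fun x hx => ?_⟩
  · rw [hS, Finset.mem_product, List.mem_toFinset, List.mem_toFinset]
    exact h3 x (Or.inl hx)
  · rw [hS, Finset.mem_product, List.mem_toFinset, List.mem_toFinset]
    exact h3 x (Or.inr hx)

end

theorem pad_list {Ω : Type} (x : Ω) {n : ℕ} {l : List Ω} (hl : l.length ≤ n) : ∃ t : Fin n → Ω, ∀ y ∈ l, y ∈ List.ofFn t := by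
  refine ⟨fun i => l.getD i x, fun y hy => ?_⟩
  obtain ⟨i, hi, rfl⟩ := List.getElem_of_mem hy
  rw [List.mem_ofFn]
  refine ⟨⟨i, hi.trans_le hl⟩, ?_⟩
  simp [List.getD_eq_getElem?_getD, List.getElem?_eq_getElem hi]

/-- the number of representatives. -/
def NRcl (c K m : ℕ) : ℕ := 51 * MCn c K * m ^ 4 + 1

/-- the bound for irreducible two sided states. -/
def FBcl (c K : ℕ) (P : ℕ → ℕ) (m : ℕ) : ℕ := BRn (NRcl c K m) (PRn P m) m

section
variable {Ω : Type} [DecidableEq Ω] {p : Ω → Ω}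

theorem bound_fullc [Fintype Ω] (hNF : NF4_stmt) {c K : ℕ} {P : ℕ → ℕ} (hA : HA3 c K P) (h : ∀ t, p (p t) = t) {s₀ : St Ω} (hx₀ : XS p h s₀ s₀)
    (hall : ∀ t, t ∈ s₀.1 ++ s₀.2) {a : ℕ} {t : St Ω} (hr : Reach p a s₀ t) :
    Rn p (N p) (FBcl c K P (s₀.1 ++ s₀.2).length) s₀ t := by
  set m := (s₀.1 ++ s₀.2).length with hm
  have hcard : Fintype.card Ω = m := by
    rw [hm, ← List.toFinset_card_of_nodup hx₀.wf.nd, ← Finset.card_univ]
    congr 1
    ext t
    simpa using hall t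
  -- the last tokens
  obtain ⟨U0, x1, hU0⟩ : ∃ U x, s₀.1 = U ++ [x] := by
    rcases List.eq_nil_or_concat' s₀.1 with h0 | ⟨U, x, h0⟩
    · exact absurd h0 hx₀.n.ne1
    · exact ⟨U, x, h0⟩
  obtain ⟨V0, x2, hV0⟩ : ∃ V x, s₀.2 = V ++ [x] := by
    rcases List.eq_nil_or_concat' s₀.2 with h0 | ⟨V, x, h0⟩
    · exact absurd h0 hx₀.n.ne2
    · exact ⟨V, x, h0⟩
  have hmpos : 1 ≤ m := by
    rw [hm, hU0]
    simp only [List.length_append, List.length_singleton]
    omega
  -- the two hubs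
  have en4 := reps_one_gen (p := p) (fun A B => ¬ RR A B) 49 (by
      intro g hgg A B h1 h2
      apply h1
      have h3 := Pool.Agent.helper36.WE.RR.map (g := g) h2
      have e1 : ∀ l : List Ω, (l.map g).map g = l := by
        intro l
        rw [List.map_map]
        conv_rhs => rw [← List.map_id l]
        exact List.map_congr_left fun t _ => hgg t
      rwa [e1, e1] at h3) (fun D e q ρ => cls_hub4 hNF D e q ρ) (h := h) hx₀ hall
  have en5 := reps_one_gen (p := p) (fun A B => RR A B) (m + 1) (by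
      intro g _ A B h1
      exact Pool.Agent.helper36.WE.RR.map (g := g) h1) (by
      intro D e q ρ
      obtain ⟨H, h1, h2, h3⟩ := cls_hub5 D e q ρ
      refine ⟨H, h1, h2.trans ?_, h3⟩
      have h4 : D.card ≤ Fintype.card Ω := Finset.card_le_univ D
      omega) (h := h) hx₀ hall
  choose en4 hen4 using en4
  choose en5 hen5 using en5
  -- the cargo lists
  have enc4 : ∀ t : Fin 4 → Ω, _ := fun t => cargo_enum (p := p) (mu p h s₀) c K (p x2 :: p x1 :: List.ofFn t) (by simp)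
  have enc3 : ∀ t : Fin 3 → Ω, _ := fun t => cargo_enum (p := p) (mu p h s₀) c K (p x2 :: p x1 :: List.ofFn t) (by simp)
  choose enc4 henc4 using enc4
  choose enc3 henc3 using enc3
  let ι : Type := ((Fin 4 → Ω) × (Fin (MCn c K) × Fin 49)) ⊕ ((Fin 3 → Ω) × (Fin (MCn c K) × Fin (m + 1)))
  let rep : ι → St Ω := Sum.elim
    (fun k => tk p (enc4 k.1 k.2.1).1 (enc4 k.1 k.2.1).2 (en4 (enc4 k.1 k.2.1).1 (enc4 k.1 k.2.1).2 k.2.2))
    (fun k => tk p (enc3 k.1 k.2.1).1 (enc3 k.1 k.2.1).2 (en5 (enc3 k.1 k.2.1).1 (enc3 k.1 k.2.1).2 k.2.2))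
  have hNR : 0 < NRcl c K m := Nat.succ_pos _
  have hι : Fintype.card ι ≤ NRcl c K m := by
    have h2 : Fintype.card ι = m ^ 4 * (MCn c K * 49) + m ^ 3 * (MCn c K * (m + 1)) := by
      show Fintype.card (((Fin 4 → Ω) × (Fin (MCn c K) × Fin 49)) ⊕ ((Fin 3 → Ω) × (Fin (MCn c K) × Fin (m + 1)))) = _
      rw [Fintype.card_sum, Fintype.card_prod, Fintype.card_prod, Fintype.card_prod, Fintype.card_prod, Fintype.card_fun, Fintype.card_fun,
        Fintype.card_fin, Fintype.card_fin, Fintype.card_fin, Fintype.card_fin, Fintype.card_fin, hcard]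
    rw [h2]
    unfold NRcl
    have h3 : m ^ 3 * (MCn c K * (m + 1)) ≤ m ^ 3 * (MCn c K * (2 * m)) := by
      apply Nat.mul_le_mul_left
      apply Nat.mul_le_mul_left
      omega
    calc m ^ 4 * (MCn c K * 49) + m ^ 3 * (MCn c K * (m + 1)) ≤ m ^ 4 * (MCn c K * 49) + m ^ 3 * (MCn c K * (2 * m)) :=
          Nat.add_le_add_left h3 _
      _ = 51 * MCn c K * m ^ 4 := by ring
      _ ≤ 51 * MCn c K * m ^ 4 + 1 := Nat.le_succ _
  refine REPSn' (P := PRn P m) hx₀ hall hNR hι rep ?_ hr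
  intro x hx hpf
  have hlen : (x.1 ++ x.2).length = m := hx.perm.length_eq
  obtain ⟨t1, hds, hrt1⟩ := AHP_DS x hx.wf hx.irr hx.n hpf
  rw [hlen] at hrt1
  have hx1 : XS p h s₀ t1 := hx.reach hrt1.1
  obtain ⟨e, f, X, Y, l, hrt2, hnc, hclu, hll⟩ := hA Ω p h t1 hx1.wf hx1.irr hds
  rw [hx1.perm.length_eq] at hrt2
  have hx2 : XS p h s₀ (f :: X ++ [p e], e :: (Y ++ [p f])) := hx1.reachRn hrt2.1
  have hall2 : ∀ t, t ∈ f :: X ++ [p e] ∨ t ∈ e :: (Y ++ [p f]) := fun t =>
    List.mem_append.1 (hx2.perm.mem_iff.2 (hall t))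
  obtain ⟨L₁, L₂, A', B', hdec, hsd, hrr, hl1, hl2, hq⟩ := shapeDS (h := h) hx2.wf hall2
  -- the fixed tokens
  have he1 : p e = x1 := by
    have h1 := hx2.l1
    rw [hU0] at h1
    simp only [List.getLast?_concat, Option.some.injEq] at h1
    exact h1
  have he2 : p f = x2 := by
    have h1 := hx2.l2
    rw [hV0] at h1
    have h2 : (e :: (Y ++ [p f])).getLast? = some (p f) := by
      rw [← List.cons_append, List.getLast?_concat]
    rw [h2, List.getLast?_concat] at h1
    exact Option.some.inj h1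
  have hf' : p x2 = f := by rw [← he2, h]
  have he' : p x1 = e := by rw [← he1, h]
  have hnear : ∀ q, q ∈ L₁ ∨ q ∈ L₂ → q.1 ∈ Wn p (mu p h s₀) K (f :: e :: l) ∧ q.2 ∈ Wn p (mu p h s₀) K (f :: e :: l) := by
    intro q hq'
    obtain ⟨h1, h2⟩ := hq q hq'
    have hmem : ∀ t, t ∈ (f :: X ++ [p e], e :: (Y ++ [p f])).1 ++ (f :: X ++ [p e], e :: (Y ++ [p f])).2 := fun t =>
      List.mem_append.2 (hall2 t)
    rw [← hx2.mu]
    exact ⟨hclu _ (hmem _) (Or.inr h1), hclu _ (hmem _) (Or.inl h2)⟩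
  have hxx : XS p h s₀ (ww L₁ (f :: A'), ww L₂ (B' ++ [p f])) := by rw [← hdec]; exact hx2
  have hrt : RTn p (PRn P m) x (f :: X ++ [p e], e :: (Y ++ [p f])) := hrt1.toRTn.trans hrt2
  have fin : ∀ (k : ι) (φ : Ω → ZMod 2), φ ∈ VS p h s₀ → XS p h s₀ (rep k) →
      RT p 0 (ww L₁ (f :: A'), ww L₂ (B' ++ [p f])) (rel (act (h := h) hx₀.wf φ) (rep k)) →
      ∃ (k : ι) (φ : Ω → ZMod 2), φ ∈ VS p h s₀ ∧ XS p h s₀ (rep k) ∧ RTn p (PRn P m) x (rel (act (h := h) hx₀.wf φ) (rep k)) := by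
    intro k φ h1 h2 h3
    refine ⟨k, φ, h1, h2, ?_⟩
    rw [← hdec] at h3
    exact hrt.trans h3.toRTn
  by_cases hR : RR A' (B'.map p)
  · -- run reversed
    have hl3 : l.length ≤ 3 := by
      rcases hll with h1 | ⟨_, h1⟩
      · exact h1
      · exact absurd (hrr.1 hR) h1
    obtain ⟨t, ht⟩ := pad_list f hl3
    obtain ⟨j, hj⟩ := henc3 t L₁ L₂ (hl1.trans hnc) (hl2.trans hnc) (by
      intro q hq'
      have hsub : ∀ y ∈ f :: e :: l, y ∈ p x2 :: p x1 :: List.ofFn t := by
        intro y hy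
        rw [hf', he']
        simp only [List.mem_cons] at hy ⊢
        rcases hy with hy | hy | hy
        · exact Or.inl hy
        · exact Or.inr (Or.inl hy)
        · exact Or.inr (Or.inr (ht y hy))
      exact ⟨Wn_mono le_rfl hsub (hnear q hq').1, Wn_mono le_rfl hsub (hnear q hq').2⟩)
    obtain ⟨k, φ, h1, h2, h3⟩ := hen5 L₁ L₂ e f A' B' hsd hR hxx
    refine fin (Sum.inr (t, j, k)) φ h1 ?_ ?_
    · simp only [rep, Sum.elim_inr, hj]
      exact h2
    · simp only [rep, Sum.elim_inr, hj]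
      exact h3
  · have hl4 : l.length ≤ 4 := by
      rcases hll with h1 | ⟨h1, _⟩
      · omega
      · exact h1
    obtain ⟨t, ht⟩ := pad_list f hl4
    obtain ⟨j, hj⟩ := henc4 t L₁ L₂ (hl1.trans hnc) (hl2.trans hnc) (by
      intro q hq'
      have hsub : ∀ y ∈ f :: e :: l, y ∈ p x2 :: p x1 :: List.ofFn t := by
        intro y hy
        rw [hf', he']
        simp only [List.mem_cons] at hy ⊢
        rcases hy with hy | hy | hy
        · exact Or.inl hy
        · exact Or.inr (Or.inl hy)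
        · exact Or.inr (Or.inr (ht y hy))
      exact ⟨Wn_mono le_rfl hsub (hnear q hq').1, Wn_mono le_rfl hsub (hnear q hq').2⟩)
    obtain ⟨k, φ, h1, h2, h3⟩ := hen4 L₁ L₂ e f A' B' hsd hR hxx
    refine fin (Sum.inl (t, j, k)) φ h1 ?_ ?_
    · simp only [rep, Sum.elim_inl, hj]
      exact h2
    · simp only [rep, Sum.elim_inl, hj]
      exact h3

end

/-- THE BOUND FOR IRREDUCIBLE TWO SIDED STATES, run model, few clusters. -/
theorem TBFc (hNF : NF4_stmt) {c K : ℕ} {P : ℕ → ℕ} (hA : HA3 c K P) : TBn (FBcl c K P) := by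
  classical
  intro Ω p s t a hw hi hr
  let S : Set Ω := {x | x ∈ s.1 ++ s.2}
  have hS : S.Finite := List.finite_toSet _
  haveI : Fintype S := hS.fintype
  let p' : S → S := fun x => ⟨p x.1, hw.cl x.1 x.2⟩
  have hp' : ∀ x : S, (p' x : Ω) = p x := fun _ => rfl
  have h' : ∀ x : S, p' (p' x) = x := fun x => Subtype.ext (hw.inv x.1)
  let s' : St S := (s.1.attachWith (fun x => x ∈ S) (fun x hx => List.mem_append_left _ hx), s.2.attachWith (fun x => x ∈ S) (fun x hx => List.mem_append_right _ hx))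
  have hs' : s = vl s' := by
    simp only [s', vl]
    rw [List.attachWith_map_subtype_val, List.attachWith_map_subtype_val]
  have hmem : ∀ x : S, x ∈ s'.1 ++ s'.2 := by
    intro x
    rcases List.mem_append.1 x.2 with h1 | h1
    · apply List.mem_append_left
      simp only [s', List.mem_attachWith]
      exact h1
    · apply List.mem_append_right
      simp only [s', List.mem_attachWith]
      exact h1
  have happ : (s'.1 ++ s'.2).map Subtype.val = s.1 ++ s.2 := by
    rw [List.map_append]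
    conv_rhs => rw [hs']
    rfl
  have hw' : WF p' s' := by
    refine ⟨?_, fun x _ => hmem _, h', ?_⟩
    · have h1 := hw.nd
      rw [← happ] at h1
      exact h1.of_map
    · intro x hx
      exact hw.ne x.1 (congrArg Subtype.val hx)
  have hi' : Irr p' s' := by
    intro U1 U2 V1 V2 he h1 h2 h3
    have h4 := hi (U1.map Subtype.val) (U2.map Subtype.val) (V1.map Subtype.val) (V2.map Subtype.val) (by
      rw [← List.map_append, ← List.map_append]
      conv_lhs => rw [hs', he]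
      rfl) (fun h5 => h1 (List.map_eq_nil_iff.1 h5)) (fun h5 => h2 (List.map_eq_nil_iff.1 h5)) (by
      intro x hx
      rw [← List.map_append] at hx ⊢
      obtain ⟨y, hy, rfl⟩ := List.mem_map.1 hx
      rw [← hp']
      exact List.mem_map_of_mem (h3 y hy))
    exact ⟨List.map_eq_nil_iff.1 h4.1, List.map_eq_nil_iff.1 h4.2⟩
  obtain ⟨t', ht', hr'⟩ := Reach.lift hp' hr s' hs'
  have hx₀ : XS p' h' s' s' := XS.refl hw' hi' hr'.left
  have h1 := bound_fullc hNF hA h' hx₀ hmem hr'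
  have hlen : (s'.1 ++ s'.2).length = (s.1 ++ s.2).length := by
    rw [← happ, List.length_map]
  rw [hlen] at h1
  -- back to the tokens
  have trv : ∀ {x : S} {u v : St S}, Tr p' x u v → Tr p (x : Ω) (vl u) (vl v) := by
    have key : ∀ {x : S} {u v : St S}, TrL p' x u v → TrL p (x : Ω) (vl u) (vl v) := by
      intro x u v hx
      cases hx with
      | mk y A B V =>
        simp only [vl, List.map_cons, List.map_append, hp']
        exact TrL.mk _ _ _ _
    intro x u v hx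
    rcases hx with hx | hx
    · exact Or.inl (key hx)
    · exact Or.inr (key hx)
  have runv : ∀ {x : S} {u v : St S}, Run p' (N p') x u v → Run p (N p) (x : Ω) (vl u) (vl v) := by
    intro x u v hx
    induction hx with
    | one hs h ht => exact .one (hs.val hp') (trv h) (ht.val hp')
    | cons hs h _ ih => exact .cons (hs.val hp') (trv h) ih
  have rnv : ∀ {c : ℕ} {u v : St S}, Rn p' (N p') c u v → Rn p (N p) c (vl u) (vl v) := by
    intro c u v hx
    induction hx with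
    | refl c u h => exact .refl _ _ (h.val hp')
    | reg hs h _ ih =>
      refine .reg (hs.val hp') ?_ ih
      rcases h with h | h
      · exact Or.inl (h.val hp')
      · exact Or.inr (h.val hp')
    | run h _ ih => exact .run (runv h) ih
  have h2 := rnv h1
  rwa [← hs', ← ht'] at h2

end NTH
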