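import Pool.Agent.helper14.NTN.Clu

/-!
# MP_c8d30a: few clusters of defects are enough: the bound
-/

set_option autoImplicit false

namespace NTH

open Equiv
open Pool.Agent.helper36.WE (rho Cls Sup SupL Walk cls_hub4 cls_hub5 NF4_stmt)
open Pool.Agent.helper32.ATT (RR)

variable {Ω : Type} [DecidableEq Ω] {p : Ω → Ω}

/-- representatives for one cargo, general form. -/
theorem reps_one_gen [Fintype Ω] (R : List Ω → List Ω → Prop) (M : ℕ)
    (hR : ∀ (g : Ω → Ω), (∀ t, g (g t) = t) → ∀ a b, R a b → R (a.map g) (b.map g))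
    (hub : ∀ (D : Finset Ω) (e q : Ω) (ρ : Perm Ω), ∃ H : Set (List Ω × List Ω), H.Finite ∧ H.ncard ≤ M ∧
      ∀ A B : List Ω, Cls D e q ρ (e :: A) (B ++ [e]) → R A B → ∃ h ∈ H, ∃ n, Walk Sup n (e :: A, B ++ [e]) h)
    {s₀ : St Ω} {h : ∀ t, p (p t) = t} (hx₀ : XS p h s₀ s₀) (hall : ∀ t, t ∈ s₀.1 ++ s₀.2) (L₁ L₂ : List (Ω × Ω)) :
    ∃ en : Fin M → List Ω × List Ω, ∀ (e f : Ω) (A B : List Ω), Sd p e L₁ L₂ (f :: A) (B ++ [p f]) → R A (B.map p) →
      XS p h s₀ (ww L₁ (f :: A), ww L₂ (B ++ [p f])) → ∃ (k : Fin M) (φ : Ω → ZMod 2), φ ∈ VS p h s₀ ∧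
        XS p h s₀ (tk p L₁ L₂ (en k)) ∧ RT p 0 (ww L₁ (f :: A), ww L₂ (B ++ [p f])) (rel (act (h := h) hx₀.wf φ) (tk p L₁ L₂ (en k))) := by
  by_cases H : ∃ (e f : Ω) (A B : List Ω), Sd p e L₁ L₂ (f :: A) (B ++ [p f]) ∧ XS p h s₀ (ww L₁ (f :: A), ww L₂ (B ++ [p f]))
  · obtain ⟨e, f', A', B', hs', hx'⟩ := H
    set a' : List Ω := f' :: A' with ha'
    set b' : List Ω := B' ++ [p f'] with hb'
    have he₁ : b'.getLast? = some (p f') := by rw [hb', List.getLast?_concat]
    obtain ⟨H, hfin, hcard, hH⟩ := hub a'.toFinset (p (p f')) (p e) (rho a' (b'.map p))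
    obtain ⟨en, hen⟩ := exists_enum H hfin hcard
    refine ⟨en, ?_⟩
    intro e2 f A B hs hRab hx
    set a : List Ω := f :: A with ha
    set b : List Ω := B ++ [p f] with hb
    have hee : e2 = e := by
      have h1 : some (p e2) = some (p e) := by
        rw [← hs.hl, ← hs'.hl]
        exact hx.l1.trans hx'.l1.symm
      have h2 := Option.some.inj h1
      rw [← h e2, h2, h]
    subst hee
    obtain ⟨φ, hV, hrel, hdg, hm⟩ := key hx₀ hall hs.dc hs'.dc hx hx'
    set g : Ω → Ω := act (h := h) hx₀.wf φ with hg
    have hgp : ∀ t, g (p t) = p (g t) := act_p hx₀.wf hV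
    have hgg : ∀ t, g (g t) = t := act_act hx₀.wf hV
    have hpe : φ (p e2) = 0 := hV.2.2 _ (Or.inl (by rw [← hx.l1]; exact hs.hl))
    have he : φ e2 = 0 := by rw [← hV.1]; exact hpe
    have hge : g e2 = e2 := by
      rw [hg]
      unfold act
      exact if_pos he
    have hgpe : g (p e2) = p e2 := by rw [hgp, hge]
    have hxg : XS p h s₀ (ww L₁ (a.map g), ww L₂ (b.map g)) := by
      rw [← hrel]
      exact hx.act hx₀.wf hall hV
    have hsg : Sd p e2 L₁ L₂ (a.map g) (b.map g) := by
      refine ⟨hdg, ?_, ?_, ?_⟩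
      · rw [List.head?_map, hs.hb, Option.map_some, hge]
      · rw [List.getLast?_map, hs.ha, Option.map_some, hgpe]
      · have h1 : ww L₁ (a.map g) = (ww L₁ a).map g := by
          have := congrArg Prod.fst hrel
          exact this.symm
        rw [h1, List.getLast?_map, hs.hl, Option.map_some, hgpe]
    have hcls := cls_same hsg hs' hxg hx' hm (p f') he₁
    -- the class fixes the last mixed token of the second word
    have hgf : g (p f) = p f' := by
      have h1 := hcls.lastB
      rw [List.getLast?_map, List.getLast?_map, hb, List.getLast?_concat, Option.map_some, Option.map_some] at h1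
      have h2 := Option.some.inj h1
      have h3 := congrArg p h2
      rwa [h, h] at h3
    have hgf2 : g f = f' := by
      have h1 := congrArg p hgf
      rwa [h, ← hgp, h] at h1
    have ha2 : a.map g = p (p f') :: A.map g := by
      rw [ha, List.map_cons, hgf2, h]
    have hb2 : (b.map g).map p = (B.map g).map p ++ [p (p f')] := by
      rw [hb, List.map_append, List.map_append, List.map_singleton, List.map_singleton, hgf]
    have hrr : R (A.map g) ((B.map g).map p) := by
      have h1 := hR g hgg _ _ hRab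
      have e1 : (B.map p).map g = (B.map g).map p := by
        rw [List.map_map, List.map_map]
        apply List.map_congr_left
        intro t _
        exact hgp t
      rwa [e1] at h1
    rw [ha2, hb2] at hcls
    obtain ⟨hh, hhH, n, hw⟩ := hH (A.map g) ((B.map g).map p) hcls hrr
    rw [← ha2, ← hb2] at hw
    have e1 : tk p L₁ L₂ (a.map g, (b.map g).map p) = (ww L₁ (a.map g), ww L₂ (b.map g)) := by
      have : (((b.map g).map p).map p) = b.map g := by
        rw [List.map_map]
        conv_rhs => rw [← List.map_id (b.map g)]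
        apply List.map_congr_left
        intro t _
        exact h t
      simp only [tk, this]
    have hrt := walk_rt h (L₁ := L₁) (L₂ := L₂) n hw (by rw [e1]; exact hxg.n)
    rw [e1] at hrt
    obtain ⟨k, hk⟩ := hen hh hhH
    refine ⟨k, φ, hV, ?_, ?_⟩
    · rw [hk]
      exact hxg.reach hrt.1
    · rw [hk]
      have h2 := hrt.rel hgp
      rw [← hrel, rel_rel, rel_id _ hgg] at h2
      exact h2
  · exact ⟨fun _ => ([], []), fun e f A B hs _ hx => absurd ⟨e, f, A, B, hs, hx⟩ H⟩

/-- decoding of a double standard state. -/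
theorem shapeDS {h : ∀ t, p (p t) = t} {e f : Ω} {X Y : List Ω} (hw : WF p (f :: X ++ [p e], e :: (Y ++ [p f])))
    (hall : ∀ t, t ∈ f :: X ++ [p e] ∨ t ∈ e :: (Y ++ [p f])) :
    ∃ (L₁ L₂ : List (Ω × Ω)) (A' B' : List Ω), (f :: X ++ [p e], e :: (Y ++ [p f])) = (ww L₁ (f :: A'), ww L₂ (B' ++ [p f])) ∧
      Sd p e L₁ L₂ (f :: A') (B' ++ [p f]) ∧
      (RR A' (B'.map p) ↔ RR (coA p (f :: X) (Y ++ [p f])) (coB p (f :: X) (Y ++ [p f]))) ∧
      L₁.length ≤ nc p (f :: X ++ [p e], e :: (Y ++ [p f])) ∧ L₂.length ≤ nc p (f :: X ++ [p e], e :: (Y ++ [p f])) ∧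
      ∀ q, q ∈ L₁ ∨ q ∈ L₂ →
        sd (f :: X ++ [p e], e :: (Y ++ [p f])) q.1 = sd (f :: X ++ [p e], e :: (Y ++ [p f])) (mu p h (f :: X ++ [p e], e :: (Y ++ [p f])) q.1) ∧
        sd (f :: X ++ [p e], e :: (Y ++ [p f])) q.2 = sd (f :: X ++ [p e], e :: (Y ++ [p f])) (p q.2) := by
  classical
  have hcoA : coA p (f :: X) (Y ++ [p f]) = (f :: X).filter (fun t => decide (p t ∈ Y ++ [p f])) := by
    unfold coA; exact List.filter_congr fun t _ => decide_eq_decide.2 Iff.rfl
  have hcoB : coB p (f :: X) (Y ++ [p f]) = ((Y ++ [p f]).filter (fun t => decide (p t ∈ f :: X))).map p := by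
    unfold coB; exact congrArg (List.map p) (List.filter_congr fun t _ => decide_eq_decide.2 Iff.rfl)
  rw [hcoA, hcoB]
  set B : List Ω := Y ++ [p f] with hB
  have hnd := List.nodup_append.1 hw.nd
  have hndU : (f :: (X ++ [p e])).Nodup := hnd.1
  have hndV := List.nodup_cons.1 hnd.2.1
  have hndX : (X ++ [p e]).Nodup := (List.nodup_cons.1 hndU).2
  have hpeX : p e ∉ X := fun h1 => (List.nodup_append.1 hndX).2.2 _ h1 _ (List.mem_singleton_self _) rfl
  have hfX : f ∉ X := fun h1 => (List.nodup_cons.1 hndU).1 (List.mem_append_left _ h1)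
  have hfe : f ≠ p e := fun h1 => (List.nodup_cons.1 hndU).1 (List.mem_append_right _ (by rw [h1]; exact List.mem_singleton_self _))
  have hpfY : p f ∉ Y := fun h1 => (List.nodup_append.1 hndV.2).2.2 _ h1 _ (List.mem_singleton_self _) rfl
  have heB : e ∉ B := hndV.1
  have hfB : p f ∈ e :: B := by rw [hB]; simp
  obtain ⟨L₁, L₂, a, b, hdec, hsd, hc1, hc2, hl1, hl2⟩ := decode_S2 (h := h) (A := X) (B := B) hw hfB
  -- the skeletons
  have ha : a = (f :: X ++ [p e]).filter (fun t => decide (p t ∈ e :: B)) := by
    have h1 := congrArg Prod.fst hdec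
    simp only at h1
    rw [h1]
    symm
    apply filter_ww
    · intro t ht
      have h2 := hsd.dc.m1 t ht
      have h3 := congrArg Prod.snd hdec
      simp only at h3
      rw [h3]
      exact decide_eq_true (hsd.dc.mem2.2 (Or.inl h2))
    · intro t ht
      exact decide_eq_false (hc1 t ht)
  have hb : b = (e :: B).filter (fun t => decide (p t ∈ f :: X ++ [p e])) := by
    have h1 := congrArg Prod.snd hdec
    simp only at h1
    rw [h1]
    symm
    apply filter_ww
    · intro t ht
      have h2 := hsd.dc.m2 t ht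
      have h3 := congrArg Prod.fst hdec
      simp only at h3
      rw [h3]
      exact decide_eq_true (hsd.dc.mem1.2 (Or.inl h2))
    · intro t ht
      exact decide_eq_false (hc2 t ht)
  have ha2 : a = f :: (X.filter (fun t => decide (p t ∈ B)) ++ [p e]) := by
    rw [ha, List.cons_append, List.filter_cons_of_pos (by simpa using hfB), List.filter_append]
    congr 2
    · apply List.filter_congr
      intro t ht
      have h2 : p t ≠ e := by
        intro h2
        apply hpeX
        rw [← h2, h]
        exact ht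
      simp [h2]
    · simp [h]
  have hb2 : b = (e :: Y.filter (fun t => decide (p t ∈ f :: X))) ++ [p f] := by
    rw [hb, List.filter_cons_of_pos (by simp), List.cons_append, hB, List.filter_append]
    congr 2
    · apply List.filter_congr
      intro t ht
      have h1 : p t ≠ p e := by
        intro h1
        have h2 := congrArg p h1
        rw [h, h] at h2
        exact heB (h2 ▸ (by rw [hB]; exact List.mem_append_left _ ht))
      have h3 : (p t ∈ f :: X ++ [p e]) ↔ p t ∈ f :: X := by
        rw [List.mem_append, List.mem_singleton]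
        exact ⟨fun h4 => h4.resolve_right h1, Or.inl⟩
      exact decide_eq_decide.2 h3
    · simp [h]
  have hfil1 : (f :: X).filter (fun t => decide (p t ∈ B)) = f :: X.filter (fun t => decide (p t ∈ B)) :=
    List.filter_cons_of_pos (by rw [hB]; simp)
  have hfil2 : B.filter (fun t => decide (p t ∈ f :: X)) = Y.filter (fun t => decide (p t ∈ f :: X)) ++ [p f] := by
    rw [hB, List.filter_append]
    congr 1
    simp [h]
  subst ha2
  subst hb2
  refine ⟨L₁, L₂, _, e :: Y.filter (fun t => decide (p t ∈ f :: X)), hdec, hsd, ?_, ?_, ?_, ?_⟩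
  · -- the core
    rw [hfil1, hfil2]
    set A1 := X.filter (fun t => decide (p t ∈ B)) with hA1
    set Bm := Y.filter (fun t => decide (p t ∈ f :: X)) with hBm
    have hfX' : f ∉ A1 := fun h1 => hfX (List.mem_of_mem_filter h1)
    have hqX : p e ∉ A1 := fun h1 => hpeX (List.mem_of_mem_filter h1)
    have hfY : f ∉ Bm.map p := by
      intro h1
      obtain ⟨t, h2, h3⟩ := List.mem_map.1 h1
      have h4 : t = p f := by
        have := congrArg p h3
        rwa [h] at this
      subst h4
      exact hpfY (List.mem_of_mem_filter h2)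
    have hqY : p e ∉ Bm.map p := by
      intro h1
      obtain ⟨t, h2, h3⟩ := List.mem_map.1 h1
      have h4 : t = e := by
        have := congrArg p h3
        rwa [h, h] at this
      subst h4
      exact heB (by rw [hB]; exact List.mem_append_left _ (List.mem_of_mem_filter h2))
    have hfix : ∀ l : List Ω, f ∉ l → p e ∉ l → l.map (swap f (p e)) = l := by
      intro l h2 h3
      conv_rhs => rw [← List.map_id l]
      apply List.map_congr_left
      intro t ht
      exact swap_apply_of_ne_of_ne (fun h4 => h2 (h4 ▸ ht)) (fun h4 => h3 (h4 ▸ ht))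
    constructor
    · intro hR
      have h1 := Pool.Agent.helper36.WE.RR.map (g := swap f (p e)) hR
      rw [List.map_append, List.map_singleton, swap_apply_right, hfix _ hfX' hqX, List.map_cons, List.map_cons, swap_apply_right,
        hfix _ hfY hqY] at h1
      have r1 : (A1 ++ [f]) ~r f :: A1 := List.isRotated_append
      have r2 : (f :: Bm.map p) ~r (Bm ++ [p f]).map p := by
        rw [List.map_append, List.map_singleton, h]
        have h2 : f :: Bm.map p = [f] ++ Bm.map p := rfl
        rw [h2]
        exact List.isRotated_append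
      exact Pool.Agent.helper36.WE.RR.rotate h1 r1 r2
    · intro hR
      rw [List.map_append, List.map_singleton, h] at hR
      have h1 := Pool.Agent.helper36.WE.RR.map (g := swap f (p e)) hR
      rw [List.map_append, List.map_singleton, swap_apply_left, hfix _ hfY hqY, List.map_cons, swap_apply_left,
        hfix _ hfX' hqX] at h1
      have r1 : (p e :: A1) ~r A1 ++ [p e] := by
        have h2 : p e :: A1 = [p e] ++ A1 := rfl
        rw [h2]
        exact List.isRotated_append
      have r2 : (Bm.map p ++ [p e]) ~r (e :: Bm).map p := by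
        rw [List.map_cons]
        exact List.isRotated_append
      exact Pool.Agent.helper36.WE.RR.rotate h1 r1 r2
  · refine hl1.trans ?_
    rw [nc_eq]
    exact Nat.le_add_right _ _
  · refine hl2.trans ?_
    rw [nc_eq]
    exact Nat.le_add_left _ _
  · have hall' : ∀ t, t ∈ ww L₁ (f :: (X.filter (fun t => decide (p t ∈ B)) ++ [p e])) ∨
        t ∈ ww L₂ ((e :: Y.filter (fun t => decide (p t ∈ f :: X))) ++ [p f]) := by
      intro t
      have h1 := congrArg Prod.fst hdec
      have h2 := congrArg Prod.snd hdec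
      simp only at h1 h2
      rw [← h1, ← h2]
      exact hall t
    rw [hdec]
    intro q hq
    rcases hq with hq | hq
    · exact ⟨ground_defect hsd.dc hall' hq, (hsd.dc.sd_p_col (Or.inl (List.mem_map_of_mem (f := Prod.snd) hq))).symm⟩
    · refine ⟨?_, (hsd.dc.sd_p_col (Or.inr (List.mem_map_of_mem (f := Prod.snd) hq))).symm⟩
      have h1 := ground_defect (h := h) hsd.dc.mir (fun t => (hall' t).symm) hq
      rw [mu_mir' hsd.dc] at h1
      -- the sides of the mirror image
      have key : ∀ t, sd (ww L₂ ((e :: Y.filter (fun t => decide (p t ∈ f :: X))) ++ [p f]), ww L₁ (f :: (X.filter (fun t => decide (p t ∈ B)) ++ [p e]))) t =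
          sd (ww L₁ (f :: (X.filter (fun t => decide (p t ∈ B)) ++ [p e])), ww L₂ ((e :: Y.filter (fun t => decide (p t ∈ f :: X))) ++ [p f])) t + 1 := by
        intro t
        unfold sd
        simp only
        rcases hall' t with h2 | h2
        · have h3 : t ∉ ww L₂ ((e :: Y.filter (fun t => decide (p t ∈ f :: X))) ++ [p f]) := fun h3 => hsd.dc.dj h2 h3
          rw [if_neg h3, if_pos h2]; decide
        · have h3 : t ∉ ww L₁ (f :: (X.filter (fun t => decide (p t ∈ B)) ++ [p e])) := fun h3 => hsd.dc.dj h3 h2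
          rw [if_pos h2, if_neg h3]; decide
      rw [key, key] at h1
      exact add_right_cancel h1

end NTH
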