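import Pool.Agent.helper14.NTN.Hub
import Pool.Agent.helper14.NTN.Act
import Pool.Agent.helper14.NTA.TBF

/-!
# MP_c8d30a: few representatives for the states with one red and one blue letter, core not run reversed
-/

set_option autoImplicit false

namespace NTH

open Equiv
open Pool.Agent.helper36.WE (rho Cls Sup SupL Walk cls_hub4 NF4_stmt)
open Pool.Agent.helper32.ATT (RR)

variable {Ω : Type} [DecidableEq Ω] {p : Ω → Ω}

/-- the cargo of one letter: `q.2` behind `q.1`; the place of the partner is determined by `mu`. -/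
def LL (p : Ω → Ω) (μ : Perm Ω) (q : Ω × Ω) : List (Ω × Ω) := [q, (if μ q.1 = q.2 then q.1 else μ q.1, p q.2)]

/-- THE CARGO IS DETERMINED BY ONE PAIR. -/
theorem cargo_det {h : ∀ t, p (p t) = t} {L₁ L₂ : List (Ω × Ω)} {a b : List Ω} (hd : Dc p L₁ L₂ a b) (hl : L₁.length = 2) :
    ∃ q, L₁ = LL p (mu p h (ww L₁ a, ww L₂ b)) q := by
  obtain ⟨⟨g1, z1⟩, ⟨g2, z2⟩, rfl⟩ := List.length_eq_two.1 hl
  set L₁ : List (Ω × Ω) := [(g1, z1), (g2, z2)] with hL₁
  have hz1c : z1 ∈ L₁.map Prod.snd := by simp [hL₁]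
  have hz2c : z2 ∈ L₁.map Prod.snd := by simp [hL₁]
  have hz1a := hd.notMem1 hz1c
  have hz1b := hd.notMem1' hz1c
  have hz2a := hd.notMem1 hz2c
  have hz2b := hd.notMem1' hz2c
  have hg1 : g1 ∈ a := hd.g1 (g1, z1) (by simp [hL₁])
  have hg2 : g2 ∈ a := hd.g1 (g2, z2) (by simp [hL₁])
  have hpz : p z1 = z2 := by
    have h1 := hd.col1 hz1c
    simp only [hL₁, List.map_cons, List.map_nil, List.mem_cons, List.not_mem_nil, or_false] at h1
    rcases h1 with h1 | h1
    · exact absurd h1 (hd.wf.ne z1)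
    · exact h1
  have hz12 : z1 ≠ z2 := fun h1 => hd.wf.ne z1 (by rw [hpz, ← h1])
  have n1 : g1 ≠ z1 := fun h1 => hz1a (h1 ▸ hg1)
  have n2 : g1 ≠ z2 := fun h1 => hz2a (h1 ▸ hg1)
  have n3 : g2 ≠ z1 := fun h1 => hz1a (h1 ▸ hg2)
  have n4 : g2 ≠ z2 := fun h1 => hz2a (h1 ▸ hg2)
  -- tokens of the first word are not moved by the second cargo
  have hc2 : ∀ t, t ∈ ww L₁ a → cL L₂ t = t := by
    intro t ht
    apply cL_apply_of_notMem
    intro q hq
    refine ⟨?_, ?_⟩
    · rintro rfl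
      exact hd.dj ht (hd.mem2.2 (Or.inl (hd.g2 q hq)))
    · rintro rfl
      exact hd.dj ht (hd.mem2.2 (Or.inr (List.mem_map_of_mem (f := Prod.snd) hq)))
  have hmem1 : ∀ t, t ∈ a ∨ t = z1 ∨ t = z2 → t ∈ ww L₁ a := by
    rintro t (h1 | rfl | rfl)
    · exact hd.mem1.2 (Or.inl h1)
    · exact hd.mem1.2 (Or.inr hz1c)
    · exact hd.mem1.2 (Or.inr hz2c)
  have hcL : ∀ t, cL L₁ t = swap g2 z2 (swap g1 z1 t) := by
    intro t
    rw [hL₁, cL_cons, cL_cons, cL_nil, one_mul, Perm.mul_apply]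
  have e1 : sh p (ww L₁ a, ww L₂ b) g1 = z1 := by
    rw [hd.sh_eq, Perm.mul_apply, Perm.mul_apply, hc2 g1 (hmem1 _ (Or.inl hg1)), hcL, swap_apply_left,
      swap_apply_of_ne_of_ne n3.symm hz12, hd.sk.sh_fix z1 hz1a hz1b]
  have e2 : sh p (ww L₁ a, ww L₂ b) (if g1 = g2 then z1 else g2) = z2 := by
    by_cases hg : g1 = g2
    · subst hg
      rw [if_pos rfl, hd.sh_eq, Perm.mul_apply, Perm.mul_apply, hc2 z1 (hmem1 _ (Or.inr (Or.inl rfl))), hcL, swap_apply_right,
        swap_apply_left, hd.sk.sh_fix z2 hz2a hz2b]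
    · rw [if_neg hg, hd.sh_eq, Perm.mul_apply, Perm.mul_apply, hc2 g2 (hmem1 _ (Or.inl hg2)), hcL, swap_apply_of_ne_of_ne (Ne.symm hg) n3,
        swap_apply_left, hd.sk.sh_fix z2 hz2a hz2b]
  have e3 : mu p h (ww L₁ a, ww L₂ b) g1 = if g1 = g2 then z1 else g2 := by
    unfold mu
    rw [Perm.mul_apply, Perm.mul_apply, e1, pm_apply, hpz, Perm.inv_eq_iff_eq]
    exact e2.symm
  refine ⟨(g1, z1), ?_⟩
  unfold LL
  simp only
  rw [e3, hpz]
  by_cases hg : g1 = g2
  · subst hg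
    rw [if_pos rfl, if_pos rfl]
  · rw [if_neg hg, if_neg n3]

/-- the cargo of the second word. -/
theorem mu_mir' {h : ∀ t, p (p t) = t} {L₁ L₂ : List (Ω × Ω)} {a b : List Ω} (hd : Dc p L₁ L₂ a b) :
    mu p h (ww L₂ b, ww L₁ a) = mu p h (ww L₁ a, ww L₂ b) := mu_mir (p := p) h hd.wf

theorem cargo_det2 {h : ∀ t, p (p t) = t} {L₁ L₂ : List (Ω × Ω)} {a b : List Ω} (hd : Dc p L₁ L₂ a b) (hl : L₂.length = 2) :
    ∃ q, L₂ = LL p (mu p h (ww L₁ a, ww L₂ b)) q := by
  have h1 := cargo_det (h := h) hd.mir hl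
  rwa [mu_mir' hd] at h1

/-- a decoded `S`-state whose front of the first word is the partner of the last mixed token, core not run reversed. -/
structure Sh (p : Ω → Ω) (e f : Ω) (L₁ L₂ : List (Ω × Ω)) (A B : List Ω) : Prop where
  sd : Sd p e L₁ L₂ (f :: A) (B ++ [p f])
  rr : ¬ RR A (B.map p)

/-- representatives for one cargo. -/
theorem reps_one4 [Fintype Ω] (hNF : NF4_stmt) {s₀ : St Ω} {h : ∀ t, p (p t) = t} (hx₀ : XS p h s₀ s₀) (hall : ∀ t, t ∈ s₀.1 ++ s₀.2) (L₁ L₂ : List (Ω × Ω)) :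
    ∃ en : Fin 49 → List Ω × List Ω, ∀ (e f : Ω) (A B : List Ω), Sh p e f L₁ L₂ A B →
      XS p h s₀ (ww L₁ (f :: A), ww L₂ (B ++ [p f])) → ∃ (k : Fin 49) (φ : Ω → ZMod 2), φ ∈ VS p h s₀ ∧
        XS p h s₀ (tk p L₁ L₂ (en k)) ∧ RT p 0 (ww L₁ (f :: A), ww L₂ (B ++ [p f])) (rel (act (h := h) hx₀.wf φ) (tk p L₁ L₂ (en k))) := by
  by_cases H : ∃ (e f : Ω) (A B : List Ω), Sh p e f L₁ L₂ A B ∧ XS p h s₀ (ww L₁ (f :: A), ww L₂ (B ++ [p f]))
  · obtain ⟨e, f', A', B', hsh', hx'⟩ := H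
    set a' : List Ω := f' :: A' with ha'
    set b' : List Ω := B' ++ [p f'] with hb'
    have hs' := hsh'.sd
    have he₁ : b'.getLast? = some (p f') := by rw [hb', List.getLast?_concat]
    obtain ⟨H, hfin, hcard, hH⟩ := cls_hub4 hNF a'.toFinset (p (p f')) (p e) (rho a' (b'.map p))
    obtain ⟨en, hen⟩ := exists_enum H hfin hcard
    refine ⟨en, ?_⟩
    intro e2 f A B hsh hx
    set a : List Ω := f :: A with ha
    set b : List Ω := B ++ [p f] with hb
    have hs := hsh.sd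
    have hee : e2 = e := by
      have h1 : some (p e2) = some (p e) := by
        rw [← hs.hl, ← hs'.hl]
        exact hx.l1.trans hx'.l1.symm
      have h2 := Option.some.inj h1
      rw [← h e2, h2, h]
    subst hee
    obtain ⟨φ, hV, hrel, hdg, hm⟩ := key hx₀ hall hs.dc hs'.dc hx hx'
    set g : Ω → Ω := act (h := h) hx₀.wf φ with hg
    have hgp : ∀ t, g (p t) = p (g t) := act_p hx₀.wf hV
    have hgg : ∀ t, g (g t) = t := act_act hx₀.wf hV
    have hpe : φ (p e2) = 0 := hV.2.2 _ (Or.inl (by rw [← hx.l1]; exact hs.hl))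
    have he : φ e2 = 0 := by rw [← hV.1]; exact hpe
    have hge : g e2 = e2 := by
      rw [hg]
      unfold act
      exact if_pos he
    have hgpe : g (p e2) = p e2 := by rw [hgp, hge]
    have hxg : XS p h s₀ (ww L₁ (a.map g), ww L₂ (b.map g)) := by
      rw [← hrel]
      exact hx.act hx₀.wf hall hV
    have hsg : Sd p e2 L₁ L₂ (a.map g) (b.map g) := by
      refine ⟨hdg, ?_, ?_, ?_⟩
      · rw [List.head?_map, hs.hb, Option.map_some, hge]
      · rw [List.getLast?_map, hs.ha, Option.map_some, hgpe]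
      · have h1 : ww L₁ (a.map g) = (ww L₁ a).map g := by
          have := congrArg Prod.fst hrel
          exact this.symm
        rw [h1, List.getLast?_map, hs.hl, Option.map_some, hgpe]
    have hcls := cls_same hsg hs' hxg hx' hm (p f') he₁
    -- the class fixes the last mixed token of the second word
    have hgf : g (p f) = p f' := by
      have h1 := hcls.lastB
      rw [List.getLast?_map, List.getLast?_map, hb, List.getLast?_concat, Option.map_some, Option.map_some] at h1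
      have h2 := Option.some.inj h1
      have h3 := congrArg p h2
      rwa [h, h] at h3
    have hgf2 : g f = f' := by
      have h1 := congrArg p hgf
      rwa [h, ← hgp, h] at h1
    have ha2 : a.map g = p (p f') :: A.map g := by
      rw [ha, List.map_cons, hgf2, h]
    have hb2 : (b.map g).map p = (B.map g).map p ++ [p (p f')] := by
      rw [hb, List.map_append, List.map_append, List.map_singleton, List.map_singleton, hgf]
    have hrr : ¬ RR (A.map g) ((B.map g).map p) := by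
      intro h1
      apply hsh.rr
      have h2 := Pool.Agent.helper36.WE.RR.map (g := g) h1
      have e1 : (A.map g).map g = A := by
        rw [List.map_map]
        conv_rhs => rw [← List.map_id A]
        exact List.map_congr_left fun t _ => hgg t
      have e2 : (((B.map g).map p).map g) = B.map p := by
        rw [List.map_map, List.map_map]
        apply List.map_congr_left
        intro t _
        show g (p (g t)) = p t
        rw [hgp, hgg]
      rwa [e1, e2] at h2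
    rw [ha2, hb2] at hcls
    obtain ⟨hh, hhH, n, hw⟩ := hH (A.map g) ((B.map g).map p) hcls hrr
    rw [← ha2, ← hb2] at hw
    have e1 : tk p L₁ L₂ (a.map g, (b.map g).map p) = (ww L₁ (a.map g), ww L₂ (b.map g)) := by
      have : (((b.map g).map p).map p) = b.map g := by
        rw [List.map_map]
        conv_rhs => rw [← List.map_id (b.map g)]
        apply List.map_congr_left
        intro t _
        exact h t
      simp only [tk, this]
    have hrt := walk_rt h (L₁ := L₁) (L₂ := L₂) n hw (by rw [e1]; exact hxg.n)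
    rw [e1] at hrt
    obtain ⟨k, hk⟩ := hen hh hhH
    refine ⟨k, φ, hV, ?_, ?_⟩
    · rw [hk]
      exact hxg.reach hrt.1
    · rw [hk]
      have h2 := hrt.rel hgp
      rw [← hrel, rel_rel, rel_id _ hgg] at h2
      exact h2
  · exact ⟨fun _ => ([], []), fun e f A B hs hx => absurd ⟨e, f, A, B, hs, hx⟩ H⟩

/-- the label type of the states with one red and one blue letter. -/
abbrev LbN (Ω : Type) : Type := (Ω × Ω) × (Ω × Ω) × Fin 49

theorem reps_all4 [Fintype Ω] (hNF : NF4_stmt) {s₀ : St Ω} {h : ∀ t, p (p t) = t} (hx₀ : XS p h s₀ s₀) (hall : ∀ t, t ∈ s₀.1 ++ s₀.2) :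
    ∃ rep : LbN Ω → St Ω, ∀ (e f : Ω) (L₁ L₂ : List (Ω × Ω)) (A B : List Ω), Sh p e f L₁ L₂ A B → L₁.length = 2 → L₂.length = 2 →
      XS p h s₀ (ww L₁ (f :: A), ww L₂ (B ++ [p f])) → ∃ (k : LbN Ω) (φ : Ω → ZMod 2), φ ∈ VS p h s₀ ∧
        XS p h s₀ (rep k) ∧ RT p 0 (ww L₁ (f :: A), ww L₂ (B ++ [p f])) (rel (act (h := h) hx₀.wf φ) (rep k)) := by
  choose en hen using reps_one4 (h := h) hNF hx₀ hall
  refine ⟨fun k => tk p (LL p (mu p h s₀) k.1) (LL p (mu p h s₀) k.2.1) (en (LL p (mu p h s₀) k.1) (LL p (mu p h s₀) k.2.1) k.2.2), ?_⟩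
  intro e f L₁ L₂ A B hs h1 h2 hx
  obtain ⟨q1, hq1⟩ := cargo_det (h := h) hs.sd.dc h1
  obtain ⟨q2, hq2⟩ := cargo_det2 (h := h) hs.sd.dc h2
  rw [hx.mu] at hq1 hq2
  obtain ⟨k, φ, h3, h4, h5⟩ := hen L₁ L₂ e f A B hs hx
  refine ⟨(q1, q2, k), φ, h3, ?_, ?_⟩
  · simp only [← hq1, ← hq2]
    exact h4
  · simp only [← hq1, ← hq2]
    exact h5

end NTH
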