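import Pool.Agent.helper65.GP.ASM

/-!
# MP_c8d30a: the run model: cost = number of runs (a coloured winner takes a whole block), regular steps are free
-/

set_option autoImplicit false

namespace NTH

universe u
variable {Ω : Type u} {p : Ω → Ω}

/-- a step of cost `1` with the winner `x` in front of the first word. -/
inductive TrL (p : Ω → Ω) (x : Ω) : St Ω → St Ω → Prop
  | mk (y : Ω) (A B V : List Ω) : TrL p x (x :: (A ++ p x :: B), y :: V) (x :: (A ++ y :: p x :: B), V)

/-- a step of cost `1` with the winner `x`. -/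
def Tr (p : Ω → Ω) (x : Ω) (s t : St Ω) : Prop := TrL p x s t ∨ TrL p x (mir s) (mir t)

/-- a run: steps of cost `1` with the same winner, all states in `Q`. -/
inductive Run (p : Ω → Ω) (Q : St Ω → Prop) (x : Ω) : St Ω → St Ω → Prop
  | one {s t : St Ω} (hs : Q s) (h : Tr p x s t) (ht : Q t) : Run p Q x s t
  | cons {s t v : St Ω} (hs : Q s) (h : Tr p x s t) (ht : Run p Q x t v) : Run p Q x s v

/-- a path with at most `a` runs, all states in `Q`. -/
inductive Rn (p : Ω → Ω) (Q : St Ω → Prop) : ℕ → St Ω → St Ω → Prop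
  | refl (a : ℕ) (s : St Ω) (h : Q s) : Rn p Q a s s
  | reg {a : ℕ} {s t v : St Ω} (hs : Q s) (h : Sp p 0 s t) (ht : Rn p Q a t v) : Rn p Q a s v
  | run {a : ℕ} {x : Ω} {s t v : St Ω} (h : Run p Q x s t) (ht : Rn p Q a t v) : Rn p Q (a + 1) s v

/-- round trips in `N`. -/
def RTn (p : Ω → Ω) (a : ℕ) (s t : St Ω) : Prop := Rn p (N p) a s t ∧ Rn p (N p) a t s

variable {Q : St Ω → Prop}

theorem Tr.mir {x : Ω} {s t : St Ω} (h : Tr p x s t) : Tr p x (mir s) (mir t) := by
  rcases h with h | h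
  · exact Or.inr (by simpa using h)
  · exact Or.inl h

theorem Tr.sp {x : Ω} {s t : St Ω} (h : Tr p x s t) : Sp p 1 s t := by
  have key : ∀ {s t : St Ω}, TrL p x s t → SL p 1 s t := by
    intro s t h
    cases h with
    | mk y A B V => exact SL.tr x y A B V
  rcases h with h | h
  · exact Or.inl (key h)
  · exact Or.inr (key h)

theorem Sp.exists_tr {s t : St Ω} (h : Sp p 1 s t) : ∃ x, Tr p x s t := by
  have key : ∀ {c : ℕ} {s t : St Ω}, SL p c s t → c = 1 → ∃ x, TrL p x s t := by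
    intro c s t h hc
    cases h with
    | reg x y U A B => omega
    | tr x y A B V => exact ⟨x, TrL.mk y A B V⟩
  rcases h with h | h
  · obtain ⟨x, hx⟩ := key h rfl
    exact ⟨x, Or.inl hx⟩
  · obtain ⟨x, hx⟩ := key h rfl
    exact ⟨x, Or.inr hx⟩

theorem Run.left {x : Ω} {s t : St Ω} (h : Run p Q x s t) : Q s := by
  cases h with
  | one hs _ _ => exact hs
  | cons hs _ _ => exact hs

theorem Run.right {x : Ω} {s t : St Ω} (h : Run p Q x s t) : Q t := by
  induction h with
  | one _ _ ht => exact ht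
  | cons _ _ _ ih => exact ih

theorem Run.mir {x : Ω} {s t : St Ω} (h : Run p (N p) x s t) : Run p (N p) x (mir s) (mir t) := by
  induction h with
  | one hs h ht => exact .one hs.mir h.mir ht.mir
  | cons hs h _ ih => exact .cons hs.mir h.mir ih

theorem Run.mono {Q' : St Ω → Prop} {x : Ω} {s t : St Ω} (h : Run p Q x s t) (hQ : ∀ s, Q s → Q' s) : Run p Q' x s t := by
  induction h with
  | one hs h ht => exact .one (hQ _ hs) h (hQ _ ht)
  | cons hs h _ ih => exact .cons (hQ _ hs) h ih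

theorem Rn.left {a : ℕ} {s t : St Ω} (h : Rn p Q a s t) : Q s := by
  cases h with
  | refl _ _ h => exact h
  | reg hs _ _ => exact hs
  | run h _ => exact h.left

theorem Rn.right {a : ℕ} {s t : St Ω} (h : Rn p Q a s t) : Q t := by
  induction h with
  | refl _ _ h => exact h
  | reg _ _ _ ih => exact ih
  | run _ _ ih => exact ih

theorem Rn.mono {a b : ℕ} {s t : St Ω} (h : Rn p Q a s t) (hab : a ≤ b) : Rn p Q b s t := by
  induction h generalizing b with
  | refl _ _ h => exact .refl _ _ h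
  | reg hs h _ ih => exact .reg hs h (ih hab)
  | @run a x s t v h _ ih =>
    obtain ⟨b', rfl⟩ : ∃ b', b = b' + 1 := ⟨b - 1, by omega⟩
    exact .run h (ih (by omega))

theorem Rn.weak {Q' : St Ω → Prop} {a : ℕ} {s t : St Ω} (h : Rn p Q a s t) (hQ : ∀ s, Q s → Q' s) : Rn p Q' a s t := by
  induction h with
  | refl _ _ h => exact .refl _ _ (hQ _ h)
  | reg hs h _ ih => exact .reg (hQ _ hs) h ih
  | run h _ ih => exact .run (h.mono hQ) ih

theorem Rn.trans {a b : ℕ} {s t v : St Ω} (h : Rn p Q a s t) (h' : Rn p Q b t v) : Rn p Q (a + b) s v := by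
  induction h with
  | refl _ _ _ => exact h'.mono (by omega)
  | reg hs h _ ih => exact .reg hs h (ih h')
  | @run a x s t v h _ ih =>
    have : a + 1 + b = (a + b) + 1 := by omega
    rw [this]
    exact .run h (ih h')

theorem Rn.mir {a : ℕ} {s t : St Ω} (h : Rn p (N p) a s t) : Rn p (N p) a (mir s) (mir t) := by
  induction h with
  | refl a s h => exact .refl _ _ h.mir
  | reg hs h _ ih => exact .reg hs.mir h.mir ih
  | run h _ ih => exact .run h.mir ih

/-- every step is at most one run. -/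
theorem Pth.toRn {a : ℕ} {s t : St Ω} (h : Pth p Q a s t) : Rn p Q a s t := by
  induction h with
  | refl s h => exact .refl _ _ h
  | @head a c s t v hs h ht ih =>
    have h1 := h.le_one
    interval_cases c
    · rw [zero_add]
      exact .reg hs h ih
    · obtain ⟨x, hx⟩ := h.exists_tr
      rw [add_comm]
      exact .run (.one hs hx ih.left) ih

theorem Reach.toRn {a : ℕ} {s t : St Ω} (h : Reach p a s t) : Rn p (N p) a s t := by
  obtain ⟨c, hc, h1⟩ := h.toPth
  exact h1.toRn.mono hc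

theorem Rn.toPth {a : ℕ} {s t : St Ω} (h : Rn p Q a s t) : ∃ c, Pth p Q c s t := by
  have key : ∀ {x : Ω} {s t : St Ω}, Run p Q x s t → ∀ v c, Pth p Q c t v → ∃ c', Pth p Q c' s v := by
    intro x s t h
    induction h with
    | one hs h ht => exact fun v c hv => ⟨_, .head hs h.sp hv⟩
    | cons hs h _ ih =>
      intro v c hv
      obtain ⟨c', h1⟩ := ih v c hv
      exact ⟨_, .head hs h.sp h1⟩
  induction h with
  | refl _ s h => exact ⟨0, .refl s h⟩
  | reg hs h _ ih =>
    obtain ⟨c, hc⟩ := ih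
    exact ⟨_, .head hs h hc⟩
  | run h _ ih =>
    obtain ⟨c, hc⟩ := ih
    exact key h _ c hc

theorem Rn.toReach {a : ℕ} {s t : St Ω} (h : Rn p (N p) a s t) : ∃ c, Reach p c s t := by
  obtain ⟨c, hc⟩ := h.toPth
  exact ⟨c, hc.toReach⟩

/-- a block is taken by a coloured token in front of the first word. -/
theorem run_blockL (x : Ω) (A B S V : List Ω) (hS : S ≠ []) (h : ∃ q ∈ V, p q ∈ V) :
    Run p (N p) x (x :: (A ++ p x :: B), S ++ V) (x :: (A ++ (S ++ p x :: B)), V) := by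
  have hr : ∀ A : List Ω, ∃ r ∈ x :: (A ++ p x :: B), p r ∈ x :: (A ++ p x :: B) := fun A =>
    ⟨x, by simp, by simp⟩
  have hb : ∀ S : List Ω, ∃ q ∈ S ++ V, p q ∈ S ++ V := fun S => by
    obtain ⟨q, h1, h2⟩ := h
    exact ⟨q, List.mem_append_right _ h1, List.mem_append_right _ h2⟩
  induction S generalizing A with
  | nil => exact absurd rfl hS
  | cons s S ih =>
    have h1 : Tr p x (x :: (A ++ p x :: B), s :: (S ++ V)) (x :: (A ++ s :: p x :: B), S ++ V) :=
      Or.inl (TrL.mk s A B (S ++ V))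
    rcases S with _ | ⟨s', S⟩
    · exact .one ⟨hr A, hb [s]⟩ h1 ⟨by simpa using hr (A ++ [s]), h⟩
    · have h3 := ih (A ++ [s]) (List.cons_ne_nil _ _)
      refine .cons ⟨hr A, hb _⟩ h1 ?_
      simpa using h3

/-- a block is taken at cost `1`. -/
theorem Rn.blockL (x : Ω) (A B S V : List Ω) (h : ∃ q ∈ V, p q ∈ V) :
    Rn p (N p) 1 (x :: (A ++ p x :: B), S ++ V) (x :: (A ++ (S ++ p x :: B)), V) := by
  by_cases hS : S = []
  · subst hS
    exact .refl _ _ ⟨⟨x, by simp, by simp⟩, by simpa using h⟩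
  · exact .run (run_blockL x A B S V hS h) (.refl _ _ ⟨⟨x, by simp, by simp⟩, h⟩)

/-- a block is taken at cost `1`, mirrored. -/
theorem Rn.blockR (x : Ω) (A B S U : List Ω) (h : ∃ q ∈ U, p q ∈ U) :
    Rn p (N p) 1 (S ++ U, x :: (A ++ p x :: B)) (U, x :: (A ++ (S ++ p x :: B))) :=
  (Rn.blockL x A B S U h).mir

/-! ## Paths with the last winner -/

/-- paths of states with the last winner (`none` after a regular step or after forgetting it). -/
inductive Rw (p : Ω → Ω) (Q : St Ω → Prop) : ℕ → St Ω × Option Ω → St Ω × Option Ω → Prop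
  | refl (a : ℕ) (s : St Ω) (w : Option Ω) (h : Q s) : Rw p Q a (s, w) (s, w)
  | fgt {a : ℕ} {s : St Ω} {w : Option Ω} {v : St Ω × Option Ω} (hs : Q s) (ht : Rw p Q a (s, none) v) : Rw p Q a (s, w) v
  | reg {a : ℕ} {s t : St Ω} {w : Option Ω} {v : St Ω × Option Ω} (hs : Q s) (h : Sp p 0 s t) (ht : Rw p Q a (t, none) v) : Rw p Q a (s, w) v
  | old {a : ℕ} {s t : St Ω} {x : Ω} {v : St Ω × Option Ω} (hs : Q s) (h : Tr p x s t) (ht : Rw p Q a (t, some x) v) : Rw p Q a (s, some x) v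
  | new {a : ℕ} {s t : St Ω} {w : Option Ω} {x : Ω} {v : St Ω × Option Ω} (hs : Q s) (h : Tr p x s t) (ht : Rw p Q a (t, some x) v) :
      Rw p Q (a + 1) (s, w) v

theorem Rw.left {a : ℕ} {s t : St Ω × Option Ω} (h : Rw p Q a s t) : Q s.1 := by
  cases h with
  | refl _ _ _ h => exact h
  | fgt h _ => exact h
  | reg h _ _ => exact h
  | old h _ _ => exact h
  | new h _ _ => exact h

theorem Rw.right {a : ℕ} {s t : St Ω × Option Ω} (h : Rw p Q a s t) : Q t.1 := by
  induction h with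
  | refl _ _ _ h => exact h
  | fgt _ _ ih => exact ih
  | reg _ _ _ ih => exact ih
  | old _ _ _ ih => exact ih
  | new _ _ _ ih => exact ih

theorem Rw.mono {a b : ℕ} {s t : St Ω × Option Ω} (h : Rw p Q a s t) (hab : a ≤ b) : Rw p Q b s t := by
  induction h generalizing b with
  | refl _ _ _ h => exact .refl _ _ _ h
  | fgt hs _ ih => exact .fgt hs (ih hab)
  | reg hs h _ ih => exact .reg hs h (ih hab)
  | old hs h _ ih => exact .old hs h (ih hab)
  | @new a s t w x v hs h _ ih =>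
    obtain ⟨b', rfl⟩ : ∃ b', b = b' + 1 := ⟨b - 1, by omega⟩
    exact .new hs h (ih (by omega))

theorem Rw.trans {a b : ℕ} {s t v : St Ω × Option Ω} (h : Rw p Q a s t) (h' : Rw p Q b t v) : Rw p Q (a + b) s v := by
  induction h with
  | refl _ _ _ _ => exact h'.mono (by omega)
  | fgt hs _ ih => exact .fgt hs (ih h')
  | reg hs h _ ih => exact .reg hs h (ih h')
  | old hs h _ ih => exact .old hs h (ih h')
  | @new a s t w x v hs h _ ih =>
    have : a + 1 + b = (a + b) + 1 := by omega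
    rw [this]
    exact .new hs h (ih h')

theorem Rw.cut {c : ℕ} {s t : St Ω × Option Ω} (h : Rw p Q c s t) : ∀ a b, c = a + b → ∃ z, Rw p Q a s z ∧ Rw p Q b z t := by
  induction h with
  | refl c s w h => exact fun a b _ => ⟨(s, w), .refl _ _ _ h, .refl _ _ _ h⟩
  | fgt hs _ ih =>
    intro a b hab
    obtain ⟨z, h1, h2⟩ := ih a b hab
    exact ⟨z, .fgt hs h1, h2⟩
  | reg hs h _ ih =>
    intro a b hab
    obtain ⟨z, h1, h2⟩ := ih a b hab
    exact ⟨z, .reg hs h h1, h2⟩
  | old hs h _ ih =>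
    intro a b hab
    obtain ⟨z, h1, h2⟩ := ih a b hab
    exact ⟨z, .old hs h h1, h2⟩
  | @new c s t w x v hs h ht ih =>
    intro a b hab
    rcases Nat.eq_zero_or_pos a with ha | ha
    · subst ha
      refine ⟨(s, w), .refl _ _ _ hs, ?_⟩
      have h4 : Rw p Q (c + 1) (s, w) v := .new hs h ht
      rwa [hab, zero_add] at h4
    · obtain ⟨z, h1, h2⟩ := ih (a - 1) b (by omega)
      refine ⟨z, ?_, h2⟩
      have h4 : Rw p Q (a - 1 + 1) (s, w) z := .new hs h h1
      rwa [Nat.sub_add_cancel ha] at h4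

/-- forgetting the last winner costs at most `1`. -/
theorem Rw.forget {b : ℕ} {x y : St Ω × Option Ω} (h : Rw p Q b x y) : ∀ w : Option Ω, y.2 = none → Rw p Q (b + 1) (x.1, w) y := by
  induction h with
  | refl b s w h =>
    intro w' hw
    simp only at hw
    subst hw
    exact .fgt h (.refl _ _ _ h)
  | fgt hs ht _ => exact fun w' _ => .fgt hs (ht.mono (by omega))
  | reg hs h ht _ => exact fun w' _ => .reg hs h (ht.mono (by omega))
  | old hs h ht _ => exact fun w' _ => .new hs h ht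
  | new hs h ht _ => exact fun w' _ => (Rw.new hs h ht).mono (by omega)

theorem Rn.toRw {a : ℕ} {s t : St Ω} (h : Rn p Q a s t) : ∀ w : Option Ω, Rw p Q a (s, w) (t, none) := by
  have key : ∀ {x : Ω} {s t : St Ω}, Run p Q x s t → ∀ a v, Rw p Q a (t, some x) v →
      Rw p Q a (s, some x) v ∧ ∀ w, Rw p Q (a + 1) (s, w) v := by
    intro x s t h
    induction h with
    | one hs h ht => exact fun a v hv => ⟨.old hs h hv, fun w => .new hs h hv⟩
    | cons hs h _ ih =>
      intro a v hv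
      obtain ⟨h1, -⟩ := ih a v hv
      exact ⟨.old hs h h1, fun w => .new hs h h1⟩
  induction h with
  | refl a s h => exact fun w => .fgt h (.refl _ _ _ h)
  | reg hs h _ ih => exact fun w => .reg hs h (ih none)
  | run h _ ih => exact fun w => (key h _ _ (ih _)).2 w

theorem Rw.toRn_aux {a : ℕ} {x y : St Ω × Option Ω} (h : Rw p Q a x y) : Rn p Q a x.1 y.1 ∨
    ∃ (z : Ω) (t : St Ω), x.2 = some z ∧ Run p Q z x.1 t ∧ Rn p Q a t y.1 := by
  induction h with
  | refl a s w h => exact Or.inl (.refl _ _ h)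
  | fgt hs _ ih =>
    rcases ih with ih | ⟨z, t, h1, -⟩
    · exact Or.inl ih
    · simp at h1
  | reg hs h _ ih =>
    rcases ih with ih | ⟨z, t, h1, -⟩
    · exact Or.inl (.reg hs h ih)
    · simp at h1
  | @old a s t x v hs h ht ih =>
    rcases ih with ih | ⟨z, t', h1, h2, h3⟩
    · exact Or.inr ⟨x, t, rfl, .one hs h ht.left, ih⟩
    · simp only [Option.some.injEq] at h1
      subst h1
      exact Or.inr ⟨x, t', rfl, .cons hs h h2, h3⟩
  | @new a s t w x v hs h ht ih =>
    rcases ih with ih | ⟨z, t', h1, h2, h3⟩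
    · exact Or.inl (.run (.one hs h ht.left) ih)
    · simp only [Option.some.injEq] at h1
      subst h1
      exact Or.inl (.run (.cons hs h h2) h3)

theorem Rw.toRn {a : ℕ} {s : St Ω} {y : St Ω × Option Ω} (h : Rw p Q a (s, none) y) : Rn p Q a s y.1 := by
  rcases h.toRn_aux with h1 | ⟨z, t, h1, -⟩
  · exact h1
  · simp at h1

/-- the first state with the property `B`. -/
theorem Rw.first {B : St Ω → Prop} {a : ℕ} {x y : St Ω × Option Ω} (h : Rw p Q a x y) :
    (∃ c, Pth p (fun s => Q s ∧ ¬ B s) c x.1 y.1) ∨ ∃ (u : St Ω × Option Ω) (a1 a2 : ℕ), B u.1 ∧ a1 + a2 = a ∧ Rw p Q a1 x u ∧ Rw p Q a2 u y ∧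
      (a1 = 0 ∨ ∃ (v : St Ω) (c : ℕ), Pth p (fun s => Q s ∧ ¬ B s) c x.1 v ∧ ∀ w, Rw p Q 1 (v, w) u) := by
  classical
  induction h with
  | refl a s w h =>
    by_cases hB : B s
    · exact Or.inr ⟨(s, w), 0, a, hB, by omega, .refl _ _ _ h, .refl _ _ _ h, Or.inl rfl⟩
    · exact Or.inl ⟨0, .refl s ⟨h, hB⟩⟩
  | @fgt a s w v hs ht ih =>
    by_cases hB : B s
    · exact Or.inr ⟨(s, w), 0, a, hB, by omega, .refl _ _ _ hs, .fgt hs ht, Or.inl rfl⟩
    · rcases ih with ih | ⟨u, a1, a2, h1, h2, h3, h4, h5⟩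
      · exact Or.inl ih
      · exact Or.inr ⟨u, a1, a2, h1, h2, .fgt hs h3, h4, h5⟩
  | @reg a s t w v hs h ht ih =>
    by_cases hB : B s
    · exact Or.inr ⟨(s, w), 0, a, hB, by omega, .refl _ _ _ hs, .reg hs h ht, Or.inl rfl⟩
    · by_cases hBt : B t
      · refine Or.inr ⟨(t, none), 0, a, hBt, by omega, .reg hs h (.refl _ _ _ ht.left), ht, Or.inl rfl⟩
      · rcases ih with ⟨c, ih⟩ | ⟨u, a1, a2, h1, h2, h3, h4, h5⟩
        · exact Or.inl ⟨_, .head ⟨hs, hB⟩ h ih⟩
        · refine Or.inr ⟨u, a1, a2, h1, h2, .reg hs h h3, h4, ?_⟩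
          rcases h5 with h5 | ⟨v', c, h5, h6⟩
          · exact Or.inl h5
          · exact Or.inr ⟨v', _, .head ⟨hs, hB⟩ h h5, h6⟩
  | @old a s t x v hs h ht ih =>
    by_cases hB : B s
    · exact Or.inr ⟨(s, some x), 0, a, hB, by omega, .refl _ _ _ hs, .old hs h ht, Or.inl rfl⟩
    · rcases ih with ⟨c, ih⟩ | ⟨u, a1, a2, h1, h2, h3, h4, h5⟩
      · exact Or.inl ⟨_, .head ⟨hs, hB⟩ h.sp ih⟩
      · refine Or.inr ⟨u, a1, a2, h1, h2, .old hs h h3, h4, ?_⟩
        rcases h5 with h5 | ⟨v', c, h5, h6⟩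
        · exact Or.inl h5
        · exact Or.inr ⟨v', _, .head ⟨hs, hB⟩ h.sp h5, h6⟩
  | @new a s t w x v hs h ht ih =>
    by_cases hB : B s
    · exact Or.inr ⟨(s, w), 0, a + 1, hB, by omega, .refl _ _ _ hs, .new hs h ht, Or.inl rfl⟩
    · by_cases hBt : B t
      · exact Or.inr ⟨(t, some x), 1, a, hBt, by omega, .new hs h (.refl _ _ _ ht.left), ht,
          Or.inr ⟨s, 0, .refl s ⟨hs, hB⟩, fun w' => .new hs h (.refl _ _ _ ht.left)⟩⟩
      · rcases ih with ⟨c, ih⟩ | ⟨u, a1, a2, h1, h2, h3, h4, h5⟩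
        · exact Or.inl ⟨_, .head ⟨hs, hB⟩ h.sp ih⟩
        · refine Or.inr ⟨u, a1 + 1, a2, h1, by omega, .new hs h h3, h4, ?_⟩
          rcases h5 with h5 | ⟨v', c, h5, h6⟩
          · subst h5
            exact Or.inr ⟨s, 0, .refl s ⟨hs, hB⟩, fun w' => .new hs h h3⟩
          · exact Or.inr ⟨v', _, .head ⟨hs, hB⟩ h.sp h5, h6⟩

/-! ## Statements for the assembly -/

/-- `TBn F`: paths between irreducible two sided states can be shortened to `F m` runs. -/
def TBn (F : ℕ → ℕ) : Prop := ∀ (Ω : Type) (p : Ω → Ω) (s t : St Ω) (a : ℕ), WF p s → Irr p s → Reach p a s t →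
  Rn p (N p) (F (s.1 ++ s.2).length) s t

/-- `GBn G`: all paths between token states can be shortened to `G m` runs. -/
def GBn (G : ℕ → ℕ) : Prop := ∀ (Ω : Type) (p : Ω → Ω) (s t : St Ω) (a : ℕ), WF p s → Pth p (fun _ => True) a s t →
  Rn p (fun _ => True) (G (s.1 ++ s.2).length) s t

/-- PHn: PHASES, run version (copy of helper65/GP/PH.lean). -/
def PHn_stmt : Prop := ∀ F : ℕ → ℕ, Monotone F → TBn F → GBn (fun m => (m + 1) * (F m + 2 * m + 2))

end NTH
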