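import Pool.Agent.helper14.NTN.Asm
import Pool.Agent.helper32.RH.Cargo

/-!
# MP_c8d30a: lifting of a round trip of a filtered pair with the end of the second word, and other tools
-/

set_option autoImplicit false

namespace NTH

open Pool.Agent.helper32.RH (RTs cw cs cw_append cw_cons lift_RTn)

section
variable {Ω : Type} [DecidableEq Ω] {p : Ω → Ω}

theorem cw_tl (L : List (Ω × Ω)) (a : List Ω) : cw (tl L) a = ww L a := rfl

theorem tl_nil_of {L : List (Ω × Ω)} {t : Ω} (h : ∀ q ∈ L, q.1 ≠ t) : tl L t = [] := by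
  unfold tl
  rw [List.map_eq_nil_iff, List.filter_eq_nil_iff]
  intro q hq
  simpa using h q hq

theorem cw_congr {k k' : Ω → List Ω} {a : List Ω} (h : ∀ t ∈ a, k t = k' t) : cw k a = cw k' a := by
  induction a with
  | nil => rfl
  | cons x a ih =>
    rw [cw_cons, cw_cons, h x List.mem_cons_self, ih (fun t ht => h t (List.mem_cons_of_mem _ ht))]

theorem filter_cw {q : Ω → Bool} {k : Ω → List Ω} {a : List Ω} (h1 : ∀ t ∈ a, q t = true) (h2 : ∀ t ∈ a, ∀ z ∈ k t, q z = false) :
    (cw k a).filter q = a := by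
  induction a with
  | nil => rfl
  | cons x a ih =>
    rw [cw_cons, List.filter_cons_of_pos (h1 x List.mem_cons_self), List.filter_append,
      ih (fun t ht => h1 t (List.mem_cons_of_mem _ ht)) (fun t ht => h2 t (List.mem_cons_of_mem _ ht))]
    have h3 : (k x).filter q = [] := by
      rw [List.filter_eq_nil_iff]
      intro z hz
      rw [h2 x List.mem_cons_self z hz]
      simp
    rw [h3, List.nil_append]

/-- decoding of a word by a boolean. -/
theorem decodeB (q : Ω → Bool) (x : Ω) (hx : q x = true) (U : List Ω) (hn : (x :: U).Nodup) :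
    ∃ k : Ω → List Ω, x :: U = cw k ((x :: U).filter q) ∧ (∀ t, ∀ z ∈ k t, q z = false) ∧ ∀ t, t ∉ x :: U → k t = [] := by
  obtain ⟨L, a, h1, h2, h3, h4, -, -⟩ := decode (fun t => q t = true) x hx U hn
  have h5 : (x :: U).filter q = x :: a := by
    rw [h1]
    apply filter_ww h3
    intro t ht
    have := h4 t ht
    simpa using this
  refine ⟨tl L, ?_, ?_, ?_⟩
  · rw [h5, cw_tl]
    exact h1
  · intro t z hz
    have := h4 z (List.mem_map_of_mem (f := Prod.snd) (mem_tl.1 hz))
    simpa using this
  · intro t ht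
    apply tl_nil_of
    rintro r hr rfl
    apply ht
    have h6 := h2 r hr
    rw [h1]
    exact mem_ww.2 (Or.inl h6)

/-- LIFTING, with the end of the second word. -/
theorem lift_pair {q : Ω → Bool} {s u : St Ω} {e f : Ω} {K : ℕ} (hw : WF p (s.1 ++ [p e], e :: s.2))
    (hN : N p (s.1 ++ [p e], e :: s.2)) (hA : ∃ x ∈ s.1, q x = true) (h : RTs p K (NA.fil q s) u) (hf : u.2.getLast? = some f)
    (hfs : (NA.fil q s).2.getLast? = some f) :
    ∃ s', RTn p K (s.1 ++ [p e], e :: s.2) (s'.1 ++ [p e], e :: s'.2) ∧ NA.fil q s' = u ∧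
      ∀ C D : List Ω, s.2 = C ++ f :: D → (∀ t ∈ D, q t = false) → ∃ C', s'.2 = C' ++ f :: D := by
  obtain ⟨he, he'⟩ := fresh_of_wf hw
  obtain ⟨x, hx, hqx⟩ := hA
  obtain ⟨A1, A2, hA12⟩ := List.append_of_mem hx
  obtain ⟨A, B⟩ := s
  simp only at hA12 hw hN hx
  subst hA12
  have heB : e ∉ B := fun h1 => he (List.mem_append_right _ h1)
  have heA : e ∉ A1 ++ x :: A2 := fun h1 => he (List.mem_append_left _ h1)
  have hpeA : p e ∉ A1 ++ x :: A2 := fun h1 => he' (List.mem_append_left _ h1)
  have hpeB : p e ∉ B := fun h1 => he' (List.mem_append_right _ h1)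
  -- the rotation
  have hrot : ∀ (C D V : List Ω), N p (C ++ D ++ [p e], e :: V) → RTn p 0 (C ++ D ++ [p e], e :: V) (D ++ C ++ [p e], e :: V) := by
    intro C D V hN
    have h1 := rotR (p := p) e C D [] V (by simpa using hN)
    have h2 := rotR (p := p) e D C [] V (by simpa using h1.right)
    have h3 : RT p 0 (C ++ D ++ [p e], e :: V) (D ++ C ++ [p e], e :: V) := ⟨by simpa using h1, by simpa using h2⟩
    exact h3.toRTn
  have hr1 : RTn p 0 (A1 ++ x :: A2 ++ [p e], e :: B) ((x :: (A2 ++ A1)) ++ [p e], e :: B) := by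
    have := hrot A1 (x :: A2) B hN
    simpa using this
  have hw1 : WF p ((x :: (A2 ++ A1)) ++ [p e], e :: B) := by
    obtain ⟨a, ha⟩ := hr1.1.toReach
    exact hw.reach ha
  have hnd := List.nodup_append.1 hw1.nd
  have hndU : ((x :: (A2 ++ A1)) ++ [p e]).Nodup := hnd.1
  have hndV : (e :: B).Nodup := hnd.2.1
  have hdj : ∀ t, t ∈ (x :: (A2 ++ A1)) ++ [p e] → t ∉ e :: B := fun t h1 h2 => hnd.2.2 t h1 t h2 rfl
  obtain ⟨k1, hk1, hk1q, hk1n⟩ := decodeB q x hqx (A2 ++ A1) (List.nodup_append.1 hndU).1
  -- the second word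
  let q' : Ω → Bool := fun t => q t || decide (t = e)
  obtain ⟨k2, hk2, hk2q, hk2n⟩ := decodeB q' e (by simp [q']) B hndV
  have hq'B : (e :: B).filter q' = e :: B.filter q := by
    rw [List.filter_cons_of_pos (by simp [q'])]
    congr 1
    apply List.filter_congr
    intro t ht
    have : t ≠ e := fun h1 => heB (h1 ▸ ht)
    simp [q', this]
  rw [hq'B] at hk2
  let k : Ω → List Ω := fun t => k1 t ++ k2 t
  have hkA : ∀ t ∈ x :: (A2 ++ A1), k t = k1 t := by
    intro t ht
    have : k2 t = [] := hk2n t (hdj t (List.mem_append_left _ ht))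
    simp [k, this]
  have hkB : ∀ t ∈ e :: B, k t = k2 t := by
    intro t ht
    have : k1 t = [] := hk1n t (fun h1 => hdj t (List.mem_append_left _ h1) ht)
    simp [k, this]
  have hkpe : k (p e) = [] := by
    have h1 : k1 (p e) = [] := hk1n _ (fun h1 => (List.nodup_append.1 hndU).2.2 _ h1 _ (List.mem_singleton_self _) rfl)
    have h2 : k2 (p e) = [] := hk2n _ (hdj _ (List.mem_append_right _ (List.mem_singleton_self _)))
    simp [k, h1, h2]
  have hkq : ∀ t, ∀ z ∈ k t, q z = false := by
    intro t z hz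
    rcases List.mem_append.1 hz with hz | hz
    · exact hk1q t z hz
    · have := hk2q t z hz
      simp only [q', Bool.or_eq_false_iff] at this
      exact this.1
  have e1 : x :: (A2 ++ A1) = cw k ((x :: (A2 ++ A1)).filter q) := by
    conv_lhs => rw [hk1]
    apply cw_congr
    intro t ht
    exact (hkA t (List.mem_of_mem_filter ht)).symm
  have e2 : e :: B = cw k (e :: B.filter q) := by
    conv_lhs => rw [hk2]
    apply cw_congr
    intro t ht
    apply (hkB t _).symm
    rcases List.mem_cons.1 ht with rfl | ht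
    · exact List.mem_cons_self
    · exact List.mem_cons_of_mem _ (List.mem_of_mem_filter ht)
  have e3 : ((x :: (A2 ++ A1)) ++ [p e], e :: B) = cs k ((x :: (A2 ++ A1)).filter q ++ [p e], e :: B.filter q) := by
    unfold cs
    simp only
    rw [cw_append, ← e1, ← e2]
    have : cw k [p e] = [p e] := by
      rw [cw_cons, hkpe]
      rfl
    rw [this]
  -- the path of the filtered state
  have hef : e ∉ (NA.fil q (A1 ++ x :: A2, B)).1 ++ (NA.fil q (A1 ++ x :: A2, B)).2 := by
    intro h1
    apply he
    rcases List.mem_append.1 h1 with h1 | h1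
    · exact List.mem_append_left _ (List.mem_of_mem_filter h1)
    · exact List.mem_append_right _ (List.mem_of_mem_filter h1)
  have hef' : p e ∉ (NA.fil q (A1 ++ x :: A2, B)).1 ++ (NA.fil q (A1 ++ x :: A2, B)).2 := by
    intro h1
    apply he'
    rcases List.mem_append.1 h1 with h1 | h1
    · exact List.mem_append_left _ (List.mem_of_mem_filter h1)
    · exact List.mem_append_right _ (List.mem_of_mem_filter h1)
  have h1 := h e hef hef'
  have hfilA : (A1 ++ x :: A2).filter q = A1.filter q ++ (x :: A2).filter q := List.filter_append ..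
  have hfilA' : (x :: (A2 ++ A1)).filter q = (x :: A2).filter q ++ A1.filter q := by
    have : x :: (A2 ++ A1) = (x :: A2) ++ A1 := rfl
    rw [this, List.filter_append]
  have hNf : N p ((NA.fil q (A1 ++ x :: A2, B)).1 ++ [p e], e :: (NA.fil q (A1 ++ x :: A2, B)).2) := h1.1.left
  have h2 : RTn p 0 ((x :: (A2 ++ A1)).filter q ++ [p e], e :: B.filter q) ((A1 ++ x :: A2).filter q ++ [p e], e :: B.filter q) := by
    rw [hfilA, hfilA']
    have h3 := hrot (A1.filter q) ((x :: A2).filter q) (B.filter q) (by
      have := hNf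
      simp only [NA.fil] at this
      rw [hfilA] at this
      exact this)
    exact ⟨h3.2, h3.1⟩
  have h3 : RTn p K ((x :: (A2 ++ A1)).filter q ++ [p e], e :: B.filter q) (u.1 ++ [p e], e :: u.2) := by
    have := h2.trans h1
    rwa [zero_add] at this
  have h4 := lift_RTn k h3
  rw [← e3] at h4
  -- the end state
  have e4 : cs k (u.1 ++ [p e], e :: u.2) = (cw k u.1 ++ [p e], e :: (k e ++ cw k u.2)) := by
    unfold cs
    simp only
    rw [cw_append, cw_cons k e]
    have : cw k [p e] = [p e] := by
      rw [cw_cons, hkpe]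
      rfl
    rw [this]
  rw [e4] at h4
  have h5 := hr1.trans h4
  rw [zero_add] at h5
  -- tokens of `u`
  have hperm : (u.1 ++ u.2).Perm ((NA.fil q (A1 ++ x :: A2, B)).1 ++ (NA.fil q (A1 ++ x :: A2, B)).2) := by
    obtain ⟨a, ha⟩ := h1.1.toReach
    have h6 := ha.perm
    rw [List.perm_iff_count] at h6 ⊢
    intro t
    have h7 := h6 t
    simp only [List.count_append, List.count_cons, List.count_nil] at h7 ⊢
    omega
  have huq : ∀ t ∈ u.1 ++ u.2, q t = true := by
    intro t ht
    have h6 := hperm.mem_iff.1 ht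
    rcases List.mem_append.1 h6 with h6 | h6
    · exact (List.mem_filter.1 h6).2
    · exact (List.mem_filter.1 h6).2
  refine ⟨(cw k u.1, k e ++ cw k u.2), h5, ?_, ?_⟩
  · show (List.filter q (cw k u.1), List.filter q (k e ++ cw k u.2)) = u
    rw [List.filter_append, filter_cw (fun t ht => huq t (List.mem_append_left _ ht)) (fun t _ => hkq t),
      filter_cw (fun t ht => huq t (List.mem_append_right _ ht)) (fun t _ => hkq t)]
    have h6 : (k e).filter q = [] := by
      rw [List.filter_eq_nil_iff]
      intro z hz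
      rw [hkq e z hz]
      simp
    rw [h6, List.nil_append]
  · intro C D hCD hD
    simp only at hCD
    obtain ⟨u', hu'⟩ := List.getLast?_eq_some_iff.mp hf
    obtain ⟨b', hb'⟩ := List.getLast?_eq_some_iff.mp hfs
    have hb'' : B.filter q = b' ++ [f] := hb'
    have h6 : B = k e ++ cw k b' ++ f :: k f := by
      have h7 : e :: B = cw k (e :: B.filter q) := e2
      rw [hb'', cw_cons, cw_append, cw_cons] at h7
      have h8 := List.tail_eq_of_cons_eq h7
      rw [h8]
      have : cw k ([] : List Ω) = [] := rfl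
      rw [this]
      simp
    have h7 : D = k f := by
      have h8 : C ++ f :: D = (k e ++ cw k b') ++ f :: k f := by rw [← hCD]; exact h6
      have hfB : B.Nodup := (List.nodup_cons.1 hndV).2
      have h9 : (C ++ f :: D).Nodup := by rw [← hCD]; exact hfB
      have h10 : f ∉ C := fun h11 => (List.nodup_append.1 h9).2.2 f h11 f List.mem_cons_self rfl
      have h11 : f ∉ k e ++ cw k b' := by
        intro h12
        have h13 : ((k e ++ cw k b') ++ f :: k f).Nodup := by rw [← h8]; exact h9
        exact (List.nodup_append.1 h13).2.2 f h12 f List.mem_cons_self rfl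
      have h12 : C = k e ++ cw k b' := by
        have h13 := congrArg (fun l : List Ω => l.takeWhile (fun t => !decide (t = f))) h8
        have key : ∀ (C1 D1 : List Ω), f ∉ C1 → (C1 ++ f :: D1).takeWhile (fun t => !decide (t = f)) = C1 := by
          intro C1 D1 hC1
          rw [List.takeWhile_append_of_pos, List.takeWhile_cons_of_neg (by simp), List.append_nil]
          intro t ht
          have : t ≠ f := fun h14 => hC1 (h14 ▸ ht)
          simp [this]
        simp only [key _ _ h10, key _ _ h11] at h13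
        exact h13
      rw [h12] at h8
      have h14 := List.append_cancel_left h8
      exact List.tail_eq_of_cons_eq h14
    refine ⟨k e ++ cw k u', ?_⟩
    simp only
    rw [hu', cw_append, cw_cons]
    have : cw k ([] : List Ω) = [] := rfl
    rw [this, h7]
    simp

/-- irreducibility of the pair. -/
theorem irB_of_irr {e : Ω} {A B B1 B2 : List Ω} (hi : Irr p (A ++ [p e], e :: B)) (h : B = B1 ++ B2) (hc : ∀ t ∈ B2, p t ∈ B2) :
    B2 = [] := by
  have h1 := hi (A ++ [p e]) [] (e :: B1) B2 (by rw [h]; simp) (by simp) (List.cons_ne_nil _ _) (by simpa using hc)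
  exact h1.2

/-- the number of coloured tokens after a lifted path. -/
theorem D2_lift {q : Ω → Bool} (hq : ∀ t, q (p t) = q t) {s s' : St Ω} (hperm : (s.1 ++ s.2).Perm (s'.1 ++ s'.2))
    (hm : ∀ t, q t = false → (t ∈ s.1 → p t ∈ s.1) ∧ (t ∈ s.2 → p t ∈ s.2)) :
    NTS.D2 p s' + NTS.D2 p (NA.fil q s) ≤ NTS.D2 p s + NTS.D2 p (NA.fil q s') := by
  have e1 := NTS.D2_filt hq s
  have e2 := NTS.D2_filt hq s'
  have e3 := NTS.D2_le (p := p) (NTS.filt (fun t => !q t) s')
  have e4 : NTS.D2 p (NTS.filt (fun t => !q t) s) = ((NTS.filt (fun t => !q t) s).1 ++ (NTS.filt (fun t => !q t) s).2).length := by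
    apply NTS.D2_eq_len
    · intro u hu
      simp only [NTS.filt, List.mem_filter, Bool.not_eq_true'] at hu ⊢
      exact ⟨(hm u hu.2).1 hu.1, by rw [hq]; exact hu.2⟩
    · intro u hu
      simp only [NTS.filt, List.mem_filter, Bool.not_eq_true'] at hu ⊢
      exact ⟨(hm u hu.2).2 hu.1, by rw [hq]; exact hu.2⟩
  have e5 : ((NTS.filt (fun t => !q t) s).1 ++ (NTS.filt (fun t => !q t) s).2).length =
      ((NTS.filt (fun t => !q t) s').1 ++ (NTS.filt (fun t => !q t) s').2).length := by
    have := (hperm.filter (fun t => !q t)).length_eq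
    simpa [NTS.filt, List.filter_append] using this
  have e6 : NA.fil q s = NTS.filt q s := rfl
  have e7 : NA.fil q s' = NTS.filt q s' := rfl
  rw [e6, e7]
  omega

theorem N_of_tok {e c o : Ω} {s : St Ω} (hc : c ∈ s.1) (hc' : p c ∈ s.1) (ho : o ∈ s.2) (ho' : p o ∈ s.2) :
    N p (s.1 ++ [p e], e :: s.2) :=
  ⟨⟨c, List.mem_append_left _ hc, List.mem_append_left _ hc'⟩, ⟨o, List.mem_cons_of_mem _ ho, List.mem_cons_of_mem _ ho'⟩⟩

theorem count_two {l : List Ω} (hn : l.Nodup) {c d : Ω} (hcd : c ≠ d) {P : Ω → Bool} (h : ∀ t ∈ l, P t = true ↔ (t = c ∨ t = d))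
    (hc : c ∈ l) (hd : d ∈ l) : l.countP P = 2 := by
  rw [List.countP_eq_length_filter]
  have h1 : (l.filter P).Perm [c, d] := by
    rw [List.perm_ext_iff_of_nodup (hn.filter _) (by simp [hcd])]
    intro t
    rw [List.mem_filter]
    simp only [List.mem_cons, List.not_mem_nil, or_false]
    constructor
    · rintro ⟨h2, h3⟩
      exact (h t h2).1 h3
    · rintro (rfl | rfl)
      · exact ⟨hc, (h _ hc).2 (Or.inl rfl)⟩
      · exact ⟨hd, (h _ hd).2 (Or.inr rfl)⟩
  rw [h1.length_eq]
  rfl

/-- the inner pair is well formed. -/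
theorem wf_inner {e : Ω} {s : St Ω} (hw : WF p (s.1 ++ [p e], e :: s.2)) : WF p s := by
  obtain ⟨he, he'⟩ := fresh_of_wf hw
  have hinv := hw.inv
  refine ⟨?_, ?_, hw.inv, hw.ne⟩
  · have h1 := hw.nd
    simp only at h1
    refine List.Sublist.nodup ?_ h1
    exact (List.sublist_append_left _ _).append (List.sublist_cons_self _ _)
  · intro t ht
    have h1 : t ∈ (s.1 ++ [p e]) ++ (e :: s.2) := by
      rcases List.mem_append.1 ht with h | h
      · exact List.mem_append_left _ (List.mem_append_left _ h)
      · exact List.mem_append_right _ (List.mem_cons_of_mem _ h)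
    have h2 := hw.cl t h1
    simp only [List.mem_append, List.mem_cons, List.not_mem_nil, or_false] at h2
    rcases h2 with (h2 | h2) | (h2 | h2)
    · exact List.mem_append_left _ h2
    · exact absurd ht (by
        have : t = e := by rw [← hinv t, h2, hinv]
        rw [this]; exact he)
    · exact absurd ht (by
        have : t = p e := by rw [← hinv t, h2]
        rw [this]; exact he')
    · exact List.mem_append_right _ h2

/-- colours of the pair from `N`. -/
theorem cols_of_N {e : Ω} {s : St Ω} (hw : WF p (s.1 ++ [p e], e :: s.2)) (hN : N p (s.1 ++ [p e], e :: s.2)) :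
    (∃ c ∈ s.1, p c ∈ s.1) ∧ ∃ o ∈ s.2, p o ∈ s.2 := by
  obtain ⟨he, he'⟩ := fresh_of_wf hw
  have hinv := hw.inv
  have hnd := List.nodup_append.1 hw.nd
  have hdj : ∀ t, t ∈ s.1 ++ [p e] → t ∉ e :: s.2 := fun t h1 h2 => hnd.2.2 t h1 t h2 rfl
  obtain ⟨⟨c, hc, hc'⟩, ⟨o, ho, ho'⟩⟩ := hN
  simp only at hc hc' ho ho'
  constructor
  · refine ⟨c, ?_, ?_⟩
    · rcases List.mem_append.1 hc with h | h
      · exact h
      · rw [List.mem_singleton.1 h, hinv] at hc'
        exact absurd List.mem_cons_self (hdj e hc')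
    · rcases List.mem_append.1 hc' with h | h
      · exact h
      · have h1 : c = e := by rw [← hinv c, List.mem_singleton.1 h, hinv]
        rw [h1] at hc
        exact absurd List.mem_cons_self (hdj e hc)
  · have hpe : p e ∉ e :: s.2 := hdj _ (List.mem_append_right _ (List.mem_singleton_self _))
    refine ⟨o, ?_, ?_⟩
    · rcases List.mem_cons.1 ho with h | h
      · rw [h] at ho'
        exact absurd ho' hpe
      · exact h
    · rcases List.mem_cons.1 ho' with h | h
      · have h1 : o = p e := by rw [← hinv o, h]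
        rw [h1] at ho
        exact absurd ho hpe
      · exact h

/-- the last mixed token. -/
theorem last_mixed {A : List Ω} : ∀ (E : List Ω) (o : Ω), p o ∈ A → ∃ C h E', o :: E = C ++ h :: E' ∧ p h ∈ A ∧ (∀ t ∈ E', p t ∉ A) ∧
    E'.length ≤ E.length := by
  intro E
  induction E with
  | nil => exact fun o ho => ⟨[], o, [], rfl, ho, by simp, le_rfl⟩
  | cons x E ih =>
    intro o ho
    by_cases hx : ∃ z ∈ x :: E, p z ∈ A
    · obtain ⟨z, hz, hz'⟩ := hx
      by_cases hx1 : p x ∈ A
      · obtain ⟨C, h, E', h1, h2, h3, h4⟩ := ih x hx1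
        exact ⟨o :: C, h, E', by rw [h1]; rfl, h2, h3, by simp only [List.length_cons]; omega⟩
      · -- apply the induction hypothesis to `o`, `E`
        obtain ⟨C, h, E', h1, h2, h3, h4⟩ := ih o ho
        cases C with
        | nil =>
          have h5 := List.head_eq_of_cons_eq h1
          have h6 := List.tail_eq_of_cons_eq h1
          subst h5
          subst h6
          exfalso
          rcases List.mem_cons.1 hz with rfl | hz
          · exact hx1 hz'
          · exact h3 z hz hz'
        | cons c C =>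
          have h5 := List.head_eq_of_cons_eq h1
          have h6 := List.tail_eq_of_cons_eq h1
          exact ⟨o :: x :: C, h, E', by rw [h6]; rfl, h2, h3, by simp only [List.length_cons]; omega⟩
    · exact ⟨[], o, x :: E, rfl, ho, fun t ht h1 => hx ⟨t, ht, h1⟩, le_rfl⟩

end

end NTH
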