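import Pool.Agent.helper14.NTN.Asm5
import Pool.Agent.helper32.RH.Drop
import Pool.Agent.helper32.RH.RhoQ

/-!
# MP_c8d30a: the first shift: both colours get two letters
-/

set_option autoImplicit false

namespace NTH

open Equiv
open Pool.Agent.helper32.RH (RTs MvO Mvd MvQ MvdQ Col ColQ RHO' RHOQ')

section
variable {Ω : Type} [DecidableEq Ω] {p : Ω → Ω}

/-- two neighbours are coloured tokens of different letters. -/
def AdjS (p : Ω → Ω) (s : St Ω) : Prop := ∃ t, (NA.Red p s t ∨ NA.Blu p s t) ∧ (NA.Red p s (NA.sc s t) ∨ NA.Blu p s (NA.sc s t)) ∧ NA.sc s t ≠ p t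

/-- two red letters and two blue letters. -/
def Two (p : Ω → Ω) (s : St Ω) : Prop := (∃ c d, NA.Red p s c ∧ NA.Red p s d ∧ d ≠ c ∧ d ≠ p c) ∧ ∃ c d, NA.Blu p s c ∧ NA.Blu p s d ∧ d ≠ c ∧ d ≠ p c

/-- the word of a side. -/
def wd (s : St Ω) (b : Bool) : List Ω := bif b then s.1 else s.2

/-- `t`, `v` change from the side `b` to the other side. -/
structure Flp (p : Ω → Ω) (f : Ω) (s s' : St Ω) (b : Bool) (t v : Ω) : Prop where
  rts : RTs p 6 s s'
  wf : WF p s'
  last : s'.2.getLast? = some f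
  perm : (s'.1 ++ s'.2).Perm (s.1 ++ s.2)
  t' : t ∈ wd s' (!b)
  v' : v ∈ wd s' (!b)
  o : ∀ w, w ≠ t → w ≠ v → ∀ c, (w ∈ wd s' c ↔ w ∈ wd s c)

theorem sc_wd {s : St Ω} (hw : WF p s) (b : Bool) (v : Ω) : NA.sc s v ∈ wd s b ↔ v ∈ wd s b := by
  obtain ⟨A, B⟩ := s
  have hdj : ∀ t, t ∈ A → t ∉ B := fun t h1 h2 => (List.nodup_append.1 hw.nd).2.2 t h1 t h2 rfl
  cases b with
  | true => exact sc_mem hdj v
  | false =>
    show NA.sc (A, B) v ∈ B ↔ v ∈ B
    unfold NA.sc
    simp only [Perm.mul_apply]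
    constructor
    · intro h1
      by_contra h2
      rw [List.formPerm_apply_of_notMem h2] at h1
      by_cases h3 : v ∈ A
      · exact hdj _ (List.formPerm_apply_mem_of_mem h3) h1
      · rw [List.formPerm_apply_of_notMem h3] at h1
        exact h2 h1
    · intro h1
      have h2 : List.formPerm B v ∈ B := List.formPerm_apply_mem_of_mem h1
      rw [List.formPerm_apply_of_notMem (fun h3 => hdj _ h3 h2)]
      exact h2

theorem flip_step {f t v : Ω} {s : St Ω} (b : Bool) (hg : GP p f s) (ht : t ∈ wd s b) (ht' : p t ∈ wd s b)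
    (hd : ∃ d ∈ wd s b, p d ∈ wd s b ∧ d ≠ t ∧ d ≠ p t) (hz : ∃ z ∈ wd s (!b), p z ∈ wd s (!b))
    (hx : p (NA.sc s t) ∈ wd s (!b)) (hv : NA.sc s v = p t) (hpv : p v ∈ wd s (!b)) (h1 : NA.sc s t ≠ p t) (h2 : v ≠ f) (h3 : v ≠ p f) :
    ∃ s', Flp p f s s' b t v := by
  have hw := hg.wf
  have hinv := hw.inv
  have hdj : ∀ t, t ∈ s.1 → t ∉ s.2 := fun t h1 h2 => (List.nodup_append.1 hw.nd).2.2 t h1 t h2 rfl
  have hvb : v ∈ wd s b := (sc_wd hw b v).1 (by rw [hv]; exact ht')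
  have hxb : NA.sc s t ∈ wd s b := (sc_wd hw b t).2 ht
  have hfB : f ∈ s.2 := by
    obtain ⟨Y, hY⟩ := List.getLast?_eq_some_iff.mp hg.last
    rw [hY]
    simp
  have htv : t ≠ v := by
    rintro rfl
    exact h1 hv
  have hpf : p v ≠ f := fun h => h3 (by rw [← h, hinv])
  have hpf' : p v ≠ p f := fun h => h2 (by rw [← hinv v, h, hinv])
  obtain ⟨d, hd1, hd2, hd3, hd4⟩ := hd
  obtain ⟨z, hz1, hz2⟩ := hz
  cases b with
  | true =>
    simp only [wd, Bool.not_true, cond_true, cond_false] at ht ht' hd1 hd2 hz1 hz2 hx hpv hvb hxb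
    have htf : t ≠ f := fun h => hdj _ ht (h ▸ hfB)
    have htf' : t ≠ p f := fun h => hdj _ ht' (by rw [h, hinv]; exact hfB)
    have hty : t ≠ p v := fun h => hdj _ ht (h ▸ hpv)
    by_cases hxv : NA.sc s t = v
    · obtain ⟨s', hr, hm⟩ := RHOQ' (p := p) (s := s) (f := f) (t := t) (y := p v)
        ⟨hw, hg.last, hg.fA, List.mem_append_left _ ht, by rw [hinv]; exact hxv, by rw [hinv]; exact hv, hty, by rw [hinv]; exact htv, htf,
          htf', hpf, hpf'⟩ (ColQ.red z ht ht' hz1 hz2 (fun _ => ⟨d, hd1, hd2, hd3, hd4⟩))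
      refine ⟨s', hr, hm.wf, hm.last, Pool.Agent.helper32.RH.MvdQ.perm ⟨hw, hg.last, hg.fA, List.mem_append_left _ ht, by rw [hinv]; exact hxv, by rw [hinv]; exact hv, hty, by rw [hinv]; exact htv, htf,
          htf', hpf, hpf'⟩ hm, ?_, ?_, ?_⟩
      · exact (hm.m2 t).2 (Or.inr ⟨Or.inl rfl, hpv⟩)
      · exact (hm.m2 v).2 (Or.inr ⟨Or.inr (by rw [hinv]), hpv⟩)
      · intro w hw1 hw2 c
        have hw3 : w ≠ p (p v) := by rw [hinv]; exact hw2
        cases c with
        | true =>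
          show w ∈ s'.1 ↔ w ∈ s.1
          rw [hm.m1]
          tauto
        | false =>
          show w ∈ s'.2 ↔ w ∈ s.2
          rw [hm.m2]
          tauto
    · have hmv : MvO p s f t (NA.sc s t) (p v) := ⟨hw, hg.last, hg.fA, List.mem_append_left _ ht, rfl, by rw [hinv]; exact hv,
        fun h => hdj _ ht' (by rw [h]; exact hx), fun h => hdj _ ht (by rw [h]; exact hx), hty, by rw [hinv]; exact htv,
        fun h => hdj _ hxb (by rw [h]; exact hpv), by rw [hinv]; exact hxv, htf, htf', hpf, hpf'⟩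
      obtain ⟨s', hr, hm⟩ := RHO' hmv (Col.red z ht ht' hz1 hz2 (fun _ _ => ⟨d, hd1, hd2, hd3, hd4⟩))
      refine ⟨s', hr, hm.wf, hm.last, Pool.Agent.helper32.RH.Mvd.perm hmv hm, ?_, ?_, ?_⟩
      · exact (hm.m2 t).2 (Or.inr (Or.inl ⟨rfl, hpv⟩))
      · exact (hm.m2 v).2 (Or.inr (Or.inr ⟨by rw [hinv], hx⟩))
      · intro w hw1 hw2 c
        have hw3 : w ≠ p (p v) := by rw [hinv]; exact hw2
        cases c with
        | true =>
          show w ∈ s'.1 ↔ w ∈ s.1
          rw [hm.m1]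
          tauto
        | false =>
          show w ∈ s'.2 ↔ w ∈ s.2
          rw [hm.m2]
          tauto
  | false =>
    simp only [wd, Bool.not_false, cond_true, cond_false] at ht ht' hd1 hd2 hz1 hz2 hx hpv hvb hxb
    have hdj' : ∀ t, t ∈ s.2 → t ∉ s.1 := fun t h1 h2 => hdj t h2 h1
    have htf : t ≠ f := fun h => hdj' _ ht' (by rw [h]; exact hg.fA)
    have htf' : t ≠ p f := fun h => hdj' _ ht (by rw [h]; exact hg.fA)
    have hty : t ≠ p v := fun h => hdj' _ ht (h ▸ hpv)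
    by_cases hxv : NA.sc s t = v
    · obtain ⟨s', hr, hm⟩ := RHOQ' (p := p) (s := s) (f := f) (t := t) (y := p v)
        ⟨hw, hg.last, hg.fA, List.mem_append_right _ ht, by rw [hinv]; exact hxv, by rw [hinv]; exact hv, hty, by rw [hinv]; exact htv, htf,
          htf', hpf, hpf'⟩ (ColQ.blue z ht ht' hz1 hz2 (fun _ => ⟨d, hd1, hd2, hd3, hd4⟩))
      refine ⟨s', hr, hm.wf, hm.last, Pool.Agent.helper32.RH.MvdQ.perm ⟨hw, hg.last, hg.fA, List.mem_append_right _ ht, by rw [hinv]; exact hxv, by rw [hinv]; exact hv, hty, by rw [hinv]; exact htv, htf,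
          htf', hpf, hpf'⟩ hm, ?_, ?_, ?_⟩
      · exact (hm.m1 t).2 (Or.inr ⟨Or.inl rfl, hpv⟩)
      · exact (hm.m1 v).2 (Or.inr ⟨Or.inr (by rw [hinv]), hpv⟩)
      · intro w hw1 hw2 c
        have hw3 : w ≠ p (p v) := by rw [hinv]; exact hw2
        cases c with
        | true =>
          show w ∈ s'.1 ↔ w ∈ s.1
          rw [hm.m1]
          tauto
        | false =>
          show w ∈ s'.2 ↔ w ∈ s.2
          rw [hm.m2]
          tauto
    · have hmv : MvO p s f t (NA.sc s t) (p v) := ⟨hw, hg.last, hg.fA, List.mem_append_right _ ht, rfl, by rw [hinv]; exact hv,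
        fun h => hdj' _ ht' (by rw [h]; exact hx), fun h => hdj' _ ht (by rw [h]; exact hx), hty, by rw [hinv]; exact htv,
        fun h => hdj' _ hxb (by rw [h]; exact hpv), by rw [hinv]; exact hxv, htf, htf', hpf, hpf'⟩
      obtain ⟨s', hr, hm⟩ := RHO' hmv (Col.blue z ht ht' hz1 hz2 (fun _ _ => ⟨d, hd1, hd2, hd3, hd4⟩))
      refine ⟨s', hr, hm.wf, hm.last, Pool.Agent.helper32.RH.Mvd.perm hmv hm, ?_, ?_, ?_⟩
      · exact (hm.m1 t).2 (Or.inr (Or.inl ⟨rfl, hpv⟩))
      · exact (hm.m1 v).2 (Or.inr (Or.inr ⟨by rw [hinv], hx⟩))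
      · intro w hw1 hw2 c
        have hw3 : w ≠ p (p v) := by rw [hinv]; exact hw2
        cases c with
        | true =>
          show w ∈ s'.1 ↔ w ∈ s.1
          rw [hm.m1]
          tauto
        | false =>
          show w ∈ s'.2 ↔ w ∈ s.2
          rw [hm.m2]
          tauto

/-- the coloured tokens. -/
def CF (p : Ω → Ω) (s : St Ω) : Finset Ω := (s.1 ++ s.2).toFinset.filter (fun w => (w ∈ s.1 ↔ p w ∈ s.1))

theorem D2_card {s : St Ω} (hw : WF p s) : NTS.D2 p s = (CF p s).card := by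
  have hnd := List.nodup_append.1 hw.nd
  have hdj : ∀ t, t ∈ s.1 → t ∉ s.2 := fun t h1 h2 => hnd.2.2 t h1 t h2 rfl
  rw [D2_split, ← List.length_append, ← List.toFinset_card_of_nodup]
  · congr 1
    ext w
    simp only [CF, List.mem_toFinset, List.mem_append, List.mem_filter, decide_eq_true_iff, Finset.mem_filter]
    constructor
    · rintro (⟨h1, h2⟩ | ⟨h1, h2⟩)
      · exact ⟨Or.inl h1, fun _ => h2, fun _ => h1⟩
      · exact ⟨Or.inr h1, fun h3 => absurd h1 (hdj _ h3), fun h3 => absurd h2 (hdj _ h3)⟩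
    · rintro ⟨h1 | h1, h2⟩
      · exact Or.inl ⟨h1, h2.1 h1⟩
      · right
        refine ⟨h1, ?_⟩
        have h3 := hw.cl w (List.mem_append_right _ h1)
        rcases List.mem_append.1 h3 with h4 | h4
        · exact absurd h1 (hdj _ (h2.2 h4))
        · exact h4
  · rw [List.nodup_append]
    refine ⟨hnd.1.filter _, hnd.2.1.filter _, ?_⟩
    rintro a h1 b h2 rfl
    exact hdj a (List.mem_of_mem_filter h1) (List.mem_of_mem_filter h2)

theorem wd_other {s : St Ω} (hw : WF p s) {b : Bool} {w : Ω} (h : w ∈ wd s b) : w ∉ wd s (!b) := by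
  have hdj : ∀ t, t ∈ s.1 → t ∉ s.2 := fun t h1 h2 => (List.nodup_append.1 hw.nd).2.2 t h1 t h2 rfl
  cases b with
  | true => exact hdj _ h
  | false => exact fun h1 => hdj _ h1 h

theorem wd_or {s : St Ω} {w : Ω} (b : Bool) (h : w ∈ s.1 ++ s.2) : w ∈ wd s b ∨ w ∈ wd s (!b) := by
  cases b with
  | true => exact List.mem_append.1 h
  | false => exact (List.mem_append.1 h).symm

theorem wd_tok {s : St Ω} {w : Ω} {b : Bool} (h : w ∈ wd s b) : w ∈ s.1 ++ s.2 := by
  cases b with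
  | true => exact List.mem_append_left _ h
  | false => exact List.mem_append_right _ h

/-- coloured, by the words. -/
theorem mem_CF {s : St Ω} (hw : WF p s) {w : Ω} : w ∈ CF p s ↔ ∃ b, w ∈ wd s b ∧ p w ∈ wd s b := by
  have hdj : ∀ t, t ∈ s.1 → t ∉ s.2 := fun t h1 h2 => (List.nodup_append.1 hw.nd).2.2 t h1 t h2 rfl
  simp only [CF, Finset.mem_filter, List.mem_toFinset]
  constructor
  · rintro ⟨h1, h2⟩
    by_cases h3 : w ∈ s.1
    · exact ⟨true, h3, h2.1 h3⟩
    · refine ⟨false, (List.mem_append.1 h1).resolve_left h3, ?_⟩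
      rcases List.mem_append.1 (hw.cl w h1) with h4 | h4
      · exact absurd (h2.2 h4) h3
      · exact h4
  · rintro ⟨b, h1, h2⟩
    refine ⟨wd_tok h1, ?_⟩
    cases b with
    | true => exact ⟨fun _ => h2, fun _ => h1⟩
    | false => exact ⟨fun h3 => absurd h1 (hdj _ h3), fun h3 => absurd h2 (hdj _ h3)⟩

theorem Flp.D2 {f t v : Ω} {s s' : St Ω} {b : Bool} (h : Flp p f s s' b t v) (hw : WF p s) (ht : t ∈ wd s b) (ht' : p t ∈ wd s b)
    (hv : v ∈ wd s b) (hv' : p v ∈ wd s (!b)) : NTS.D2 p s' = NTS.D2 p s := by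
  have hinv := hw.inv
  have hne := hw.ne
  have hw' := h.wf
  have hnv : p v ∉ wd s b := fun h1 => wd_other hw h1 hv'
  have htv : t ≠ v := by
    rintro rfl
    exact hnv ht'
  have htv' : t ≠ p v := fun h1 => hnv (h1 ▸ ht)
  have hpt : p t ≠ v := by
    intro h1
    apply hnv
    rw [← h1, hinv]
    exact ht
  have hpt' : p t ≠ p v := fun h1 => hnv (h1 ▸ ht')
  have o1 : ∀ c, p t ∈ wd s' c ↔ p t ∈ wd s c := h.o _ (hne t) hpt
  have o2 : ∀ c, p v ∈ wd s' c ↔ p v ∈ wd s c := h.o _ (fun h1 => htv' h1.symm) (hne v)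
  rw [D2_card hw', D2_card hw]
  have hC' : CF p s' = insert v (insert (p v) (((CF p s).erase t).erase (p t))) := by
    ext w
    simp only [Finset.mem_insert, Finset.mem_erase]
    by_cases h1 : w = v
    · subst h1
      simp only [true_or, iff_true]
      rw [mem_CF hw']
      exact ⟨!b, h.v', (o2 _).2 hv'⟩
    · by_cases h2 : w = p v
      · subst h2
        simp only [true_or, or_true, iff_true]
        rw [mem_CF hw']
        exact ⟨!b, (o2 _).2 hv', by rw [hinv]; exact h.v'⟩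
      · by_cases h3 : w = t
        · subst h3
          simp only [h1, h2, false_or, ne_eq, not_true_eq_false, false_and, and_false, iff_false]
          rw [mem_CF hw']
          rintro ⟨c, h4, h5⟩
          rw [o1] at h5
          have h6 : c = b := by
            by_contra h7
            have h8 : c = !b := by cases c <;> cases b <;> simp_all
            rw [h8] at h5
            exact wd_other hw ht' h5
          rw [h6] at h4
          exact wd_other hw' h4 h.t'
        · by_cases h4 : w = p t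
          · subst h4
            simp only [h1, h2, false_or, ne_eq, not_true_eq_false, false_and, iff_false]
            rw [mem_CF hw']
            rintro ⟨c, h4, h5⟩
            rw [hinv] at h5
            rw [o1] at h4
            have h6 : c = b := by
              by_contra h7
              have h8 : c = !b := by cases c <;> cases b <;> simp_all
              rw [h8] at h4
              exact wd_other hw ht' h4
            rw [h6] at h5
            exact wd_other hw' h5 h.t'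
          · simp only [h1, h2, h3, h4, false_or, ne_eq, not_false_eq_true, true_and]
            rw [mem_CF hw', mem_CF hw]
            have h5 : p w ≠ t := fun h6 => h4 (by rw [← h6, hinv])
            have h6 : p w ≠ v := fun h7 => h2 (by rw [← h7, hinv])
            simp only [h.o w h3 h1, h.o (p w) h5 h6]
  have c1 : t ∈ CF p s := (mem_CF hw).2 ⟨b, ht, ht'⟩
  have c2 : p t ∈ (CF p s).erase t := Finset.mem_erase.2 ⟨hne t, (mem_CF hw).2 ⟨b, ht', by rw [hinv]; exact ht⟩⟩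
  have c3 : v ∉ CF p s := by
    rw [mem_CF hw]
    rintro ⟨c, h1, h2⟩
    have h6 : c = b := by
      by_contra h7
      have h8 : c = !b := by cases c <;> cases b <;> simp_all
      rw [h8] at h1
      exact wd_other hw hv h1
    rw [h6] at h2
    exact hnv h2
  have c4 : p v ∉ CF p s := by
    rw [mem_CF hw]
    rintro ⟨c, h1, h2⟩
    rw [hinv] at h2
    have h6 : c = b := by
      by_contra h7
      have h8 : c = !b := by cases c <;> cases b <;> simp_all
      rw [h8] at h2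
      exact wd_other hw hv h2
    rw [h6] at h1
    exact hnv h1
  rw [hC', Finset.card_insert_of_notMem, Finset.card_insert_of_notMem, Finset.card_erase_of_mem c2, Finset.card_erase_of_mem c1]
  · have h5 : 0 < (CF p s).card := Finset.card_pos.2 ⟨t, c1⟩
    have h6 : 0 < ((CF p s).erase t).card := Finset.card_pos.2 ⟨p t, c2⟩
    rw [Finset.card_erase_of_mem c1] at h6
    omega
  · simp only [Finset.mem_erase]
    exact fun h1 => c4 h1.2.2
  · simp only [Finset.mem_insert, Finset.mem_erase]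
    rintro (h1 | h1)
    · exact hne v h1.symm
    · exact c3 h1.2.2

theorem two_cycle {l : List Ω} (hn : l.Nodup) {u u' w : Ω} (hu : u ∈ l) (h1 : List.formPerm l u = u') (h2 : List.formPerm l u' = u)
    (hw : w ∈ l) : w = u ∨ w = u' := by
  by_cases hl : l.length ≤ 1
  · left
    match l, hl, hu, hw with
    | [x], _, hu, hw => rw [List.mem_singleton.1 hu, List.mem_singleton.1 hw]
  · have cyc := List.isCycle_formPerm hn (by omega)
    have hu' : List.formPerm l u ≠ u := by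
      rw [Ne, List.formPerm_apply_mem_eq_self_iff _ hn _ hu]
      exact hl
    have hw' : List.formPerm l w ≠ w := by
      rw [Ne, List.formPerm_apply_mem_eq_self_iff _ hn _ hw]
      exact hl
    obtain ⟨n, hn'⟩ := cyc.sameCycle hu' hw'
    have h1' : (List.formPerm l)⁻¹ u' = u := by rw [Perm.inv_eq_iff_eq]; exact h1.symm
    have h2' : (List.formPerm l)⁻¹ u = u' := by rw [Perm.inv_eq_iff_eq]; exact h2.symm
    have key : ∀ n : ℤ, (List.formPerm l ^ n) u = u ∨ (List.formPerm l ^ n) u = u' := by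
      intro n
      induction n using Int.induction_on with
      | zero => exact Or.inl rfl
      | succ n ih =>
        rw [add_comm, zpow_one_add, Perm.mul_apply]
        rcases ih with h | h
        · rw [h]; exact Or.inr h1
        · rw [h]; exact Or.inl h2
      | pred n ih =>
        have e1 : (-(n : ℤ) - 1) = -1 + -(n : ℤ) := by ring
        rw [e1, zpow_add, zpow_neg_one, Perm.mul_apply]
        rcases ih with h | h
        · rw [h]; exact Or.inr h2'
        · rw [h]; exact Or.inl h1'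
    rw [← hn']
    exact key n

/-- one of the two directions is not blocked by the own token. -/
theorem not_own {s : St Ω} (hw : WF p s) {b : Bool} {u c : Ω} (hu : u ∈ wd s b) (hu' : p u ∈ wd s b) (hc : c ∈ wd s b) (h1 : c ≠ u) (h2 : c ≠ p u) :
    ∃ t, (t = u ∨ t = p u) ∧ t ∈ wd s b ∧ p t ∈ wd s b ∧ NA.sc s t ≠ p t := by
  have hinv := hw.inv
  by_cases h3 : NA.sc s u = p u
  · refine ⟨p u, Or.inr rfl, hu', by rw [hinv]; exact hu, ?_⟩
    intro h4
    rw [hinv] at h4
    have hnd := List.nodup_append.1 hw.nd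
    have key : List.formPerm (wd s b) u = p u ∧ List.formPerm (wd s b) (p u) = u := by
      cases b with
      | true =>
        simp only [wd, cond_true] at hu hu' ⊢
        rw [Pool.Agent.helper32.RH.sc_mem1 hw.nd hu] at h3
        rw [Pool.Agent.helper32.RH.sc_mem1 hw.nd hu'] at h4
        exact ⟨h3, h4⟩
      | false =>
        simp only [wd, cond_false] at hu hu' ⊢
        rw [Pool.Agent.helper32.RH.sc_mem2 hw.nd hu] at h3
        rw [Pool.Agent.helper32.RH.sc_mem2 hw.nd hu'] at h4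
        exact ⟨h3, h4⟩
    have hn : (wd s b).Nodup := by
      cases b with
      | true => exact hnd.1
      | false => exact hnd.2.1
    rcases two_cycle hn hu key.1 key.2 hc with h5 | h5
    · exact h1 h5
    · exact h2 h5
  · exact ⟨u, Or.inl rfl, hu, hu', h3⟩

theorem shift_t {f t c d z : Ω} {s : St Ω} (b : Bool) (hg : GP p f s) (ht : t ∈ wd s b) (ht' : p t ∈ wd s b)
    (hc : c ∈ wd s b) (hc' : p c ∈ wd s b) (hd : d ∈ wd s b) (hd' : p d ∈ wd s b) (hz : z ∈ wd s (!b)) (hz' : p z ∈ wd s (!b))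
    (e1 : c ≠ t) (e2 : c ≠ p t) (e3 : d ≠ t) (e4 : d ≠ p t) (e5 : d ≠ c) (e6 : d ≠ p c) (h1 : NA.sc s t ≠ p t)
    (h2 : (NA.sc s).symm (p t) ≠ f) (h3 : (NA.sc s).symm (p t) ≠ p f) :
    AdjS p s ∨ ∃ s', RTs p 6 s s' ∧ GP p f s' ∧ (s'.1 ++ s'.2).Perm (s.1 ++ s.2) ∧ NTS.D2 p s' = NTS.D2 p s ∧ Two p s' := by
  have hw := hg.wf
  have hinv := hw.inv
  set v := (NA.sc s).symm (p t) with hv
  have hv1 : NA.sc s v = p t := Equiv.apply_symm_apply _ _
  have hvb : v ∈ wd s b := (sc_wd hw b v).1 (by rw [hv1]; exact ht')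
  have hxb : NA.sc s t ∈ wd s b := (sc_wd hw b t).2 ht
  have htv : t ≠ v := by
    intro h
    exact h1 (h ▸ hv1 : NA.sc s t = p t)
  have cb : ∀ w, w ∈ wd s b → p w ∈ wd s b → (NA.Red p s w ∨ NA.Blu p s w) := by
    intro w h4 h5
    cases b with
    | true => exact Or.inl ⟨h4, h5⟩
    | false => exact Or.inr ⟨h4, h5⟩
  rcases wd_or b (hw.cl _ (wd_tok hxb)) with hx | hx
  · exact Or.inl ⟨t, cb t ht ht', cb _ hxb hx, h1⟩
  rcases wd_or b (hw.cl _ (wd_tok hvb)) with hpv | hpv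
  · refine Or.inl ⟨v, cb v hvb hpv, ?_, ?_⟩
    · rw [hv1]
      exact cb _ ht' (by rw [hinv]; exact ht)
    · rw [hv1]
      intro h4
      have := congrArg p h4
      rw [hinv, hinv] at this
      exact htv this
  right
  obtain ⟨s', hF⟩ := flip_step b hg ht ht' ⟨c, hc, hc', e1, e2⟩ ⟨z, hz, hz'⟩ hx hv1 hpv h1 h2 h3
  have hD := hF.D2 hw ht ht' hvb hpv
  have nb : ∀ w, w ∈ wd s b → w ∉ wd s (!b) := fun w h => wd_other hw h
  have hpt : p t ≠ v := fun h => nb _ ht (by rw [← hinv t, h]; exact hpv)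
  -- the letters on the side `b`
  have kb : ∀ w, w ∈ wd s b → p w ∈ wd s b → w ≠ t → w ≠ p t → w ∈ wd s' b ∧ p w ∈ wd s' b := by
    intro w h4 h5 h6 h7
    have h8 : w ≠ v := fun h => nb _ h5 (by rw [h]; exact hpv)
    have h9 : p w ≠ v := fun h => nb _ h4 (by rw [← hinv w, h]; exact hpv)
    have h10 : p w ≠ t := fun h => h7 (by rw [← h, hinv])
    exact ⟨(hF.o w h6 h8 b).2 h4, (hF.o _ h10 h9 b).2 h5⟩
  have kz : z ∈ wd s' (!b) ∧ p z ∈ wd s' (!b) :=
    ⟨(hF.o z (fun h => nb _ ht (h ▸ hz)) (fun h => nb _ hvb (h ▸ hz)) _).2 hz,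
      (hF.o _ (fun h => nb _ ht (h ▸ hz')) (fun h => nb _ hvb (h ▸ hz')) _).2 hz'⟩
  have kv : v ∈ wd s' (!b) ∧ p v ∈ wd s' (!b) :=
    ⟨hF.v', (hF.o _ (fun h => nb _ ht (h ▸ hpv)) (hw.ne v) _).2 hpv⟩
  have hvz : v ≠ z := fun h => nb _ hvb (h ▸ hz)
  have hvz' : v ≠ p z := fun h => nb _ hvb (h ▸ hz')
  have htwo : Two p s' := by
    have k1 := kb c hc hc' e1 e2
    have k2 := kb d hd hd' e3 e4
    cases b with
    | true => exact ⟨⟨c, d, k1, k2, e5, e6⟩, ⟨z, v, kz, kv, hvz, hvz'⟩⟩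
    | false => exact ⟨⟨z, v, kz, kv, hvz, hvz'⟩, ⟨c, d, k1, k2, e5, e6⟩⟩
  have hfB : f ∈ s.2 := by
    obtain ⟨Y, hY⟩ := List.getLast?_eq_some_iff.mp hg.last
    rw [hY]
    simp
  have hft : p f ≠ t := by
    intro h
    have h4 : p t = f := by rw [← h, hinv]
    cases b with
    | true => exact nb _ ht' (by rw [h4]; exact hfB)
    | false => exact nb _ ht (by rw [← h]; exact hg.fA)
  obtain ⟨⟨r1, -, hr1, -, -, -⟩, ⟨b1, -, hb1, -, -, -⟩⟩ := id htwo
  refine ⟨s', hF.rts, ⟨hF.wf, hF.last, (hF.o (p f) hft (fun h => h3 h.symm) true).2 hg.fA, ⟨r1, hr1⟩, ⟨b1, hb1⟩⟩, hF.perm, hD, htwo⟩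

omit [DecidableEq Ω] in
theorem ex_notMem {l l' : List Ω} (hn : l.Nodup) (h : l'.length < l.length) : ∃ x ∈ l, x ∉ l' := by
  by_contra hcon
  push Not at hcon
  have := (List.Nodup.subperm hn hcon).length_le
  omega

theorem shift_side {f a c d z : Ω} {s : St Ω} (b : Bool) (hg : GP p f s) (ha : a ∈ wd s b) (ha' : p a ∈ wd s b)
    (hc : c ∈ wd s b) (hc' : p c ∈ wd s b) (hd : d ∈ wd s b) (hd' : p d ∈ wd s b) (hz : z ∈ wd s (!b)) (hz' : p z ∈ wd s (!b))
    (e1 : c ≠ a) (e2 : c ≠ p a) (e3 : d ≠ a) (e4 : d ≠ p a) (e5 : d ≠ c) (e6 : d ≠ p c) :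
    AdjS p s ∨ ∃ s', RTs p 6 s s' ∧ GP p f s' ∧ (s'.1 ++ s'.2).Perm (s.1 ++ s.2) ∧ NTS.D2 p s' = NTS.D2 p s ∧ Two p s' := by
  have hw := hg.wf
  have hinv := hw.inv
  have hfB : f ∈ s.2 := by
    obtain ⟨Y, hY⟩ := List.getLast?_eq_some_iff.mp hg.last
    rw [hY]
    simp
  have e2' : a ≠ p c := fun h => e2 (by rw [h, hinv])
  have e4' : a ≠ p d := fun h => e4 (by rw [h, hinv])
  have e6' : c ≠ p d := fun h => e6 (by rw [h, hinv])
  obtain ⟨t, ht1, ht2, ht3, ht4⟩ := not_own hw ha ha' hc e1 e2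
  obtain ⟨u, hu1, hu2, hu3, hu4⟩ := not_own hw hc hc' ha (Ne.symm e1) e2'
  have hat : ∀ w, w ≠ a → w ≠ p a → w ≠ t ∧ w ≠ p t := by
    intro w h1 h2
    rcases ht1 with rfl | rfl
    · exact ⟨h1, h2⟩
    · exact ⟨h2, by rw [hinv]; exact h1⟩
  have hcu : ∀ w, w ≠ c → w ≠ p c → w ≠ u ∧ w ≠ p u := by
    intro w h1 h2
    rcases hu1 with rfl | rfl
    · exact ⟨h1, h2⟩
    · exact ⟨h2, by rw [hinv]; exact h1⟩
  -- the wall
  obtain ⟨g, hg1, hg2⟩ : ∃ g, g ∈ wd s b ∧ ∀ v, v ∈ wd s b → v ≠ g → v ≠ f ∧ v ≠ p f := by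
    cases b with
    | true => exact ⟨p f, hg.fA, fun v h1 h2 => ⟨fun h3 => wd_other (b := true) hw h1 (h3 ▸ hfB), h2⟩⟩
    | false => exact ⟨f, hfB, fun v h1 h2 => ⟨h2, fun h3 => wd_other (b := false) hw h1 (h3 ▸ hg.fA)⟩⟩
  have hsym : ∀ w, p w ∈ wd s b → (NA.sc s).symm (p w) ∈ wd s b := fun w h => (sc_wd hw b _).1 (by rw [Equiv.apply_symm_apply]; exact h)
  by_cases hwall : (NA.sc s).symm (p t) = g
  · have hwall' : (NA.sc s).symm (p u) ≠ g := by
      intro h
      have h1 : p t = p u := (NA.sc s).symm.injective (hwall.trans h.symm)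
      have h2 : t = u := by rw [← hinv t, h1, hinv]
      rcases hat c e1 e2 with ⟨h3, h4⟩
      rcases hu1 with h5 | h5
      · exact h3 (by rw [h2, h5])
      · exact h4 (by rw [h2, h5, hinv])
    obtain ⟨h1, h2⟩ := hg2 _ (hsym u hu3) hwall'
    obtain ⟨h3, h4⟩ := hcu a (Ne.symm e1) e2'
    obtain ⟨h5, h6⟩ := hcu d e5 e6
    exact shift_t b hg hu2 hu3 ha ha' hd hd' hz hz' h3 h4 h5 h6 e3 e4 hu4 h1 h2
  · obtain ⟨h1, h2⟩ := hg2 _ (hsym t ht3) hwall
    obtain ⟨h3, h4⟩ := hat c e1 e2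
    obtain ⟨h5, h6⟩ := hat d e3 e4
    exact shift_t b hg ht2 ht3 hc hc' hd hd' hz hz' h3 h4 h5 h6 e5 e6 ht4 h1 h2

theorem D2_wd (s : St Ω) (b : Bool) : NTS.D2 p s = ((wd s b).filter (fun t => decide (p t ∈ wd s b))).length +
    ((wd s (!b)).filter (fun t => decide (p t ∈ wd s (!b)))).length := by
  rw [D2_split]
  cases b with
  | true => rfl
  | false => exact Nat.add_comm _ _

/-- THE FIRST SHIFT. -/
theorem shift {f : Ω} {s : St Ω} (hg : GP p f s) (hD : 8 ≤ NTS.D2 p s) :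
    AdjS p s ∨ ∃ s', RTs p 6 s s' ∧ GP p f s' ∧ (s'.1 ++ s'.2).Perm (s.1 ++ s.2) ∧ NTS.D2 p s' = NTS.D2 p s ∧ Two p s' := by
  have hw := hg.wf
  have hinv := hw.inv
  have hnd := List.nodup_append.1 hw.nd
  by_cases h2 : Two p s
  · refine Or.inr ⟨s, ?_, hg, List.Perm.refl _, rfl, h2⟩
    exact (Pool.Agent.helper32.RH.RTs.refl (let ⟨r, h⟩ := hg.red; ⟨r, h.1, h.2⟩) (let ⟨r, h⟩ := hg.blu; ⟨r, h.1, h.2⟩)).mono (by omega)
  · -- one side has only one letter
    have hex : ∀ b : Bool, ∃ o, o ∈ wd s b ∧ p o ∈ wd s b := by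
      intro b
      cases b with
      | true => obtain ⟨o, h1, h2⟩ := hg.red; exact ⟨o, h1, h2⟩
      | false => obtain ⟨o, h1, h2⟩ := hg.blu; exact ⟨o, h1, h2⟩
    have hone : ∃ b : Bool, ∀ c d, c ∈ wd s (!b) → p c ∈ wd s (!b) → d ∈ wd s (!b) → p d ∈ wd s (!b) → d = c ∨ d = p c := by
      by_contra hcon
      push Not at hcon
      apply h2
      obtain ⟨c, d, h3, h4, h5, h6, h7, h8⟩ := hcon false
      obtain ⟨c', d', h3', h4', h5', h6', h7', h8'⟩ := hcon true
      exact ⟨⟨c, d, ⟨h3, h4⟩, ⟨h5, h6⟩, h7, h8⟩, ⟨c', d', ⟨h3', h4'⟩, ⟨h5', h6'⟩, h7', h8'⟩⟩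
    obtain ⟨b, hb⟩ := hone
    obtain ⟨z, hz, hz'⟩ := hex (!b)
    have hn : ∀ c : Bool, (wd s c).Nodup := by
      intro c
      cases c with
      | true => exact hnd.1
      | false => exact hnd.2.1
    have hS := D2_wd (p := p) s b
    have h3 : ((wd s (!b)).filter (fun t => decide (p t ∈ wd s (!b)))).length ≤ 2 := by
      by_contra hcon
      push Not at hcon
      obtain ⟨x, hx1, hx2⟩ := ex_notMem (l' := [z, p z]) ((hn (!b)).filter _) hcon
      obtain ⟨h4, h5⟩ := List.mem_filter.1 hx1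
      rcases hb z x hz hz' h4 (by simpa using h5) with h6 | h6
      · exact hx2 (by simp [h6])
      · exact hx2 (by simp [h6])
    have h4 : 6 ≤ ((wd s b).filter (fun t => decide (p t ∈ wd s b))).length := by omega
    obtain ⟨a, ha, -⟩ := ex_notMem (l' := ([] : List Ω)) ((hn b).filter (fun t => decide (p t ∈ wd s b))) (by simp only [List.length_nil]; omega)
    obtain ⟨c, hc, hca⟩ := ex_notMem (l' := [a, p a]) ((hn b).filter (fun t => decide (p t ∈ wd s b))) (by simp only [List.length_cons, List.length_nil]; omega)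
    obtain ⟨d, hd, hda⟩ := ex_notMem (l' := [a, p a, c, p c]) ((hn b).filter (fun t => decide (p t ∈ wd s b))) (by simp only [List.length_cons, List.length_nil]; omega)
    simp only [List.mem_cons, List.not_mem_nil, or_false, not_or] at hca hda
    obtain ⟨ha1, ha2⟩ := List.mem_filter.1 ha
    obtain ⟨hc1, hc2⟩ := List.mem_filter.1 hc
    obtain ⟨hd1, hd2⟩ := List.mem_filter.1 hd
    exact shift_side b hg ha1 (by simpa using ha2) hc1 (by simpa using hc2) hd1 (by simpa using hd2) hz hz' hca.1 hca.2 hda.1 hda.2.1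
      hda.2.2.1 hda.2.2.2

end

end NTH
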