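import Pool.Agent.helper14.NTN.Asm5
import Pool.Agent.helper14.NTN.FixF
import Pool.Agent.helper14.NTN.Shift

/-!
# MP_c8d30a: PART F (the letter of the last token is blue) from the table FIX3 with exactly three coloured letters
-/

set_option autoImplicit false

namespace NTH

open Pool.Agent.helper32.RH (RTs cw cs cw_append cw_cons lift_RTn)

/-- the table: exactly three coloured letters, the letter of the last token is blue. -/
def FIX3 (K : ℕ) : Prop := ∀ (Ω : Type) [DecidableEq Ω] (p : Ω → Ω) (f : Ω) (s : St Ω), WF p s → NA.IrB p s →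
  s.2.getLast? = some f → (∃ c ∈ s.1, p c ∈ s.1) → p f ∈ s.2 → NTS.D2 p s = 6 →
  ∃ s', RTs p K s s' ∧ s'.2.getLast? = some f ∧ ((p f ∈ s'.1 ∧ NTS.D2 p s' ≤ 6) ∨ NTS.D2 p s' ≤ 4)

section
variable {Ω : Type} [DecidableEq Ω] {p : Ω → Ω}

omit [DecidableEq Ω] in
theorem suffix_mem {l1 l2 B1 B2 : List Ω} {x y : Ω} (h : l1 ++ x :: l2 = B1 ++ B2) (hn : (l1 ++ x :: l2).Nodup) (hx : x ∈ B2) (hy : y ∈ l2) :
    y ∈ B2 := by
  rcases List.append_eq_append_iff.1 h with ⟨a, h1, h2⟩ | ⟨a, h1, h2⟩
  · -- `B1 = l1 ++ a`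
    cases a with
    | nil =>
      have h3 : x :: l2 = B2 := by simpa using h2
      rw [← h3]
      exact List.mem_cons_of_mem _ hy
    | cons a0 a =>
      exfalso
      have h3 : x = a0 := List.head_eq_of_cons_eq (by simpa using h2)
      have h4 : (B1 ++ B2).Nodup := by rw [← h]; exact hn
      exact (List.nodup_append.1 h4).2.2 x (by rw [h1, h3]; simp) x hx rfl
  · rw [h2]
    simp [hy]

theorem suf {q : Ω → Bool} {B X Y B1 B2 : List Ω} {x y : Ω} (hs : B = X ++ x :: Y) (hn : B.Nodup) (hB : B.filter q = B1 ++ B2)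
    (hx : x ∈ B2) (hy : y ∈ Y) (hq : q y = true) : y ∈ B2 := by
  have hqx : q x = true := by
    have h1 : x ∈ B.filter q := by rw [hB]; exact List.mem_append_right _ hx
    exact (List.mem_filter.1 h1).2
  have h1 : B.filter q = X.filter q ++ x :: Y.filter q := by
    rw [hs, List.filter_append, List.filter_cons_of_pos hqx]
  apply suffix_mem (h1.symm.trans hB) ?_ hx (List.mem_filter.2 ⟨hy, hq⟩)
  rw [← h1]
  exact hn.filter _

/-- the kept tokens: mixed tokens and three letters. -/
def q3 (p : Ω → Ω) (s : St Ω) (c g w : Ω) : Ω → Bool := fun t =>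
  decide ((t ∈ s.1 ∧ p t ∈ s.2) ∨ (t ∈ s.2 ∧ p t ∈ s.1) ∨ t = c ∨ t = p c ∨ t = g ∨ t = p g ∨ t = w ∨ t = p w)

theorem q3_iff {s : St Ω} {c g w t : Ω} : q3 p s c g w t = true ↔
    ((t ∈ s.1 ∧ p t ∈ s.2) ∨ (t ∈ s.2 ∧ p t ∈ s.1) ∨ t = c ∨ t = p c ∨ t = g ∨ t = p g ∨ t = w ∨ t = p w) := by
  unfold q3
  rw [decide_eq_true_iff]

theorem q3_p (hinv : ∀ t, p (p t) = t) {s : St Ω} {c g w : Ω} (t : Ω) : q3 p s c g w (p t) = q3 p s c g w t := by
  have key : ∀ t, q3 p s c g w t = true → q3 p s c g w (p t) = true := by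
    intro t h
    rw [q3_iff] at h ⊢
    rcases h with ⟨h1, h2⟩ | ⟨h1, h2⟩ | rfl | rfl | rfl | rfl | rfl | rfl
    · exact Or.inr (Or.inl ⟨h2, by rw [hinv]; exact h1⟩)
    · exact Or.inl ⟨h2, by rw [hinv]; exact h1⟩
    · simp
    · simp [hinv]
    · simp
    · simp [hinv]
    · simp
    · simp [hinv]
  by_cases h : q3 p s c g w t = true
  · rw [h, key t h]
  · have h1 : ¬ q3 p s c g w (p t) = true := by
      intro h2
      apply h
      have := key _ h2
      rwa [hinv] at this
    rw [Bool.not_eq_true] at h h1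
    rw [h, h1]

/-- ONE STEP: three coloured letters are kept, all tokens after `g` are deleted. -/
theorem fix_step {K : ℕ} (hT : FIX3 K) {s : St Ω} {e c g w : Ω} {C1 D : List Ω} (hw : WF p (s.1 ++ [p e], e :: s.2))
    (hc : c ∈ s.1) (hc' : p c ∈ s.1) (hg : p g ∈ s.2) (hs : s.2 = C1 ++ g :: D)
    (hww : (w ∈ s.1 ∧ p w ∈ s.1) ∨ (w ∈ s.2 ∧ p w ∈ s.2)) (hwc : w ≠ c) (hwc' : w ≠ p c) (hwg : w ≠ g) (hwg' : w ≠ p g)
    (hD : ∀ t ∈ D, p t ∈ s.2 ∧ t ≠ p g ∧ t ≠ w ∧ t ≠ p w) (hI : NA.IrB p (NA.fil (q3 p s c g w) s)) :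
    ∃ s', RTn p K (s.1 ++ [p e], e :: s.2) (s'.1 ++ [p e], e :: s'.2) ∧ (∃ C', s'.2 = C' ++ g :: D) ∧
      ((p g ∈ s'.1 ∧ NTS.D2 p s' ≤ NTS.D2 p s) ∨ NTS.D2 p s' < NTS.D2 p s) := by
  have hwp : WF p s := wf_pair hw
  have hinv := hwp.inv
  have hne := hwp.ne
  have hnd := List.nodup_append.1 hwp.nd
  have hdj : ∀ t, t ∈ s.1 → t ∉ s.2 := fun t h1 h2 => hnd.2.2 t h1 t h2 rfl
  have hg2 : g ∈ s.2 := by rw [hs]; simp
  have hN : N p (s.1 ++ [p e], e :: s.2) := N_of_tok hc hc' hg2 hg
  set q := q3 p s c g w with hqdef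
  have hq : ∀ t, q (p t) = q t := q3_p hinv
  have hqc : q c = true := by rw [hqdef, q3_iff]; simp
  have hqc' : q (p c) = true := by rw [hq]; exact hqc
  have hqg : q g = true := by rw [hqdef, q3_iff]; simp
  have hqg' : q (p g) = true := by rw [hq]; exact hqg
  have hqw : q w = true := by rw [hqdef, q3_iff]; simp
  have hqw' : q (p w) = true := by rw [hq]; exact hqw
  have hn3 : (C1 ++ g :: D).Nodup := by rw [← hs]; exact hnd.2.1
  have hgD : g ∉ D := (List.nodup_cons.1 (List.nodup_append.1 hn3).2.1).1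
  have hDq : ∀ t ∈ D, q t = false := by
    intro t ht
    have ht2 : t ∈ s.2 := by rw [hs]; simp [ht]
    obtain ⟨h1, h2, h3, h4⟩ := hD t ht
    by_contra hcon
    rw [Bool.not_eq_false, hqdef, q3_iff] at hcon
    rcases hcon with ⟨h5, h6⟩ | ⟨h5, h6⟩ | h5 | h5 | h5 | h5 | h5 | h5
    · exact hdj _ h5 ht2
    · exact hdj _ h6 h1
    · exact hdj _ hc (h5 ▸ ht2)
    · exact hdj _ hc' (h5 ▸ ht2)
    · exact hgD (h5 ▸ ht)
    · exact h2 h5
    · exact h3 h5
    · exact h4 h5
  have hDf : D.filter q = [] := by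
    rw [List.filter_eq_nil_iff]
    intro t ht
    rw [hDq t ht]
    simp
  have hlast : (NA.fil q s).2.getLast? = some g := by
    have h1 : (NA.fil q s).2 = C1.filter q ++ [g] := by
      show s.2.filter q = _
      rw [hs, List.filter_append, List.filter_cons_of_pos hqg, hDf]
    rw [h1, List.getLast?_concat]
  have hwf : WF p (NA.fil q s) := NA.wf_fil hq hwp
  have hmem1 : ∀ t, t ∈ (NA.fil q s).1 ↔ t ∈ s.1 ∧ q t = true := fun t => List.mem_filter
  have hmem2 : ∀ t, t ∈ (NA.fil q s).2 ↔ t ∈ s.2 ∧ q t = true := fun t => List.mem_filter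
  have hcg : c ≠ g := fun h => hdj _ hc (h ▸ hg2)
  have hcg' : c ≠ p g := fun h => hdj _ hc (h ▸ hg)
  have hpw : ∀ {a : Ω}, w ≠ p a → p w ≠ a := fun h h1 => h (by rw [← h1, hinv])
  have hpw' : ∀ {a : Ω}, w ≠ a → p w ≠ p a := fun h h1 => h (by rw [← hinv w, h1, hinv])
  have hD6 : NTS.D2 p (NA.fil q s) = 6 := by
    rw [D2_card hwf]
    have hC : CF p (NA.fil q s) = {c, p c, g, p g, w, p w} := by
      ext t
      rw [mem_CF hwf]
      simp only [Finset.mem_insert, Finset.mem_singleton]
      constructor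
      · rintro ⟨b, h1, h2⟩
        have h3 : q t = true ∧ ((t ∈ s.1 ∧ p t ∈ s.1) ∨ (t ∈ s.2 ∧ p t ∈ s.2)) := by
          cases b with
          | true => exact ⟨((hmem1 t).1 h1).2, Or.inl ⟨((hmem1 t).1 h1).1, ((hmem1 _).1 h2).1⟩⟩
          | false => exact ⟨((hmem2 t).1 h1).2, Or.inr ⟨((hmem2 t).1 h1).1, ((hmem2 _).1 h2).1⟩⟩
        obtain ⟨h4, h5⟩ := h3
        rw [hqdef, q3_iff] at h4
        rcases h4 with ⟨h6, h7⟩ | ⟨h6, h7⟩ | h6
        · rcases h5 with h5 | h5
          · exact absurd h7 (hdj _ h5.2)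
          · exact absurd h5.1 (hdj _ h6)
        · rcases h5 with h5 | h5
          · exact absurd h6 (hdj _ h5.1)
          · exact absurd h5.2 (hdj _ h7)
        · exact h6
      · intro h1
        have c1 : ∃ b, c ∈ wd (NA.fil q s) b ∧ p c ∈ wd (NA.fil q s) b := ⟨true, (hmem1 _).2 ⟨hc, hqc⟩, (hmem1 _).2 ⟨hc', hqc'⟩⟩
        have g1 : ∃ b, g ∈ wd (NA.fil q s) b ∧ p g ∈ wd (NA.fil q s) b := ⟨false, (hmem2 _).2 ⟨hg2, hqg⟩, (hmem2 _).2 ⟨hg, hqg'⟩⟩
        have w1 : ∃ b, w ∈ wd (NA.fil q s) b ∧ p w ∈ wd (NA.fil q s) b := by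
          rcases hww with ⟨h2, h3⟩ | ⟨h2, h3⟩
          · exact ⟨true, (hmem1 _).2 ⟨h2, hqw⟩, (hmem1 _).2 ⟨h3, hqw'⟩⟩
          · exact ⟨false, (hmem2 _).2 ⟨h2, hqw⟩, (hmem2 _).2 ⟨h3, hqw'⟩⟩
        rcases h1 with rfl | rfl | rfl | rfl | rfl | rfl
        · exact c1
        · obtain ⟨b, h2, h3⟩ := c1; exact ⟨b, h3, by rw [hinv]; exact h2⟩
        · exact g1
        · obtain ⟨b, h2, h3⟩ := g1; exact ⟨b, h3, by rw [hinv]; exact h2⟩
        · exact w1
        · obtain ⟨b, h2, h3⟩ := w1; exact ⟨b, h3, by rw [hinv]; exact h2⟩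
    rw [hC]
    have hpcg : p c ≠ g := fun h => hdj _ hc' (h ▸ hg2)
    have hpcg' : p c ≠ p g := fun h => hdj _ hc' (h ▸ hg)
    have k1 : c ∉ ({p c, g, p g, w, p w} : Finset Ω) := by
      simp only [Finset.mem_insert, Finset.mem_singleton, not_or]
      exact ⟨fun h => hne c h.symm, hcg, hcg', fun h => hwc h.symm, fun h => hpw hwc' h.symm⟩
    have k2 : p c ∉ ({g, p g, w, p w} : Finset Ω) := by
      simp only [Finset.mem_insert, Finset.mem_singleton, not_or]
      exact ⟨hpcg, hpcg', fun h => hwc' h.symm, fun h => hpw' hwc h.symm⟩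
    have k3 : g ∉ ({p g, w, p w} : Finset Ω) := by
      simp only [Finset.mem_insert, Finset.mem_singleton, not_or]
      exact ⟨fun h => hne g h.symm, fun h => hwg h.symm, fun h => hpw hwg' h.symm⟩
    have k4 : p g ∉ ({w, p w} : Finset Ω) := by
      simp only [Finset.mem_insert, Finset.mem_singleton, not_or]
      exact ⟨fun h => hwg' h.symm, fun h => hpw' hwg h.symm⟩
    have k5 : w ∉ ({p w} : Finset Ω) := by
      simp only [Finset.mem_singleton]
      exact fun h => hne w h.symm
    rw [Finset.card_insert_of_notMem k1, Finset.card_insert_of_notMem k2, Finset.card_insert_of_notMem k3, Finset.card_insert_of_notMem k4,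
      Finset.card_insert_of_notMem k5, Finset.card_singleton]
  obtain ⟨u, hu1, hu2, hu3⟩ := hT Ω p g (NA.fil q s) hwf hI hlast ⟨c, (hmem1 _).2 ⟨hc, hqc⟩, (hmem1 _).2 ⟨hc', hqc'⟩⟩
    ((hmem2 _).2 ⟨hg, hqg'⟩) hD6
  obtain ⟨s', h1, h2, h3⟩ := lift_pair hw hN ⟨c, hc, hqc⟩ hu1 hu2 hlast
  have hperm : (s.1 ++ s.2).Perm (s'.1 ++ s'.2) := by
    obtain ⟨a, ha⟩ := h1.1.toReach
    have h6 := ha.perm
    rw [List.perm_iff_count] at h6 ⊢
    intro t
    have h7 := h6 t
    simp only [List.count_append, List.count_cons, List.count_nil] at h7 ⊢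
    omega
  have h4 := D2_lift hq hperm (fun t ht => by
    have h5 : ¬ q t = true := by rw [ht]; simp
    rw [hqdef, q3_iff] at h5
    push Not at h5
    constructor
    · intro h6
      rcases List.mem_append.1 (hwp.cl t (List.mem_append_left _ h6)) with h7 | h7
      · exact h7
      · exact absurd h7 (h5.1 h6)
    · intro h6
      rcases List.mem_append.1 (hwp.cl t (List.mem_append_right _ h6)) with h7 | h7
      · exact absurd h7 (h5.2.1 h6)
      · exact h7)
  rw [h2, hD6] at h4
  refine ⟨s', h1, h3 C1 D hs hDq, ?_⟩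
  rcases hu3 with ⟨h5, h6⟩ | h5
  · left
    refine ⟨?_, by omega⟩
    have h7 : p g ∈ (NA.fil q s').1 := by rw [h2]; exact h5
    exact List.mem_of_mem_filter h7
  · right
    omega

/-- the number of blue tokens. -/
theorem len_le_D2 {s : St Ω} {C E : List Ω} (hs : s.2 = C ++ E) (hE : ∀ t ∈ E, p t ∈ s.2) : E.length ≤ NTS.D2 p s := by
  have h1 : (s.2).countP (fun t => decide (p t ∈ s.2)) ≤ NTS.D2 p s := by
    unfold NTS.D2
    refine le_trans (le_of_eq ?_) (Nat.le_add_left _ _)
    apply List.countP_congr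
    intro t _
    simp only [decide_eq_true_iff]
  refine le_trans ?_ h1
  have h2 : E.countP (fun t => decide (p t ∈ s.2)) = E.length := by
    rw [List.countP_eq_length]
    intro t ht
    exact decide_eq_true (hE t ht)
  rw [← h2]
  apply List.Sublist.countP_le
  rw [hs]
  exact List.sublist_append_right _ _

theorem ex_third {s : St Ω} (hw : WF p s) {a b : Ω} (hD : 4 < NTS.D2 p s) :
    ∃ w, ((w ∈ s.1 ∧ p w ∈ s.1) ∨ (w ∈ s.2 ∧ p w ∈ s.2)) ∧ w ≠ a ∧ w ≠ p a ∧ w ≠ b ∧ w ≠ p b := by
  rw [D2_card hw] at hD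
  obtain ⟨w, h1, h2⟩ : ∃ w ∈ CF p s, w ∉ ({a, p a, b, p b} : Finset Ω) := by
    by_contra hcon
    push Not at hcon
    have h1 : (CF p s).card ≤ ({a, p a, b, p b} : Finset Ω).card := Finset.card_le_card hcon
    have h2 : ({a, p a, b, p b} : Finset Ω).card ≤ 4 := Finset.card_le_four
    omega
  simp only [Finset.mem_insert, Finset.mem_singleton, not_or] at h2
  obtain ⟨b', h3, h4⟩ := (mem_CF hw).1 h1
  refine ⟨w, ?_, h2.1, h2.2.1, h2.2.2.1, h2.2.2.2⟩
  cases b' with
  | true => exact Or.inl ⟨h3, h4⟩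
  | false => exact Or.inr ⟨h3, h4⟩

/-- a list without a closed nonempty suffix: the last token with partner outside. -/
theorem last_out : ∀ (E : List Ω) (Q : Ω → Prop), (∃ o ∈ E, Q o) → ∃ E1 o E2, E = E1 ++ o :: E2 ∧ Q o ∧ ∀ t ∈ E2, ¬ Q t := by
  classical
  intro E Q
  induction E with
  | nil => rintro ⟨o, h, -⟩; simp at h
  | cons x E ih =>
    rintro ⟨o, h1, h2⟩
    by_cases h3 : ∃ o ∈ E, Q o
    · obtain ⟨E1, o', E2, h4, h5, h6⟩ := ih h3
      exact ⟨x :: E1, o', E2, by rw [h4]; rfl, h5, h6⟩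
    · push Not at h3
      rcases List.mem_cons.1 h1 with rfl | h1
      · exact ⟨[], o, E, rfl, h2, h3⟩
      · exact absurd h2 (h3 o h1)

theorem partF_loop {K : ℕ} (hT : FIX3 K) {e f : Ω} : ∀ (n : ℕ) (s : St Ω) (C E : List Ω) (h : Ω), WF p (s.1 ++ [p e], e :: s.2) →
    Irr p (s.1 ++ [p e], e :: s.2) → N p (s.1 ++ [p e], e :: s.2) → s.2.getLast? = some f → s.2 = C ++ h :: E → p h ∈ s.1 →
    (∀ t ∈ E, p t ∉ s.1) → E.length ≤ n → 4 < NTS.D2 p s → p f ∉ s.1 →
    ∃ s', RTn p (K * n) (s.1 ++ [p e], e :: s.2) (s'.1 ++ [p e], e :: s'.2) ∧ s'.2.getLast? = some f ∧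
      ((p f ∈ s'.1 ∧ NTS.D2 p s' ≤ NTS.D2 p s) ∨ NTS.D2 p s' < NTS.D2 p s) := by
  intro n
  induction n with
  | zero =>
    intro s C E h hw hi hN hl hs hh hE hn hD hf
    exfalso
    have hE0 : E = [] := List.length_eq_zero_iff.1 (by omega)
    subst hE0
    have hfh : h = f := by
      rw [hs, List.getLast?_concat] at hl
      exact Option.some.inj hl
    exact hf (hfh ▸ hh)
  | succ n ih =>
    intro s C E h hw hi hN hl hs hh hE hn hD hf
    have hwp : WF p s := wf_pair hw
    have hinv := hwp.inv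
    have hne := hwp.ne
    obtain ⟨⟨c, hc, hc'⟩, -⟩ := cols5 hw hN
    have hnd := List.nodup_append.1 hwp.nd
    have hdj : ∀ t, t ∈ s.1 → t ∉ s.2 := fun t h1 h2 => hnd.2.2 t h1 t h2 rfl
    have hn2 : s.2.Nodup := hnd.2.1
    have hblue : ∀ t ∈ E, p t ∈ s.2 := by
      intro t ht
      have h1 := hwp.cl t (List.mem_append_right _ (by rw [hs]; simp [ht]))
      rcases List.mem_append.1 h1 with h1 | h1
      · exact absurd h1 (hE t ht)
      · exact h1
    have hph : ∀ t ∈ s.2, p t ≠ h := by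
      rintro t ht rfl
      rw [hinv] at hh
      exact hdj _ hh ht
    have hE2 : ∀ t ∈ E, t ∈ s.2 := fun t ht => by rw [hs]; simp [ht]
    have hqh : ∀ {g w : Ω}, q3 p s c g w h = true := by
      intro g w
      rw [q3_iff]
      exact Or.inr (Or.inl ⟨by rw [hs]; simp, hh⟩)
    -- a partner before `h`
    have hinC : ∀ t ∈ E, p t ∉ E → p t ∈ C := by
      intro t ht h1
      have h2 := hblue t ht
      rw [hs] at h2
      rcases List.mem_append.1 h2 with h2 | h2
      · exact h2
      · rcases List.mem_cons.1 h2 with h2 | h2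
        · exact absurd h2 (hph t (hE2 t ht))
        · exact absurd h2 h1
    have hhE : h ∉ E := fun h1 => hph h (by rw [hs]; simp) (by
      exfalso
      exact hE h h1 hh)
    rcases List.eq_nil_or_concat E with hE0 | ⟨E0, g, hE0⟩
    · exfalso
      subst hE0
      have hfh : h = f := by
        rw [hs, List.getLast?_concat] at hl
        exact Option.some.inj hl
      exact hf (hfh ▸ hh)
    · rw [List.concat_eq_append] at hE0
      have hgf : g = f := by
        have h1 : s.2 = (C ++ h :: E0) ++ [g] := by rw [hs, hE0]; simp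
        rw [h1, List.getLast?_concat] at hl
        exact Option.some.inj hl
      subst hgf
      have hfE : g ∈ E := by rw [hE0]; simp
      by_cases hpf : p g ∈ E
      · -- case B
        have hcl : ∃ o ∈ E, p o ∉ E := by
          by_contra hcon
          push Not at hcon
          have h1 := irB_of_irr (B1 := C ++ [h]) (B2 := E) hi (by rw [hs]; simp) hcon
          rw [h1] at hfE
          exact absurd hfE (by simp)
        obtain ⟨E1, o, E2, hE12, ho, hlo⟩ := last_out E (fun t => p t ∉ E) hcl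
        have hoE : o ∈ E := by rw [hE12]; simp
        have hog : o ≠ g := fun h1 => ho (h1 ▸ hpf)
        have hgE2 : g ∈ E2 := by
          rcases List.eq_nil_or_concat E2 with h9 | ⟨E2', g', h9⟩
          · exfalso
            rw [h9, hE0] at hE12
            have h11 := List.append_inj' hE12 rfl
            exact hog (List.head_eq_of_cons_eq h11.2).symm
          · rw [List.concat_eq_append] at h9
            rw [h9, hE0] at hE12
            have h10 : E0 ++ [g] = (E1 ++ o :: E2') ++ [g'] := by rw [hE12]; simp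
            have h11 := List.append_inj' h10 rfl
            rw [h9, List.head_eq_of_cons_eq h11.2]
            simp
        have hcl2 : ∃ z ∈ E2, p z ∉ E2 := by
          by_contra hcon
          push Not at hcon
          have h1 := irB_of_irr (B1 := C ++ h :: (E1 ++ [o])) (B2 := E2) hi (by rw [hs, hE12]; simp) hcon
          rw [h1] at hgE2
          exact absurd hgE2 (by simp)
        obtain ⟨z, hzE2, hz⟩ := hcl2
        have hzE : z ∈ E := by rw [hE12]; simp [hzE2]
        have hnE : (E1 ++ o :: E2).Nodup := by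
          have h1 : (C ++ h :: E).Nodup := by rw [← hs]; exact hn2
          rw [← hE12]
          exact (List.nodup_cons.1 (List.nodup_append.1 h1).2.1).2
        have hpzE : p z ∈ E := by
          by_contra h1
          exact hlo z hzE2 h1
        have hpz1 : p z ∈ E1 := by
          rw [hE12] at hpzE
          rcases List.mem_append.1 hpzE with h1 | h1
          · exact h1
          · rcases List.mem_cons.1 h1 with h1 | h1
            · exfalso
              apply ho
              rw [← h1, hinv]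
              exact hzE
            · exact absurd h1 hz
        obtain ⟨Ea, D, hE2D⟩ := List.append_of_mem hzE2
        have hoC : p o ∈ C := hinC o hoE ho
        have hzo : o ≠ z := by
          rintro rfl
          exact hz (by exfalso; exact ho hpzE)
        have hzo' : o ≠ p z := by
          intro h1
          exact ho (by rw [h1, hinv]; exact hzE)
        have hs2 : s.2 = (C ++ h :: (E1 ++ o :: Ea)) ++ z :: D := by
          rw [hs, hE12, hE2D]
          simp
        have hDE2 : ∀ t ∈ D, t ∈ E2 := fun t ht => by rw [hE2D]; simp [ht]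
        have hDE : ∀ t ∈ D, t ∈ E := fun t ht => by rw [hE12]; simp [hDE2 t ht]
        have hI : NA.IrB p (NA.fil (q3 p s c z o) s) := by
          intro B1 B2 hB hcB
          by_contra hB2
          have hB' : s.2.filter (q3 p s c z o) = B1 ++ B2 := hB
          have hqz : q3 p s c z o z = true := by rw [q3_iff]; simp
          have hqo : q3 p s c z o o = true := by rw [q3_iff]; simp
          have hqo' : q3 p s c z o (p o) = true := by rw [q3_iff]; simp
          -- `z` is the last token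
          have hlz : z ∈ B2 := by
            have h1 : s.2.filter (q3 p s c z o) = (C ++ h :: (E1 ++ o :: Ea)).filter (q3 p s c z o) ++ [z] := by
              rw [hs2, List.filter_append, List.filter_cons_of_pos hqz]
              have h2 : D.filter (q3 p s c z o) = [] := by
                rw [List.filter_eq_nil_iff]
                intro t ht
                rw [q3_iff]
                have ht2 := hE2 t (hDE t ht)
                rintro (⟨h5, h6⟩ | ⟨h5, h6⟩ | h5 | h5 | h5 | h5 | h5 | h5)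
                · exact hdj _ h5 ht2
                · exact hE t (hDE t ht) h6
                · exact hdj _ hc (h5 ▸ ht2)
                · exact hdj _ hc' (h5 ▸ ht2)
                · have h7 : (Ea ++ z :: D).Nodup := by rw [← hE2D]; exact (List.nodup_cons.1 (List.nodup_append.1 hnE).2.1).2
                  exact (List.nodup_cons.1 (List.nodup_append.1 h7).2.1).1 (h5 ▸ ht)
                · exact hz (h5 ▸ hDE2 t ht)
                · exact (List.nodup_cons.1 (List.nodup_append.1 hnE).2.1).1 (h5 ▸ hDE2 t ht)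
                · exact ho (h5 ▸ hDE t ht)
              rw [h2]
            rcases List.eq_nil_or_concat B2 with h2 | ⟨B3, z', h2⟩
            · exact absurd h2 hB2
            · rw [List.concat_eq_append] at h2
              rw [h1, h2, ← List.append_assoc] at hB'
              have h3 := List.append_inj' hB' rfl
              rw [h2, List.head_eq_of_cons_eq h3.2]
              simp
          have hz1 : p z ∈ B2 := hcB z hlz
          obtain ⟨Ec, Ed, hE1⟩ := List.append_of_mem hpz1
          have ho2 : o ∈ B2 := suf (X := C ++ h :: Ec) (Y := Ed ++ o :: E2) (by rw [hs, hE12, hE1]; simp) hn2 hB' hz1 (by simp) hqo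
          have hpo2 : p o ∈ B2 := hcB o ho2
          obtain ⟨Ca, Cb, hC⟩ := List.append_of_mem hoC
          have hh2 : h ∈ B2 := suf (X := Ca) (Y := Cb ++ h :: E) (by rw [hs, hC]; simp) hn2 hB' hpo2 (by simp) hqh
          have h3 : p h ∈ B2 := hcB h hh2
          have h4 : p h ∈ s.2.filter (q3 p s c z o) := by rw [hB']; exact List.mem_append_right _ h3
          exact hdj _ hh (List.mem_filter.1 h4).1
        obtain ⟨s1, h1, ⟨C', h2⟩, h3⟩ := fix_step (g := z) (w := o) hT hw hc hc' (hblue z hzE) hs2 (Or.inr ⟨hE2 o hoE, hblue o hoE⟩)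
          (fun h1 => hdj _ hc (h1 ▸ hE2 o hoE)) (fun h1 => hdj _ hc' (h1 ▸ hE2 o hoE)) hzo hzo' (by
            intro t ht
            refine ⟨hblue t (hDE t ht), fun h5 => hz (h5 ▸ hDE2 t ht), ?_, fun h5 => ho (h5 ▸ hDE t ht)⟩
            intro h5
            exact (List.nodup_cons.1 (List.nodup_append.1 hnE).2.1).1 (h5 ▸ hDE2 t ht)) hI
        obtain ⟨a, ha⟩ := h1.1.toReach
        have hw1 : WF p (s1.1 ++ [p e], e :: s1.2) := hw.reach ha
        have hi1 : Irr p (s1.1 ++ [p e], e :: s1.2) := Irr.reach hw hi ha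
        have hN1 : N p (s1.1 ++ [p e], e :: s1.2) := ha.right
        have hlast1 : s1.2.getLast? = some g := by
          rw [h2, List.getLast?_append_cons]
          have h3 : s.2.getLast? = some g := hl
          rw [hs2, List.getLast?_append_cons] at h3
          exact h3
        have hlenE : D.length < E.length := by
          rw [hE12, hE2D]
          simp only [List.length_append, List.length_cons]
          omega
        rcases h3 with ⟨h3, h4⟩ | h3
        · by_cases hf1 : p g ∈ s1.1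
          · exact ⟨s1, h1.mono (by nlinarith), hlast1, Or.inl ⟨hf1, h4⟩⟩
          · by_cases hDD : NTS.D2 p s1 < NTS.D2 p s
            · exact ⟨s1, h1.mono (by nlinarith), hlast1, Or.inr hDD⟩
            · obtain ⟨C'', h', E', h5, h6, h7, h8⟩ := last_mixed (A := s1.1) D z h3
              obtain ⟨s', h9, h10, h11⟩ := ih s1 (C' ++ C'') E' h' hw1 hi1 hN1 hlast1 (by rw [h2, h5]; simp) h6 h7 (by omega) (by omega) hf1
              refine ⟨s', (h1.trans h9).mono (by rw [Nat.mul_succ]; omega), h10, ?_⟩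
              rcases h11 with ⟨h11, h12⟩ | h11
              · exact Or.inl ⟨h11, by omega⟩
              · exact Or.inr (by omega)
        · exact ⟨s1, h1.mono (by nlinarith), hlast1, Or.inr h3⟩
      · -- case A
        have hgC : p g ∈ C := hinC g hfE hpf
        obtain ⟨w, hww, hwc, hwc', hwg, hwg'⟩ := ex_third hwp (a := c) (b := g) hD
        obtain ⟨Ca, Cb, hC⟩ := List.append_of_mem hgC
        have hs2 : s.2 = (C ++ h :: E0) ++ g :: [] := by
          rw [hs, hE0]
          simp
        have hI : NA.IrB p (NA.fil (q3 p s c g w) s) := by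
          intro B1 B2 hB hcB
          by_contra hB2
          have hB' : s.2.filter (q3 p s c g w) = B1 ++ B2 := hB
          have hqg : q3 p s c g w g = true := by rw [q3_iff]; simp
          have hlg : g ∈ B2 := by
            have h1 : s.2.filter (q3 p s c g w) = (C ++ h :: E0).filter (q3 p s c g w) ++ [g] := by
              rw [hs2, List.filter_append, List.filter_cons_of_pos hqg]
              rfl
            rcases List.eq_nil_or_concat B2 with h2 | ⟨B3, z', h2⟩
            · exact absurd h2 hB2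
            · rw [List.concat_eq_append] at h2
              rw [h1, h2, ← List.append_assoc] at hB'
              have h3 := List.append_inj' hB' rfl
              rw [h2, List.head_eq_of_cons_eq h3.2]
              simp
          have hpg2 : p g ∈ B2 := hcB g hlg
          have hh2 : h ∈ B2 := suf (X := Ca) (Y := Cb ++ h :: E) (by rw [hs, hC]; simp) hn2 hB' hpg2 (by simp) hqh
          have h3 : p h ∈ B2 := hcB h hh2
          have h4 : p h ∈ s.2.filter (q3 p s c g w) := by rw [hB']; exact List.mem_append_right _ h3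
          exact hdj _ hh (List.mem_filter.1 h4).1
        obtain ⟨s1, h1, ⟨C', h2⟩, h3⟩ := fix_step (g := g) (w := w) hT hw hc hc' (hblue g hfE) hs2 hww hwc hwc' hwg hwg' (by simp) hI
        exact ⟨s1, h1.mono (by nlinarith), by rw [h2, List.getLast?_concat], h3⟩

/-- PART F from the table FIX3. -/
theorem partF_of {K : ℕ} (hT : FIX3 K) {c K' : ℕ} (hc : 1200 ≤ c) : PartF c K' (K * 1200) := by
  intro Ω _ p r e f s hw hi hN hl hf hD hD' hC
  have hwp : WF p s := wf_pair hw
  have hnd := List.nodup_append.1 hwp.nd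
  have hdj : ∀ t, t ∈ s.1 → t ∉ s.2 := fun t h1 h2 => hnd.2.2 t h1 t h2 rfl
  have hne : s.2 ≠ [] := by
    intro h
    rw [h] at hf
    simp at hf
  have hm : ∃ h ∈ s.2, p h ∈ s.1 := by
    by_contra hcon
    push Not at hcon
    apply hne
    apply irB_of_irr (B1 := []) (B2 := s.2) hi (by simp)
    intro t ht
    rcases List.mem_append.1 (hwp.cl t (List.mem_append_right _ ht)) with h1 | h1
    · exact absurd h1 (hcon t ht)
    · exact h1
  obtain ⟨h0, hh0, hh0'⟩ := hm
  obtain ⟨C0, E0, hCE⟩ := List.append_of_mem hh0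
  obtain ⟨C1, h, E, h1, h2, h3, -⟩ := last_mixed (A := s.1) E0 h0 hh0'
  have hs : s.2 = (C0 ++ C1) ++ h :: E := by rw [hCE, h1]; simp
  have hblue : ∀ t ∈ E, p t ∈ s.2 := by
    intro t ht
    have h4 := hwp.cl t (List.mem_append_right _ (by rw [hs]; simp [ht]))
    rcases List.mem_append.1 h4 with h4 | h4
    · exact absurd h4 (h3 t ht)
    · exact h4
  have hlen : E.length ≤ 1200 := (len_le_D2 (C := (C0 ++ C1) ++ [h]) (by rw [hs]; simp) hblue).trans hD'
  obtain ⟨s', h4, h5, h6⟩ := partF_loop hT 1200 s (C0 ++ C1) E h hw hi hN hl hs h2 h3 hlen hD (fun h => hdj _ h hf)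
  refine ⟨s', h4.mono ?_, h5, ?_⟩
  · exact Nat.le_mul_of_pos_right _ (by positivity)
  · rcases h6 with ⟨h6, h7⟩ | h6
    · exact Or.inl ⟨h6, by omega⟩
    · exact Or.inr (Or.inl h6)

end

/-- Q1 LITERALLY from the table FIX3 and the two parts with the letter of the last token mixed. -/
theorem Q1_of_fix3 {c K K3 C1 C2 : ℕ} (hF : FIX3 K3) (h1 : PartI K C1) (h2 : PartII c K C2) (hc : 1200 ≤ c) (hK : 1 ≤ K) :
    ∃ C : ℕ, ∀ (X A : Type) [DecidableEq X] [DecidableEq A] (E v₁ v₂ : Pool.Agent.helper36.WE.Eqn X A),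
      Pool.Agent.helper36.WE.Quadratic E → Pool.Agent.helper36.WE.Reach E v₁ → Pool.Agent.helper36.WE.Reach v₁ v₂ →
        ∃ n, n ≤ C * Pool.Agent.helper36.WE.size E ^ 12 ∧ Pool.Agent.helper36.WE.PathLen n v₁ v₂ :=
  Q1_of5 (partF_of hF hc) h1 h2 hc hK

end NTH
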