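import Pool.Agent.helper14.NTN.Cnt

/-!
# MP_c8d30a: from (A_2) to the bound for irreducible two sided states, run model
-/

set_option autoImplicit false

namespace NTH

open Equiv
open Pool.Agent.helper36.WE (NF4_stmt)
open Pool.Agent.helper32.ATT (RR)

/-- the core of `(A, B)`: the words of the mixed letters. -/
noncomputable def coA {Ω : Type} (p : Ω → Ω) (A B : List Ω) : List Ω := by
  classical
  exact A.filter (fun t => decide (p t ∈ B))

noncomputable def coB {Ω : Type} (p : Ω → Ω) (A B : List Ω) : List Ω := by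
  classical
  exact (B.filter (fun t => decide (p t ∈ A))).map p

/-- (A_2): every double standard state has a round trip with `P m` runs to an `S`-state with one red and one blue letter whose core is not run reversed. -/
def HA2 (P : ℕ → ℕ) : Prop := ∀ (Ω : Type) (p : Ω → Ω) (s : St Ω), WF p s → Irr p s → DS p s →
  ∃ (e : Ω) (A B : List Ω), RTn p (P (s.1 ++ s.2).length) s (A ++ [p e], e :: B) ∧ nc p (A ++ [p e], e :: B) ≤ 4 ∧
    ¬ RR (coA p A B) (coB p A B)

theorem RT.toRTn {Ω : Type} {p : Ω → Ω} {a : ℕ} {s t : St Ω} (h : RT p a s t) : RTn p a s t := ⟨h.1.toRn, h.2.toRn⟩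

theorem RTn.trans {Ω : Type} {p : Ω → Ω} {a b : ℕ} {s t v : St Ω} (h : RTn p a s t) (h' : RTn p b t v) : RTn p (a + b) s v :=
  ⟨h.1.trans h'.1, by rw [add_comm]; exact h'.2.trans h.2⟩

theorem RTn.mono {Ω : Type} {p : Ω → Ω} {a b : ℕ} {s t : St Ω} (h : RTn p a s t) (hab : a ≤ b) : RTn p b s t :=
  ⟨h.1.mono hab, h.2.mono hab⟩

theorem XS.reachRn {Ω : Type} [DecidableEq Ω] {p : Ω → Ω} {h : ∀ t, p (p t) = t} {s₀ s t : St Ω} {a : ℕ} (hx : XS p h s₀ s) (hr : Rn p (N p) a s t) :
    XS p h s₀ t := by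
  obtain ⟨c, hc⟩ := hr.toReach
  exact hx.reach hc

section
variable {Ω : Type} [DecidableEq Ω] {p : Ω → Ω}

theorem filter_ww {q : Ω → Bool} {L : List (Ω × Ω)} {a : List Ω} (h1 : ∀ t ∈ a, q t = true) (h2 : ∀ t ∈ L.map Prod.snd, q t = false) :
    (ww L a).filter q = a := by
  induction a with
  | nil => rfl
  | cons x a ih =>
    rw [ww_cons, List.filter_cons_of_pos (h1 x List.mem_cons_self), List.filter_append, ih (fun t ht => h1 t (List.mem_cons_of_mem _ ht))]
    have h3 : (tl L x).filter q = [] := by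
      rw [List.filter_eq_nil_iff]
      intro z hz
      rw [h2 z (List.mem_map_of_mem (f := Prod.snd) (mem_tl.1 hz))]
      simp
    rw [h3, List.nil_append]

/-- decoding, with the numbers of coloured tokens. -/
theorem decode_S2 {h : ∀ t, p (p t) = t} {e f : Ω} {A B : List Ω} (hw : WF p (f :: A ++ [p e], e :: B))
    (hf : p f ∈ e :: B) :
    ∃ (L₁ L₂ : List (Ω × Ω)) (a b : List Ω), (f :: A ++ [p e], e :: B) = (ww L₁ a, ww L₂ b) ∧ Sd p e L₁ L₂ a b ∧
      (∀ t ∈ L₁.map Prod.snd, p t ∉ e :: B) ∧ (∀ t ∈ L₂.map Prod.snd, p t ∉ f :: A ++ [p e]) ∧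
      L₁.length ≤ ((f :: A ++ [p e]).filter (fun t => decide (p t ∈ f :: A ++ [p e]))).length ∧
      L₂.length ≤ ((e :: B).filter (fun t => decide (p t ∈ e :: B))).length := by
  classical
  set U : List Ω := f :: A ++ [p e] with hU
  set V : List Ω := e :: B with hV
  have hdj : ∀ t, t ∈ U → t ∈ V → False := fun t h1 h2 => (List.nodup_append.1 hw.nd).2.2 t h1 t h2 rfl
  have hcl : ∀ t, t ∈ U ∨ t ∈ V → p t ∈ U ∨ p t ∈ V := fun t ht => List.mem_append.1 (hw.cl t (List.mem_append.2 ht))
  have hUc : U = f :: (A ++ [p e]) := rfl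
  have heU : p e ∈ U := by rw [hU]; simp
  obtain ⟨L₁, a, u1, u2, u3, u4, -, u6⟩ := decode (fun t => p t ∈ V) f hf (A ++ [p e]) (List.nodup_append.1 hw.nd).1
  obtain ⟨L₂, b, v1, v2, v3, v4, -, v6⟩ := decode (fun t => p t ∈ U) e heU B (List.nodup_append.1 hw.nd).2.1
  rw [← hUc] at u1
  rw [← hV] at v1
  have hz1 : ∀ t ∈ L₁.map Prod.snd, t ∈ U ∧ p t ∈ U := by
    intro t ht
    obtain ⟨q, hq, rfl⟩ := List.mem_map.1 ht
    have h1 : q.2 ∈ U := by
      rw [u1]
      exact mem_ww.2 (Or.inr ⟨q.1, u2 q hq, hq⟩)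
    refine ⟨h1, ?_⟩
    rcases hcl q.2 (Or.inl h1) with h2 | h2
    · exact h2
    · exact absurd h2 (u4 _ ht)
  have hz2 : ∀ t ∈ L₂.map Prod.snd, t ∈ V ∧ p t ∈ V := by
    intro t ht
    obtain ⟨q, hq, rfl⟩ := List.mem_map.1 ht
    have h1 : q.2 ∈ V := by
      rw [v1]
      exact mem_ww.2 (Or.inr ⟨q.1, v2 q hq, hq⟩)
    refine ⟨h1, ?_⟩
    rcases hcl q.2 (Or.inr h1) with h2 | h2
    · exact absurd h2 (v4 _ ht)
    · exact h2
  have hdc : Dc p L₁ L₂ (f :: a) (e :: b) := by
    refine ⟨?_, u2, v2, ?_, ?_, ?_, ?_, List.cons_ne_nil _ _⟩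
    · rw [← u1, ← v1]; exact hw
    · intro q hq
      obtain ⟨h1, h2⟩ := hz1 q.2 (List.mem_map_of_mem (f := Prod.snd) hq)
      have h3 := h2
      rw [u1, mem_ww] at h3
      rcases h3 with h3 | ⟨g, h3, h4⟩
      · have h5 := u3 _ h3
        simp only [h] at h5
        exact absurd h5 (fun h6 => hdj _ h1 h6)
      · exact List.mem_map_of_mem (f := Prod.snd) h4
    · intro q hq
      obtain ⟨h1, h2⟩ := hz2 q.2 (List.mem_map_of_mem (f := Prod.snd) hq)
      have h3 := h2
      rw [v1, mem_ww] at h3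
      rcases h3 with h3 | ⟨g, h3, h4⟩
      · have h5 := v3 _ h3
        simp only [h] at h5
        exact absurd h5 (fun h6 => hdj _ h6 h1)
      · exact List.mem_map_of_mem (f := Prod.snd) h4
    · intro t ht
      have h1 : p t ∈ V := u3 t ht
      have h2 : t ∈ U := by
        rw [u1]
        exact mem_ww.2 (Or.inl ht)
      have h3 := h1
      rw [v1, mem_ww] at h3
      rcases h3 with h3 | ⟨g, h3, h4⟩
      · exact h3
      · have h5 := v4 _ (List.mem_map_of_mem (f := Prod.snd) h4)
        simp only [h] at h5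
        exact absurd h2 h5
    · intro t ht
      have h1 : p t ∈ U := v3 t ht
      have h2 : t ∈ V := by
        rw [v1]
        exact mem_ww.2 (Or.inl ht)
      have h3 := h1
      rw [u1, mem_ww] at h3
      rcases h3 with h3 | ⟨g, h3, h4⟩
      · exact h3
      · have h5 := u4 _ (List.mem_map_of_mem (f := Prod.snd) h4)
        simp only [h] at h5
        exact absurd h2 h5
  have hl : (ww L₁ (f :: a)).getLast? = some (p e) := by
    rw [← u1, hU, List.getLast?_concat]
  refine ⟨L₁, L₂, f :: a, e :: b, by rw [← u1, ← v1], ⟨hdc, rfl, ?_, hl⟩, u4, v4, ?_, ?_⟩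
  · obtain ⟨t, h1, h2⟩ := getLast?_ww hl
    rcases h2 with ⟨rfl, -⟩ | h2
    · exact h1
    · have h3 := u4 _ (List.mem_map_of_mem (f := Prod.snd) h2)
      simp only [h] at h3
      exact absurd List.mem_cons_self h3
  · refine u6 (U.filter (fun t => decide (p t ∈ U))) ?_
    intro t ht
    obtain ⟨h1, h2⟩ := hz1 t ht
    simp [h1, h2]
  · refine v6 (V.filter (fun t => decide (p t ∈ V))) ?_
    intro t ht
    obtain ⟨h1, h2⟩ := hz2 t ht
    simp [h1, h2]

theorem two_le_of_pair {L : List Ω} {r : Ω} (hne : p r ≠ r) (h1 : r ∈ L) (h2 : p r ∈ L) : 2 ≤ L.length := by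
  have h3 := List.length_pos_of_mem (List.mem_filter.2 ⟨h1, by simp⟩ : r ∈ L.filter (fun t => decide (t = r)))
  have h4 : 0 < (L.filter (fun t => !decide (t = r))).length :=
    List.length_pos_of_mem (List.mem_filter.2 ⟨h2, by simp [hne]⟩)
  have h5 := List.length_eq_length_filter_add (l := L) (fun t => decide (t = r))
  omega

/-- the `S`-state with one red and one blue letter is rotated and decoded. -/
theorem shape {h : ∀ t, p (p t) = t} {e : Ω} {A B : List Ω} (hw : WF p (A ++ [p e], e :: B)) (hN : N p (A ++ [p e], e :: B))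
    (hnc : nc p (A ++ [p e], e :: B) ≤ 4) (hrr : ¬ RR (coA p A B) (coB p A B)) :
    ∃ (f : Ω) (L₁ L₂ : List (Ω × Ω)) (A' B' : List Ω), RT p 0 (A ++ [p e], e :: B) (ww L₁ (f :: A'), ww L₂ (B' ++ [p f])) ∧
      Sh p e f L₁ L₂ A' B' ∧ L₁.length = 2 ∧ L₂.length = 2 := by
  classical
  have hcoA : coA p A B = A.filter (fun t => decide (p t ∈ B)) := by
    unfold coA; exact List.filter_congr fun t _ => decide_eq_decide.2 Iff.rfl
  have hcoB : coB p A B = (B.filter (fun t => decide (p t ∈ A))).map p := by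
    unfold coB; exact congrArg (List.map p) (List.filter_congr fun t _ => decide_eq_decide.2 Iff.rfl)
  rw [hcoA, hcoB] at hrr
  have hnd := List.nodup_append.1 hw.nd
  have hnA : A.Nodup := (List.nodup_append.1 hnd.1).1
  have hpeA : p e ∉ A := fun h1 => (List.nodup_append.1 hnd.1).2.2 _ h1 _ (List.mem_singleton_self _) rfl
  have hnB := List.nodup_cons.1 hnd.2.1
  have hdj : ∀ t, t ∈ A ++ [p e] → t ∈ e :: B → False := fun t h1 h2 => hnd.2.2 t h1 t h2 rfl
  -- the last mixed token of `B`
  obtain ⟨Bm, e₁, hBm⟩ : ∃ Bm e₁, B.filter (fun t => decide (p t ∈ A)) = Bm ++ [e₁] := by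
    rcases List.eq_nil_or_concat' (B.filter (fun t => decide (p t ∈ A))) with h0 | ⟨Bm, e₁, h0⟩
    · exfalso
      apply hrr
      have h1 : A.filter (fun t => decide (p t ∈ B)) = [] := by
        rw [List.filter_eq_nil_iff]
        intro t ht hpt
        have hpt' : p t ∈ B := by simpa using hpt
        have h2 : p t ∈ B.filter (fun t => decide (p t ∈ A)) := by
          rw [List.mem_filter]
          exact ⟨hpt', by rw [h]; simpa using ht⟩
        rw [h0] at h2
        exact absurd h2 List.not_mem_nil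
      rw [h0, h1]
      exact RR.rev (by simp)
    · exact ⟨Bm, e₁, h0⟩
  have he₁ : e₁ ∈ B ∧ p e₁ ∈ A := by
    have h1 : e₁ ∈ B.filter (fun t => decide (p t ∈ A)) := by rw [hBm]; simp
    rw [List.mem_filter] at h1
    exact ⟨h1.1, by simpa using h1.2⟩
  set f := p e₁ with hf
  have hpf : p f = e₁ := h e₁
  obtain ⟨C, D, hCD⟩ := List.append_of_mem he₁.2
  -- the rotation
  have hrot : RT p 0 (A ++ [p e], e :: B) (f :: (D ++ C) ++ [p e], e :: B) := by
    have h1 := rotR (p := p) e C (f :: D) [] B (by rw [hCD] at hN; simpa using hN)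
    have h2 := rotR (p := p) e (f :: D) C [] B (by simpa using h1.right)
    rw [hCD]
    exact ⟨by simpa using h1, by simpa using h2⟩
  have hw2 : WF p (f :: (D ++ C) ++ [p e], e :: B) := hw.reach hrot.1
  have hN2 : N p (f :: (D ++ C) ++ [p e], e :: B) := hrot.1.right
  have hfB : p f ∈ e :: B := by rw [hpf]; exact List.mem_cons_of_mem _ he₁.1
  obtain ⟨L₁, L₂, a, b, hdec, hsd, hc1, hc2, hl1, hl2⟩ := decode_S2 (h := h) hw2 hfB
  have hperm : (f :: (D ++ C)).Perm A := by
    rw [hCD]
    have h1 : (f :: (D ++ C)) = (f :: D) ++ C := rfl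
    rw [h1]
    exact List.perm_append_comm
  have hmemA : ∀ t, t ∈ f :: (D ++ C) ↔ t ∈ A := fun t => hperm.mem_iff
  -- the skeletons
  have ha : a = (f :: (D ++ C) ++ [p e]).filter (fun t => decide (p t ∈ e :: B)) := by
    have h1 := congrArg Prod.fst hdec
    simp only at h1
    rw [h1]
    symm
    apply filter_ww
    · intro t ht
      have h2 := hsd.dc.m1 t ht
      have h3 := congrArg Prod.snd hdec
      simp only at h3
      rw [h3]
      exact decide_eq_true (hsd.dc.mem2.2 (Or.inl h2))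
    · intro t ht
      exact decide_eq_false (hc1 t ht)
  have hb : b = (e :: B).filter (fun t => decide (p t ∈ f :: (D ++ C) ++ [p e])) := by
    have h1 := congrArg Prod.snd hdec
    simp only at h1
    rw [h1]
    symm
    apply filter_ww
    · intro t ht
      have h2 := hsd.dc.m2 t ht
      have h3 := congrArg Prod.fst hdec
      simp only at h3
      rw [h3]
      exact decide_eq_true (hsd.dc.mem1.2 (Or.inl h2))
    · intro t ht
      exact decide_eq_false (hc2 t ht)
  have ha2 : a = f :: ((D ++ C).filter (fun t => decide (p t ∈ B)) ++ [p e]) := by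
    rw [ha, List.cons_append, List.filter_cons_of_pos (by simpa using hfB), List.filter_append]
    congr 2
    · apply List.filter_congr
      intro t ht
      have h1 : t ∈ A := (hmemA t).1 (List.mem_cons_of_mem _ ht)
      have h2 : p t ≠ e := by
        intro h2
        apply hpeA
        rw [← h2, h]
        exact h1
      simp [h2]
    · simp [h]
  have hb2 : b = (e :: Bm) ++ [p f] := by
    rw [hb, List.filter_cons_of_pos (by simp), hpf, List.cons_append]
    congr 1
    show _ = Bm ++ [e₁]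
    rw [← hBm]
    apply List.filter_congr
    intro t ht
    have h1 : p t ≠ p e := by
      intro h1
      have h2 := congrArg p h1
      rw [h, h] at h2
      exact hnB.1 (h2 ▸ ht)
    have h3 : (p t ∈ f :: (D ++ C) ++ [p e]) ↔ p t ∈ A := by
      rw [List.mem_append, hmemA, List.mem_singleton]
      exact ⟨fun h4 => h4.resolve_right h1, Or.inl⟩
    exact decide_eq_decide.2 h3
  subst ha2
  subst hb2
  refine ⟨f, L₁, L₂, _, e :: Bm, ?_, ⟨hsd, ?_⟩, ?_, ?_⟩
  · rw [← hdec]
    exact hrot
  · -- the core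
    intro hR
    apply hrr
    have hfe : f ≠ p e := fun h1 => hpeA (h1 ▸ he₁.2)
    have hfX : f ∉ (D ++ C).filter (fun t => decide (p t ∈ B)) := by
      intro h1
      have h2 : (f :: (D ++ C)).Nodup := hperm.nodup_iff.2 hnA
      exact (List.nodup_cons.1 h2).1 (List.mem_of_mem_filter h1)
    have hqX : p e ∉ (D ++ C).filter (fun t => decide (p t ∈ B)) := fun h1 =>
      hpeA ((hmemA _).1 (List.mem_cons_of_mem _ (List.mem_of_mem_filter h1)))
    have hBmB : ∀ t ∈ Bm, t ∈ B := by
      intro t ht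
      have h1 : t ∈ B.filter (fun t => decide (p t ∈ A)) := by rw [hBm]; exact List.mem_append_left _ ht
      exact List.mem_of_mem_filter h1
    have hBmn : (Bm ++ [e₁]).Nodup := by
      rw [← hBm]
      exact hnB.2.filter _
    have hfY : f ∉ Bm.map p := by
      intro h1
      obtain ⟨t, h2, h3⟩ := List.mem_map.1 h1
      have h4 : t = e₁ := by
        have := congrArg p h3
        rw [h, hpf] at this
        exact this
      subst h4
      exact (List.nodup_append.1 hBmn).2.2 _ h2 _ (List.mem_singleton_self _) rfl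
    have hqY : p e ∉ Bm.map p := by
      intro h1
      obtain ⟨t, h2, h3⟩ := List.mem_map.1 h1
      have h4 : t = e := by
        have := congrArg p h3
        rwa [h, h] at this
      subst h4
      exact hnB.1 (hBmB _ h2)
    have h1 := Pool.Agent.helper36.WE.RR.map (g := swap f (p e)) hR
    have hfix : ∀ l : List Ω, f ∉ l → p e ∉ l → l.map (swap f (p e)) = l := by
      intro l h2 h3
      conv_rhs => rw [← List.map_id l]
      apply List.map_congr_left
      intro t ht
      exact swap_apply_of_ne_of_ne (fun h4 => h2 (h4 ▸ ht)) (fun h4 => h3 (h4 ▸ ht))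
    rw [List.map_append, List.map_singleton, swap_apply_right, hfix _ hfX hqX, List.map_cons, List.map_cons, swap_apply_right,
      hfix _ hfY hqY] at h1
    have r1 : ((D ++ C).filter (fun t => decide (p t ∈ B)) ++ [f]) ~r A.filter (fun t => decide (p t ∈ B)) := by
      rw [hCD, List.filter_append, List.filter_append, List.filter_cons_of_pos (by rw [hpf]; simpa using he₁.1)]
      have h2 : (D.filter (fun t => decide (p t ∈ B)) ++ C.filter (fun t => decide (p t ∈ B)) ++ [f]) =
          (D.filter (fun t => decide (p t ∈ B))) ++ (C.filter (fun t => decide (p t ∈ B)) ++ [f]) := by simp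
      have h3 : (C.filter (fun t => decide (p t ∈ B)) ++ f :: D.filter (fun t => decide (p t ∈ B))) =
          (C.filter (fun t => decide (p t ∈ B)) ++ [f]) ++ D.filter (fun t => decide (p t ∈ B)) := by simp
      rw [h2, h3]
      exact List.isRotated_append
    have r2 : (f :: Bm.map p) ~r (B.filter (fun t => decide (p t ∈ A))).map p := by
      rw [hBm, List.map_append, List.map_singleton]
      have h2 : f :: Bm.map p = [f] ++ Bm.map p := rfl
      rw [h2]
      exact List.isRotated_append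
    exact Pool.Agent.helper36.WE.RR.rotate h1 r1 r2
  all_goals
    have hfst : f :: (D ++ C) ++ [p e] = ww L₁ (f :: ((D ++ C).filter (fun t => decide (p t ∈ B)) ++ [p e])) := congrArg Prod.fst hdec
    have hsnd : e :: B = ww L₂ ((e :: Bm) ++ [p f]) := congrArg Prod.snd hdec
    have hp2 : (f :: (D ++ C) ++ [p e]).Perm (A ++ [p e]) := hperm.append_right [p e]
    have hnc' : ((f :: (D ++ C) ++ [p e]).filter (fun t => decide (p t ∈ f :: (D ++ C) ++ [p e]))).length +
        ((e :: B).filter (fun t => decide (p t ∈ e :: B))).length ≤ 4 := by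
      refine le_trans (le_of_eq ?_) hnc
      rw [nc_eq]
      congr 1
      have h1 : (fun t => decide (p t ∈ f :: (D ++ C) ++ [p e])) = (fun t => decide (p t ∈ A ++ [p e])) := by
        funext t
        simp only [hp2.mem_iff]
      rw [h1]
      exact (hp2.filter _).length_eq
    have g1 : 2 ≤ L₁.length := by
      obtain ⟨r, h1, h2⟩ := hN2.1
      simp only at h1 h2
      have key : ∀ r, r ∈ f :: (D ++ C) ++ [p e] → p r ∈ f :: (D ++ C) ++ [p e] → r ∈ L₁.map Prod.snd := by
        intro r h1 h2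
        rw [hfst] at h1
        rcases hsd.dc.mem1.1 h1 with h3 | h3
        · exfalso
          have h4 := hsd.dc.m1 r h3
          refine hdj (p r) (hp2.mem_iff.1 h2) ?_
          rw [hsnd]
          exact hsd.dc.mem2.2 (Or.inl h4)
        · exact h3
      have h3 := two_le_of_pair (p := p) (hw.ne r) (key r h1 h2) (key (p r) h2 (by rw [h]; exact h1))
      rwa [List.length_map] at h3
    have g2 : 2 ≤ L₂.length := by
      obtain ⟨r, h1, h2⟩ := hN2.2
      simp only at h1 h2
      have key : ∀ r, r ∈ e :: B → p r ∈ e :: B → r ∈ L₂.map Prod.snd := by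
        intro r h1 h2
        rw [hsnd] at h1
        rcases hsd.dc.mem2.1 h1 with h3 | h3
        · exfalso
          have h4 := hsd.dc.m2 r h3
          refine hdj (p r) (hp2.mem_iff.1 ?_) h2
          rw [hfst]
          exact hsd.dc.mem1.2 (Or.inl h4)
        · exact h3
      have h3 := two_le_of_pair (p := p) (hw.ne r) (key r h1 h2) (key (p r) h2 (by rw [h]; exact h1))
      rwa [List.length_map] at h3
    omega

end

/-! ## The bound -/

/-- the number of representatives. -/
def NRn (m : ℕ) : ℕ := 49 * m ^ 4 + 1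

/-- the cost to a representative. -/
def PRn (P : ℕ → ℕ) (m : ℕ) : ℕ := (15 * m + 20) * m + P m

/-- the bound for irreducible two sided states. -/
def FBn (P : ℕ → ℕ) (m : ℕ) : ℕ := BRn (NRn m) (PRn P m) m

section
variable {Ω : Type} [DecidableEq Ω] {p : Ω → Ω}

/-- REPSn with a finite type of labels. -/
theorem REPSn' [Fintype Ω] {h : ∀ t, p (p t) = t} {s₀ : St Ω} (hx₀ : XS p h s₀ s₀) (hall : ∀ t, t ∈ s₀.1 ++ s₀.2) {N0 P : ℕ}
    {ι : Type} [Fintype ι] (hN0 : 0 < N0) (hι : Fintype.card ι ≤ N0) (rep : ι → St Ω)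
    (hrep : ∀ x, XS p h s₀ x → ¬ PFs p x → ∃ (k : ι) (φ : Ω → ZMod 2), φ ∈ VS p h s₀ ∧ XS p h s₀ (rep k) ∧
      RTn p P x (rel (act (h := h) hx₀.wf φ) (rep k))) {a : ℕ} {t : St Ω} (hr : Reach p a s₀ t) :
    Rn p (N p) (BRn N0 P (s₀.1 ++ s₀.2).length) s₀ t := by
  classical
  let rep' : Fin N0 → St Ω := fun k => if hk : (k : ℕ) < Fintype.card ι then rep ((Fintype.equivFin ι).symm ⟨k, hk⟩) else s₀
  refine REPSn hx₀ hall hN0 rep' ?_ hr
  intro x hx hpf
  obtain ⟨k, φ, h1, h2, h3⟩ := hrep x hx hpf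
  have hk := (Fintype.equivFin ι k).2
  have e : rep' ⟨(Fintype.equivFin ι k).1, hk.trans_le hι⟩ = rep k := by
    simp [rep']
  exact ⟨⟨(Fintype.equivFin ι k).1, hk.trans_le hι⟩, φ, h1, by rw [e]; exact h2, by rw [e]; exact h3⟩

theorem bound_fulln [Fintype Ω] (hNF : NF4_stmt) {P : ℕ → ℕ} (hA : HA2 P) (h : ∀ t, p (p t) = t) {s₀ : St Ω} (hx₀ : XS p h s₀ s₀)
    (hall : ∀ t, t ∈ s₀.1 ++ s₀.2) {a : ℕ} {t : St Ω} (hr : Reach p a s₀ t) :
    Rn p (N p) (FBn P (s₀.1 ++ s₀.2).length) s₀ t := by
  set m := (s₀.1 ++ s₀.2).length with hm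
  have hcard : Fintype.card Ω = m := by
    rw [hm, ← List.toFinset_card_of_nodup hx₀.wf.nd, ← Finset.card_univ]
    congr 1
    ext t
    simpa using hall t
  have hNR : 0 < NRn m := Nat.succ_pos _
  obtain ⟨rep, hrep⟩ := reps_all4 hNF hx₀ hall
  have hι : Fintype.card (LbN Ω) ≤ NRn m := by
    have h2 : Fintype.card (LbN Ω) = (Fintype.card Ω * Fintype.card Ω) * ((Fintype.card Ω * Fintype.card Ω) * 49) := by
      show Fintype.card ((Ω × Ω) × (Ω × Ω) × Fin 49) = _
      rw [Fintype.card_prod (Ω × Ω) ((Ω × Ω) × Fin 49), Fintype.card_prod (Ω × Ω) (Fin 49), Fintype.card_prod Ω Ω, Fintype.card_fin]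
    rw [h2, hcard]
    unfold NRn
    nlinarith
  refine REPSn' (P := PRn P m) hx₀ hall hNR hι rep ?_ hr
  intro x hx hpf
  have hlen : (x.1 ++ x.2).length = m := hx.perm.length_eq
  obtain ⟨t1, hds, hrt1⟩ := AHP_DS x hx.wf hx.irr hx.n hpf
  rw [hlen] at hrt1
  have hx1 : XS p h s₀ t1 := hx.reach hrt1.1
  obtain ⟨e, A, B, hrt2, hnc, hrr⟩ := hA Ω p t1 hx1.wf hx1.irr hds
  rw [hx1.perm.length_eq] at hrt2
  have hx2 : XS p h s₀ (A ++ [p e], e :: B) := hx1.reachRn hrt2.1
  obtain ⟨f, L₁, L₂, A', B', hrt3, hsh, hl1, hl2⟩ := shape (h := h) hx2.wf hx2.n hnc hrr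
  have hx3 : XS p h s₀ (ww L₁ (f :: A'), ww L₂ (B' ++ [p f])) := hx2.reach hrt3.1
  obtain ⟨k, φ, h4, h5, h6⟩ := hrep e f L₁ L₂ A' B' hsh hl1 hl2 hx3
  refine ⟨k, φ, h4, h5, ?_⟩
  have h7 := ((hrt1.toRTn.trans hrt2).trans hrt3.toRTn).trans h6.toRTn
  exact h7

end

/-- THE BOUND FOR IRREDUCIBLE TWO SIDED STATES, run model. -/
theorem TBFn (hNF : NF4_stmt) {P : ℕ → ℕ} (hA : HA2 P) : TBn (FBn P) := by
  classical
  intro Ω p s t a hw hi hr
  let S : Set Ω := {x | x ∈ s.1 ++ s.2}
  have hS : S.Finite := List.finite_toSet _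
  haveI : Fintype S := hS.fintype
  let p' : S → S := fun x => ⟨p x.1, hw.cl x.1 x.2⟩
  have hp' : ∀ x : S, (p' x : Ω) = p x := fun _ => rfl
  have h' : ∀ x : S, p' (p' x) = x := fun x => Subtype.ext (hw.inv x.1)
  let s' : St S := (s.1.attachWith (fun x => x ∈ S) (fun x hx => List.mem_append_left _ hx), s.2.attachWith (fun x => x ∈ S) (fun x hx => List.mem_append_right _ hx))
  have hs' : s = vl s' := by
    simp only [s', vl]
    rw [List.attachWith_map_subtype_val, List.attachWith_map_subtype_val]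
  have hmem : ∀ x : S, x ∈ s'.1 ++ s'.2 := by
    intro x
    rcases List.mem_append.1 x.2 with h1 | h1
    · apply List.mem_append_left
      simp only [s', List.mem_attachWith]
      exact h1
    · apply List.mem_append_right
      simp only [s', List.mem_attachWith]
      exact h1
  have happ : (s'.1 ++ s'.2).map Subtype.val = s.1 ++ s.2 := by
    rw [List.map_append]
    conv_rhs => rw [hs']
    rfl
  have hw' : WF p' s' := by
    refine ⟨?_, fun x _ => hmem _, h', ?_⟩
    · have h1 := hw.nd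
      rw [← happ] at h1
      exact h1.of_map
    · intro x hx
      exact hw.ne x.1 (congrArg Subtype.val hx)
  have hi' : Irr p' s' := by
    intro U1 U2 V1 V2 he h1 h2 h3
    have h4 := hi (U1.map Subtype.val) (U2.map Subtype.val) (V1.map Subtype.val) (V2.map Subtype.val) (by
      rw [← List.map_append, ← List.map_append]
      conv_lhs => rw [hs', he]
      rfl) (fun h5 => h1 (List.map_eq_nil_iff.1 h5)) (fun h5 => h2 (List.map_eq_nil_iff.1 h5)) (by
      intro x hx
      rw [← List.map_append] at hx ⊢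
      obtain ⟨y, hy, rfl⟩ := List.mem_map.1 hx
      rw [← hp']
      exact List.mem_map_of_mem (h3 y hy))
    exact ⟨List.map_eq_nil_iff.1 h4.1, List.map_eq_nil_iff.1 h4.2⟩
  obtain ⟨t', ht', hr'⟩ := Reach.lift hp' hr s' hs'
  have hx₀ : XS p' h' s' s' := XS.refl hw' hi' hr'.left
  have h1 := bound_fulln hNF hA h' hx₀ hmem hr'
  have hlen : (s'.1 ++ s'.2).length = (s.1 ++ s.2).length := by
    rw [← happ, List.length_map]
  rw [hlen] at h1
  -- back to the tokens
  have trv : ∀ {x : S} {u v : St S}, Tr p' x u v → Tr p (x : Ω) (vl u) (vl v) := by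
    have key : ∀ {x : S} {u v : St S}, TrL p' x u v → TrL p (x : Ω) (vl u) (vl v) := by
      intro x u v hx
      cases hx with
      | mk y A B V =>
        simp only [vl, List.map_cons, List.map_append, hp']
        exact TrL.mk _ _ _ _
    intro x u v hx
    rcases hx with hx | hx
    · exact Or.inl (key hx)
    · exact Or.inr (key hx)
  have runv : ∀ {x : S} {u v : St S}, Run p' (N p') x u v → Run p (N p) (x : Ω) (vl u) (vl v) := by
    intro x u v hx
    induction hx with
    | one hs h ht => exact .one (hs.val hp') (trv h) (ht.val hp')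
    | cons hs h _ ih => exact .cons (hs.val hp') (trv h) ih
  have rnv : ∀ {c : ℕ} {u v : St S}, Rn p' (N p') c u v → Rn p (N p) c (vl u) (vl v) := by
    intro c u v hx
    induction hx with
    | refl c u h => exact .refl _ _ (h.val hp')
    | reg hs h _ ih =>
      refine .reg (hs.val hp') ?_ ih
      rcases h with h | h
      · exact Or.inl (h.val hp')
      · exact Or.inr (h.val hp')
    | run h _ ih => exact .run (runv h) ih
  have h2 := rnv h1
  rwa [← hs', ← ht'] at h2

end NTH
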